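import Pool.Agent.Lib.MP_95e9b3_coC.Rank
import Pool.Agent.Lib.MP_eace5d_co.Union

/-!
# JOB Bases: k disjoint sets of edges, each of them connecting everything together with `Z`

Uses the matroid partition theorem `Pool.Agent.Lib.MP_eace5d_co.partition` (file
`Pool/Agent/Lib/MP_eace5d_co/Union.lean`, structure `IsRank`).

Let `A = Zᶜ`, `r X = nc Z - nc (Z ∪ X)` (natural number subtraction of a larger number first:
`nc (Z ∪ X) ≤ nc Z`). By `nc_insert`, `nc_insert_of_Rch`, `r` satisfies `IsRank` (`cl`: if the ends
of `x` are connected in `Z ∪ A'` they are connected in `Z ∪ B'`). For `c : ℕ` the function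
`X ↦ min X.card c` satisfies `IsRank`.

COUNT: for all `X ⊆ A`: `k * (r A - r X) ≤ (A \ X).card`, i.e.
`k * (nc (Z ∪ X) - nc univ) ≤ (A \ X).card`. Proof: let `𝒬` be the set of the components
`cv (Z ∪ X) v`. For `Q ∈ 𝒬`: `Z ∩ cut Q = ∅`, so `(cut Q).card = 0` or `≥ 2k`, and
`cut Q ⊆ A \ X`. Every edge is in at most two of the cuts `cut Q`, `Q ∈ 𝒬` (the components of its
ends). So `2k * #{Q | cut Q ≠ ∅} ≤ 2 * (A \ X).card`. If `cut Q = ∅` then `Q` is a component of
`univ`. The map `Q ↦ (component of univ containing Q)` from `𝒬` to the `nc univ` components of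
`univ` is surjective, and every `Q` with `cut Q = ∅` is alone in its fibre; so
`𝒬.card ≤ nc univ + #{Q | cut Q ≠ ∅}`.

Matroid partition theorem on the ground set `A` with the `k + 1` rank functions: `r` (k times) and
`min X.card ((A.card - k * r A))`, index type `Option (Fin k)`. Hypothesis: for `X ⊆ A`:
`X.card ≤ k * r X + min X.card (A.card - k * r A)`, by COUNT (for `X = ∅` it also gives
`k * r A ≤ A.card`). We get a partition of `A` into `B i` (`i : Fin k`) with `r (B i) = (B i).card`
and a rest of at most `A.card - k * r A` elements. As `(B i).card = r (B i) ≤ r A`, we get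
`A.card ≤ ∑ i, (B i).card + (A.card - k * r A) ≤ A.card`, so `r (B i) = r A`, i.e.
`nc (Z ∪ B i) = nc (Z ∪ A) = nc univ`; use `Rch_of_nc_eq`.
(For `A = ∅` take all `B i = ∅`.)
-/

set_option autoImplicit false

namespace Pool.Agent.Lib.MP_95e9b3_coC

open Finset
open scoped symmDiff

namespace MG

variable {V W E : Type} [Fintype V] [DecidableEq V] [Fintype W] [DecidableEq W]
  [Fintype E] [DecidableEq E]

/-- the contracted rank function -/
private theorem bases_isRank (G : MG V E) (Z : Finset E) :
    Pool.Agent.Lib.MP_eace5d_co.IsRank (fun X : Finset E => G.nc Z - G.nc (Z ∪ X)) := by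
  have hle : ∀ X : Finset E, G.nc (Z ∪ X) ≤ G.nc Z := fun X =>
    G.nc_anti Z (Z ∪ X) Finset.subset_union_left
  refine ⟨?_, ?_, ?_, ?_⟩
  · simp
  · intro A x
    have h1 : G.nc (Z ∪ insert x A) ≤ G.nc (Z ∪ A) :=
      G.nc_anti _ _ (Finset.union_subset_union_right (Finset.subset_insert x A))
    show G.nc Z - G.nc (Z ∪ A) ≤ G.nc Z - G.nc (Z ∪ insert x A)
    omega
  · intro A x
    show G.nc Z - G.nc (Z ∪ insert x A) ≤ G.nc Z - G.nc (Z ∪ A) + 1
    rw [Finset.union_insert]
    by_cases hx : G.Rch (Z ∪ A) (G.s x) (G.t x)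
    · rw [G.nc_insert_of_Rch _ x hx]
      omega
    · have h1 := G.nc_insert _ x hx
      omega
  · intro A B x hAB he
    have he' : G.nc Z - G.nc (Z ∪ insert x A) = G.nc Z - G.nc (Z ∪ A) := he
    show G.nc Z - G.nc (Z ∪ insert x B) = G.nc Z - G.nc (Z ∪ B)
    have hx : G.Rch (Z ∪ A) (G.s x) (G.t x) := by
      by_contra hx
      have h1 := G.nc_insert _ x hx
      rw [← Finset.union_insert] at h1
      have h2 := hle A
      have h3 := hle (insert x A)
      omega
    have hx' : G.Rch (Z ∪ B) (G.s x) (G.t x) :=
      G.Rch_mono _ _ (Finset.union_subset_union_right hAB) _ _ hx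
    rw [Finset.union_insert, G.nc_insert_of_Rch _ x hx']

/-- the uniform rank function -/
private theorem bases_isRank_min (c : ℕ) :
    Pool.Agent.Lib.MP_eace5d_co.IsRank (fun X : Finset E => min X.card c) := by
  refine ⟨?_, ?_, ?_, ?_⟩
  · simp
  · intro A x
    show min A.card c ≤ min (insert x A).card c
    have h1 : A.card ≤ (insert x A).card := Finset.card_le_card (Finset.subset_insert x A)
    omega
  · intro A x
    show min (insert x A).card c ≤ min A.card c + 1
    have h1 : (insert x A).card ≤ A.card + 1 := Finset.card_insert_le x A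
    omega
  · intro A B x hAB he
    have he' : min (insert x A).card c = min A.card c := he
    show min (insert x B).card c = min B.card c
    by_cases hxA : x ∈ A
    · rw [Finset.insert_eq_of_mem (hAB hxA)]
    · rw [Finset.card_insert_of_notMem hxA] at he'
      have h1 : A.card ≤ B.card := Finset.card_le_card hAB
      have h2 : B.card ≤ (insert x B).card := Finset.card_le_card (Finset.subset_insert x B)
      omega

/-- counting of the components without cut edges -/
private theorem bases_count (G : MG V E) (k : ℕ) (Z : Finset E)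
    (h : ∀ U : Finset V, Z ∩ G.cut U = ∅ → (G.cut U).card = 0 ∨ 2 * k ≤ (G.cut U).card)
    (X : Finset E) : k * (G.nc (Z ∪ X) - G.nc Finset.univ) ≤ ((Z ∪ X)ᶜ).card := by
  classical
  set F : Finset E := Z ∪ X with hF
  set Q : Finset (Finset V) := Finset.univ.image (G.cv F) with hQ
  have hQmem : ∀ S ∈ Q, ∃ v, S = G.cv F v := by
    intro S hS
    obtain ⟨v, _, hv⟩ := Finset.mem_image.mp hS
    exact ⟨v, hv.symm⟩
  have hcutF : ∀ S ∈ Q, F ∩ G.cut S = ∅ := by
    intro S hS
    obtain ⟨v, rfl⟩ := hQmem S hS
    exact G.cv_cut F v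
  have hcutsub : ∀ S ∈ Q, G.cut S ⊆ Fᶜ := by
    intro S hS e he
    rw [Finset.mem_compl]
    intro heF
    have : e ∈ F ∩ G.cut S := Finset.mem_inter.mpr ⟨heF, he⟩
    rw [hcutF S hS] at this
    exact absurd this (Finset.notMem_empty e)
  have hcutcard : ∀ S ∈ Q, (G.cut S).card = 0 ∨ 2 * k ≤ (G.cut S).card := by
    intro S hS
    apply h
    have h1 : Z ∩ G.cut S ⊆ F ∩ G.cut S :=
      Finset.inter_subset_inter_right Finset.subset_union_left
    rw [hcutF S hS] at h1
    exact Finset.subset_empty.mp h1
  -- double counting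
  have hdc : ∑ S ∈ Q, (G.cut S).card ≤ 2 * (Fᶜ).card := by
    have h1 : ∀ S ∈ Q, (G.cut S).card = ∑ e ∈ Fᶜ, (if e ∈ G.cut S then 1 else 0) := by
      intro S hS
      rw [← Finset.sum_filter, ← Finset.card_eq_sum_ones]
      apply congrArg
      ext e
      rw [Finset.mem_filter]
      exact ⟨fun he => ⟨hcutsub S hS he, he⟩, fun he => he.2⟩
    rw [Finset.sum_congr rfl h1, Finset.sum_comm]
    have h2 : ∀ e ∈ Fᶜ, (∑ S ∈ Q, (if e ∈ G.cut S then 1 else 0)) ≤ 2 := by
      intro e _
      rw [← Finset.sum_filter, ← Finset.card_eq_sum_ones]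
      have h3 : Q.filter (fun S => e ∈ G.cut S) ⊆ {G.cv F (G.s e), G.cv F (G.t e)} := by
        intro S hS
        rw [Finset.mem_filter] at hS
        obtain ⟨hSQ, hSe⟩ := hS
        obtain ⟨v, rfl⟩ := hQmem S hSQ
        rw [mem_cut] at hSe
        rw [Finset.mem_insert, Finset.mem_singleton]
        by_cases hs : G.s e ∈ G.cv F v
        · left
          rw [mem_cv] at hs
          exact (G.cv_eq F v (G.s e)).mpr hs
        · right
          have ht : G.t e ∈ G.cv F v := by
            by_contra ht
            exact hSe ⟨fun h' => absurd h' hs, fun h' => absurd h' ht⟩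
          rw [mem_cv] at ht
          exact (G.cv_eq F v (G.t e)).mpr ht
      exact (Finset.card_le_card h3).trans Finset.card_le_two
    calc ∑ e ∈ Fᶜ, ∑ S ∈ Q, (if e ∈ G.cut S then 1 else 0) ≤ ∑ e ∈ Fᶜ, 2 :=
          Finset.sum_le_sum h2
      _ = 2 * (Fᶜ).card := by rw [Finset.sum_const, smul_eq_mul, Nat.mul_comm]
  -- components with cut edges
  have hN : k * (Q.filter (fun S => ¬ (G.cut S).card = 0)).card ≤ (Fᶜ).card := by
    have h1 : ∑ S ∈ Q.filter (fun S => ¬ (G.cut S).card = 0), 2 * k ≤ ∑ S ∈ Q, (G.cut S).card := by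
      refine le_trans (Finset.sum_le_sum (fun S hS => ?_))
        (Finset.sum_le_sum_of_subset (Finset.filter_subset _ _))
      rw [Finset.mem_filter] at hS
      exact (hcutcard S hS.1).resolve_left hS.2
    rw [Finset.sum_const, smul_eq_mul] at h1
    have h2 : 2 * (k * (Q.filter (fun S => ¬ (G.cut S).card = 0)).card) ≤ 2 * (Fᶜ).card := by
      calc 2 * (k * (Q.filter (fun S => ¬ (G.cut S).card = 0)).card)
          = (Q.filter (fun S => ¬ (G.cut S).card = 0)).card * (2 * k) := by ring
        _ ≤ 2 * (Fᶜ).card := h1.trans hdc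
    omega
  -- components without cut edges
  have h0 : (Q.filter (fun S => (G.cut S).card = 0)).card ≤ G.nc Finset.univ := by
    have h1 : Q.filter (fun S => (G.cut S).card = 0) ⊆
        (Finset.univ : Finset V).image (G.cv (Finset.univ : Finset E)) := by
      intro S hS
      rw [Finset.mem_filter] at hS
      obtain ⟨hSQ, hS0⟩ := hS
      obtain ⟨v, rfl⟩ := hQmem S hSQ
      rw [Finset.mem_image]
      refine ⟨v, Finset.mem_univ v, ?_⟩
      ext u
      rw [mem_cv, mem_cv]
      constructor
      · intro hu
        have h2 : (Finset.univ : Finset E) ∩ G.cut (G.cv F v) = ∅ := by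
          rw [Finset.card_eq_zero.mp hS0, Finset.inter_empty]
        have h3 := G.closed_Rch Finset.univ (G.cv F v) h2 v u
          ((G.mem_cv F v v).mpr (G.Rch_refl F v)) hu
        exact (G.mem_cv F v u).mp h3
      · intro hu
        exact G.Rch_mono F Finset.univ (Finset.subset_univ F) v u hu
    exact Finset.card_le_card h1
  have hsplit : (Q.filter (fun S => (G.cut S).card = 0)).card +
      (Q.filter (fun S => ¬ (G.cut S).card = 0)).card = Q.card :=
    Finset.card_filter_add_card_filter_not _
  have hnc : G.nc F = Q.card := rfl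
  have h5 : G.nc F - G.nc Finset.univ ≤ (Q.filter (fun S => ¬ (G.cut S).card = 0)).card := by
    omega
  exact (Nat.mul_le_mul_left k h5).trans hN

theorem bases (G : MG V E) (k : ℕ) (Z : Finset E)
    (h : ∀ U : Finset V, Z ∩ G.cut U = ∅ → (G.cut U).card = 0 ∨ 2 * k ≤ (G.cut U).card) :
    ∃ B : Fin k → Finset E, (∀ i, Disjoint (B i) Z) ∧ (∀ i j, i ≠ j → Disjoint (B i) (B j)) ∧
      ∀ i a b, G.Rch Finset.univ a b → G.Rch (B i ∪ Z) a b := by
  classical
  set r : Finset E → ℕ := fun X => G.nc Z - G.nc (Z ∪ X) with hr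
  set A : Finset E := Zᶜ with hA
  have hZA : Z ∪ A = Finset.univ := by rw [hA, Finset.union_compl]
  have hle : ∀ X : Finset E, G.nc (Z ∪ X) ≤ G.nc Z := fun X =>
    G.nc_anti Z (Z ∪ X) Finset.subset_union_left
  have hle' : ∀ X : Finset E, G.nc Finset.univ ≤ G.nc (Z ∪ X) := fun X =>
    G.nc_anti _ _ (Finset.subset_univ _)
  have hrank := G.bases_isRank Z
  have hrA : r A = G.nc Z - G.nc Finset.univ := by
    show G.nc Z - G.nc (Z ∪ A) = _
    rw [hZA]
  -- the count
  have hcount : ∀ X ⊆ A, k * r A - k * r X ≤ A.card - X.card := by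
    intro X hX
    have h1 := G.bases_count k Z h X
    have h2 : ((Z ∪ X)ᶜ).card = A.card - X.card := by
      rw [← Finset.card_sdiff_of_subset hX, hA]
      apply congrArg
      ext e
      simp only [Finset.mem_compl, Finset.mem_union, Finset.mem_sdiff, not_or]
    have h3 : r A - r X = G.nc (Z ∪ X) - G.nc Finset.univ := by
      rw [hrA]
      show G.nc Z - G.nc Finset.univ - (G.nc Z - G.nc (Z ∪ X)) = _
      have h4 := hle X
      have h5 := hle' X
      omega
    rw [← Nat.mul_sub, h3, ← h2]
    exact h1
  have hcA : k * r A ≤ A.card := by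
    have h1 := hcount ∅ (Finset.empty_subset A)
    have h2 : r ∅ = 0 := hrank.empty
    rw [h2] at h1
    simpa using h1
  set c : ℕ := A.card - k * r A with hc
  have hpart := Pool.Agent.Lib.MP_eace5d_co.partition (κ := Option (Fin k)) A.card A rfl
    (fun j => Option.elim j (fun X : Finset E => min X.card c) (fun _ => r))
    (by
      intro j
      cases j with
      | none => exact bases_isRank_min c
      | some i => exact hrank)
    (by
      intro X hX
      rw [Fintype.sum_option]
      show X.card ≤ min X.card c + ∑ _i : Fin k, r X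
      rw [Finset.sum_const, Finset.card_univ, Fintype.card_fin, smul_eq_mul]
      have h1 := hcount X hX
      have h2 : X.card ≤ A.card := Finset.card_le_card hX
      have h3 : k * r X ≤ k * r A := Nat.mul_le_mul_left k (hrank.mono hX)
      omega)
    (fun _ => ⟨none⟩)
  obtain ⟨col, hcol1, hcol2⟩ := hpart
  have hB : ∀ i : Fin k, r (A.filter (fun x => col x = some (some i))) =
      (A.filter (fun x => col x = some (some i))).card := fun i => hcol2 (some i)
  have hR : (A.filter (fun x => col x = some none)).card ≤ c := by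
    have h1 : min (A.filter (fun x => col x = some none)).card c =
      (A.filter (fun x => col x = some none)).card := hcol2 none
    omega
  have hsum : A.card ≤ (A.filter (fun x => col x = some none)).card +
      ∑ i : Fin k, (A.filter (fun x => col x = some (some i))).card := by
    have h1 : A ⊆ Finset.univ.biUnion
        (fun j : Option (Fin k) => A.filter (fun x => col x = some j)) := by
      intro x hx
      rw [Finset.mem_biUnion]
      obtain ⟨j, hj⟩ := Option.isSome_iff_exists.mp (hcol1 x hx)
      exact ⟨j, Finset.mem_univ j, Finset.mem_filter.mpr ⟨hx, hj⟩⟩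
    have h2 := (Finset.card_le_card h1).trans Finset.card_biUnion_le
    rwa [Fintype.sum_option] at h2
  have hle3 : ∀ i ∈ (Finset.univ : Finset (Fin k)),
      r (A.filter (fun x => col x = some (some i))) ≤ r A :=
    fun i _ => hrank.mono (Finset.filter_subset _ _)
  have heq : ∀ i ∈ (Finset.univ : Finset (Fin k)),
      r (A.filter (fun x => col x = some (some i))) = r A := by
    rw [← Finset.sum_eq_sum_iff_of_le hle3]
    apply le_antisymm (Finset.sum_le_sum hle3)
    rw [Finset.sum_const, Finset.card_univ, Fintype.card_fin, smul_eq_mul,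
      Finset.sum_congr rfl (fun i _ => hB i)]
    omega
  refine ⟨fun i => A.filter (fun x => col x = some (some i)), ?_, ?_, ?_⟩
  · intro i
    rw [Finset.disjoint_left]
    intro x hx
    have h1 := (Finset.mem_filter.mp hx).1
    rwa [hA, Finset.mem_compl] at h1
  · intro i j hij
    rw [Finset.disjoint_left]
    intro x hx hx'
    have h1 := (Finset.mem_filter.mp hx).2
    have h2 := (Finset.mem_filter.mp hx').2
    rw [h1] at h2
    exact hij (Option.some.inj (Option.some.inj h2))
  · intro i a b hab
    refine G.Rch_of_nc_eq _ Finset.univ (Finset.subset_univ _) ?_ a b hab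
    have h1 : G.nc Z - G.nc (Z ∪ A.filter (fun x => col x = some (some i))) =
        G.nc Z - G.nc Finset.univ := by
      rw [← hrA]
      exact heq i (Finset.mem_univ i)
    show G.nc Finset.univ = G.nc (A.filter (fun x => col x = some (some i)) ∪ Z)
    rw [Finset.union_comm]
    have h2 := hle (A.filter (fun x => col x = some (some i)))
    have h3 := hle' (A.filter (fun x => col x = some (some i)))
    omega

end MG

end Pool.Agent.Lib.MP_95e9b3_coC
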