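import Pool.Agent.Lib.MP_95e9b3_coC.Defs

/-!
# Degrees, cuts, parity
-/

set_option autoImplicit false

namespace Pool.Agent.Lib.MP_95e9b3_coC

open Finset
open scoped symmDiff

namespace MG

variable {V W E : Type} [Fintype V] [DecidableEq V] [Fintype W] [DecidableEq W]
  [Fintype E] [DecidableEq E]

theorem mem_cut (G : MG V E) (U : Finset V) (e : E) :
    e ∈ G.cut U ↔ ¬ (G.s e ∈ U ↔ G.t e ∈ U) := by
  simp only [cut, Finset.mem_filter, Finset.mem_univ, true_and]

theorem dg_empty (G : MG V E) (v : V) : G.dg ∅ v = 0 := by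
  simp [dg]

theorem dg_union (G : MG V E) (A B : Finset E) (h : Disjoint A B) (v : V) :
    G.dg (A ∪ B) v = G.dg A v + G.dg B v := by
  unfold dg
  exact Finset.sum_union h

theorem dg_mono (G : MG V E) (A B : Finset E) (h : A ⊆ B) (v : V) : G.dg A v ≤ G.dg B v := by
  unfold dg
  exact Finset.sum_le_sum_of_subset h

theorem dg_sdiff (G : MG V E) (A B : Finset E) (h : A ⊆ B) (v : V) :
    G.dg (B \ A) v + G.dg A v = G.dg B v := by
  unfold dg
  exact Finset.sum_sdiff h

theorem dg_symm (G : MG V E) (A B : Finset E) (v : V) :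
    G.dg (A ∆ B) v + 2 * G.dg (A ∩ B) v = G.dg A v + G.dg B v := by
  have h1 : Disjoint (A \ B) (B \ A) := by
    rw [Finset.disjoint_left]
    intro e h1 h2
    rw [Finset.mem_sdiff] at h1 h2
    exact h1.2 h2.1
  have h2 : A ∆ B = (A \ B) ∪ (B \ A) := rfl
  have h3 : G.dg (A \ B) v + G.dg (A ∩ B) v = G.dg A v := by
    have h := G.dg_sdiff (A ∩ B) A Finset.inter_subset_left v
    rwa [Finset.sdiff_inter_self_left] at h
  have h4 : G.dg (B \ A) v + G.dg (A ∩ B) v = G.dg B v := by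
    have h := G.dg_sdiff (A ∩ B) B Finset.inter_subset_right v
    rwa [Finset.sdiff_inter_self_right] at h
  rw [h2, dg_union G _ _ h1]
  omega

theorem sum_dg (G : MG V E) (J : Finset E) (U : Finset V) :
    ∑ v ∈ U, G.dg J v =
      2 * (J.filter (fun e => G.s e ∈ U ∧ G.t e ∈ U)).card + (J ∩ G.cut U).card := by
  unfold dg
  rw [Finset.sum_comm]
  have h : ∀ e, (∑ v ∈ U, G.inc e v) = 2 * (if (G.s e ∈ U ∧ G.t e ∈ U) then 1 else 0) +
      (if e ∈ G.cut U then 1 else 0) := by
    intro e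
    unfold inc
    rw [Finset.sum_add_distrib, Finset.sum_ite_eq, Finset.sum_ite_eq]
    by_cases h1 : G.s e ∈ U <;> by_cases h2 : G.t e ∈ U <;> simp [h1, h2, mem_cut]
  rw [Finset.sum_congr rfl fun e _ => h e, Finset.sum_add_distrib, ← Finset.mul_sum,
    Finset.sum_boole, Finset.sum_boole, Finset.filter_mem_eq_inter]
  rfl

theorem sum_dg_univ (G : MG V E) (J : Finset E) : ∑ v, G.dg J v = 2 * J.card := by
  have h := G.sum_dg J Finset.univ
  have h1 : G.cut Finset.univ = ∅ := by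
    ext e
    simp [mem_cut]
  rw [h, h1]
  simp

theorem Ev_iff_Sim (G : MG V E) (J : Finset E) : G.Ev J ↔ G.Sim J ∅ := by
  unfold Ev Sim
  refine forall_congr' fun v => ?_
  rw [dg_empty, Nat.zero_mod, Nat.even_iff]

theorem Ev_empty (G : MG V E) : G.Ev ∅ := by
  intro v
  rw [dg_empty]
  exact Even.zero

theorem Sim_iff (G : MG V E) (J J' : Finset E) : G.Sim J J' ↔ G.Ev (J ∆ J') := by
  unfold Sim Ev
  refine forall_congr' fun v => ?_
  have h := G.dg_symm J J' v
  rw [Nat.even_iff]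
  omega

theorem Ev_symm (G : MG V E) (A B : Finset E) (hA : G.Ev A) (hB : G.Ev B) : G.Ev (A ∆ B) := by
  intro v
  have h := G.dg_symm A B v
  have h1 := hA v
  have h2 := hB v
  rw [Nat.even_iff] at h1 h2 ⊢
  omega

theorem Sim_refl (G : MG V E) (J : Finset E) : G.Sim J J := by
  exact fun _ => rfl

theorem Sim_symm (G : MG V E) (J J' : Finset E) (h : G.Sim J J') : G.Sim J' J := by
  exact fun v => (h v).symm

theorem Sim_trans (G : MG V E) (J J' J'' : Finset E) (h : G.Sim J J') (h' : G.Sim J' J'') :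
    G.Sim J J'' := by
  exact fun v => (h v).trans (h' v)

/-- adding an even set does not change the parities -/
theorem Sim_symmDiff (G : MG V E) (J J' C : Finset E) (h : G.Sim J J') (hC : G.Ev C) :
    G.Sim (J ∆ C) J' := by
  intro v
  have h1 := G.dg_symm J C v
  have h2 := h v
  have h3 := hC v
  rw [Nat.even_iff] at h3
  omega

/-- removing an even subset -/
theorem Ev_sdiff (G : MG V E) (A B : Finset E) (h : A ⊆ B) (hA : G.Ev A) (hB : G.Ev B) :
    G.Ev (B \ A) := by
  intro v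
  have h1 := G.dg_sdiff A B h v
  have h2 := hA v
  have h3 := hB v
  rw [Nat.even_iff] at h2 h3 ⊢
  omega

theorem Ev_union (G : MG V E) (A B : Finset E) (h : Disjoint A B) (hA : G.Ev A) (hB : G.Ev B) :
    G.Ev (A ∪ B) := by
  intro v
  rw [dg_union G A B h]
  exact (hA v).add (hB v)

theorem Ev_cut (G : MG V E) (C : Finset E) (hC : G.Ev C) (U : Finset V) :
    Even (C ∩ G.cut U).card := by
  have h1 := G.sum_dg C U
  have h2 : Even (∑ v ∈ U, G.dg C v) := Finset.even_sum _ fun v _ => hC v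
  rw [Nat.even_iff] at h2 ⊢
  omega

theorem Sim_cut (G : MG V E) (J J' : Finset E) (h : G.Sim J J') (U : Finset V) :
    (J ∩ G.cut U).card % 2 = (J' ∩ G.cut U).card % 2 := by
  have h1 := G.Ev_cut (J ∆ J') ((G.Sim_iff J J').1 h) U
  have h2 : (J ∆ J') ∩ G.cut U = (J ∩ G.cut U) ∆ (J' ∩ G.cut U) :=
    inf_symmDiff_distrib_right J J' (G.cut U)
  rw [h2] at h1
  have h3 : Disjoint ((J ∩ G.cut U) \ (J' ∩ G.cut U)) ((J' ∩ G.cut U) \ (J ∩ G.cut U)) := by
    rw [Finset.disjoint_left]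
    intro e h1 h2
    rw [Finset.mem_sdiff] at h1 h2
    exact h1.2 h2.1
  have h4 : ((J ∩ G.cut U) ∆ (J' ∩ G.cut U)).card =
      ((J ∩ G.cut U) \ (J' ∩ G.cut U)).card + ((J' ∩ G.cut U) \ (J ∩ G.cut U)).card :=
    Finset.card_union_of_disjoint h3
  have h5 := Finset.card_sdiff_add_card_inter (J ∩ G.cut U) (J' ∩ G.cut U)
  have h6 := Finset.card_sdiff_add_card_inter (J' ∩ G.cut U) (J ∩ G.cut U)
  rw [Finset.inter_comm (J' ∩ G.cut U) (J ∩ G.cut U)] at h6
  rw [Nat.even_iff] at h1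
  omega

theorem cut_symm (G : MG V E) (U W' : Finset V) : G.cut (U ∆ W') = G.cut U ∆ G.cut W' := by
  ext e
  rw [Finset.mem_symmDiff, mem_cut, mem_cut, mem_cut, Finset.mem_symmDiff, Finset.mem_symmDiff]
  tauto

theorem cut_compl (G : MG V E) (U : Finset V) : G.cut Uᶜ = G.cut U := by
  ext e
  rw [mem_cut, mem_cut, Finset.mem_compl, Finset.mem_compl]
  tauto

/-- degree at `v` = edges of the cut `{v}` plus twice the loops at `v` -/
theorem dg_eq (G : MG V E) (J : Finset E) (v : V) :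
    G.dg J v = (J ∩ G.cut {v}).card + 2 * (J.filter (fun e => G.s e = v ∧ G.t e = v)).card := by
  have h := G.sum_dg J {v}
  rw [Finset.sum_singleton] at h
  simp only [Finset.mem_singleton] at h
  rw [h]
  omega

theorem inc_Jn (G : MG V E) (e : E) (a b : V) (h : G.Jn e a b) (v : V) :
    G.inc e v = (if v = a then 1 else 0) + (if v = b then 1 else 0) := by
  unfold inc
  rcases h with ⟨h1, h2⟩ | ⟨h1, h2⟩
  · rw [h1, h2]
    simp only [eq_comm]
  · rw [h1, h2, add_comm]
    simp only [eq_comm]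

/-- cuts of a contracted graph -/
theorem cut_mp (G : MG V E) (f : V → W) (U : Finset W) :
    (G.mp f).cut U = G.cut (Finset.univ.filter (fun v => f v ∈ U)) := by
  ext e
  rw [mem_cut, mem_cut]
  simp [mp]

theorem dg_mp (G : MG V E) (f : V → W) (J : Finset E) (y : W) :
    (G.mp f).dg J y = ∑ v ∈ Finset.univ.filter (fun v => f v = y), G.dg J v := by
  unfold dg
  rw [Finset.sum_comm]
  refine Finset.sum_congr rfl fun e _ => ?_
  unfold inc mp
  rw [Finset.sum_add_distrib, Finset.sum_ite_eq, Finset.sum_ite_eq]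
  simp

theorem Ev_mp (G : MG V E) (f : V → W) (J : Finset E) (h : G.Ev J) : (G.mp f).Ev J := by
  intro y
  rw [dg_mp]
  exact Finset.even_sum _ fun v _ => h v

end MG

end Pool.Agent.Lib.MP_95e9b3_coC
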