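import Pool.Agent.Lib.MP_95e9b3_coC.Reach

/-!
# JOB CI: pairing of the edges in small odd cuts, and the counting inequality

`L` even, `J ⊆ L`, `S = So L J` (edges `e ∈ L` in a cut `D = cut U` with `|J ∩ D|` odd, `|L ∩ D| = 2`).

CONSTRUCTION. Let `Tr ⊆ L` be a maximal subset of `L` without nonempty even subset; `|Tr| ≤ |V|`
(`acyc_card`). For `e ∈ L \ Tr` there is, by maximality, an even set `Z e ⊆ insert e Tr` with
`e ∈ Z e`. For `e ∈ S \ Tr` choose `U e` with `L ∩ cut (U e) = {e, f e}`, `f e ≠ e`,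
`|J ∩ cut (U e)|` odd. `|Z e ∩ cut (U e)|` is even and contains `e`, so `f e ∈ Z e`, `f e ∈ Tr`,
`f e ∈ S`. `f` is injective on `S \ Tr`: if `f e = f e'`, `e ≠ e'`, then
`L ∩ cut (U e ∆ U e') = {e, e'}` (`cut_symm`), and `Z e` contains `e`, not `e'` (`e' ∉ Tr`): odd.
`D = (S \ Tr) ∪ f '' (S \ Tr)`, and `π` exchanges `e` and `f e`. `J ∩ cut (U e)` is odd and contained in
`{e, f e}`, so exactly one of `e, f e` is in `J`. `|D| = 2 |S \ Tr| ≥ 2 |S| - 2 |V|`: (count).

`L' = L \ D`. FACT 1: for `e ∈ S \ Tr`: `Z e \ {e, f e} ⊆ L'` (`Z e` has no other element outside `Tr`;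
if `f e' ∈ Z e`, `e' ≠ e`, then `Z e ∩ cut (U e') = {f e'}`, as `e' ∉ Z e`, odd). Hence: if
`L' ∩ cut R = ∅` then `e ∈ cut R ↔ f e ∈ cut R` (`|Z e ∩ cut R|` is even).
FACT 2: for `e ∈ D` the ends of `e` are not connected in `L'`: otherwise (`Rch_join`) there is
`Q ⊆ L'` with `insert e Q` even, which meets the cut `cut (U e)` (or `cut (U (π e))`) in `{e}` only.

(parallel) Let `e ∈ D` join `a, b`, with no edge of `L'` at `a` or `b`. `a ≠ b` by FACT 2. Let
`Z = Z e` (or `Z (π e)`), which contains `e` and `π e`, the rest being in `L'`. `dg Z a` is even, only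
`e` and `π e` can have ends at `a`: so `π e` has an end at `a`, and also at `b`.

(mis) Let `mis v` mean `(dg L v / 2) % 2 ≠ dg J v % 2`. Let `R = cv L' a` be a component of `L'`.
By `sum_dg` and FACT 2 (no edge of `D` has both ends in `R`; an edge of `L'` with one end in `R` has both)
`∑ v ∈ R, dg L v = 2 * (ce L' a).card + (L ∩ cut R).card`, and `L ∩ cut R ⊆ D` is a union of pairs
`{e, π e}`, with exactly one element of `J` in each: `(L ∩ cut R).card = 2 * (J ∩ cut R).card`. So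
`∑ v ∈ R, dg L v / 2 = (ce L' a).card + (J ∩ cut R).card ≡ (ce L' a).card + ∑ v ∈ R, dg J v (mod 2)`.
So the number of `v ∈ R` with `mis v` has the parity of `(ce L' a).card`; it is at most
`R.card ≤ (ce L' a).card + 1` (`cv_card_le`), so it is at most `(ce L' a).card`. Sum over the
components of `L'` (the sets `ce L' a` of different components are disjoint subsets of `L'`).
-/

set_option autoImplicit false

namespace Pool.Agent.Lib.MP_95e9b3_coC

open Finset
open scoped symmDiff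

namespace MG

variable {V W E : Type} [Fintype V] [DecidableEq V] [Fintype W] [DecidableEq W]
  [Fintype E] [DecidableEq E]

omit [Fintype E] in
/-- parity -/
private theorem CI_two {A C : Finset E} {e f : E} (h : Even (A ∩ C).card)
    (hs : ∀ x ∈ A, x ∈ C → x = e ∨ x = f) (he : e ∈ A) (heC : e ∈ C) : f ∈ A := by
  by_contra hf
  have h1 : A ∩ C = {e} := by
    ext x
    rw [mem_inter, mem_singleton]
    constructor
    · rintro ⟨hx, hxC⟩
      rcases hs x hx hxC with h2 | h2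
      · exact h2
      · rw [h2] at hx
        exact absurd hx hf
    · intro hx
      rw [hx]
      exact ⟨he, heC⟩
  rw [h1, card_singleton] at h
  exact Nat.not_even_one h

/-- small odd cut with the edges `e`, `f` of `L` -/
private def CI_P (H : MG V E) (L J : Finset E) (e f : E) : Prop :=
  e ≠ f ∧ ∃ U, Odd (J ∩ H.cut U).card ∧ L ∩ H.cut U = {e, f}

private theorem CI_So (H : MG V E) (L J : Finset E) {e : E} (he : e ∈ H.So L J) :
    e ∈ L ∧ ∃ f, CI_P H L J e f := by
  classical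
  unfold So at he
  rw [mem_filter] at he
  obtain ⟨heL, U, hodd, hcard, heU⟩ := he
  refine ⟨heL, ?_⟩
  obtain ⟨x, y, hxy, hs⟩ := card_eq_two.1 hcard
  have h1 : e ∈ ({x, y} : Finset E) := by
    rw [← hs, mem_inter]
    exact ⟨heL, heU⟩
  rw [mem_insert, mem_singleton] at h1
  rcases h1 with h1 | h1
  · exact ⟨y, by rw [h1]; exact hxy, U, hodd, by rw [h1]; exact hs⟩
  · exact ⟨x, by rw [h1]; exact hxy.symm, U, hodd, by rw [h1, hs, pair_comm]⟩

private theorem CI_So' (H : MG V E) (L J : Finset E) {e f : E} (h : CI_P H L J e f) :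
    e ∈ H.So L J ∧ f ∈ H.So L J := by
  classical
  obtain ⟨hne, U, hodd, hs⟩ := h
  have he : e ∈ L ∩ H.cut U := by
    rw [hs]
    exact mem_insert_self _ _
  have hf : f ∈ L ∩ H.cut U := by
    rw [hs]
    exact mem_insert_of_mem (mem_singleton_self _)
  have hc : (L ∩ H.cut U).card = 2 := by
    rw [hs]
    exact card_pair hne
  rw [mem_inter] at he hf
  unfold So
  rw [mem_filter, mem_filter]
  exact ⟨⟨he.1, U, hodd, hc, he.2⟩, ⟨hf.1, U, hodd, hc, hf.2⟩⟩

private theorem CI_J (H : MG V E) (L J : Finset E) (hJ : J ⊆ L) {e f : E}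
    (h : CI_P H L J e f) : e ∈ J ↔ f ∉ J := by
  obtain ⟨hne, U, hodd, hs⟩ := h
  have he : e ∈ L ∩ H.cut U := by
    rw [hs]
    exact mem_insert_self _ _
  have hf : f ∈ L ∩ H.cut U := by
    rw [hs]
    exact mem_insert_of_mem (mem_singleton_self _)
  rw [mem_inter] at he hf
  have hsub : ∀ x ∈ J, x ∈ H.cut U → x = e ∨ x = f := by
    intro x hx hxU
    have h1 : x ∈ L ∩ H.cut U := mem_inter.2 ⟨hJ hx, hxU⟩
    rw [hs, mem_insert, mem_singleton] at h1
    exact h1
  constructor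
  · intro heJ hfJ
    have h1 : J ∩ H.cut U = {e, f} := by
      ext x
      rw [mem_inter, mem_insert, mem_singleton]
      constructor
      · rintro ⟨h2, h3⟩
        exact hsub x h2 h3
      · rintro (h2 | h2)
        · rw [h2]
          exact ⟨heJ, he.2⟩
        · rw [h2]
          exact ⟨hfJ, hf.2⟩
    rw [h1, card_pair hne] at hodd
    exact absurd hodd (by decide)
  · intro hfJ
    by_contra heJ
    have h1 : J ∩ H.cut U = ∅ := by
      rw [eq_empty_iff_forall_notMem]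
      intro x hx
      rw [mem_inter] at hx
      rcases hsub x hx.1 hx.2 with h2 | h2
      · rw [h2] at hx
        exact heJ hx.1
      · rw [h2] at hx
        exact hfJ hx.1
    rw [h1, card_empty] at hodd
    exact absurd hodd (by decide)

/-- a maximal acyclic subset -/
private theorem CI_tree (H : MG V E) (L : Finset E) :
    ∃ Tr ⊆ L, (∀ C ⊆ Tr, H.Ev C → C = ∅) ∧
      ∀ e ∈ L, e ∉ Tr → ∃ Z, H.Ev Z ∧ e ∈ Z ∧ Z ⊆ insert e Tr := by
  classical
  obtain ⟨Tr, hTr, hmax⟩ := Finset.exists_max_image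
    (L.powerset.filter fun T => ∀ C ⊆ T, H.Ev C → C = ∅) (fun T => T.card)
    ⟨∅, by
      rw [mem_filter]
      exact ⟨empty_mem_powerset _, fun C hC _ => subset_empty.1 hC⟩⟩
  rw [mem_filter, mem_powerset] at hTr
  refine ⟨Tr, hTr.1, hTr.2, fun e heL he => ?_⟩
  by_contra hcon
  push Not at hcon
  have h1 : insert e Tr ∈ L.powerset.filter fun T => ∀ C ⊆ T, H.Ev C → C = ∅ := by
    rw [mem_filter, mem_powerset]
    refine ⟨insert_subset heL hTr.1, fun C hC hev => ?_⟩
    by_cases heC : e ∈ C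
    · exact absurd hC (hcon C hev heC)
    · exact hTr.2 C ((subset_insert_iff_of_notMem heC).1 hC) hev
  have h2 := hmax _ h1
  rw [card_insert_of_notMem he] at h2
  omega

/-- first part: the pairing -/
theorem CI_pair (H : MG V E) (L J : Finset E) (hJ : J ⊆ L) (hL : H.Ev L) :
    ∃ (D : Finset E) (π : E → E), D ⊆ H.So L J ∧
      (∀ e ∈ D, π e ∈ D ∧ π (π e) = e ∧ π e ≠ e ∧ (e ∈ J ↔ π e ∉ J)) ∧
      (L \ D).card + 2 * (H.So L J).card ≤ L.card + 2 * Fintype.card V ∧
      (∀ e ∈ D, ∃ Z : Finset E, H.Ev Z ∧ e ∈ Z ∧ π e ∈ Z ∧ Z \ {e, π e} ⊆ L \ D) ∧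
      (∀ e ∈ D, ¬ H.Rch (L \ D) (H.s e) (H.t e)) := by
  classical
  obtain ⟨Tr, hTrL, hac, hZ0⟩ := CI_tree H L
  have hcT : Tr.card ≤ Fintype.card V := H.acyc_card Tr hac
  have hSL : H.So L J ⊆ L := fun e he => (CI_So H L J he).1
  obtain ⟨S1, hS1⟩ : ∃ S1, S1 = H.So L J \ Tr := ⟨_, rfl⟩
  have mS1 : ∀ e, e ∈ S1 ↔ e ∈ H.So L J ∧ e ∉ Tr := by
    intro e
    rw [hS1, mem_sdiff]
  have hZ1 : ∀ e, ∃ Z : Finset E, e ∈ S1 → H.Ev Z ∧ e ∈ Z ∧ Z ⊆ insert e Tr := by
    intro e
    by_cases he : e ∈ S1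
    · obtain ⟨Z, hZ⟩ := hZ0 e (hSL ((mS1 e).1 he).1) ((mS1 e).1 he).2
      exact ⟨Z, fun _ => hZ⟩
    · exact ⟨∅, fun h => absurd h he⟩
  choose Z hZ using hZ1
  have hf1 : ∀ e, ∃ f : E, e ∈ S1 → CI_P H L J e f := by
    intro e
    by_cases he : e ∈ S1
    · obtain ⟨f, hf⟩ := (CI_So H L J ((mS1 e).1 he).1).2
      exact ⟨f, fun _ => hf⟩
    · exact ⟨e, fun h => absurd h he⟩
  choose f hf using hf1
  -- the elements of `Z e` in the cut of `e'`
  have hZL : ∀ e ∈ S1, Z e ⊆ L := fun e he =>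
    (hZ e he).2.2.trans (insert_subset (hSL ((mS1 e).1 he).1) hTrL)
  have hfZ : ∀ e ∈ S1, f e ∈ Z e := by
    intro e he
    obtain ⟨hne, U, hodd, hs⟩ := hf e he
    refine CI_two (H.Ev_cut (Z e) (hZ e he).1 U) (fun x hx hxU => ?_) (hZ e he).2.1 ?_
    · have h1 : x ∈ L ∩ H.cut U := mem_inter.2 ⟨hZL e he hx, hxU⟩
      rw [hs, mem_insert, mem_singleton] at h1
      exact h1
    · have h1 : e ∈ L ∩ H.cut U := by
        rw [hs]
        exact mem_insert_self _ _
      exact (mem_inter.1 h1).2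
  have hfT : ∀ e ∈ S1, f e ∈ Tr := by
    intro e he
    have h1 := (hZ e he).2.2 (hfZ e he)
    rw [mem_insert] at h1
    rcases h1 with h1 | h1
    · exact absurd h1.symm (hf e he).1
    · exact h1
  -- an element of `S1` in `Z e` is `e`
  have hZS : ∀ e ∈ S1, ∀ x ∈ Z e, x ∉ Tr → x = e := by
    intro e he x hx hxT
    have h1 := (hZ e he).2.2 hx
    rw [mem_insert] at h1
    rcases h1 with h1 | h1
    · exact h1
    · exact absurd h1 hxT
  have hinj : ∀ e ∈ S1, ∀ e' ∈ S1, f e = f e' → e = e' := by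
    intro e he e' he' hee
    by_contra hne
    obtain ⟨hne1, U, -, hs⟩ := hf e he
    obtain ⟨hne2, U', -, hs'⟩ := hf e' he'
    rw [← hee] at hs' hne2
    have h1 : ∀ x, x ∈ L → (x ∈ H.cut (U ∆ U') ↔ x = e ∨ x = e') := by
      intro x hx
      have a1 : x ∈ H.cut U ↔ x = e ∨ x = f e := by
        have b1 : x ∈ L ∩ H.cut U ↔ x = e ∨ x = f e := by
          rw [hs, mem_insert, mem_singleton]
        rw [mem_inter] at b1
        exact ⟨fun h => b1.1 ⟨hx, h⟩, fun h => (b1.2 h).2⟩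
      have a2 : x ∈ H.cut U' ↔ x = e' ∨ x = f e := by
        have b1 : x ∈ L ∩ H.cut U' ↔ x = e' ∨ x = f e := by
          rw [hs', mem_insert, mem_singleton]
        rw [mem_inter] at b1
        exact ⟨fun h => b1.1 ⟨hx, h⟩, fun h => (b1.2 h).2⟩
      rw [H.cut_symm, mem_symmDiff, a1, a2]
      constructor
      · rintro (⟨h2 | h2, h3⟩ | ⟨h2 | h2, h3⟩)
        · exact Or.inl h2
        · exact absurd (Or.inr h2) h3
        · exact Or.inr h2
        · exact absurd (Or.inr h2) h3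
      · rintro (h2 | h2)
        · refine Or.inl ⟨Or.inl h2, ?_⟩
          rintro (h3 | h3)
          · exact hne (h2.symm.trans h3)
          · exact hne1 (h2.symm.trans h3)
        · refine Or.inr ⟨Or.inl h2, ?_⟩
          rintro (h3 | h3)
          · exact hne (h3.symm.trans h2)
          · exact hne2 (h2.symm.trans h3)
    have h2 := CI_two (H.Ev_cut (Z e) (hZ e he).1 (U ∆ U'))
      (fun x hx hxU => (h1 x (hZL e he hx)).1 hxU) (hZ e he).2.1
      ((h1 e (hSL ((mS1 e).1 he).1)).2 (Or.inl rfl))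
    exact hne (hZS e he e' h2 ((mS1 e').1 he').2).symm
  have hg1 : ∀ y, ∃ x : E, y ∈ S1.image f → x ∈ S1 ∧ f x = y := by
    intro y
    by_cases hy : y ∈ S1.image f
    · obtain ⟨x, hx, hxy⟩ := mem_image.1 hy
      exact ⟨x, fun _ => ⟨hx, hxy⟩⟩
    · exact ⟨y, fun h => absurd h hy⟩
  choose g hg using hg1
  obtain ⟨π, hπ⟩ : ∃ π : E → E, ∀ x, π x = if x ∈ S1 then f x else g x := ⟨_, fun _ => rfl⟩
  have hfS : ∀ e ∈ S1, f e ∉ S1 := fun e he h => ((mS1 _).1 h).2 (hfT e he)
  have hπ1 : ∀ e ∈ S1, π e = f e := by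
    intro e he
    rw [hπ, if_pos he]
  have hπ2 : ∀ e ∈ S1, π (f e) = e := by
    intro e he
    rw [hπ, if_neg (hfS e he)]
    obtain ⟨h1, h2⟩ := hg (f e) (mem_image_of_mem f he)
    exact hinj _ h1 _ he h2
  obtain ⟨D, hD⟩ : ∃ D, D = S1 ∪ S1.image f := ⟨_, rfl⟩
  have mD : ∀ e, e ∈ D ↔ ∃ x ∈ S1, (e = x ∧ π e = f x) ∨ (e = f x ∧ π e = x) := by
    intro e
    rw [hD, mem_union, mem_image]
    constructor
    · rintro (h | ⟨x, hx, hxe⟩)
      · exact ⟨e, h, Or.inl ⟨rfl, hπ1 e h⟩⟩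
      · exact ⟨x, hx, Or.inr ⟨hxe.symm, by rw [← hxe]; exact hπ2 x hx⟩⟩
    · rintro ⟨x, hx, ⟨h1, -⟩ | ⟨h1, -⟩⟩
      · left
        rw [h1]
        exact hx
      · exact Or.inr ⟨x, hx, h1.symm⟩
  have hxD : ∀ x ∈ S1, x ∈ D := fun x hx => (mD x).2 ⟨x, hx, Or.inl ⟨rfl, hπ1 x hx⟩⟩
  have hfD : ∀ x ∈ S1, f x ∈ D := fun x hx => (mD _).2 ⟨x, hx, Or.inr ⟨rfl, hπ2 x hx⟩⟩
  have hDS : D ⊆ H.So L J := by
    intro e he
    obtain ⟨x, hx, ⟨h1, -⟩ | ⟨h1, -⟩⟩ := (mD e).1 he
    · rw [h1]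
      exact ((mS1 x).1 hx).1
    · rw [h1]
      exact (CI_So' H L J (hf x hx)).2
  have hrest : ∀ x ∈ S1, ∀ y ∈ Z x, y ≠ x → y ≠ f x → y ∈ L \ D := by
    intro x hx y hy hyx hyf
    have hyT : y ∈ Tr := by
      by_contra h
      exact hyx (hZS x hx y hy h)
    rw [mem_sdiff]
    refine ⟨hTrL hyT, fun hyD => ?_⟩
    obtain ⟨x', hx', ⟨h1, -⟩ | ⟨h1, -⟩⟩ := (mD y).1 hyD
    · rw [h1] at hyT
      exact ((mS1 x').1 hx').2 hyT
    · have hne : x' ≠ x := by
        intro h
        rw [h] at h1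
        exact hyf h1
      obtain ⟨_, U, -, hs⟩ := hf x' hx'
      have h2 := CI_two (e := y) (f := x') (H.Ev_cut (Z x) (hZ x hx).1 U) (fun z hz hzU => by
        have h3 : z ∈ L ∩ H.cut U := mem_inter.2 ⟨hZL x hx hz, hzU⟩
        rw [hs, mem_insert, mem_singleton] at h3
        rw [h1]
        exact h3.symm) hy (by
        have h3 : f x' ∈ L ∩ H.cut U := by
          rw [hs]
          exact mem_insert_of_mem (mem_singleton_self _)
        rw [h1]
        exact (mem_inter.1 h3).2)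
      exact hne (hZS x hx x' h2 ((mS1 x').1 hx').2)
  refine ⟨D, π, hDS, ?_, ?_, ?_, ?_⟩
  · intro e he
    obtain ⟨x, hx, ⟨h1, h2⟩ | ⟨h1, h2⟩⟩ := (mD e).1 he
    · rw [h2, h1]
      exact ⟨hfD x hx, hπ2 x hx, (hf x hx).1.symm, CI_J H L J hJ (hf x hx)⟩
    · rw [h2, h1]
      refine ⟨hxD x hx, hπ1 x hx, (hf x hx).1, ?_⟩
      have h3 := CI_J H L J hJ (hf x hx)
      tauto
  · have h1 : D.card = 2 * S1.card := by
      rw [hD, card_union_of_disjoint, card_image_of_injOn, two_mul]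
      · intro a ha b hb hab
        exact hinj a ha b hb hab
      · rw [disjoint_left]
        intro a ha hb
        obtain ⟨x, hx, hxa⟩ := mem_image.1 hb
        rw [← hxa] at ha
        exact hfS x hx ha
    have h2 : (L \ D).card + D.card = L.card := card_sdiff_add_card_eq_card (hDS.trans hSL)
    have h3 : (H.So L J).card ≤ S1.card + Tr.card := by
      have h4 : H.So L J ⊆ S1 ∪ Tr := by
        intro e he
        rw [mem_union, mS1]
        by_cases heT : e ∈ Tr
        · exact Or.inr heT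
        · exact Or.inl ⟨he, heT⟩
      exact (card_le_card h4).trans (card_union_le _ _)
    omega
  · intro e he
    obtain ⟨x, hx, ⟨h1, h2⟩ | ⟨h1, h2⟩⟩ := (mD e).1 he
    · refine ⟨Z x, (hZ x hx).1, ?_, ?_, ?_⟩
      · rw [h1]
        exact (hZ x hx).2.1
      · rw [h2]
        exact hfZ x hx
      · intro y hy
        rw [h2, h1, mem_sdiff, mem_insert, mem_singleton, not_or] at hy
        exact hrest x hx y hy.1 hy.2.1 hy.2.2
    · refine ⟨Z x, (hZ x hx).1, ?_, ?_, ?_⟩
      · rw [h1]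
        exact hfZ x hx
      · rw [h2]
        exact (hZ x hx).2.1
      · intro y hy
        rw [h2, h1, mem_sdiff, mem_insert, mem_singleton, not_or] at hy
        exact hrest x hx y hy.1 hy.2.2 hy.2.1
  · intro e he hR
    obtain ⟨Q, hQ, hQd⟩ := H.Rch_join (L \ D) _ _ hR
    have heQ : e ∉ Q := fun h => (mem_sdiff.1 (hQ h)).2 he
    have hev : H.Ev (insert e Q) := by
      intro v
      have h1 : H.dg (insert e Q) v = H.inc e v + H.dg Q v := by
        unfold dg
        rw [sum_insert heQ]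
      have h2 := hQd v
      have h3 : H.inc e v = (if v = H.s e then 1 else 0) + (if v = H.t e then 1 else 0) := by
        unfold inc
        simp only [eq_comm]
      rw [h1, Nat.even_iff]
      omega
    -- the cut of the pair
    obtain ⟨x, hx, hex⟩ := (mD e).1 he
    obtain ⟨hne, U, -, hs⟩ := hf x hx
    have key : ∀ a b : E, a ∈ D → b ∈ D → a = e → a ≠ b → L ∩ H.cut U = {a, b} → False := by
      intro a b ha hb hae hab hs
      have hbQ : b ∉ Q := fun h => (mem_sdiff.1 (hQ h)).2 hb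
      have h1 := CI_two (e := a) (f := b) (H.Ev_cut _ hev U) (fun y hy hyU => by
        have h2 : y ∈ L := by
          rw [mem_insert] at hy
          rcases hy with h3 | h3
          · rw [h3]
            exact hSL (hDS he)
          · exact (mem_sdiff.1 (hQ h3)).1
        have h3 : y ∈ L ∩ H.cut U := mem_inter.2 ⟨h2, hyU⟩
        rw [hs, mem_insert, mem_singleton] at h3
        exact h3) (by
        rw [hae]
        exact mem_insert_self _ _) (by
        have h3 : a ∈ L ∩ H.cut U := by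
          rw [hs]
          exact mem_insert_self _ _
        exact (mem_inter.1 h3).2)
      rw [mem_insert] at h1
      rcases h1 with h1 | h1
      · exact hab (hae.trans h1.symm)
      · exact hbQ h1
    rcases hex with ⟨h1, -⟩ | ⟨h1, -⟩
    · exact key x (f x) (hxD x hx) (hfD x hx) h1.symm hne hs
    · exact key (f x) x (hfD x hx) (hxD x hx) h1.symm hne.symm (by rw [hs, pair_comm])

private theorem CI_pairZ (H : MG V E) {L' Z : Finset E} {e f : E} (hev : H.Ev Z) (he : e ∈ Z)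
    (hf : f ∈ Z) (hs : Z \ {e, f} ⊆ L') {R : Finset V} (hR : L' ∩ H.cut R = ∅)
    (heR : e ∈ H.cut R) (hne : e ≠ f) : f ∈ H.cut R := by
  by_contra hfR
  have h1 : Z ∩ H.cut R = {e} := by
    ext x
    rw [mem_inter, mem_singleton]
    constructor
    · rintro ⟨hx, hxR⟩
      by_contra hxe
      have hxf : x ≠ f := by
        intro h
        rw [h] at hxR
        exact hfR hxR
      have h2 : x ∈ L' := hs (by
        rw [mem_sdiff, mem_insert, mem_singleton, not_or]
        exact ⟨hx, hxe, hxf⟩)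
      have h3 : x ∈ L' ∩ H.cut R := mem_inter.2 ⟨h2, hxR⟩
      rw [hR] at h3
      exact notMem_empty x h3
    · intro h
      rw [h]
      exact ⟨he, heR⟩
  have h2 := H.Ev_cut Z hev R
  rw [h1, card_singleton] at h2
  exact Nat.not_even_one h2

/-- the counting inequality for one component -/
private theorem CI_comp (H : MG V E) (L J D : Finset E) (π : E → E) (hJ : J ⊆ L) (hL : H.Ev L)
    (hDL : D ⊆ L) (hπ : ∀ e ∈ D, π e ∈ D ∧ π (π e) = e ∧ π e ≠ e ∧ (e ∈ J ↔ π e ∉ J))
    (hZ : ∀ e ∈ D, ∃ Z : Finset E, H.Ev Z ∧ e ∈ Z ∧ π e ∈ Z ∧ Z \ {e, π e} ⊆ L \ D)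
    (hR : ∀ e ∈ D, ¬ H.Rch (L \ D) (H.s e) (H.t e)) (a : V) :
    ((H.cv (L \ D) a).filter (fun v => (H.dg L v / 2) % 2 ≠ H.dg J v % 2)).card ≤
      ((L \ D).filter (fun e => H.s e ∈ H.cv (L \ D) a)).card := by
  classical
  obtain ⟨L', hL'⟩ : ∃ L', L' = L \ D := ⟨_, rfl⟩
  rw [← hL'] at hZ hR ⊢
  have mL' : ∀ e, e ∈ L' ↔ e ∈ L ∧ e ∉ D := by
    intro e
    rw [hL', mem_sdiff]
  obtain ⟨R, hRa⟩ : ∃ R, R = H.cv L' a := ⟨_, rfl⟩
  have hcut : L' ∩ H.cut R = ∅ := by
    rw [hRa]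
    exact H.cv_cut L' a
  have mR : ∀ v, v ∈ R ↔ H.Rch L' a v := by
    intro v
    rw [hRa]
    exact H.mem_cv L' a v
  rw [← hRa]
  have hce : (H.ce L' a) = L'.filter (fun e => H.s e ∈ R) := by
    ext e
    rw [mem_ce, mem_filter, mR]
  -- edges of `L` with both ends in `R`
  have e2 : L.filter (fun e => H.s e ∈ R ∧ H.t e ∈ R) = L'.filter (fun e => H.s e ∈ R) := by
    ext e
    rw [mem_filter, mem_filter, mL']
    constructor
    · rintro ⟨h1, h2, h3⟩
      refine ⟨⟨h1, fun hD => ?_⟩, h2⟩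
      exact hR e hD (H.Rch_trans L' _ _ _ (H.Rch_symm L' _ _ ((mR _).1 h2)) ((mR _).1 h3))
    · rintro ⟨⟨h1, h2⟩, h3⟩
      refine ⟨h1, h3, (mR _).2 (H.Rch_trans L' _ _ _ ((mR _).1 h3) (H.Rch_edge L' e ?_))⟩
      exact (mL' e).2 ⟨h1, h2⟩
  have hinD : ∀ e ∈ L, e ∈ H.cut R → e ∈ D := by
    intro e he heR
    by_contra h
    have h1 : e ∈ L' ∩ H.cut R := mem_inter.2 ⟨(mL' e).2 ⟨he, h⟩, heR⟩
    rw [hcut] at h1
    exact notMem_empty e h1
  have hπR : ∀ e ∈ D, e ∈ H.cut R → π e ∈ H.cut R := by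
    intro e he heR
    obtain ⟨Z, hev, heZ, hpZ, hZs⟩ := hZ e he
    exact CI_pairZ H hev heZ hpZ hZs hcut heR (hπ e he).2.2.1.symm
  have e3 : (L ∩ H.cut R).card = 2 * (J ∩ H.cut R).card := by
    have h1 : L ∩ H.cut R = (J ∩ H.cut R) ∪ ((L \ J) ∩ H.cut R) := by
      ext e
      simp only [mem_inter, mem_union, mem_sdiff]
      constructor
      · rintro ⟨h1, h2⟩
        by_cases h3 : e ∈ J
        · exact Or.inl ⟨h3, h2⟩
        · exact Or.inr ⟨⟨h1, h3⟩, h2⟩
      · rintro (⟨h1, h2⟩ | ⟨⟨h1, -⟩, h2⟩)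
        · exact ⟨hJ h1, h2⟩
        · exact ⟨h1, h2⟩
    have h2 : Disjoint (J ∩ H.cut R) ((L \ J) ∩ H.cut R) := by
      rw [disjoint_left]
      intro e h1 h2
      exact (mem_sdiff.1 (mem_inter.1 h2).1).2 (mem_inter.1 h1).1
    have h3 : (J ∩ H.cut R).card = ((L \ J) ∩ H.cut R).card := by
      refine card_nbij' π π ?_ ?_ ?_ ?_
      · intro e he
        have he' : e ∈ J ∩ H.cut R := he
        rw [mem_inter] at he'
        have heD := hinD e (hJ he'.1) he'.2
        have h4 := hπ e heD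
        show π e ∈ (L \ J) ∩ H.cut R
        rw [mem_inter, mem_sdiff]
        exact ⟨⟨hDL h4.1, h4.2.2.2.1 he'.1⟩, hπR e heD he'.2⟩
      · intro e he
        have he' : e ∈ (L \ J) ∩ H.cut R := he
        rw [mem_inter, mem_sdiff] at he'
        have heD := hinD e he'.1.1 he'.2
        have h4 := hπ e heD
        show π e ∈ J ∩ H.cut R
        rw [mem_inter]
        refine ⟨?_, hπR e heD he'.2⟩
        by_contra h5
        exact he'.1.2 (h4.2.2.2.2 h5)
      · intro e he
        have he' : e ∈ J ∩ H.cut R := he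
        rw [mem_inter] at he'
        exact (hπ e (hinD e (hJ he'.1) he'.2)).2.1
      · intro e he
        have he' : e ∈ (L \ J) ∩ H.cut R := he
        rw [mem_inter, mem_sdiff] at he'
        exact (hπ e (hinD e he'.1.1 he'.2)).2.1
    rw [h1, card_union_of_disjoint h2, ← h3, two_mul]
  have e1 := H.sum_dg L R
  have e4 := H.sum_dg J R
  have e5 : ∑ v ∈ R, H.dg L v = 2 * ∑ v ∈ R, H.dg L v / 2 := by
    rw [mul_sum]
    refine sum_congr rfl fun v _ => ?_
    have h1 := hL v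
    rw [Nat.even_iff] at h1
    omega
  have e6 : ∑ v ∈ R, (H.dg L v / 2 + H.dg J v) =
      ∑ v ∈ R, H.dg L v / 2 + ∑ v ∈ R, H.dg J v := sum_add_distrib
  have e7 := Finset.odd_sum_iff_odd_card_odd (s := R) (fun v => H.dg L v / 2 + H.dg J v)
  have e8 : R.filter (fun v => Odd (H.dg L v / 2 + H.dg J v)) =
      R.filter (fun v => (H.dg L v / 2) % 2 ≠ H.dg J v % 2) := by
    refine filter_congr fun v _ => ?_
    rw [Nat.odd_iff]
    omega
  rw [e8] at e7
  have e9 : (R.filter (fun v => (H.dg L v / 2) % 2 ≠ H.dg J v % 2)).card ≤ R.card :=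
    card_filter_le _ _
  have e10 : R.card ≤ (L'.filter (fun e => H.s e ∈ R)).card + 1 := by
    rw [← hce, hRa]
    exact H.cv_card_le L' a
  rw [e2] at e1
  rw [Nat.odd_iff, Nat.odd_iff] at e7
  generalize (R.filter (fun v => (H.dg L v / 2) % 2 ≠ H.dg J v % 2)).card = m at *
  generalize (L'.filter (fun e => H.s e ∈ R)).card = c at *
  generalize (J ∩ H.cut R).card = j at *
  generalize ∑ v ∈ R, H.dg L v / 2 = s1 at *
  generalize ∑ v ∈ R, H.dg J v = s2 at *
  generalize (J.filter (fun e => H.s e ∈ R ∧ H.t e ∈ R)).card = w at *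
  generalize ∑ v ∈ R, (H.dg L v / 2 + H.dg J v) = s3 at *
  clear hπR hinD e2 hce mR hcut hRa hR hZ hπ hDL hL hJ e8
  omega

/-- second part -/
theorem CI (H : MG V E) (L J : Finset E) (hJ : J ⊆ L) (hL : H.Ev L) :
    ∃ (D : Finset E) (π : E → E), D ⊆ H.So L J ∧
      (∀ e ∈ D, π e ∈ D ∧ π (π e) = e ∧ π e ≠ e ∧ (e ∈ J ↔ π e ∉ J)) ∧
      (L \ D).card + 2 * (H.So L J).card ≤ L.card + 2 * Fintype.card V ∧
      (∀ e ∈ D, ∀ a b, H.Jn e a b → (∀ g ∈ L \ D, H.inc g a = 0 ∧ H.inc g b = 0) →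
        H.Jn (π e) a b) ∧
      (∀ e ∈ D, H.s e ≠ H.t e) ∧
      (Finset.univ.filter (fun v => (H.dg L v / 2) % 2 ≠ H.dg J v % 2)).card ≤ (L \ D).card := by
  classical
  obtain ⟨D, π, hDS, hπ, hcnt, hZ, hR⟩ := CI_pair H L J hJ hL
  have hDL : D ⊆ L := fun e he => (CI_So H L J (hDS he)).1
  have hne : ∀ e ∈ D, H.s e ≠ H.t e := by
    intro e he h
    have h1 := hR e he
    rw [h] at h1
    exact h1 (H.Rch_refl _ _)
  refine ⟨D, π, hDS, hπ, hcnt, ?_, hne, ?_⟩
  · intro e he a b hJn h0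
    obtain ⟨Z, hev, heZ, hπZ, hZs⟩ := hZ e he
    have hab : a ≠ b := by
      intro h
      rcases hJn with h1 | h1
      · exact hne e he (h1.1.trans (h.trans h1.2.symm))
      · exact hne e he (h1.1.trans (h.symm.trans h1.2.symm))
    have hdeg : ∀ c, (c = a ∨ c = b) → H.inc (π e) c = 1 := by
      intro c hc
      have h1 : H.dg Z c = H.inc e c + H.inc (π e) c := by
        unfold dg
        have h2 : ({e, π e} : Finset E) ⊆ Z := by
          intro x hx
          rw [mem_insert, mem_singleton] at hx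
          rcases hx with h3 | h3
          · rw [h3]
            exact heZ
          · rw [h3]
            exact hπZ
        rw [← sum_subset h2 (fun x hx hx' => ?_), sum_pair (hπ e he).2.2.1.symm]
        have h3 := h0 x (hZs (mem_sdiff.2 ⟨hx, hx'⟩))
        rcases hc with h4 | h4
        · rw [h4]
          exact h3.1
        · rw [h4]
          exact h3.2
      have h2 := hev c
      have h3 : H.inc e c = 1 := by
        rw [H.inc_Jn e a b hJn c]
        rcases hc with h4 | h4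
        · rw [h4, if_pos rfl, if_neg hab]
        · rw [h4, if_pos rfl, if_neg hab.symm]
      have h4 : H.inc (π e) c ≤ 2 := by
        unfold inc
        split_ifs <;> omega
      rw [Nat.even_iff] at h2
      omega
    have ha := hdeg a (Or.inl rfl)
    have hb := hdeg b (Or.inr rfl)
    unfold inc at ha hb
    unfold Jn
    by_cases h1 : H.s (π e) = a
    · have h2 : H.t (π e) ≠ a := by
        intro h
        rw [if_pos h1, if_pos h] at ha
        omega
      have h3 : H.s (π e) ≠ b := fun h => hab (h1.symm.trans h)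
      have h4 : H.t (π e) = b := by
        by_contra h
        rw [if_neg h3, if_neg h] at hb
        omega
      exact Or.inl ⟨h1, h4⟩
    · have h2 : H.t (π e) = a := by
        by_contra h
        rw [if_neg h1, if_neg h] at ha
        omega
      have h3 : H.t (π e) ≠ b := fun h => hab (h2.symm.trans h)
      have h4 : H.s (π e) = b := by
        by_contra h
        rw [if_neg h, if_neg h3] at hb
        omega
      exact Or.inr ⟨h4, h2⟩
  · have h1 : (Finset.univ.filter (fun v => (H.dg L v / 2) % 2 ≠ H.dg J v % 2)).card =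
        ∑ R ∈ Finset.univ.image (H.cv (L \ D)), ((Finset.univ.filter (fun v =>
          (H.dg L v / 2) % 2 ≠ H.dg J v % 2)).filter (fun v => H.cv (L \ D) v = R)).card :=
      card_eq_sum_card_fiberwise fun v _ => mem_image_of_mem _ (mem_univ v)
    have h2 : (L \ D).card = ∑ R ∈ Finset.univ.image (H.cv (L \ D)),
        ((L \ D).filter (fun e => H.cv (L \ D) (H.s e) = R)).card :=
      card_eq_sum_card_fiberwise fun e _ => mem_image_of_mem _ (mem_univ (H.s e))
    rw [h1, h2]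
    refine sum_le_sum fun R hRm => ?_
    obtain ⟨a, -, rfl⟩ := mem_image.1 hRm
    have h3 : (Finset.univ.filter (fun v => (H.dg L v / 2) % 2 ≠ H.dg J v % 2)).filter
        (fun v => H.cv (L \ D) v = H.cv (L \ D) a) =
        (H.cv (L \ D) a).filter (fun v => (H.dg L v / 2) % 2 ≠ H.dg J v % 2) := by
      ext v
      simp only [mem_filter, mem_univ, true_and]
      rw [H.mem_cv, H.cv_eq]
      constructor
      · rintro ⟨h4, h5⟩
        exact ⟨H.Rch_symm _ _ _ h5, h4⟩
      · rintro ⟨h4, h5⟩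
        exact ⟨h5, H.Rch_symm _ _ _ h4⟩
    have h4 : (L \ D).filter (fun e => H.cv (L \ D) (H.s e) = H.cv (L \ D) a) =
        (L \ D).filter (fun e => H.s e ∈ H.cv (L \ D) a) := by
      refine filter_congr fun e _ => ?_
      rw [H.mem_cv, H.cv_eq]
      exact ⟨fun h => H.Rch_symm _ _ _ h, fun h => H.Rch_symm _ _ _ h⟩
    rw [h3, h4]
    exact CI_comp H L J D π hJ hL hDL hπ hZ hR a

end MG

end Pool.Agent.Lib.MP_95e9b3_coC
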