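import Pool.Agent.Lib.MP_95e9b3_coC.Reach

/-!
# JOB Circ: a component of a 2-regular graph is a circuit

`F` has `dg F v = 2` for all `v` and no loops. So at every vertex `v` there are exactly two edges of
`F`, both with `inc = 1`, and for an edge `e ∈ F` with an end at `v` there are the other end
`v' ≠ v` and the other edge `e' ≠ e` of `F` at `v'`. Define the next pair `σ (v, e) = (v', e')` on the
finite set of pairs `(v, e)`, `e ∈ F`, `inc e v = 1`; `σ` is injective (a permutation): from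
`(v', e')` recover `e` = the other edge of `F` at `v'`, `v` = the other end of `e`. Start at
`(v0, e0)` with any `e0 ∈ F` at `v0`, `(v i, f i) = σ^i (v0, e0)`; let `n ≥ 1` be minimal with
`σ^n (v0, e0) = (v0, e0)`. Then `f i` joins `v i` and `v (i+1)`, and the edges of `F` at `v (i+1)` are
`f i` and `f (i+1)`.
Injectivity of `v` on `{0, …, n-1}`: suppose `v i = v j`, `i < j < n`. `f j ≠ f i` (the pairs are
different), so `f j = ` the other edge at `v i`; i.e. `f j = f (i-1)` (index mod `n`), and then by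
induction `v (j + s) = v (i - s)`, `f (j + s) = f (i - 1 - s)`; walking on, the two indices meet: if
`i - j` is even, say `j + s = i - s` mod `n` for some `s`: then at `v = v (j+s) = v (i-s)` we get
`f (j + s) = f (i - s - 1) = f (j + s - 1)`, but consecutive edges are different; if it is odd then
`j + s = i - 1 - s` for some `s`, and `v (j + s) = v (i - s) = v (j + s + 1)`, but consecutive vertices are
different (no loops). (Other way: the component has `m` vertices and `m` edges; count.)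
Then `f` is injective on `{0, …, n-1}`: `f i = f j` with `i ≠ j` implies `{v i, v (i+1)} = {v j, v (j+1)}`,
so `v i = v (j+1)` and `v (i+1) = v j`, so `i = j + 1`, `j = i + 1` mod `n`, `n ∣ 2`, `n = 2` and
`f 0 = f 1`, excluded (consecutive edges are different).
The set `{v i}` is closed under `F` and connected, so it is `cv F v0`; its edges are the `f i`.
So `n = (cv F v0).card = (ce F v0).card`.
-/

set_option autoImplicit false

namespace Pool.Agent.Lib.MP_95e9b3_coC

open Finset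
open scoped symmDiff

namespace MG

variable {V W E : Type} [Fintype V] [DecidableEq V] [Fintype W] [DecidableEq W]
  [Fintype E] [DecidableEq E]

private theorem circ_norefl {X : Type} (ρ τ : X → X) (hρ : ∀ x, ρ (ρ x) = x) (hτ : ∀ x, τ (τ x) = x)
    (hρ1 : ∀ x, ρ x ≠ x) (hτ1 : ∀ x, τ x ≠ x) (x : ℕ → X) (hx : ∀ i, x (i + 1) = ρ (τ (x i))) :
    ∀ d i, x (i + d) ≠ ρ (x i) := by
  intro d
  induction d using Nat.strong_induction_on with
  | _ d ih =>
    intro i h
    rcases d with _ | _ | d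
    · exact hρ1 (x i) h.symm
    · rw [hx i] at h
      have h2 : τ (x i) = x i := by
        have := congrArg ρ h
        rwa [hρ, hρ] at this
      exact hτ1 _ h2
    · have h1 : x (i + (d + 1 + 1)) = ρ (τ (x (i + 1 + d))) := by
        rw [← hx (i + 1 + d)]
        congr 1
        omega
      rw [h1] at h
      have h2 : τ (x (i + 1 + d)) = x i := by
        have := congrArg ρ h
        rwa [hρ, hρ] at this
      have h3 : x (i + 1 + d) = τ (x i) := by
        rw [← h2, hτ]
      have h4 : x (i + 1 + d) = ρ (x (i + 1)) := by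
        rw [hx i, hρ, h3]
      exact ih d (by omega) (i + 1) h4

private theorem circ_norefl' {X : Type} (ρ τ : X → X) (hρ : ∀ x, ρ (ρ x) = x) (hτ : ∀ x, τ (τ x) = x)
    (hρ1 : ∀ x, ρ x ≠ x) (hτ1 : ∀ x, τ x ≠ x) (x : ℕ → X) (hx : ∀ i, x (i + 1) = ρ (τ (x i)))
    (i j : ℕ) : x i ≠ ρ (x j) := by
  intro h
  rcases le_total j i with hij | hij
  · obtain ⟨d, rfl⟩ := Nat.exists_eq_add_of_le hij
    exact circ_norefl ρ τ hρ hτ hρ1 hτ1 x hx d j h
  · obtain ⟨d, rfl⟩ := Nat.exists_eq_add_of_le hij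
    have h2 : x (i + d) = ρ (x i) := by rw [h, hρ]
    exact circ_norefl ρ τ hρ hτ hρ1 hτ1 x hx d i h2

private theorem circ_inc_cases (G : MG V E) (e : E) (hne : G.s e ≠ G.t e) (v : V) :
    (G.inc e v = 0 ∧ G.s e ≠ v ∧ G.t e ≠ v) ∨ (G.inc e v = 1 ∧ (G.s e = v ∨ G.t e = v)) := by
  unfold MG.inc
  by_cases h1 : G.s e = v
  · have h2 : G.t e ≠ v := by
      intro h2
      exact hne (h1.trans h2.symm)
    right
    simp [h1, h2]
  · by_cases h2 : G.t e = v
    · right
      simp [h1, h2]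
    · left
      simp [h1, h2]

private theorem circ_card_at (G : MG V E) (F : Finset E) (hF : ∀ v, G.dg F v = 2)
    (hl : ∀ e ∈ F, G.s e ≠ G.t e) (v : V) : (F.filter (fun e => G.inc e v ≠ 0)).card = 2 := by
  rw [← hF v, Finset.card_filter]
  unfold MG.dg
  refine Finset.sum_congr rfl ?_
  intro e he
  rcases circ_inc_cases G e (hl e he) v with ⟨h, _⟩ | ⟨h, _⟩
  · simp [h]
  · simp [h]

private theorem circ_Jn_mem (G : MG V E) (e : E) (a b : V) (h : G.Jn e a b) : 
    (G.s e = a ∨ G.s e = b) ∧ (G.t e = a ∨ G.t e = b) := by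
  rcases h with ⟨h1, h2⟩ | ⟨h1, h2⟩
  · exact ⟨Or.inl h1, Or.inr h2⟩
  · exact ⟨Or.inr h1, Or.inl h2⟩

/-- flags -/
private abbrev CircFlag (G : MG V E) (F : Finset E) : Type :=
  {p : V × E // p.2 ∈ F ∧ G.inc p.2 p.1 ≠ 0}

private theorem circ_tau (G : MG V E) (F : Finset E) (hl : ∀ e ∈ F, G.s e ≠ G.t e)
    (x : CircFlag G F) :
    ∃ y : CircFlag G F, y.1.2 = x.1.2 ∧ y.1.1 ≠ x.1.1 ∧ G.Jn x.1.2 x.1.1 y.1.1 := by
  obtain ⟨⟨v, e⟩, he, hv⟩ := x
  simp only at he hv
  have hne := hl e he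
  rcases circ_inc_cases G e hne v with ⟨h, _⟩ | ⟨h, h1 | h1⟩
  · exact absurd h hv
  · refine ⟨⟨⟨G.t e, e⟩, he, ?_⟩, rfl, ?_, ?_⟩
    · simp [MG.inc]
    · simp only
      rw [← h1]
      exact hne.symm
    · exact Or.inl ⟨h1, rfl⟩
  · refine ⟨⟨⟨G.s e, e⟩, he, ?_⟩, rfl, ?_, ?_⟩
    · simp [MG.inc]
    · simp only
      rw [← h1]
      exact hne
    · exact Or.inr ⟨rfl, h1⟩

private theorem circ_tau_unique (G : MG V E) (F : Finset E) (hl : ∀ e ∈ F, G.s e ≠ G.t e)
    (x y z : CircFlag G F) (h1 : y.1.2 = x.1.2) (h2 : z.1.2 = x.1.2) (h3 : y.1.1 ≠ x.1.1)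
    (h4 : z.1.1 ≠ x.1.1) : y = z := by
  obtain ⟨⟨v, e⟩, he, hv⟩ := x
  obtain ⟨⟨v1, e1⟩, he1, hv1⟩ := y
  obtain ⟨⟨v2, e2⟩, he2, hv2⟩ := z
  simp only at *
  subst h1
  subst h2
  have hne := hl _ he
  have a := circ_inc_cases G _ hne v
  have b := circ_inc_cases G _ hne v1
  have c := circ_inc_cases G _ hne v2
  rcases a with ⟨a, _⟩ | ⟨_, a⟩
  · exact absurd a hv
  rcases b with ⟨b, _⟩ | ⟨_, b⟩
  · exact absurd b hv1
  rcases c with ⟨c, _⟩ | ⟨_, c⟩
  · exact absurd c hv2
  have : v1 = v2 := by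
    rcases a with a | a <;> rcases b with b | b <;> rcases c with c | c
    · exact b.symm.trans c
    · exact absurd (b.symm.trans a) h3
    · exact absurd (c.symm.trans a) h4
    · exact b.symm.trans c
    · exact b.symm.trans c
    · exact absurd (c.symm.trans a) h4
    · exact absurd (b.symm.trans a) h3
    · exact b.symm.trans c
  subst this
  rfl

private theorem circ_rho (G : MG V E) (F : Finset E) (hF : ∀ v, G.dg F v = 2)
    (hl : ∀ e ∈ F, G.s e ≠ G.t e) (x : CircFlag G F) :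
    ∃ y : CircFlag G F, y.1.1 = x.1.1 ∧ y.1.2 ≠ x.1.2 := by
  obtain ⟨⟨v, e⟩, he, hv⟩ := x
  simp only at he hv
  have h2 := circ_card_at G F hF hl v
  have h3 : 1 < (F.filter (fun e => G.inc e v ≠ 0)).card := by omega
  obtain ⟨e', he', hne⟩ := Finset.exists_mem_ne h3 e
  rw [Finset.mem_filter] at he'
  exact ⟨⟨⟨v, e'⟩, he'.1, he'.2⟩, rfl, hne⟩

private theorem circ_rho_unique (G : MG V E) (F : Finset E) (hF : ∀ v, G.dg F v = 2)
    (hl : ∀ e ∈ F, G.s e ≠ G.t e)
    (x y z : CircFlag G F) (h1 : y.1.1 = x.1.1) (h2 : z.1.1 = x.1.1) (h3 : y.1.2 ≠ x.1.2)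
    (h4 : z.1.2 ≠ x.1.2) : y = z := by
  have hc := circ_card_at G F hF hl x.1.1
  by_contra hne
  have hne' : y.1.2 ≠ z.1.2 := by
    intro he
    exact hne (Subtype.ext (Prod.ext (h1.trans h2.symm) he))
  have hsub : ({x.1.2, y.1.2, z.1.2} : Finset E) ⊆ F.filter (fun e => G.inc e x.1.1 ≠ 0) := by
    intro a ha
    rw [Finset.mem_insert, Finset.mem_insert, Finset.mem_singleton] at ha
    rw [Finset.mem_filter]
    rcases ha with rfl | rfl | rfl
    · exact ⟨x.2.1, x.2.2⟩
    · refine ⟨y.2.1, ?_⟩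
      rw [← h1]
      exact y.2.2
    · refine ⟨z.2.1, ?_⟩
      rw [← h2]
      exact z.2.2
  have hcard := Finset.card_le_card hsub
  rw [hc, Finset.card_eq_three.mpr ⟨x.1.2, y.1.2, z.1.2, h3.symm, h4.symm, hne', rfl⟩] at hcard
  omega

private theorem circ_main (G : MG V E) (F : Finset E) (hF : ∀ v, G.dg F v = 2)
    (hl : ∀ e ∈ F, G.s e ≠ G.t e) (v0 : V) :
    ∃ (n : ℕ) (v : ℕ → V) (f : ℕ → E), v 0 = v0 ∧ (∀ i, f i ∈ F ∧ G.Jn (f i) (v i) (v (i + 1))) ∧
      (∀ i, f i ≠ f (i + 1)) ∧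
      (∀ i, v (i + n) = v i ∧ f (i + n) = f i) ∧
      (∀ i < n, ∀ j < n, v i = v j → i = j) ∧
      (∀ i < n, ∀ j < n, f i = f j → i = j) ∧
      (∀ i, ∀ e ∈ F, G.inc e (v (i + 1)) ≠ 0 → e = f i ∨ e = f (i + 1)) ∧
      2 ≤ n := by
  classical
  choose τ hτ1 hτ2 hτ3 using circ_tau G F hl
  choose ρ hρ1 hρ2 using circ_rho G F hF hl
  have hττ : ∀ x, τ (τ x) = x := by
    intro x
    refine circ_tau_unique G F hl (τ x) _ _ (hτ1 (τ x)) (hτ1 x).symm (hτ2 (τ x)) (hτ2 x).symm
  have hρρ : ∀ x, ρ (ρ x) = x := by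
    intro x
    refine circ_rho_unique G F hF hl (ρ x) _ _ (hρ1 (ρ x)) (hρ1 x).symm (hρ2 (ρ x)) (hρ2 x).symm
  have hτne : ∀ x, τ x ≠ x := fun x h => hτ2 x (by rw [h])
  have hρne : ∀ x, ρ x ≠ x := fun x h => hρ2 x (by rw [h])
  -- a first flag
  obtain ⟨x0, hx0⟩ : ∃ x0 : CircFlag G F, x0.1.1 = v0 := by
    have h2 := circ_card_at G F hF hl v0
    have h3 : 0 < (F.filter (fun e => G.inc e v0 ≠ 0)).card := by omega
    obtain ⟨e, he⟩ := Finset.card_pos.mp h3
    rw [Finset.mem_filter] at he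
    exact ⟨⟨⟨v0, e⟩, he.1, he.2⟩, rfl⟩
  let σ : CircFlag G F → CircFlag G F := fun x => ρ (τ x)
  have hσinj : Function.Injective σ := by
    intro a b h
    have h1 : τ a = τ b := by
      have := congrArg ρ h
      simpa only [σ, hρρ] using this
    have h2 := congrArg τ h1
    rwa [hττ, hττ] at h2
  let x : ℕ → CircFlag G F := fun i => σ^[i] x0
  have hxs : ∀ i, x (i + 1) = ρ (τ (x i)) := by
    intro i
    exact Function.iterate_succ_apply' σ i x0
  have hnr := circ_norefl' ρ τ hρρ hττ hρne hτne x hxs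
  have hvx : ∀ i j, (x i).1.1 = (x j).1.1 → x i = x j := by
    intro i j h
    by_contra hne
    have he : (x i).1.2 ≠ (x j).1.2 := by
      intro he
      exact hne (Subtype.ext (Prod.ext h he))
    refine hnr i j ?_
    exact circ_rho_unique G F hF hl (x j) _ _ h (hρ1 (x j)) he (hρ2 (x j))
  have hfx : ∀ i j, (x i).1.2 = (x j).1.2 → x i = x j := by
    intro i j h
    by_contra hne
    have hv : (x i).1.1 ≠ (x j).1.1 := by
      intro hv
      exact hne (Subtype.ext (Prod.ext hv h))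
    have h1 : x i = τ (x j) := circ_tau_unique G F hl (x j) _ _ h (hτ1 (x j)) hv (hτ2 (x j))
    refine hnr (j + 1) i ?_
    rw [hxs j, h1]
  have hper : x0 ∈ Function.periodicPts σ := by
    have := Function.Injective.mem_periodicPts hσinj x0
    exact this
  let n := Function.minimalPeriod σ x0
  have hn : 0 < n := Function.minimalPeriod_pos_of_mem_periodicPts hper
  have hxn : ∀ i, x (i + n) = x i := by
    intro i
    exact Function.iterate_add_minimalPeriod_eq
  have hinj : ∀ i < n, ∀ j < n, x i = x j → i = j := by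
    intro i hi j hj h
    exact Function.iterate_injOn_Iio_minimalPeriod (f := σ) (x := x0) hi hj h
  have hff : ∀ i, (x i).1.2 ≠ (x (i + 1)).1.2 := by
    intro i h
    rw [hxs i] at h
    have h1 := hρ2 (τ (x i))
    rw [hτ1] at h1
    exact h1 h.symm
  refine ⟨n, fun i => (x i).1.1, fun i => (x i).1.2, hx0, ?_, hff, ?_, ?_, ?_, ?_, ?_⟩
  · intro i
    refine ⟨(x i).2.1, ?_⟩
    simp only
    rw [hxs i, hρ1]
    exact hτ3 (x i)
  · intro i
    simp only
    rw [hxn i]
    exact ⟨rfl, rfl⟩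
  · intro i hi j hj h
    exact hinj i hi j hj (hvx i j h)
  · intro i hi j hj h
    exact hinj i hi j hj (hfx i j h)
  · intro i e he hinc
    simp only at hinc ⊢
    by_contra hcon
    push Not at hcon
    obtain ⟨hc1, hc2⟩ := hcon
    -- the flag of e at the vertex
    let y : CircFlag G F := ⟨⟨(x (i + 1)).1.1, e⟩, he, hinc⟩
    have hy : y = ρ (x (i + 1)) :=
      circ_rho_unique G F hF hl (x (i + 1)) _ _ rfl (hρ1 _) hc2 (hρ2 _)
    rw [hxs i, hρρ] at hy
    have h3 : y.1.2 = (τ (x i)).1.2 := by rw [hy]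
    rw [hτ1] at h3
    exact hc1 h3
  · by_contra hlt
    have h1 : n = 1 := by omega
    have h2 := hxn 0
    rw [h1] at h2
    exact hff 0 (by rw [h2])

theorem circuit (G : MG V E) (F : Finset E) (hF : ∀ v, G.dg F v = 2)
    (hl : ∀ e ∈ F, G.s e ≠ G.t e) (v0 : V) :
    ∃ (v : ℕ → V) (f : ℕ → E), v 0 = v0 ∧ (∀ i, f i ∈ F ∧ G.Jn (f i) (v i) (v (i + 1))) ∧
      (∀ i, f i ≠ f (i + 1)) ∧
      (∀ i, v (i + (G.ce F v0).card) = v i ∧ f (i + (G.ce F v0).card) = f i) ∧
      (∀ i < (G.ce F v0).card, ∀ j < (G.ce F v0).card, v i = v j → i = j) ∧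
      (∀ i < (G.ce F v0).card, ∀ j < (G.ce F v0).card, f i = f j → i = j) ∧
      (∀ u, u ∈ G.cv F v0 ↔ ∃ i < (G.ce F v0).card, v i = u) ∧
      (∀ e, e ∈ G.ce F v0 ↔ ∃ i < (G.ce F v0).card, f i = e) ∧
      (∀ i, ∀ e ∈ F, G.inc e (v (i + 1)) ≠ 0 → e = f i ∨ e = f (i + 1)) ∧
      2 ≤ (G.ce F v0).card := by
  classical
  obtain ⟨n, v, f, hv0, hJ, hff, hper, hvinj, hfinj, hinc, hn⟩ := circ_main G F hF hl v0
  have hmod : ∀ i, v (i % n) = v i ∧ f (i % n) = f i := by
    intro i
    have key : ∀ k j, v (j + k * n) = v j ∧ f (j + k * n) = f j := by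
      intro k
      induction k with
      | zero => intro j; simp
      | succ k ih =>
        intro j
        have h1 : j + (k + 1) * n = (j + k * n) + n := by ring
        rw [h1]
        exact ⟨(hper _).1.trans (ih j).1, (hper _).2.trans (ih j).2⟩
    have h2 := key (i / n) (i % n)
    have h3 : i % n + i / n * n = i := by
      have := Nat.mod_add_div i n
      rw [Nat.mul_comm] at this
      exact this
    rw [h3] at h2
    exact ⟨h2.1.symm, h2.2.symm⟩
  have hmodlt : ∀ i, i % n < n := fun i => Nat.mod_lt _ (by omega)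
  -- reachability
  have hreach : ∀ i, G.Rch F v0 (v i) := by
    intro i
    induction i with
    | zero => rw [hv0]; exact Rch_refl G F v0
    | succ i ih =>
      refine Rch_trans G F _ _ _ ih ?_
      exact Relation.ReflTransGen.single ⟨f i, (hJ i).1, (hJ i).2⟩
  have hinc' : ∀ i, ∀ e ∈ F, G.inc e (v i) ≠ 0 → ∃ k, f k = e := by
    intro i e he h
    have h1 : v i = v ((i + (n - 1)) + 1) := by
      have : (i + (n - 1)) + 1 = i + n := by omega
      rw [this]
      exact (hper i).1.symm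
    rw [h1] at h
    rcases hinc _ e he h with h2 | h2
    · exact ⟨_, h2.symm⟩
    · exact ⟨_, h2.symm⟩
  let U : Finset V := Finset.image v (Finset.range n)
  have hU : ∀ u, u ∈ U ↔ ∃ i, v i = u := by
    intro u
    simp only [U, Finset.mem_image, Finset.mem_range]
    constructor
    · rintro ⟨i, _, h⟩
      exact ⟨i, h⟩
    · rintro ⟨i, h⟩
      exact ⟨i % n, hmodlt i, (hmod i).1.trans h⟩
  have hends : ∀ k, G.s (f k) ∈ U ∧ G.t (f k) ∈ U := by
    intro k
    have h := circ_Jn_mem G _ _ _ (hJ k).2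
    constructor
    · rw [hU]
      rcases h.1 with h1 | h1
      · exact ⟨_, h1.symm⟩
      · exact ⟨_, h1.symm⟩
    · rw [hU]
      rcases h.2 with h1 | h1
      · exact ⟨_, h1.symm⟩
      · exact ⟨_, h1.symm⟩
  have hsU : ∀ e ∈ F, (G.s e ∈ U ∨ G.t e ∈ U) → ∃ k, f k = e := by
    intro e he h
    rcases h with h | h
    · obtain ⟨i, hi⟩ := (hU _).1 h
      refine hinc' i e he ?_
      rw [hi]
      simp [MG.inc]
    · obtain ⟨i, hi⟩ := (hU _).1 h
      refine hinc' i e he ?_
      rw [hi]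
      simp [MG.inc]
  have hcl : F ∩ G.cut U = ∅ := by
    rw [Finset.eq_empty_iff_forall_notMem]
    intro e he
    rw [Finset.mem_inter, mem_cut] at he
    obtain ⟨heF, hne⟩ := he
    by_cases h : G.s e ∈ U ∨ G.t e ∈ U
    · obtain ⟨k, hk⟩ := hsU e heF h
      have := hends k
      rw [hk] at this
      exact hne ⟨fun _ => this.2, fun _ => this.1⟩
    · push Not at h
      exact hne ⟨fun h1 => absurd h1 h.1, fun h1 => absurd h1 h.2⟩
  have hcv : ∀ u, G.Rch F v0 u ↔ ∃ i, v i = u := by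
    intro u
    constructor
    · intro h
      have h0 : v0 ∈ U := (hU _).2 ⟨0, hv0⟩
      exact (hU u).1 (closed_Rch G F U hcl v0 u h0 h)
    · rintro ⟨i, rfl⟩
      exact hreach i
  have hce : ∀ e, e ∈ G.ce F v0 ↔ ∃ i, f i = e := by
    intro e
    rw [mem_ce]
    constructor
    · rintro ⟨he, h⟩
      exact hsU e he (Or.inl ((hU _).2 ((hcv _).1 h)))
    · rintro ⟨i, rfl⟩
      exact ⟨(hJ i).1, (hcv _).2 ((hU _).1 (hends i).1)⟩
  have hcard : (G.ce F v0).card = n := by
    have h1 : G.ce F v0 = Finset.image f (Finset.range n) := by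
      ext e
      rw [hce, Finset.mem_image]
      constructor
      · rintro ⟨i, h⟩
        exact ⟨i % n, Finset.mem_range.mpr (hmodlt i), (hmod i).2.trans h⟩
      · rintro ⟨i, _, h⟩
        exact ⟨i, h⟩
    rw [h1, Finset.card_image_of_injOn, Finset.card_range]
    intro i hi j hj h
    exact hfinj i (Finset.mem_range.mp hi) j (Finset.mem_range.mp hj) h
  rw [hcard]
  refine ⟨v, f, hv0, hJ, hff, hper, hvinj, hfinj, ?_, ?_, hinc, hn⟩
  · intro u
    rw [mem_cv, hcv]
    constructor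
    · rintro ⟨i, h⟩
      exact ⟨i % n, hmodlt i, (hmod i).1.trans h⟩
    · rintro ⟨i, _, h⟩
      exact ⟨i, h⟩
  · intro e
    rw [hce]
    constructor
    · rintro ⟨i, h⟩
      exact ⟨i % n, hmodlt i, (hmod i).2.trans h⟩
    · rintro ⟨i, _, h⟩
      exact ⟨i, h⟩

/-- the edge sets of the components of a 2-regular graph: even, pairwise disjoint -/
theorem ce_props (G : MG V E) (F : Finset E) (hF : ∀ v, G.dg F v = 2) :
    (∀ u, G.Ev (G.ce F u)) ∧ (∀ u, G.ce F u ⊆ F) ∧
      (∀ u u', G.ce F u ≠ G.ce F u' → Disjoint (G.ce F u) (G.ce F u')) ∧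
      (∀ u u', G.Rch F u u' ↔ G.ce F u = G.ce F u') := by
  classical
  have hsub : ∀ u, G.ce F u ⊆ F := by
    intro u e he
    exact ((mem_ce G F u e).1 he).1
  -- an edge of F at w belongs to the component of w
  have hat : ∀ u e, e ∈ F → G.Rch F u (G.s e) → ∀ w, G.inc e w ≠ 0 → G.Rch F u w := by
    intro u e he h w hw
    by_cases h1 : G.s e = w
    · rw [← h1]
      exact h
    · by_cases h2 : G.t e = w
      · rw [← h2]
        exact Rch_trans G F _ _ _ h (Rch_edge G F e he)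
      · exact absurd (by simp [MG.inc, h1, h2]) hw
  have hat' : ∀ u e, e ∈ F → ∀ w, G.inc e w ≠ 0 → G.Rch F u w → G.Rch F u (G.s e) := by
    intro u e he w hw h
    by_cases h1 : G.s e = w
    · rw [h1]
      exact h
    · by_cases h2 : G.t e = w
      · rw [← h2] at h
        exact Rch_trans G F _ _ _ h (Rch_symm G F _ _ (Rch_edge G F e he))
      · exact absurd (by simp [MG.inc, h1, h2]) hw
  have hdg : ∀ u w, (G.Rch F u w → G.dg (G.ce F u) w = 2) ∧ (¬ G.Rch F u w → G.dg (G.ce F u) w = 0) := by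
    intro u w
    constructor
    · intro h
      rw [← hF w]
      unfold MG.dg
      refine Finset.sum_subset (hsub u) ?_
      intro e he hne
      by_contra hw
      exact hne ((mem_ce G F u e).2 ⟨he, hat' u e he w hw h⟩)
    · intro h
      unfold MG.dg
      refine Finset.sum_eq_zero ?_
      intro e he
      by_contra hw
      have h1 := (mem_ce G F u e).1 he
      exact h (hat u e h1.1 h1.2 w hw)
  have hnonempty : ∀ u, ∃ e ∈ G.ce F u, G.inc e u ≠ 0 := by
    intro u
    by_contra hcon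
    push Not at hcon
    have h1 := (hdg u u).1 (Rch_refl G F u)
    have h2 : G.dg (G.ce F u) u = 0 := by
      unfold MG.dg
      exact Finset.sum_eq_zero hcon
    omega
  have hRce : ∀ u u', G.Rch F u u' → G.ce F u = G.ce F u' := by
    intro u u' h
    ext e
    rw [mem_ce, mem_ce]
    constructor
    · rintro ⟨h1, h2⟩
      exact ⟨h1, Rch_trans G F _ _ _ (Rch_symm G F _ _ h) h2⟩
    · rintro ⟨h1, h2⟩
      exact ⟨h1, Rch_trans G F _ _ _ h h2⟩
  refine ⟨?_, hsub, ?_, ?_⟩
  · intro u w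
    by_cases h : G.Rch F u w
    · rw [(hdg u w).1 h]
      exact even_two
    · rw [(hdg u w).2 h]
      exact Even.zero
  · intro u u' hne
    rw [Finset.disjoint_left]
    intro e he he'
    have h1 := (mem_ce G F u e).1 he
    have h2 := (mem_ce G F u' e).1 he'
    exact hne (hRce u u' (Rch_trans G F _ _ _ h1.2 (Rch_symm G F _ _ h2.2)))
  · intro u u'
    constructor
    · exact hRce u u'
    · intro h
      obtain ⟨e, he, hinc⟩ := hnonempty u'
      rw [← h] at he
      have h1 := (mem_ce G F u e).1 he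
      exact hat u e h1.1 h1.2 u' hinc

end MG

end Pool.Agent.Lib.MP_95e9b3_coC
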