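import Pool.Agent.Lib.MP_95e9b3_coC.Reach

/-!
# JOB Flows: flows with values in the Klein four group `K4 = ZMod 2 × ZMod 2`

`Fl x` means `∑ e, inc e v • x e = 0` for every vertex. A coordinate of this equation is the
statement that `#{...}` is even: for a function `b : E → ZMod 2`,
`∑ e, inc e v • b e = (dg {e | b e = 1} v : ZMod 2)`. Since `b e ∈ {0, 1}`. `2 • k = 0` in `K4`.

`Fl_cut`: sum the vertex equations over `U`: an edge with both ends in `U` contributes `2 • x e = 0`.
`Fl_ser`: by `Fl_cut` for the cut `{e, f}`: `x e + x f = 0`.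
`Fl_lift`: let `Y1 = {e ∉ Z | (y e).1 = 1}`. It is enough to find `P1 ⊆ Z` with `P1 ∪ Y1` even, i.e.
`Sim P1 Y1` (`join_exists` with `F = Z`, `J0 = Y1`: if `Z ∩ cut U = ∅` then `U` is a union of fibres
of `f`, `U = {v | f v ∈ U'}` with `U' = image of U`, and `(Y1 ∩ cut U).card` is even because
`cut U = (G.mp f).cut U'` and the first coordinate of `Fl_cut` for `y` in `G.mp f`; note that edges
of `Z` are not in `cut U`). The same for the second coordinate.
`Fl_par`: `H` is a graph in which the edges outside `A` are loops, `x` nowhere zero on `A`. With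
`a, b, c` the degrees of the three nonzero classes at `v` (edges of `A` only; loops contribute even
numbers and `2 • x = 0`), the two coordinates of the flow equation say that `d_(1,0) + d_(1,1)` and
`d_(0,1) + d_(1,1)` are even; so the three degrees have the same parity, and `dg A v` is their sum.
-/

set_option autoImplicit false

namespace Pool.Agent.Lib.MP_95e9b3_coC

open Finset
open scoped symmDiff

namespace MG

variable {V W E : Type} [Fintype V] [DecidableEq V] [Fintype W] [DecidableEq W]
  [Fintype E] [DecidableEq E]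

private theorem Flows_z2 (z : ZMod 2) : z = 0 ∨ z = 1 := by
  revert z
  decide

private theorem Flows_two (g : K4) : g + g = 0 := by
  revert g
  decide

private theorem Flows_even_smul (g : K4) (n : ℕ) (h : Even n) : n • g = 0 := by
  obtain ⟨m, rfl⟩ := h
  rw [add_smul, Flows_two]

private theorem Flows_coord (G : MG V E) (b : E → ZMod 2) (v : V) :
    ∑ e, G.inc e v • b e = ((G.dg (Finset.univ.filter (fun e => b e = 1)) v : ℕ) : ZMod 2) := by
  unfold dg
  rw [Nat.cast_sum, Finset.sum_filter]
  refine Finset.sum_congr rfl fun e _ => ?_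
  rcases Flows_z2 (b e) with h | h
  · rw [h, smul_zero, if_neg (by decide)]
  · rw [h, if_pos rfl, nsmul_eq_mul, mul_one]

private theorem Flows_cast (n : ℕ) : ((n : ℕ) : ZMod 2) = 0 ↔ Even n := by
  rw [ZMod.natCast_eq_zero_iff, even_iff_two_dvd]

private theorem Flows_iff (G : MG V E) (x : E → K4) :
    G.Fl x ↔ G.Ev (Finset.univ.filter (fun e => (x e).1 = 1)) ∧
      G.Ev (Finset.univ.filter (fun e => (x e).2 = 1)) := by
  have h1 : ∀ v, (∑ e, G.inc e v • x e).1 =
      ((G.dg (Finset.univ.filter (fun e => (x e).1 = 1)) v : ℕ) : ZMod 2) := by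
    intro v
    rw [← Flows_coord, Prod.fst_sum]
    rfl
  have h2 : ∀ v, (∑ e, G.inc e v • x e).2 =
      ((G.dg (Finset.univ.filter (fun e => (x e).2 = 1)) v : ℕ) : ZMod 2) := by
    intro v
    rw [← Flows_coord, Prod.snd_sum]
    rfl
  constructor
  · intro h
    constructor
    · intro v
      rw [← Flows_cast, ← h1, h v]
      rfl
    · intro v
      rw [← Flows_cast, ← h2, h v]
      rfl
  · rintro ⟨h, h'⟩ v
    apply Prod.ext
    · rw [h1, (Flows_cast _).2 (h v)]
      rfl
    · rw [h2, (Flows_cast _).2 (h' v)]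
      rfl

private theorem Flows_sum_inc (G : MG V E) (U : Finset V) (e : E) :
    ∑ v ∈ U, G.inc e v = (if G.s e ∈ U then 1 else 0) + (if G.t e ∈ U then 1 else 0) := by
  unfold inc
  rw [Finset.sum_add_distrib, Finset.sum_ite_eq, Finset.sum_ite_eq]

theorem Fl_zero (G : MG V E) : G.Fl (fun _ => 0) := by
  intro v
  simp

theorem Fl_add (G : MG V E) (x y : E → K4) (hx : G.Fl x) (hy : G.Fl y) :
    G.Fl (fun e => x e + y e) := by
  intro v
  have h1 := hx v
  have h2 := hy v
  have h3 : ∑ e, G.inc e v • (x e + y e) = ∑ e, G.inc e v • x e + ∑ e, G.inc e v • y e := by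
    rw [← Finset.sum_add_distrib]
    exact Finset.sum_congr rfl fun e _ => smul_add _ _ _
  rw [h3, h1, h2, add_zero]

/-- the indicator of an even set times a constant -/
theorem Fl_ind (G : MG V E) (Z : Finset E) (hZ : G.Ev Z) (g : K4) :
    G.Fl (fun e => if e ∈ Z then g else 0) := by
  intro v
  have h1 : ∑ e, G.inc e v • (if e ∈ Z then g else 0) = G.dg Z v • g := by
    unfold dg
    rw [Finset.sum_smul]
    have h2 : ∀ e, G.inc e v • (if e ∈ Z then g else 0) = if e ∈ Z then G.inc e v • g else 0 := by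
      intro e
      split_ifs
      · rfl
      · exact smul_zero _
    rw [Finset.sum_congr rfl fun e _ => h2 e, Finset.sum_ite_mem, Finset.univ_inter]
  rw [h1]
  exact Flows_even_smul g _ (hZ v)

/-- for every additive map to `ZMod 2` the set `{φ (x e) = 1}` is even -/
theorem Fl_hom (G : MG V E) (x : E → K4) (hx : G.Fl x) (φ : K4 →+ ZMod 2) :
    G.Ev (Finset.univ.filter (fun e => φ (x e) = 1)) := by
  intro v
  rw [← Flows_cast, ← Flows_coord]
  have h1 : ∑ e, G.inc e v • φ (x e) = φ (∑ e, G.inc e v • x e) := by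
    rw [map_sum]
    exact Finset.sum_congr rfl fun e _ => (map_nsmul φ _ _).symm
  rw [h1, hx v, map_zero]

/-- a pair of even sets gives a flow -/
theorem Fl_of_Ev (G : MG V E) (X Y : Finset E) (hX : G.Ev X) (hY : G.Ev Y) :
    G.Fl (fun e => ((if e ∈ X then 1 else 0 : ZMod 2), (if e ∈ Y then 1 else 0 : ZMod 2))) := by
  rw [Flows_iff]
  have h1 : ∀ Z : Finset E,
      Finset.univ.filter (fun e => (if e ∈ Z then 1 else 0 : ZMod 2) = 1) = Z := by
    intro Z
    ext e
    rw [Finset.mem_filter]
    constructor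
    · rintro ⟨-, h⟩
      by_contra hc
      rw [if_neg hc] at h
      exact absurd h (by decide)
    · intro h
      exact ⟨Finset.mem_univ e, if_pos h⟩
  constructor
  · have h2 := h1 X
    show G.Ev (Finset.univ.filter (fun e => (if e ∈ X then 1 else 0 : ZMod 2) = 1))
    rw [h2]
    exact hX
  · have h2 := h1 Y
    show G.Ev (Finset.univ.filter (fun e => (if e ∈ Y then 1 else 0 : ZMod 2) = 1))
    rw [h2]
    exact hY

theorem Fl_cut (G : MG V E) (x : E → K4) (hx : G.Fl x) (U : Finset V) :
    ∑ e ∈ G.cut U, x e = 0 := by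
  have h1 : ∑ v ∈ U, ∑ e, G.inc e v • x e = 0 :=
    Finset.sum_eq_zero fun v _ => hx v
  rw [Finset.sum_comm] at h1
  have h2 : ∀ e, ∑ v ∈ U, G.inc e v • x e = if e ∈ G.cut U then x e else 0 := by
    intro e
    rw [← Finset.sum_smul, Flows_sum_inc]
    have hm := mem_cut G U e
    by_cases hs : G.s e ∈ U
    · by_cases ht : G.t e ∈ U
      · have hn : e ∉ G.cut U := fun h => (hm.1 h) ⟨fun _ => ht, fun _ => hs⟩
        rw [if_pos hs, if_pos ht, if_neg hn]
        exact Flows_even_smul _ _ (by decide)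
      · have hn : e ∈ G.cut U := hm.2 fun h => ht (h.1 hs)
        rw [if_pos hs, if_neg ht, if_pos hn]
        exact one_smul ℕ _
    · by_cases ht : G.t e ∈ U
      · have hn : e ∈ G.cut U := hm.2 fun h => hs (h.2 ht)
        rw [if_neg hs, if_pos ht, if_pos hn]
        exact one_smul ℕ _
      · have hn : e ∉ G.cut U := fun h => (hm.1 h) ⟨fun h' => absurd h' hs, fun h' => absurd h' ht⟩
        rw [if_neg hs, if_neg ht, if_neg hn]
        exact zero_smul ℕ _
  rw [Finset.sum_congr rfl fun e _ => h2 e, Finset.sum_ite_mem, Finset.univ_inter] at h1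
  exact h1

theorem Fl_ser (G : MG V E) (x : E → K4) (hx : G.Fl x) (e f : E) (h : G.Ser e f) : x e = x f := by
  rcases h with h | ⟨U, hU⟩
  · rw [h]
  · by_cases hef : e = f
    · rw [hef]
    · have h1 := Fl_cut G x hx U
      rw [hU, Finset.sum_pair hef] at h1
      have h2 := Flows_two (x f)
      calc x e = x e + (x f + x f) := by rw [h2, add_zero]
        _ = (x e + x f) + x f := by rw [add_assoc]
        _ = x f := by rw [h1, zero_add]

theorem Fl_mp (G : MG V E) (f : V → W) (x : E → K4) (hx : G.Fl x) : (G.mp f).Fl x := by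
  intro y
  have h1 : ∀ e, (G.mp f).inc e y = ∑ v ∈ Finset.univ.filter (fun v => f v = y), G.inc e v := by
    intro e
    rw [Flows_sum_inc]
    unfold inc mp
    simp only [Finset.mem_filter, Finset.mem_univ, true_and]
  have h2 : ∑ e, (G.mp f).inc e y • x e =
      ∑ v ∈ Finset.univ.filter (fun v => f v = y), ∑ e, G.inc e v • x e := by
    rw [Finset.sum_comm]
    refine Finset.sum_congr rfl fun e _ => ?_
    rw [h1, Finset.sum_smul]
  rw [h2]
  exact Finset.sum_eq_zero fun v _ => hx v

theorem Fl_lift (G : MG V E) (Z : Finset E) (f : V → W)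
    (hf : ∀ u v, f u = f v ↔ G.Rch Z u v) (y : E → K4) (hy : (G.mp f).Fl y) :
    ∃ x : E → K4, G.Fl x ∧ ∀ e, e ∉ Z → x e = y e := by
  have hcut : ∀ U : Finset V, Z ∩ G.cut U = ∅ →
      ∃ U' : Finset W, G.cut U = (G.mp f).cut U' := by
    intro U hU
    refine ⟨U.image f, ?_⟩
    rw [cut_mp]
    have h1 : Finset.univ.filter (fun v => f v ∈ U.image f) = U := by
      ext v
      rw [Finset.mem_filter, Finset.mem_image]
      constructor
      · rintro ⟨-, u, hu, huv⟩
        exact closed_Rch G Z U hU u v hu ((hf u v).1 huv)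
      · intro hv
        exact ⟨Finset.mem_univ v, v, hv, rfl⟩
    rw [h1]
  have key : ∀ b : E → ZMod 2, (G.mp f).Ev (Finset.univ.filter (fun e => b e = 1)) →
      ∃ b' : E → ZMod 2, G.Ev (Finset.univ.filter (fun e => b' e = 1)) ∧ ∀ e, e ∉ Z → b' e = b e := by
    intro b hb
    obtain ⟨J, hJ, hJS⟩ := join_exists G Z ((Finset.univ.filter (fun e => b e = 1)) \ Z) (by
      intro U hU
      obtain ⟨U', hU'⟩ := hcut U hU
      have h1 := Ev_cut (G.mp f) _ hb U'
      rw [← hU'] at h1
      have h2 : ((Finset.univ.filter (fun e => b e = 1)) \ Z) ∩ G.cut U =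
          (Finset.univ.filter (fun e => b e = 1)) ∩ G.cut U := by
        ext e
        rw [Finset.mem_inter, Finset.mem_inter, Finset.mem_sdiff]
        constructor
        · rintro ⟨⟨h3, -⟩, h4⟩
          exact ⟨h3, h4⟩
        · rintro ⟨h3, h4⟩
          refine ⟨⟨h3, fun h5 => ?_⟩, h4⟩
          have h6 : e ∈ Z ∩ G.cut U := Finset.mem_inter.2 ⟨h5, h4⟩
          rw [hU] at h6
          exact absurd h6 (Finset.notMem_empty e)
      rw [h2]
      exact h1)
    refine ⟨fun e => if e ∈ Z then (if e ∈ J then 1 else 0) else b e, ?_, ?_⟩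
    · have h3 : Finset.univ.filter
          (fun e => (if e ∈ Z then (if e ∈ J then 1 else 0) else b e : ZMod 2) = 1) =
          J ∆ ((Finset.univ.filter (fun e => b e = 1)) \ Z) := by
        ext e
        rw [Finset.mem_filter, Finset.mem_symmDiff, Finset.mem_sdiff, Finset.mem_filter]
        by_cases hz : e ∈ Z
        · by_cases hj : e ∈ J
          · simp [hz, hj]
          · simp [hz, hj]
        · have hj : e ∉ J := fun h => hz (hJ h)
          simp [hz, hj]
      rw [h3]
      exact (Sim_iff G _ _).1 hJS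
    · intro e he
      exact if_neg he
  obtain ⟨h1, h2⟩ := (Flows_iff (G.mp f) y).1 hy
  obtain ⟨b1, hb1, hb1'⟩ := key (fun e => (y e).1) h1
  obtain ⟨b2, hb2, hb2'⟩ := key (fun e => (y e).2) h2
  refine ⟨fun e => (b1 e, b2 e), (Flows_iff G _).2 ⟨hb1, hb2⟩, ?_⟩
  intro e he
  exact Prod.ext (hb1' e he) (hb2' e he)

private theorem Flows_dec (k z : K4) (hk : k ≠ 0) (hz : z ≠ 0) :
    k.2 * z.1 + k.1 * z.2 = 1 ↔ z ≠ k := by
  revert k z
  decide

private theorem Flows_loops (H : MG V E) (B : Finset E) (h : ∀ e ∈ B, H.s e = H.t e) : H.Ev B := by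
  intro v
  unfold dg
  refine Finset.even_sum _ fun e he => ?_
  unfold inc
  rw [h e he]
  exact ⟨_, rfl⟩

private theorem Flows_par_ne (H : MG V E) (A : Finset E) (x : E → K4) (hx : H.Fl x)
    (hA : ∀ e ∈ A, x e ≠ 0) (hout : ∀ e, e ∉ A → H.s e = H.t e) (k : K4) (hk : k ≠ 0) :
    H.Ev (A.filter (fun e => x e ≠ k)) := by
  have h1 := Fl_hom H x hx (AddMonoidHom.mk' (fun z : K4 => k.2 * z.1 + k.1 * z.2) (by
    intro a b
    show k.2 * (a.1 + b.1) + k.1 * (a.2 + b.2) = _
    ring))
  obtain ⟨S, hS⟩ : ∃ S : Finset E, S = Finset.univ.filter (fun e => k.2 * (x e).1 + k.1 * (x e).2 = 1) :=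
    ⟨_, rfl⟩
  have h2 : H.Ev S := by
    rw [hS]
    exact h1
  have h3 : S \ (S \ A) = A.filter (fun e => x e ≠ k) := by
    ext e
    rw [Finset.mem_sdiff, Finset.mem_sdiff, Finset.mem_filter, hS, Finset.mem_filter]
    constructor
    · rintro ⟨⟨-, h4⟩, h5⟩
      have he : e ∈ A := by
        by_contra hc
        exact h5 ⟨⟨Finset.mem_univ e, h4⟩, hc⟩
      exact ⟨he, (Flows_dec k (x e) hk (hA e he)).1 h4⟩
    · rintro ⟨he, h4⟩
      exact ⟨⟨Finset.mem_univ e, (Flows_dec k (x e) hk (hA e he)).2 h4⟩, fun h5 => h5.2 he⟩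
  rw [← h3]
  exact Ev_sdiff H _ _ Finset.sdiff_subset (Flows_loops H _ fun e he =>
    hout e (Finset.mem_sdiff.1 he).2) h2

theorem Fl_par (H : MG V E) (A : Finset E) (x : E → K4) (hx : H.Fl x)
    (hA : ∀ e ∈ A, x e ≠ 0) (hout : ∀ e, e ∉ A → H.s e = H.t e) (k : K4) (hk : k ≠ 0) :
    H.Sim (A.filter (fun e => x e = k)) A := by
  have h1 := Flows_par_ne H A x hx hA hout k hk
  rw [Sim_iff]
  have h2 : (A.filter (fun e => x e = k)) ∆ A = A.filter (fun e => x e ≠ k) := by
    ext e
    rw [Finset.mem_symmDiff, Finset.mem_filter, Finset.mem_filter]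
    constructor
    · rintro (⟨⟨h3, -⟩, h4⟩ | ⟨h3, h4⟩)
      · exact absurd h3 h4
      · exact ⟨h3, fun h5 => h4 ⟨h3, h5⟩⟩
    · rintro ⟨h3, h4⟩
      exact Or.inr ⟨h3, fun h5 => h4 h5.2⟩
  rw [h2]
  exact h1

/-- the edges of value `≠ k` form an even set -/
theorem Fl_par_ne (H : MG V E) (A : Finset E) (x : E → K4) (hx : H.Fl x)
    (hA : ∀ e ∈ A, x e ≠ 0) (hout : ∀ e, e ∉ A → H.s e = H.t e) (k : K4) (hk : k ≠ 0) :
    H.Ev (A.filter (fun e => x e ≠ k)) := by
  exact Flows_par_ne H A x hx hA hout k hk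

/-- changing the values on a subset `L` of the edges of values `i`, `j`: the edges of `J ⊆ L` get
`i`, those of `L \ J` get `j`, where `L = {x ∈ {i, j}}` and `J` has the parities of `{x = i}` -/
theorem Fl_recolor (H : MG V E) (A : Finset E) (x : E → K4) (hx : H.Fl x)
    (i j : K4) (J : Finset E) (hJ : J ⊆ A.filter (fun e => x e = i ∨ x e = j))
    (hS : H.Sim J (A.filter (fun e => x e = i))) :
    H.Fl (fun e => if e ∈ A ∧ (x e = i ∨ x e = j) then (if e ∈ J then i else j) else x e) := by
  obtain ⟨C, hC⟩ : ∃ C : Finset E, C = J ∆ (A.filter (fun e => x e = i)) := ⟨_, rfl⟩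
  have hCe : H.Ev C := by
    rw [hC]
    exact (Sim_iff H _ _).1 hS
  have h1 := Fl_add H x _ hx (Fl_ind H C hCe (i + j))
  have h2 : (fun e => if e ∈ A ∧ (x e = i ∨ x e = j) then (if e ∈ J then i else j) else x e) =
      fun e => x e + (if e ∈ C then i + j else 0) := by
    funext e
    by_cases hL : e ∈ A ∧ (x e = i ∨ x e = j)
    · rw [if_pos hL]
      by_cases hi : x e = i
      · have hmi : e ∈ A.filter (fun e => x e = i) := Finset.mem_filter.2 ⟨hL.1, hi⟩
        by_cases hj : e ∈ J
        · have hn : e ∉ C := by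
            rw [hC, Finset.mem_symmDiff]
            rintro (⟨-, h⟩ | ⟨-, h⟩)
            · exact h hmi
            · exact h hj
          rw [if_pos hj, if_neg hn, hi, add_zero]
        · have hn : e ∈ C := by
            rw [hC, Finset.mem_symmDiff]
            exact Or.inr ⟨hmi, hj⟩
          rw [if_neg hj, if_pos hn, hi, ← add_assoc, Flows_two, zero_add]
      · have hij : x e = j := by
          rcases hL.2 with h | h
          · exact absurd h hi
          · exact h
        have hmi : e ∉ A.filter (fun e => x e = i) := fun h => hi (Finset.mem_filter.1 h).2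
        by_cases hj : e ∈ J
        · have hn : e ∈ C := by
            rw [hC, Finset.mem_symmDiff]
            exact Or.inl ⟨hj, hmi⟩
          rw [if_pos hj, if_pos hn, hij, add_comm i j, ← add_assoc, Flows_two, zero_add]
        · have hn : e ∉ C := by
            rw [hC, Finset.mem_symmDiff]
            rintro (⟨h, -⟩ | ⟨h, -⟩)
            · exact hj h
            · exact hmi h
          rw [if_neg hj, if_neg hn, hij, add_zero]
    · have hn : e ∉ C := by
        rw [hC, Finset.mem_symmDiff]
        rintro (⟨h, -⟩ | ⟨h, -⟩)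
        · exact hL (by
            have h3 := Finset.mem_filter.1 (hJ h)
            exact h3)
        · have h3 := Finset.mem_filter.1 h
          exact hL ⟨h3.1, Or.inl h3.2⟩
      rw [if_neg hL, if_neg hn, add_zero]
  rw [h2]
  exact h1

end MG

end Pool.Agent.Lib.MP_95e9b3_coC
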