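import Pool.Agent.Lib.MP_95e9b3_coC.CI
import Pool.Agent.Lib.MP_95e9b3_coC.Flows

/-!
# JOB Cnt1: the main counting inequality

`H` is a graph in which the edges outside `A` are loops, `x` a flow, nonzero on `A`.
`a = (1,0)`, `b = (0,1)`, `c = (1,1)` are the nonzero elements of `K4`.
`A_k = A.filter (x = k)`, `L_k = A.filter (x ≠ k)`, `B_k = Bk A x k`, `d v = dg A v`.

`CI_k`: the application of `CI` with `L = L_k`, `J = A_i`, `i ≠ k` nonzero. `So L_k A_i = So L_k A`
because `A_i` and `A` have the same parities (`Fl_par`, `Sim_cut`), so `|So L_k A_i| = |L_k| - |B_k|`.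
The statement `CI_k` below is then just `CI`; also `dg A_i v % 2 = dg A v % 2`. `L_k` is even:
`Fl_par_ne`. For `e ∈ D`: `x e` and `x (π e)` are the two nonzero values different from `k`, and they
are different.

`local_ineq`: pure arithmetic. `d_k = dg A_k v`, all three have the parity of `d`, sum `d`, and
`dg L_k v = d - d_k`. Let `mis` be the number of `k` with `((d - d_k) / 2) % 2 ≠ d % 2`. If
`d ≥ 7`, `42 + d ≤ 7 d`. If `d = 5`: the `d_k` are `3, 1, 1` and `mis = 2`: `47 ≤ 49`. If `d = 6` and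
not all `d_k = 2`: they are `4, 2, 0` or `6, 0, 0`, `mis = 2`: `48 ≤ 56`. If `d = 4`: `46 ≤ 28 + 18`.

`main_ineq`. Call `v` regular if all `dg A_k v = 2`. Let `Σn` be the sum of `d v` over all non regular
`v`. Sum `CI_k` (last two parts: `#mis_k ≤ |L_k \ D| ≤ |L_k| + 2 n - 2 (|L_k| - |B_k|)`) over the three
`k`; `∑ |L_k| = 2 |A|`, `2 |A| = ∑ v, d v`: `∑ v, (d v + mis v) ≤ 6 n + 2 β`, `β = ∑ |B_k|`.
For regular `v`: `d v + mis v ≥ 6`. For the others use `local_ineq`: with a loop at `v` in `A` (then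
`d v ≥ 2`): `42 + d ≤ 7 (d + mis) + 35`; if `d v = 4` without loop: `42 + d ≤ 7 (d + mis) + 18`;
otherwise `d v ≥ 5` by `hdeg`: `42 + d ≤ 7 (d + mis)`. Sum: `Σn ≤ 14 β + 18 N4 + 35 λ`, `λ` the number
of vertices with a loop in `A`; and `2 λ ≤ β` because a loop of value `k` is in `B_j` for both nonzero
`j ≠ k` (a loop is in no cut).
-/

set_option autoImplicit false

namespace Pool.Agent.Lib.MP_95e9b3_coC

open Finset
open scoped symmDiff

namespace MG

variable {V W E : Type} [Fintype V] [DecidableEq V] [Fintype W] [DecidableEq W]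
  [Fintype E] [DecidableEq E]

private theorem cnt1_other : ∀ k : K4, k ≠ 0 → ∃ i : K4, i ≠ 0 ∧ i ≠ k := by
  decide

private theorem cnt1_three : ∀ k : K4, k ≠ 0 → k = (1, 0) ∨ k = (0, 1) ∨ k = (1, 1) := by
  decide

private theorem cnt1_n1 : ((1, 0) : K4) ≠ (0, 1) := by decide
private theorem cnt1_n2 : ((1, 0) : K4) ≠ (1, 1) := by decide
private theorem cnt1_n3 : ((0, 1) : K4) ≠ (1, 1) := by decide
private theorem cnt1_z1 : ((1, 0) : K4) ≠ 0 := by decide
private theorem cnt1_z2 : ((0, 1) : K4) ≠ 0 := by decide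
private theorem cnt1_z3 : ((1, 1) : K4) ≠ 0 := by decide

private theorem cnt1_So (H : MG V E) (L J A : Finset E) (h : H.Sim J A) : H.So L J = H.So L A := by
  unfold So
  refine Finset.filter_congr fun e _ => ?_
  constructor
  · rintro ⟨U, h1, h2, h3⟩
    refine ⟨U, ?_, h2, h3⟩
    rw [Nat.odd_iff] at h1 ⊢
    rw [← H.Sim_cut J A h U]
    exact h1
  · rintro ⟨U, h1, h2, h3⟩
    refine ⟨U, ?_, h2, h3⟩
    rw [Nat.odd_iff] at h1 ⊢
    rw [H.Sim_cut J A h U]
    exact h1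

theorem CI_k (H : MG V E) (A : Finset E) (x : E → K4) (hx : H.Fl x)
    (hA : ∀ e ∈ A, x e ≠ 0) (hout : ∀ e, e ∉ A → H.s e = H.t e) (k : K4) (hk : k ≠ 0) :
    ∃ (D : Finset E) (π : E → E), D ⊆ A.filter (fun e => x e ≠ k) ∧
      (∀ e ∈ D, π e ∈ D ∧ π (π e) = e ∧ x (π e) ≠ x e) ∧
      ((A.filter (fun e => x e ≠ k)) \ D).card + (A.filter (fun e => x e ≠ k)).card
        ≤ 2 * (H.Bk A x k).card + 2 * Fintype.card V ∧
      (∀ e ∈ D, ∀ a b, H.Jn e a b →
        (∀ g ∈ (A.filter (fun e => x e ≠ k)) \ D, H.inc g a = 0 ∧ H.inc g b = 0) →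
        H.Jn (π e) a b) ∧
      (∀ e ∈ D, H.s e ≠ H.t e) ∧
      (Finset.univ.filter (fun v => (H.dg (A.filter (fun e => x e ≠ k)) v / 2) % 2
        ≠ H.dg A v % 2)).card ≤ ((A.filter (fun e => x e ≠ k)) \ D).card := by
  obtain ⟨i, hi0, hik⟩ := cnt1_other k hk
  have hJ : A.filter (fun e => x e = i) ⊆ A.filter (fun e => x e ≠ k) := by
    intro e he
    rw [mem_filter] at he ⊢
    refine ⟨he.1, ?_⟩
    rw [he.2]
    exact hik
  have hL := Fl_par_ne H A x hx hA hout k hk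
  have hS := Fl_par H A x hx hA hout i hi0
  obtain ⟨D, π, h1, h2, h3, h4, h5, h6⟩ := CI H _ _ hJ hL
  have hSo := cnt1_So H (A.filter (fun e => x e ≠ k)) _ A hS
  have hsub : H.So (A.filter (fun e => x e ≠ k)) (A.filter (fun e => x e = i)) ⊆
      A.filter (fun e => x e ≠ k) := by
    unfold So
    exact filter_subset _ _
  refine ⟨D, π, h1.trans hsub, ?_, ?_, h4, h5, ?_⟩
  · intro e he
    obtain ⟨a1, a2, a3, a4⟩ := h2 e he
    refine ⟨a1, a2, fun h => ?_⟩
    have b1 := hsub (h1 he)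
    have b2 := hsub (h1 a1)
    rw [mem_filter] at b1 b2
    rw [mem_filter, mem_filter, h] at a4
    by_cases hx' : x e = i
    · exact (a4.1 ⟨b1.1, hx'⟩) ⟨b2.1, hx'⟩
    · exact hx' (a4.2 (fun hh => hx' hh.2)).2
  · rw [hSo] at h3 hsub
    have h7 : (H.Bk A x k).card + (H.So (A.filter (fun e => x e ≠ k)) A).card =
        (A.filter (fun e => x e ≠ k)).card := by
      unfold Bk
      exact card_sdiff_add_card_eq_card hsub
    omega
  · refine le_trans (le_of_eq ?_) h6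
    congr 1
    refine filter_congr fun v _ => ?_
    rw [hS v]

theorem local_ineq (d a b c : ℕ) (hs : a + b + c = d) (ha : a % 2 = d % 2) (hb : b % 2 = d % 2)
    (hc : c % 2 = d % 2) :
    (5 ≤ d → ¬ (a = 2 ∧ b = 2 ∧ c = 2) →
      42 + d ≤ 7 * (d + ((if ((d - a) / 2) % 2 ≠ d % 2 then 1 else 0)
        + (if ((d - b) / 2) % 2 ≠ d % 2 then 1 else 0)
        + (if ((d - c) / 2) % 2 ≠ d % 2 then 1 else 0)))) := by
  intro h5 hne
  rcases (by omega : 7 ≤ d ∨ d = 5 ∨ d = 6) with h | h | h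
  · have h1 : ∀ m : ℕ, 42 + d ≤ 7 * (d + m) := fun m => by omega
    exact h1 _
  · subst h
    have ha' : a ≤ 5 := by omega
    have hb' : b ≤ 5 := by omega
    interval_cases a <;> interval_cases b <;> first | omega | (split_ifs <;> omega)
  · subst h
    have ha' : a ≤ 6 := by omega
    have hb' : b ≤ 6 := by omega
    interval_cases a <;> interval_cases b <;> first | omega | (split_ifs <;> omega)

private theorem cnt1_sum (A : Finset E) (x : E → K4) (hA : ∀ e ∈ A, x e ≠ 0) (f : E → ℕ) :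
    ∑ e ∈ A.filter (fun e => x e = (1, 0)), f e + ∑ e ∈ A.filter (fun e => x e = (0, 1)), f e +
      ∑ e ∈ A.filter (fun e => x e = (1, 1)), f e = ∑ e ∈ A, f e := by
  rw [sum_filter, sum_filter, sum_filter, ← sum_add_distrib, ← sum_add_distrib]
  refine sum_congr rfl fun e he => ?_
  rcases cnt1_three (x e) (hA e he) with h | h | h
  · rw [if_pos h, if_neg, if_neg]
    · rfl
    · rw [h]
      exact cnt1_n2
    · rw [h]
      exact cnt1_n1
  · rw [if_pos h, if_neg, if_neg]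
    · omega
    · rw [h]
      exact cnt1_n3
    · rw [h]
      exact cnt1_n1.symm
  · rw [if_pos h, if_neg, if_neg]
    · omega
    · rw [h]
      exact cnt1_n3.symm
    · rw [h]
      exact cnt1_n2.symm

private theorem cnt1_ne (H : MG V E) (A : Finset E) (x : E → K4) (k : K4) (v : V) :
    H.dg (A.filter (fun e => x e ≠ k)) v = H.dg A v - H.dg (A.filter (fun e => x e = k)) v := by
  have h : ∑ e ∈ A.filter (fun e => x e = k), H.inc e v + ∑ e ∈ A.filter (fun e => x e ≠ k), H.inc e v =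
      ∑ e ∈ A, H.inc e v := sum_filter_add_sum_filter_not A (fun e => x e = k) (fun e => H.inc e v)
  unfold dg
  omega

private theorem cnt1_card_ne (A : Finset E) (x : E → K4) (k : K4) :
    (A.filter (fun e => x e ≠ k)).card + (A.filter (fun e => x e = k)).card = A.card := by
  have h : ∑ _e ∈ A.filter (fun e => x e = k), 1 + ∑ _e ∈ A.filter (fun e => x e ≠ k), 1 = ∑ _e ∈ A, 1 :=
    sum_filter_add_sum_filter_not A (fun e => x e = k) (fun _ => 1)
  rw [← card_eq_sum_ones, ← card_eq_sum_ones, ← card_eq_sum_ones] at h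
  omega

private theorem cnt1_mis (H : MG V E) (A : Finset E) (x : E → K4) (hx : H.Fl x)
    (hA : ∀ e ∈ A, x e ≠ 0) (hout : ∀ e, e ∉ A → H.s e = H.t e) (k : K4) (hk : k ≠ 0) :
    ∑ v, (if ((H.dg A v - H.dg (A.filter (fun e => x e = k)) v) / 2) % 2 ≠ H.dg A v % 2 then 1 else 0) +
      (A.filter (fun e => x e ≠ k)).card ≤ 2 * (H.Bk A x k).card + 2 * Fintype.card V := by
  obtain ⟨D, π, _, _, h3, _, _, h6⟩ := CI_k H A x hx hA hout k hk
  rw [card_filter] at h6
  have h7 : ∑ v, (if (H.dg (A.filter (fun e => x e ≠ k)) v / 2) % 2 ≠ H.dg A v % 2 then 1 else 0) =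
      ∑ v, (if ((H.dg A v - H.dg (A.filter (fun e => x e = k)) v) / 2) % 2 ≠ H.dg A v % 2 then 1 else 0) := by
    refine sum_congr rfl fun v _ => ?_
    rw [cnt1_ne]
  omega

private theorem cnt1_Bk (H : MG V E) (A : Finset E) (x : E → K4) (k : K4) (e : E) (he : e ∈ A)
    (hl : H.s e = H.t e) (hk : x e ≠ k) : e ∈ H.Bk A x k := by
  unfold Bk So
  rw [mem_sdiff, mem_filter, mem_filter]
  refine ⟨⟨he, hk⟩, ?_⟩
  rintro ⟨_, U, _, _, h⟩
  rw [mem_cut, hl] at h
  exact h Iff.rfl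

private theorem cnt1_card (H : MG V E) (A : Finset E) (x : E → K4) (g : V → E) (S : Finset V)
    (hg : ∀ v ∈ S, g v ∈ A ∧ H.s (g v) = v ∧ H.t (g v) = v) (k : K4) :
    ∑ v ∈ S, (if x (g v) ≠ k then 1 else 0) ≤ (H.Bk A x k).card := by
  rw [← card_filter]
  refine card_le_card_of_injOn g ?_ ?_
  · intro v hv
    have hv' := mem_coe.1 hv
    rw [mem_filter] at hv'
    obtain ⟨h1, h2, h3⟩ := hg v hv'.1
    exact mem_coe.2 (cnt1_Bk H A x k (g v) h1 (h2.trans h3.symm) hv'.2)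
  · intro v hv v' hv' h
    have h1 := (mem_filter.1 (mem_coe.1 hv)).1
    have h2 := (mem_filter.1 (mem_coe.1 hv')).1
    have h3 := (hg v h1).2.1
    have h4 := (hg v' h2).2.1
    rw [h] at h3
    exact h3.symm.trans h4

private theorem cnt1_two (a : K4) (ha : a ≠ 0) : (if a ≠ (1, 0) then 1 else 0) + (if a ≠ (0, 1) then 1 else 0) +
    (if a ≠ (1, 1) then 1 else 0) = 2 := by
  revert ha
  revert a
  decide

private theorem cnt1_loop (H : MG V E) (A : Finset E) (x : E → K4) (hA : ∀ e ∈ A, x e ≠ 0) :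
    2 * (Finset.univ.filter (fun v => ∃ e ∈ A, H.s e = v ∧ H.t e = v)).card ≤
      (H.Bk A x (1, 0)).card + (H.Bk A x (0, 1)).card + (H.Bk A x (1, 1)).card := by
  rcases isEmpty_or_nonempty E with h0 | h0
  · have h1 : Finset.univ.filter (fun v => ∃ e ∈ A, H.s e = v ∧ H.t e = v) = ∅ := by
      rw [filter_eq_empty_iff]
      rintro v _ ⟨e, _⟩
      exact h0.elim e
    rw [h1, card_empty]
    omega
  · have hch : ∀ v, ∃ e : E, (∃ e ∈ A, H.s e = v ∧ H.t e = v) → e ∈ A ∧ H.s e = v ∧ H.t e = v := by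
      intro v
      by_cases h : ∃ e ∈ A, H.s e = v ∧ H.t e = v
      · obtain ⟨e, he⟩ := h
        exact ⟨e, fun _ => he⟩
      · exact ⟨h0.some, fun h2 => absurd h2 h⟩
    choose g hg using hch
    set S : Finset V := Finset.univ.filter (fun v => ∃ e ∈ A, H.s e = v ∧ H.t e = v) with hS
    have hgS : ∀ v ∈ S, g v ∈ A ∧ H.s (g v) = v ∧ H.t (g v) = v := by
      intro v hv
      rw [hS, mem_filter] at hv
      exact hg v hv.2
    have h1 := cnt1_card H A x g S hgS (1, 0)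
    have h2 := cnt1_card H A x g S hgS (0, 1)
    have h3 := cnt1_card H A x g S hgS (1, 1)
    have h4 : ∑ v ∈ S, ((if x (g v) ≠ (1, 0) then 1 else 0) + (if x (g v) ≠ (0, 1) then 1 else 0) +
        (if x (g v) ≠ (1, 1) then 1 else 0)) = ∑ _v ∈ S, 2 :=
      sum_congr rfl fun v hv => cnt1_two _ (hA _ (hgS v hv).1)
    rw [sum_add_distrib, sum_add_distrib, sum_const, smul_eq_mul] at h4
    omega

private theorem cnt1_loc (d a b c : ℕ) (lp : Prop) [Decidable lp] (hs : a + b + c = d) (ha : a % 2 = d % 2)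
    (hb : b % 2 = d % 2) (hc : c % 2 = d % 2) (h4 : 4 ≤ d ∨ lp) (h2 : lp → 2 ≤ d) :
    42 + (if ¬ (a = 2 ∧ b = 2 ∧ c = 2) then d else 0) ≤
      7 * (d + ((if ((d - a) / 2) % 2 ≠ d % 2 then 1 else 0)
        + (if ((d - b) / 2) % 2 ≠ d % 2 then 1 else 0)
        + (if ((d - c) / 2) % 2 ≠ d % 2 then 1 else 0)))
        + 35 * (if lp then 1 else 0) + 18 * (if d = 4 ∧ ¬ lp then 1 else 0) := by
  by_cases hr : a = 2 ∧ b = 2 ∧ c = 2
  · rw [if_neg (not_not.2 hr)]
    obtain ⟨rfl, rfl, rfl⟩ := hr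
    omega
  · rw [if_pos hr]
    by_cases hl : lp
    · have h5 := h2 hl
      rw [if_pos hl]
      have h6 : ∀ m m' : ℕ, 42 + d ≤ 7 * (d + m) + 35 * 1 + m' := fun m m' => by omega
      exact h6 _ _
    · have h5 : 4 ≤ d := h4.resolve_right hl
      rcases (by omega : d = 4 ∨ 5 ≤ d) with h6 | h6
      · rw [if_pos (show d = 4 ∧ ¬ lp from ⟨h6, hl⟩)]
        have h7 : ∀ m m' : ℕ, 42 + d ≤ 7 * (d + m) + m' + 18 * 1 := fun m m' => by omega
        exact h7 _ _
      · have h7 := local_ineq d a b c hs ha hb hc h6 hr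
        omega

/-- `Σn ≤ 31.5 β + 18 N4`, multiplied by two -/
theorem main_ineq (H : MG V E) (A : Finset E) (x : E → K4) (hx : H.Fl x)
    (hA : ∀ e ∈ A, x e ≠ 0) (hout : ∀ e, e ∉ A → H.s e = H.t e)
    (hdeg : ∀ v, 4 ≤ H.dg A v ∨ ∃ e ∈ A, H.s e = v ∧ H.t e = v) :
    2 * (∑ v ∈ Finset.univ.filter (fun v => ¬ (H.dg (A.filter (fun e => x e = (1, 0))) v = 2 ∧
        H.dg (A.filter (fun e => x e = (0, 1))) v = 2 ∧
        H.dg (A.filter (fun e => x e = (1, 1))) v = 2)), H.dg A v) ≤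
      63 * ((H.Bk A x (1, 0)).card + (H.Bk A x (0, 1)).card + (H.Bk A x (1, 1)).card)
        + 36 * (Finset.univ.filter (fun v => H.dg A v = 4 ∧
          ¬ ∃ e ∈ A, H.s e = v ∧ H.t e = v)).card := by
  have hs : ∀ v, H.dg (A.filter (fun e => x e = (1, 0))) v + H.dg (A.filter (fun e => x e = (0, 1))) v +
      H.dg (A.filter (fun e => x e = (1, 1))) v = H.dg A v := fun v => cnt1_sum A x hA (fun e => H.inc e v)
  have hp1 := Fl_par H A x hx hA hout (1, 0) cnt1_z1
  have hp2 := Fl_par H A x hx hA hout (0, 1) cnt1_z2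
  have hp3 := Fl_par H A x hx hA hout (1, 1) cnt1_z3
  have hlp : ∀ v, (∃ e ∈ A, H.s e = v ∧ H.t e = v) → 2 ≤ H.dg A v := by
    rintro v ⟨e, he, h1, h2⟩
    have h3 : H.inc e v ≤ H.dg A v := single_le_sum (f := fun e => H.inc e v) (fun _ _ => Nat.zero_le _) he
    have h4 : H.inc e v = 2 := by
      unfold inc
      rw [if_pos h1, if_pos h2]
    omega
  have hpt : ∀ v, 42 + (if ¬ (H.dg (A.filter (fun e => x e = (1, 0))) v = 2 ∧
        H.dg (A.filter (fun e => x e = (0, 1))) v = 2 ∧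
        H.dg (A.filter (fun e => x e = (1, 1))) v = 2) then H.dg A v else 0) ≤
      7 * (H.dg A v + ((if ((H.dg A v - H.dg (A.filter (fun e => x e = (1, 0))) v) / 2) % 2 ≠ H.dg A v % 2
          then 1 else 0)
        + (if ((H.dg A v - H.dg (A.filter (fun e => x e = (0, 1))) v) / 2) % 2 ≠ H.dg A v % 2 then 1 else 0)
        + (if ((H.dg A v - H.dg (A.filter (fun e => x e = (1, 1))) v) / 2) % 2 ≠ H.dg A v % 2
          then 1 else 0)))
        + 35 * (if ∃ e ∈ A, H.s e = v ∧ H.t e = v then 1 else 0) +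
        18 * (if H.dg A v = 4 ∧ ¬ (∃ e ∈ A, H.s e = v ∧ H.t e = v) then 1 else 0) := fun v =>
    cnt1_loc _ _ _ _ _ (hs v) (hp1 v) (hp2 v) (hp3 v) (hdeg v) (hlp v)
  have hsum := sum_le_sum (fun v (_ : v ∈ (Finset.univ : Finset V)) => hpt v)
  rw [sum_add_distrib, sum_add_distrib, sum_add_distrib, ← mul_sum, ← mul_sum, ← mul_sum, sum_add_distrib,
    sum_add_distrib, sum_add_distrib, ← sum_filter, sum_const, smul_eq_mul, sum_dg_univ] at hsum
  have m1 := cnt1_mis H A x hx hA hout (1, 0) cnt1_z1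
  have m2 := cnt1_mis H A x hx hA hout (0, 1) cnt1_z2
  have m3 := cnt1_mis H A x hx hA hout (1, 1) cnt1_z3
  have c1 := cnt1_card_ne A x (1, 0)
  have c2 := cnt1_card_ne A x (0, 1)
  have c3 := cnt1_card_ne A x (1, 1)
  have c4 := cnt1_sum A x hA (fun _ => 1)
  rw [← card_eq_sum_ones, ← card_eq_sum_ones, ← card_eq_sum_ones, ← card_eq_sum_ones] at c4
  have l1 := cnt1_loop H A x hA
  rw [card_univ] at hsum
  rw [card_filter] at l1
  rw [card_filter]
  omega

end MG

end Pool.Agent.Lib.MP_95e9b3_coC
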