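import Pool.Agent.Lib.MP_95e9b3_coC.Cnt1

/-!
# JOB Cnt2: many excellent vertices

Notation of Cnt1. `a = (1,0)`, `b = (0,1)`, `c = (1,1)`; `β = ∑ |B_k|`; `Σn` = sum of `dg A v` over the
non regular vertices; `R` = number of regular vertices (all three `dg A_k v = 2`, so `dg A v = 6`);
`n` = number of vertices, `N = |A|`.

`CI_k` for `k = c` gives `D_c, πa` on `L_c` (values `a`, `b`), `CI_k` for `k = a` gives `D_a, πb` on
`L_a` (values `b`, `c`). Let `g_c = |L_c \ D_c|`, `g_a = |L_a \ D_a|`. `2 |L_k| = ∑ v, dg L_k v ≥ 4 R`.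
Every vertex has `dg A v ≥ 2` (`hdeg`), so `2 (n - R) ≤ Σn`. So
`g_k ≤ 2 |B_k| + 2 n - |L_k| ≤ 2 |B_k| + 2 (n - R) ≤ 2 |B_k| + Σn`.
`v` is touched if some `g ∈ (L_c \ D_c) ∪ (L_a \ D_a)` has `inc g v ≠ 0`; the number `τ` of touched
vertices is at most `2 g_c + 2 g_a ≤ 4 Σn + 4 β`.
`𝒢 = {f ∈ A | x f = b, s f and t f untouched}`. Such an `f` is in `L_c`, not in `L_c \ D_c`, so in
`D_c`, and also in `D_a`. `πa f ∈ D_c` has a nonzero value different from `c` and from `b`: it is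
`a`; it is parallel to `f`. `πb f ∈ D_a` has value `c` and is parallel to `f`. `πa`, `πb` are
injective on `𝒢`, because `πa (πa f) = f`.
`Exc = {v | v regular, untouched, every f ∈ A_b with inc f v ≠ 0 is in 𝒢}`. If `v` is regular and
untouched but not in `Exc`, there is `f ∈ A_b` joining `v` and a touched vertex `u`. The number of
such `v` is at most `∑ u touched, dg A_b u ≤ 2 τ + Σn`. So
`|Exc| ≥ R - 3 τ - Σn ≥ R - 13 Σn - 12 β`, and `6 R + Σn = 2 N`; with `main_ineq`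
`4 N ≤ 12 |Exc| + 158 Σn + 144 β ≤ 12 |Exc| + 5121 β + 2844 N4`.
Structure of `v ∈ Exc`: a loop of `A` at `v` would be in `L_c` or `L_a` and not in `D_c`, `D_a`
(edges of `D` have different ends), so it would touch `v`. Hence every `e ∈ A` has `inc e v ≤ 1`, and
there are exactly two edges of each value at `v`. Let `f ≠ f'` be the two edges of value `b` at
`v`; they are in `𝒢`; `πa f ≠ πa f'` are at `v`, have value `a`, etc.
-/

set_option autoImplicit false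

namespace Pool.Agent.Lib.MP_95e9b3_coC

open Finset
open scoped symmDiff

namespace MG

variable {V W E : Type} [Fintype V] [DecidableEq V] [Fintype W] [DecidableEq W]
  [Fintype E] [DecidableEq E]

private theorem cnt2_k4 : ∀ k : K4, k ≠ 0 → k = (1, 0) ∨ k = (0, 1) ∨ k = (1, 1) := by decide

omit [Fintype V] [Fintype E] [DecidableEq E] in
private theorem cnt2_dg (H : MG V E) (A : Finset E) (x : E → K4) (hA : ∀ e ∈ A, x e ≠ 0) (v : V) :
    H.dg A v = H.dg (A.filter (fun e => x e = (1, 0))) v +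
      H.dg (A.filter (fun e => x e = (0, 1))) v + H.dg (A.filter (fun e => x e = (1, 1))) v := by
  unfold dg
  rw [sum_filter, sum_filter, sum_filter, ← sum_add_distrib, ← sum_add_distrib]
  refine sum_congr rfl fun e he => ?_
  rcases cnt2_k4 (x e) (hA e he) with h | h | h
  · rw [h, if_pos rfl, if_neg (by decide), if_neg (by decide)]
    rfl
  · rw [h, if_neg (by decide), if_pos rfl, if_neg (by decide)]
    omega
  · rw [h, if_neg (by decide), if_neg (by decide), if_pos rfl]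
    omega

omit [Fintype V] [Fintype E] [DecidableEq E] in
private theorem cnt2_two (H : MG V E) (S : Finset E) (v : V) (h1 : ∀ e ∈ S, H.inc e v ≤ 1) :
    H.dg S v = (S.filter (fun e => H.inc e v ≠ 0)).card := by
  unfold dg
  rw [card_filter]
  refine sum_congr rfl fun e he => ?_
  have h2 := h1 e he
  by_cases h : H.inc e v = 0
  · rw [h, if_neg fun h3 => h3 rfl]
  · rw [if_pos h]
    omega

omit [Fintype E] in
private theorem cnt2_pair {S : Finset E} (h : S.card = 2) {a b e : E} (ha : a ∈ S) (hb : b ∈ S)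
    (hab : a ≠ b) (he : e ∈ S) : e = a ∨ e = b := by
  by_contra hc
  push Not at hc
  have h1 : ({e, a, b} : Finset E) ⊆ S := by
    intro y hy
    rw [mem_insert, mem_insert, mem_singleton] at hy
    rcases hy with rfl | rfl | rfl
    · exact he
    · exact ha
    · exact hb
  have h2 := card_le_card h1
  rw [card_eq_three.2 ⟨e, a, b, hc.1, hc.2, hab, rfl⟩] at h2
  omega

theorem excellent (H : MG V E) (A : Finset E) (x : E → K4) (hx : H.Fl x)
    (hA : ∀ e ∈ A, x e ≠ 0) (hout : ∀ e, e ∉ A → H.s e = H.t e)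
    (hdeg : ∀ v, 4 ≤ H.dg A v ∨ ∃ e ∈ A, H.s e = v ∧ H.t e = v) :
    ∃ (𝒢 : Finset E) (πa πb : E → E) (Exc : Finset V),
      (∀ f ∈ 𝒢, f ∈ A ∧ πa f ∈ A ∧ πb f ∈ A ∧ x (πa f) = (1, 0) ∧ x f = (0, 1) ∧
        x (πb f) = (1, 1) ∧ (∀ v, H.inc (πa f) v = H.inc f v) ∧
        (∀ v, H.inc (πb f) v = H.inc f v)) ∧
      (∀ f ∈ 𝒢, ∀ f' ∈ 𝒢, πa f = πa f' → f = f') ∧
      (∀ f ∈ 𝒢, ∀ f' ∈ 𝒢, πb f = πb f' → f = f') ∧
      (∀ v ∈ Exc, (∀ e ∈ A, H.inc e v ≤ 1) ∧ ∃ f ∈ 𝒢, ∃ f' ∈ 𝒢, f ≠ f' ∧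
        ∀ e ∈ A, (H.inc e v ≠ 0 ↔ e ∈ ({πa f, f, πb f, πa f', f', πb f'} : Finset E))) ∧
      A.card ≤ 3 * Exc.card
        + 1281 * ((H.Bk A x (1, 0)).card + (H.Bk A x (0, 1)).card + (H.Bk A x (1, 1)).card)
        + 711 * (Finset.univ.filter (fun v => H.dg A v = 4 ∧
          ¬ ∃ e ∈ A, H.s e = v ∧ H.t e = v)).card := by
  obtain ⟨Dc, πa, hDc, hπa, hgc, hparc, hloopc, -⟩ := CI_k H A x hx hA hout (1, 1) (by decide)
  obtain ⟨Da, πb, hDa, hπb, hga, hpara, hloopa, -⟩ := CI_k H A x hx hA hout (1, 0) (by decide)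
  have hmain := main_ineq H A x hx hA hout hdeg
  obtain ⟨Lc, hLc⟩ : ∃ L, L = A.filter (fun e => x e ≠ (1, 1)) := ⟨_, rfl⟩
  obtain ⟨La, hLa⟩ : ∃ L, L = A.filter (fun e => x e ≠ (1, 0)) := ⟨_, rfl⟩
  rw [← hLc] at hDc hgc hparc
  rw [← hLa] at hDa hga hpara
  have mLc : ∀ e, e ∈ Lc ↔ e ∈ A ∧ x e ≠ (1, 1) := fun e => by rw [hLc, mem_filter]
  have mLa : ∀ e, e ∈ La ↔ e ∈ A ∧ x e ≠ (1, 0) := fun e => by rw [hLa, mem_filter]
  obtain ⟨G, hG⟩ : ∃ G, G = (Lc \ Dc) ∪ (La \ Da) := ⟨_, rfl⟩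
  obtain ⟨T, hT⟩ : ∃ T : Finset V, T = G.image H.s ∪ G.image H.t := ⟨_, rfl⟩
  have hTs : ∀ g ∈ G, H.s g ∈ T := fun g hg => by
    rw [hT]
    exact mem_union_left _ (mem_image_of_mem _ hg)
  have hTt : ∀ g ∈ G, H.t g ∈ T := fun g hg => by
    rw [hT]
    exact mem_union_right _ (mem_image_of_mem _ hg)
  have hTn : ∀ v, v ∉ T → ∀ g ∈ G, H.inc g v = 0 := fun v hv g hg => by
    have h1 : H.s g ≠ v := fun h => hv (h ▸ hTs g hg)
    have h2 : H.t g ≠ v := fun h => hv (h ▸ hTt g hg)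
    unfold inc
    rw [if_neg h1, if_neg h2]
  have hGc : Lc \ Dc ⊆ G := by
    rw [hG]
    exact subset_union_left
  have hGa : La \ Da ⊆ G := by
    rw [hG]
    exact subset_union_right
  obtain ⟨GG, hGG⟩ : ∃ GG : Finset E, GG =
    A.filter (fun f => x f = (0, 1) ∧ H.s f ∉ T ∧ H.t f ∉ T) := ⟨_, rfl⟩
  have mGG : ∀ f, f ∈ GG ↔ f ∈ A ∧ x f = (0, 1) ∧ H.s f ∉ T ∧ H.t f ∉ T := fun f => by
    rw [hGG, mem_filter]
  have hGDc : ∀ f ∈ GG, f ∈ Dc := by
    intro f hf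
    obtain ⟨h1, h2, h3, -⟩ := (mGG f).1 hf
    by_contra hn
    refine h3 (hTs f (hGc (mem_sdiff.2 ⟨(mLc f).2 ⟨h1, ?_⟩, hn⟩)))
    rw [h2]
    decide
  have hGDa : ∀ f ∈ GG, f ∈ Da := by
    intro f hf
    obtain ⟨h1, h2, h3, -⟩ := (mGG f).1 hf
    by_contra hn
    refine h3 (hTs f (hGa (mem_sdiff.2 ⟨(mLa f).2 ⟨h1, ?_⟩, hn⟩)))
    rw [h2]
    decide
  have hst : ∀ f ∈ GG, f ∈ A ∧ πa f ∈ A ∧ πb f ∈ A ∧ x (πa f) = (1, 0) ∧ x f = (0, 1) ∧
      x (πb f) = (1, 1) ∧ (∀ v, H.inc (πa f) v = H.inc f v) ∧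
      (∀ v, H.inc (πb f) v = H.inc f v) := by
    intro f hf
    obtain ⟨h1, h2, h3, h4⟩ := (mGG f).1 hf
    have a1 := hπa f (hGDc f hf)
    have b1 := hπb f (hGDa f hf)
    have a2 := (mLc _).1 (hDc a1.1)
    have b2 := (mLa _).1 (hDa b1.1)
    have hj : H.Jn f (H.s f) (H.t f) := Or.inl ⟨rfl, rfl⟩
    have a3 := hparc f (hGDc f hf) _ _ hj fun g hg =>
      ⟨hTn _ h3 g (hGc hg), hTn _ h4 g (hGc hg)⟩
    have b3 := hpara f (hGDa f hf) _ _ hj fun g hg =>
      ⟨hTn _ h3 g (hGa hg), hTn _ h4 g (hGa hg)⟩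
    refine ⟨h1, a2.1, b2.1, ?_, h2, ?_, fun v => ?_, fun v => ?_⟩
    · rcases cnt2_k4 _ (hA _ a2.1) with h | h | h
      · exact h
      · exact absurd (h.trans h2.symm) a1.2.2
      · exact absurd h a2.2
    · rcases cnt2_k4 _ (hA _ b2.1) with h | h | h
      · exact absurd h b2.2
      · exact absurd (h.trans h2.symm) b1.2.2
      · exact h
    · rw [inc_Jn H _ _ _ a3, inc_Jn H _ _ _ hj]
    · rw [inc_Jn H _ _ _ b3, inc_Jn H _ _ _ hj]
  have hinja : ∀ f ∈ GG, ∀ f' ∈ GG, πa f = πa f' → f = f' := by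
    intro f hf f' hf' h
    rw [← (hπa f (hGDc f hf)).2.1, h, (hπa f' (hGDc f' hf')).2.1]
  have hinjb : ∀ f ∈ GG, ∀ f' ∈ GG, πb f = πb f' → f = f' := by
    intro f hf f' hf' h
    rw [← (hπb f (hGDa f hf)).2.1, h, (hπb f' (hGDa f' hf')).2.1]
  obtain ⟨Aa, hAa⟩ : ∃ Aa, Aa = A.filter (fun e => x e = (1, 0)) := ⟨_, rfl⟩
  obtain ⟨Ab, hAb⟩ : ∃ Ab, Ab = A.filter (fun e => x e = (0, 1)) := ⟨_, rfl⟩
  obtain ⟨Ac, hAc⟩ : ∃ Ac, Ac = A.filter (fun e => x e = (1, 1)) := ⟨_, rfl⟩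
  have mAa : ∀ e, e ∈ Aa ↔ e ∈ A ∧ x e = (1, 0) := fun e => by rw [hAa, mem_filter]
  have mAb : ∀ e, e ∈ Ab ↔ e ∈ A ∧ x e = (0, 1) := fun e => by rw [hAb, mem_filter]
  have mAc : ∀ e, e ∈ Ac ↔ e ∈ A ∧ x e = (1, 1) := fun e => by rw [hAc, mem_filter]
  obtain ⟨reg, hreg⟩ : ∃ reg : V → Prop,
    reg = fun v => H.dg Aa v = 2 ∧ H.dg Ab v = 2 ∧ H.dg Ac v = 2 := ⟨_, rfl⟩
  classical
  have hNR : Finset.univ.filter (fun v => ¬ (H.dg (A.filter (fun e => x e = (1, 0))) v = 2 ∧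
      H.dg (A.filter (fun e => x e = (0, 1))) v = 2 ∧
      H.dg (A.filter (fun e => x e = (1, 1))) v = 2)) = univ.filter (fun v => ¬ reg v) := by
    ext v
    rw [mem_filter, mem_filter, hreg, hAa, hAb, hAc]
  rw [hNR] at hmain
  have hdgA : ∀ v, H.dg A v = H.dg Aa v + H.dg Ab v + H.dg Ac v := by
    rw [hAa, hAb, hAc]
    exact cnt2_dg H A x hA
  have hdgLc : ∀ v, H.dg Lc v + H.dg Ac v = H.dg A v := by
    intro v
    rw [hLc, hAc, add_comm]
    exact sum_filter_add_sum_filter_not A (fun e => x e = (1, 1)) fun e => H.inc e v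
  have hdgLa : ∀ v, H.dg La v + H.dg Aa v = H.dg A v := by
    intro v
    rw [hLa, hAa, add_comm]
    exact sum_filter_add_sum_filter_not A (fun e => x e = (1, 0)) fun e => H.inc e v
  obtain ⟨Rg, hRg⟩ : ∃ Rg : Finset V, Rg = univ.filter (fun v => reg v) := ⟨_, rfl⟩
  obtain ⟨NR, hNRd⟩ : ∃ NR : Finset V, NR = univ.filter (fun v => ¬ reg v) := ⟨_, rfl⟩
  have hregv : ∀ v ∈ Rg, H.dg Aa v = 2 ∧ H.dg Ab v = 2 ∧ H.dg Ac v = 2 := by
    intro v hv
    rw [hRg, mem_filter, hreg] at hv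
    exact hv.2
  have hcardV : Rg.card + NR.card = Fintype.card V := by
    rw [hRg, hNRd, card_filter_add_card_filter_not]
    rfl
  obtain ⟨Sn, hSn⟩ : ∃ Sn : ℕ, Sn = ∑ v ∈ NR, H.dg A v := ⟨_, rfl⟩
  rw [← hNRd, ← hSn] at hmain
  have hsumA : 2 * A.card = 6 * Rg.card + Sn := by
    rw [← H.sum_dg_univ A, hSn, ← sum_filter_add_sum_filter_not univ reg, ← hRg, ← hNRd]
    congr 1
    rw [mul_comm, ← smul_eq_mul, ← sum_const]
    refine sum_congr rfl fun v hv => ?_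
    obtain ⟨h1, h2, h3⟩ := hregv v hv
    rw [hdgA, h1, h2, h3]
  have hge2 : ∀ v, 2 ≤ H.dg A v := by
    intro v
    rcases hdeg v with h | ⟨e, he, h1, h2⟩
    · omega
    · have h3 : H.inc e v = 2 := by
        unfold inc
        rw [if_pos h1, if_pos h2]
      have h4 : H.inc e v ≤ H.dg A v :=
        single_le_sum (f := fun e => H.inc e v) (fun _ _ => Nat.zero_le _) he
      omega
  have hNS : 2 * NR.card ≤ Sn := by
    rw [hSn, mul_comm, ← smul_eq_mul, ← sum_const]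
    exact sum_le_sum fun v _ => hge2 v
  have hL2 : ∀ L : Finset E, (∀ v ∈ Rg, H.dg L v = 4) → 2 * Rg.card ≤ L.card := by
    intro L hL
    have h1 : ∑ v ∈ Rg, H.dg L v ≤ ∑ v, H.dg L v :=
      sum_le_sum_of_subset (subset_univ _)
    rw [H.sum_dg_univ L, sum_congr rfl hL, sum_const, smul_eq_mul] at h1
    omega
  have hLc2 : 2 * Rg.card ≤ Lc.card := by
    refine hL2 Lc fun v hv => ?_
    have h1 := hregv v hv
    have h2 := hdgLc v
    have h3 := hdgA v
    omega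
  have hLa2 : 2 * Rg.card ≤ La.card := by
    refine hL2 La fun v hv => ?_
    have h1 := hregv v hv
    have h2 := hdgLa v
    have h3 := hdgA v
    omega
  have hTcard : T.card ≤ 2 * G.card := by
    rw [hT]
    refine (card_union_le _ _).trans ?_
    have h1 : (G.image H.s).card ≤ G.card := card_image_le
    have h2 : (G.image H.t).card ≤ G.card := card_image_le
    omega
  have hGcard : G.card ≤ (Lc \ Dc).card + (La \ Da).card := by
    rw [hG]
    exact card_union_le _ _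
  obtain ⟨Exc, hExc⟩ : ∃ Exc : Finset V, Exc = Rg.filter (fun v => v ∉ T ∧
    ∀ f ∈ A, x f = (0, 1) → H.inc f v ≠ 0 → f ∈ GG) := ⟨_, rfl⟩
  have hsub : Rg ⊆ T ∪ ((Ab ∩ H.cut T).image (fun f => if H.s f ∈ T then H.t f else H.s f) ∪
      Exc) := by
    intro v hv
    by_cases hvT : v ∈ T
    · exact mem_union_left _ hvT
    refine mem_union_right _ ?_
    by_cases hvE : v ∈ Exc
    · exact mem_union_right _ hvE
    refine mem_union_left _ ?_
    have h1 : ¬ ∀ f ∈ A, x f = (0, 1) → H.inc f v ≠ 0 → f ∈ GG := fun h => by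
      apply hvE
      rw [hExc, mem_filter]
      exact ⟨hv, hvT, h⟩
    push Not at h1
    obtain ⟨f, h2, h3, h4, h5⟩ := h1
    have h6 : H.s f ∈ T ∨ H.t f ∈ T := by
      by_contra hc
      push Not at hc
      exact h5 ((mGG f).2 ⟨h2, h3, hc.1, hc.2⟩)
    have h7 : H.s f = v ∨ H.t f = v := by
      by_contra hc
      push Not at hc
      apply h4
      unfold inc
      rw [if_neg hc.1, if_neg hc.2]
    rw [mem_image]
    by_cases h8 : H.s f = v
    · have h9 : H.s f ∉ T := by rwa [h8]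
      have h10 : H.t f ∈ T := h6.resolve_left h9
      refine ⟨f, mem_inter.2 ⟨(mAb f).2 ⟨h2, h3⟩, (mem_cut H T f).2 fun h => h9 (h.2 h10)⟩, ?_⟩
      rw [if_neg h9, h8]
    · have h8' := h7.resolve_left h8
      have h9 : H.t f ∉ T := by rwa [h8']
      have h10 : H.s f ∈ T := h6.resolve_right h9
      refine ⟨f, mem_inter.2 ⟨(mAb f).2 ⟨h2, h3⟩, (mem_cut H T f).2 fun h => h9 (h.1 h10)⟩, ?_⟩
      rw [if_pos h10, h8']
  have hcut : (Ab ∩ H.cut T).card ≤ 2 * T.card + Sn := by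
    have h1 := H.sum_dg Ab T
    have h2 : ∑ v ∈ T, H.dg Ab v ≤ ∑ v ∈ T, (2 + if ¬ reg v then H.dg A v else 0) := by
      refine sum_le_sum fun v _ => ?_
      have h3 := hdgA v
      by_cases hr : reg v
      · rw [if_neg fun h => h hr]
        rw [hreg] at hr
        have h4 := hr.2.1
        omega
      · rw [if_pos hr]
        omega
    have h5 : ∑ v ∈ T, (if ¬ reg v then H.dg A v else 0) ≤
        ∑ v, (if ¬ reg v then H.dg A v else 0) := sum_le_sum_of_subset (subset_univ _)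
    have h6 : ∑ v, (if ¬ reg v then H.dg A v else 0) = Sn := by
      rw [hSn, hNRd, sum_filter]
    rw [h6] at h5
    rw [sum_add_distrib, sum_const, smul_eq_mul] at h2
    omega
  have hRcard : Rg.card ≤ T.card + ((2 * T.card + Sn) + Exc.card) := by
    refine (card_le_card hsub).trans ((card_union_le _ _).trans ?_)
    refine Nat.add_le_add_left ((card_union_le _ _).trans ?_) _
    exact Nat.add_le_add_right (card_image_le.trans hcut) _
  refine ⟨GG, πa, πb, Exc, hst, hinja, hinjb, ?_, ?_⟩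
  · intro v hv
    rw [hExc, mem_filter] at hv
    obtain ⟨hvR, hvT, hvG⟩ := hv
    have hinc1 : ∀ e ∈ A, H.inc e v ≤ 1 := by
      intro e he
      by_contra hc
      have h1 : H.s e = v ∧ H.t e = v := by
        unfold inc at hc
        by_cases hs : H.s e = v
        · by_cases ht : H.t e = v
          · exact ⟨hs, ht⟩
          · rw [if_pos hs, if_neg ht] at hc
            omega
        · by_cases ht : H.t e = v
          · rw [if_neg hs, if_pos ht] at hc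
            omega
          · rw [if_neg hs, if_neg ht] at hc
            omega
      have h2 : H.s e = H.t e := h1.1.trans h1.2.symm
      have h3 : e ∈ G := by
        by_cases hxc : x e = (1, 1)
        · refine hGa (mem_sdiff.2 ⟨(mLa e).2 ⟨he, ?_⟩, fun h => hloopa e h h2⟩)
          rw [hxc]
          decide
        · exact hGc (mem_sdiff.2 ⟨(mLc e).2 ⟨he, hxc⟩, fun h => hloopc e h h2⟩)
      exact hvT (h1.1 ▸ hTs e h3)
    refine ⟨hinc1, ?_⟩
    obtain ⟨ra, rb, rc⟩ := hregv v hvR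
    rw [cnt2_two H Aa v fun e he => hinc1 e ((mAa e).1 he).1] at ra
    rw [cnt2_two H Ab v fun e he => hinc1 e ((mAb e).1 he).1] at rb
    rw [cnt2_two H Ac v fun e he => hinc1 e ((mAc e).1 he).1] at rc
    obtain ⟨f, f', hne, hff⟩ := card_eq_two.1 rb
    have mf : ∀ e, e ∈ A → x e = (0, 1) → H.inc e v ≠ 0 → e = f ∨ e = f' := by
      intro e h1 h2 h3
      have h4 : e ∈ ({f, f'} : Finset E) := by
        rw [← hff, mem_filter]
        exact ⟨(mAb e).2 ⟨h1, h2⟩, h3⟩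
      rwa [mem_insert, mem_singleton] at h4
    have hf1 : f ∈ A ∧ x f = (0, 1) ∧ H.inc f v ≠ 0 := by
      have h1 : f ∈ Ab.filter (fun e => H.inc e v ≠ 0) := by
        rw [hff]
        exact mem_insert_self _ _
      rw [mem_filter, mAb] at h1
      exact ⟨h1.1.1, h1.1.2, h1.2⟩
    have hf2 : f' ∈ A ∧ x f' = (0, 1) ∧ H.inc f' v ≠ 0 := by
      have h1 : f' ∈ Ab.filter (fun e => H.inc e v ≠ 0) := by
        rw [hff]
        exact mem_insert_of_mem (mem_singleton_self _)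
      rw [mem_filter, mAb] at h1
      exact ⟨h1.1.1, h1.1.2, h1.2⟩
    have hfG : f ∈ GG := hvG f hf1.1 hf1.2.1 hf1.2.2
    have hfG' : f' ∈ GG := hvG f' hf2.1 hf2.2.1 hf2.2.2
    obtain ⟨s1, s2, s3, s4, s5, s6, s7, s8⟩ := hst f hfG
    obtain ⟨t1, t2, t3, t4, t5, t6, t7, t8⟩ := hst f' hfG'
    have ma : ∀ e, e ∈ A → x e = (1, 0) → H.inc e v ≠ 0 → e = πa f ∨ e = πa f' := by
      intro e h1 h2 h3
      refine cnt2_pair ra ((mem_filter).2 ⟨(mAa _).2 ⟨s2, s4⟩, ?_⟩)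
        ((mem_filter).2 ⟨(mAa _).2 ⟨t2, t4⟩, ?_⟩) (fun h => hne (hinja f hfG f' hfG' h))
        ((mem_filter).2 ⟨(mAa _).2 ⟨h1, h2⟩, h3⟩)
      · rw [s7]
        exact hf1.2.2
      · rw [t7]
        exact hf2.2.2
    have mc : ∀ e, e ∈ A → x e = (1, 1) → H.inc e v ≠ 0 → e = πb f ∨ e = πb f' := by
      intro e h1 h2 h3
      refine cnt2_pair rc ((mem_filter).2 ⟨(mAc _).2 ⟨s3, s6⟩, ?_⟩)
        ((mem_filter).2 ⟨(mAc _).2 ⟨t3, t6⟩, ?_⟩) (fun h => hne (hinjb f hfG f' hfG' h))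
        ((mem_filter).2 ⟨(mAc _).2 ⟨h1, h2⟩, h3⟩)
      · rw [s8]
        exact hf1.2.2
      · rw [t8]
        exact hf2.2.2
    refine ⟨f, hfG, f', hfG', hne, fun e he => ?_⟩
    simp only [mem_insert, mem_singleton]
    constructor
    · intro h
      rcases cnt2_k4 _ (hA e he) with h1 | h1 | h1
      · rcases ma e he h1 h with h2 | h2
        · exact Or.inl h2
        · exact Or.inr (Or.inr (Or.inr (Or.inl h2)))
      · rcases mf e he h1 h with h2 | h2
        · exact Or.inr (Or.inl h2)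
        · exact Or.inr (Or.inr (Or.inr (Or.inr (Or.inl h2))))
      · rcases mc e he h1 h with h2 | h2
        · exact Or.inr (Or.inr (Or.inl h2))
        · exact Or.inr (Or.inr (Or.inr (Or.inr (Or.inr h2))))
    · rintro (h | h | h | h | h | h)
      · rw [h, s7]
        exact hf1.2.2
      · rw [h]
        exact hf1.2.2
      · rw [h, s8]
        exact hf1.2.2
      · rw [h, t7]
        exact hf2.2.2
      · rw [h]
        exact hf2.2.2
      · rw [h, t8]
        exact hf2.2.2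
  · omega

end MG

end Pool.Agent.Lib.MP_95e9b3_coC
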