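import Pool.Agent.Lib.MP_95e9b3_coC.Flows

/-!
# JOB Cost: three even sets covering everything

`M` is a set of edges, `F = univ \ M` is even, `x` is a flow, nonzero on `M`. `w(S) = ∑ e ∈ S, w e`.

`costC` (`k ≠ l` nonzero). Let `φ1, φ2 : K4 →+ ZMod 2` with `φ1 k = 1, φ1 l = 0`, `φ2 k = 1, φ2 l = 1`
(so for the third nonzero element `m = k + l`: `φ1 m = 1`, `φ2 m = 0`). `X = {φ1 (x e) = 1}`,
`Y = {φ2 (x e) = 1}` are even (`Fl_hom`); replace `Y` by `Y ∆ F` if `w(F ∩ Y) > w(F) / 2` (but keep the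
`M`-part: `Y ∆ F` and `Y` agree on `M`). The list `[X, X ∆ F, Y]` covers everything: `F` by `X` and
`X ∆ F`; an edge of `M` of value `k` is in all three, of value `m` in `X, X ∆ F`, of value `l` in `Y`.
Total weight: `2 w(M) + w(M_k) - w(M_l) + w(F) + w(F ∩ Y)`.

`costB`: let `F' = F \ ⋃ 𝓜` (even). For `C ∈ 𝓜` let `k_C` be a value missed by `x` on `C`, and let
`x' = x + (k_C + (1,1))` on `C`, for all `C ∈ 𝓜`, `x' = x + t` on `F'` where `t` is chosen such that
`w({e ∈ F' | x' e = (1,1)}) ≤ w(F') / 4` (the four choices of `t` give a partition of `F'`). `x'` is a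
flow (`Fl_add`, `Fl_ind`), equal to `x` on `M`, and `x' ≠ (1,1)` on all `C ∈ 𝓜`. Let `X, Y` be the even
sets `{(x' e).1 = 1}`, `{(x' e).2 = 1}`. The list `[X, Y, (X ∆ Y) ∆ F]` covers everything: an edge of `M`
is in exactly two of them; an edge of `F` is in exactly one of them if `x' e ≠ (1,1)`, in three if
`x' e = (1,1)`. Total weight `2 w(M) + w(F) + 2 w({e ∈ F | x' e = (1,1)}) ≤ 2 w(M) + w(F) + w(F') / 2`.
-/

set_option autoImplicit false

namespace Pool.Agent.Lib.MP_95e9b3_coC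

open Finset
open scoped symmDiff

namespace MG

variable {V W E : Type} [Fintype V] [DecidableEq V] [Fintype W] [DecidableEq W]
  [Fintype E] [DecidableEq E]

private theorem cost_hom (k l : K4) (hk : k ≠ 0) (hl : l ≠ 0) (hkl : k ≠ l) :
    ∃ a b c d : ZMod 2, (a * k.1 + b * k.2 = 1 ∧ a * l.1 + b * l.2 = 0) ∧
      (c * k.1 + d * k.2 = 1 ∧ c * l.1 + d * l.2 = 1) ∧
      ∀ z : K4, z ≠ 0 → z ≠ k → z ≠ l → a * z.1 + b * z.2 = 1 ∧ c * z.1 + d * z.2 = 0 := by
  have h1 : ∀ k l : K4, k ≠ 0 → l ≠ 0 → k ≠ l →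
      (l.2 * k.1 + l.1 * k.2 = 1 ∧ l.2 * l.1 + l.1 * l.2 = 0) ∧
      ((k.2 + l.2) * k.1 + (k.1 + l.1) * k.2 = 1 ∧
        (k.2 + l.2) * l.1 + (k.1 + l.1) * l.2 = 1) := by decide
  have h2 : ∀ k l z : K4, k ≠ 0 → l ≠ 0 → k ≠ l → z ≠ 0 → z ≠ k → z ≠ l →
      l.2 * z.1 + l.1 * z.2 = 1 ∧ (k.2 + l.2) * z.1 + (k.1 + l.1) * z.2 = 0 := by decide
  obtain ⟨h3, h4⟩ := h1 k l hk hl hkl
  exact ⟨l.2, l.1, k.2 + l.2, k.1 + l.1, h3, h4, fun z => h2 k l z hk hl hkl⟩

private def cost_phi (a b : ZMod 2) : K4 →+ ZMod 2 where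
  toFun z := a * z.1 + b * z.2
  map_zero' := by simp
  map_add' := by
    intro u v
    simp only [Prod.fst_add, Prod.snd_add]
    ring

omit [DecidableEq V] [Fintype V] in
private theorem cost_split (w : E → ℕ) (M C : Finset E) :
    (∑ e ∈ C, (w e : ℚ)) = (∑ e ∈ Finset.univ \ M, if e ∈ C then (w e : ℚ) else 0)
      + ∑ e ∈ M, if e ∈ C then (w e : ℚ) else 0 := by
  rw [Finset.sum_sdiff (Finset.subset_univ M), Finset.sum_ite_mem, Finset.univ_inter]

/-- halving an even set on `F` -/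
private theorem cost_half (G : MG V E) (w : E → ℕ) (F Y : Finset E) (hF : G.Ev F) (hY : G.Ev Y) :
    ∃ Z : Finset E, G.Ev Z ∧ (∀ e, e ∉ F → (e ∈ Z ↔ e ∈ Y)) ∧
      2 * (∑ e ∈ F, if e ∈ Z then (w e : ℚ) else 0) ≤ ∑ e ∈ F, (w e : ℚ) := by
  by_cases h : 2 * (∑ e ∈ F, if e ∈ Y then (w e : ℚ) else 0) ≤ ∑ e ∈ F, (w e : ℚ)
  · exact ⟨Y, hY, fun e _ => Iff.rfl, h⟩
  · refine ⟨Y ∆ F, G.Ev_symm Y F hY hF, ?_, ?_⟩
    · intro e he
      rw [Finset.mem_symmDiff]
      tauto
    · have h1 : (∑ e ∈ F, if e ∈ Y ∆ F then (w e : ℚ) else 0)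
          + (∑ e ∈ F, if e ∈ Y then (w e : ℚ) else 0) = ∑ e ∈ F, (w e : ℚ) := by
        rw [← Finset.sum_add_distrib]
        refine Finset.sum_congr rfl fun e he => ?_
        by_cases hy : e ∈ Y
        · have : e ∉ Y ∆ F := by
            rw [Finset.mem_symmDiff]; tauto
          rw [if_neg this, if_pos hy, zero_add]
        · have : e ∈ Y ∆ F := by
            rw [Finset.mem_symmDiff]; tauto
          rw [if_pos this, if_neg hy, add_zero]
      push Not at h
      linarith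

theorem costC (G : MG V E) (w : E → ℕ) (M : Finset E) (hF : G.Ev (Finset.univ \ M))
    (x : E → K4) (hx : G.Fl x) (hnz : ∀ e ∈ M, x e ≠ 0) (k l : K4) (hk : k ≠ 0) (hl : l ≠ 0)
    (hkl : k ≠ l) :
    G.Cov w (3 / 2 * (∑ e ∈ Finset.univ \ M, (w e : ℚ)) + 2 * (∑ e ∈ M, (w e : ℚ))
      + (∑ e ∈ M.filter (fun e => x e = k), (w e : ℚ))
      - ∑ e ∈ M.filter (fun e => x e = l), (w e : ℚ)) := by
  obtain ⟨a, b, c, d, ⟨hak, hal⟩, ⟨hck, hcl⟩, hm⟩ := cost_hom k l hk hl hkl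
  set F := Finset.univ \ M with hFdef
  have hX : G.Ev (Finset.univ.filter (fun e => a * (x e).1 + b * (x e).2 = 1)) :=
    G.Fl_hom x hx (cost_phi a b)
  have hY0 : G.Ev (Finset.univ.filter (fun e => c * (x e).1 + d * (x e).2 = 1)) :=
    G.Fl_hom x hx (cost_phi c d)
  set X := Finset.univ.filter (fun e => a * (x e).1 + b * (x e).2 = 1) with hXdef
  obtain ⟨Y, hY, hYY, hYw⟩ := cost_half G w F _ hF hY0
  have memX : ∀ e, e ∈ X ↔ a * (x e).1 + b * (x e).2 = 1 := by
    intro e; rw [hXdef, Finset.mem_filter]; simp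
  have memY : ∀ e, e ∉ F → (e ∈ Y ↔ c * (x e).1 + d * (x e).2 = 1) := by
    intro e he; rw [hYY e he, Finset.mem_filter]; simp
  have memF : ∀ e, e ∈ F ↔ e ∉ M := by
    intro e; rw [hFdef, Finset.mem_sdiff]; simp
  refine ⟨[X, X ∆ F, Y], ?_, ?_, ?_⟩
  · intro C hC
    simp only [List.mem_cons, List.not_mem_nil, or_false] at hC
    rcases hC with rfl | rfl | rfl
    · exact hX
    · exact G.Ev_symm X F hX hF
    · exact hY
  · intro e
    by_cases heF : e ∈ F
    · by_cases heX : e ∈ X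
      · exact ⟨X, by simp, heX⟩
      · exact ⟨X ∆ F, by simp, by rw [Finset.mem_symmDiff]; tauto⟩
    · have heM : e ∈ M := by
        by_contra h
        exact heF ((memF e).2 h)
      by_cases hek : x e = k
      · exact ⟨X, by simp, by rw [memX, hek]; exact hak⟩
      · by_cases hel : x e = l
        · exact ⟨Y, by simp, by rw [memY e heF, hel]; exact hcl⟩
        · exact ⟨X, by simp, by rw [memX]; exact (hm (x e) (hnz e heM) hek hel).1⟩
  · have e1 : ((([X, X ∆ F, Y].map (fun C => ∑ e ∈ C, w e)).sum : ℕ) : ℚ)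
        = (∑ e ∈ X, (w e : ℚ)) + (∑ e ∈ X ∆ F, (w e : ℚ)) + ∑ e ∈ Y, (w e : ℚ) := by
      simp only [List.map_cons, List.map_nil, List.sum_cons, List.sum_nil, Nat.cast_add,
        Nat.cast_sum, add_zero]
      ring
    rw [e1, cost_split w M X, cost_split w M (X ∆ F), cost_split w M Y, ← hFdef]
    have e2 : (∑ e ∈ F, if e ∈ X then (w e : ℚ) else 0)
        + (∑ e ∈ F, if e ∈ X ∆ F then (w e : ℚ) else 0) = ∑ e ∈ F, (w e : ℚ) := by
      rw [← Finset.sum_add_distrib]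
      refine Finset.sum_congr rfl fun e he => ?_
      by_cases hy : e ∈ X
      · have : e ∉ X ∆ F := by
          rw [Finset.mem_symmDiff]; tauto
        rw [if_neg this, if_pos hy, add_zero]
      · have : e ∈ X ∆ F := by
          rw [Finset.mem_symmDiff]; tauto
        rw [if_pos this, if_neg hy, zero_add]
    have e3 : (∑ e ∈ M, if e ∈ X then (w e : ℚ) else 0)
        + (∑ e ∈ M, if e ∈ X ∆ F then (w e : ℚ) else 0)
        + (∑ e ∈ M, if e ∈ Y then (w e : ℚ) else 0)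
        + (∑ e ∈ M.filter (fun e => x e = l), (w e : ℚ))
        = 2 * (∑ e ∈ M, (w e : ℚ)) + ∑ e ∈ M.filter (fun e => x e = k), (w e : ℚ) := by
      rw [Finset.sum_filter, Finset.sum_filter, Finset.mul_sum, ← Finset.sum_add_distrib,
        ← Finset.sum_add_distrib, ← Finset.sum_add_distrib, ← Finset.sum_add_distrib]
      refine Finset.sum_congr rfl fun e he => ?_
      have heF : e ∉ F := fun h => (memF e).1 h he
      have hXF : (e ∈ X ∆ F ↔ e ∈ X) := by
        rw [Finset.mem_symmDiff]; tauto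
      simp only [hXF]
      by_cases hek : x e = k
      · have h1 : e ∈ X := by rw [memX, hek]; exact hak
        have h2 : e ∈ Y := by rw [memY e heF, hek]; exact hck
        have h3 : x e ≠ l := fun h => hkl (hek.symm.trans h)
        rw [if_pos h1, if_pos h2, if_neg h3, if_pos hek]
        ring
      · by_cases hel : x e = l
        · have h1 : e ∉ X := by rw [memX, hel, hal]; decide
          have h2 : e ∈ Y := by rw [memY e heF, hel]; exact hcl
          rw [if_neg h1, if_pos h2, if_pos hel, if_neg hek]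
          ring
        · have h0 := hm (x e) (hnz e he) hek hel
          have h1 : e ∈ X := by rw [memX]; exact h0.1
          have h2 : e ∉ Y := by rw [memY e heF, h0.2]; decide
          rw [if_pos h1, if_neg h2, if_neg hel, if_neg hek]
          ring
    linarith

private theorem cost_Fl_sum (G : MG V E) (S : Finset (Finset E)) (hS : ∀ C ∈ S, G.Ev C)
    (f : Finset E → K4) : G.Fl (fun e => ∑ C ∈ S, if e ∈ C then f C else 0) := by
  classical
  induction S using Finset.induction_on with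
  | empty =>
    simp only [Finset.sum_empty]
    exact G.Fl_zero
  | insert C S hC ih =>
    have h1 := G.Fl_add _ _ (G.Fl_ind C (hS C (Finset.mem_insert_self C S)) (f C))
      (ih fun C' h => hS C' (Finset.mem_insert_of_mem h))
    have h2 : (fun e => ∑ C' ∈ insert C S, if e ∈ C' then f C' else 0)
        = fun e => (if e ∈ C then f C else 0) + ∑ C' ∈ S, if e ∈ C' then f C' else 0 := by
      funext e
      rw [Finset.sum_insert hC]
    rw [h2]
    exact h1

private theorem cost_Ev_sup (G : MG V E) (S : Finset (Finset E)) (hS : ∀ C ∈ S, G.Ev C)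
    (hdis : ∀ C ∈ S, ∀ C' ∈ S, C ≠ C' → Disjoint C C') : G.Ev (S.biUnion id) := by
  classical
  induction S using Finset.induction_on with
  | empty =>
    rw [Finset.biUnion_empty]
    exact G.Ev_empty
  | insert C S hC ih =>
    rw [Finset.biUnion_insert]
    refine G.Ev_union _ _ ?_ (hS C (Finset.mem_insert_self C S))
      (ih (fun C' h => hS C' (Finset.mem_insert_of_mem h)) fun C1 h1 C2 h2 h =>
        hdis C1 (Finset.mem_insert_of_mem h1) C2 (Finset.mem_insert_of_mem h2) h)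
    rw [Finset.disjoint_biUnion_right]
    intro C' h
    exact hdis C (Finset.mem_insert_self C S) C' (Finset.mem_insert_of_mem h)
      fun he => hC (he ▸ h)

private theorem cost_K4 (z : K4) (hz : z ≠ 0) (hz' : z ≠ (1, 1)) :
    (z.1 = 1 ∧ ¬ z.2 = 1) ∨ (¬ z.1 = 1 ∧ z.2 = 1) := by
  revert z
  decide

private theorem cost_K4' (z : K4) (hz' : z ≠ (1, 1)) :
    ((z.1 = 1 ∧ ¬ z.2 = 1) ∨ (¬ z.1 = 1 ∧ z.2 = 1)) ∨ (¬ z.1 = 1 ∧ ¬ z.2 = 1) := by
  revert z
  decide

private theorem cost_avg (w : E → ℕ) (F : Finset E) (x : E → K4) :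
    ∃ t : K4, 4 * (∑ e ∈ F, if x e + t = (1, 1) then (w e : ℚ) else 0) ≤ ∑ e ∈ F, (w e : ℚ) := by
  by_contra h
  push Not at h
  have h1 : ∑ t : K4, (∑ e ∈ F, if x e + t = (1, 1) then (w e : ℚ) else 0)
      = ∑ e ∈ F, (w e : ℚ) := by
    rw [Finset.sum_comm]
    refine Finset.sum_congr rfl fun e _ => ?_
    have h2 : ∀ t : K4, (x e + t = (1, 1) ↔ t = (1, 1) - x e) := by
      intro t
      constructor
      · intro h3
        rw [← h3]
        abel
      · intro h3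
        rw [h3]
        abel
    simp only [h2]
    rw [Finset.sum_ite_eq' Finset.univ]
    simp
  have h2 : ∑ t : K4, (∑ e ∈ F, (w e : ℚ))
      < ∑ t : K4, 4 * (∑ e ∈ F, if x e + t = (1, 1) then (w e : ℚ) else 0) :=
    Finset.sum_lt_sum_of_nonempty Finset.univ_nonempty fun t _ => h t
  rw [← Finset.mul_sum, h1, Finset.sum_const, Finset.card_univ] at h2
  have h3 : Fintype.card K4 = 4 := by decide
  rw [h3, nsmul_eq_mul] at h2
  norm_num at h2

theorem costB (G : MG V E) (w : E → ℕ) (M : Finset E) (hF : G.Ev (Finset.univ \ M))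
    (x : E → K4) (hx : G.Fl x) (hnz : ∀ e ∈ M, x e ≠ 0) (𝓜 : Finset (Finset E))
    (hsub : ∀ C ∈ 𝓜, C ⊆ Finset.univ \ M) (hev : ∀ C ∈ 𝓜, G.Ev C)
    (hdis : ∀ C ∈ 𝓜, ∀ C' ∈ 𝓜, C ≠ C' → Disjoint C C') (hms : ∀ C ∈ 𝓜, Ms x C) :
    G.Cov w (3 / 2 * (∑ e ∈ Finset.univ \ M, (w e : ℚ)) + 2 * (∑ e ∈ M, (w e : ℚ))
      - 1 / 2 * ∑ C ∈ 𝓜, ∑ e ∈ C, (w e : ℚ)) := by
  classical
  set F := Finset.univ \ M with hFdef
  set U := 𝓜.biUnion id with hU
  have hUF : U ⊆ F := by
    intro e he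
    obtain ⟨C, hC, heC⟩ := Finset.mem_biUnion.1 he
    exact hsub C hC heC
  have hUev : G.Ev U := cost_Ev_sup G 𝓜 hev hdis
  have hF' : G.Ev (F \ U) := G.Ev_sdiff U F hUF hUev hF
  have hk : ∀ C : Finset E, ∃ k : K4, C ∈ 𝓜 → ∀ e ∈ C, x e ≠ k := by
    intro C
    by_cases hC : C ∈ 𝓜
    · obtain ⟨k, hk⟩ := hms C hC
      exact ⟨k, fun _ => hk⟩
    · exact ⟨0, fun h => absurd h hC⟩
  choose kk hkk using hk
  obtain ⟨t, ht⟩ := cost_avg w (F \ U) x
  let y : E → K4 := fun e => (x e + ∑ C ∈ 𝓜, if e ∈ C then kk C + (1, 1) else 0)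
    + (if e ∈ F \ U then t else 0)
  have hy : G.Fl y :=
    G.Fl_add _ _ (G.Fl_add _ _ hx (cost_Fl_sum G 𝓜 hev fun C => kk C + (1, 1)))
      (G.Fl_ind (F \ U) hF' t)
  have memF : ∀ e, e ∈ F ↔ e ∉ M := by
    intro e; rw [hFdef, Finset.mem_sdiff]; simp
  have memU : ∀ e, e ∈ U ↔ ∃ C ∈ 𝓜, e ∈ C := by
    intro e; rw [hU, Finset.mem_biUnion]; rfl
  -- values of `y`
  have yM : ∀ e ∈ M, y e = x e := by
    intro e he
    have h1 : e ∉ F := fun h => (memF e).1 h he
    have h2 : ∀ C ∈ 𝓜, (if e ∈ C then kk C + (1, 1) else (0 : K4)) = 0 := by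
      intro C hC
      rw [if_neg]
      intro h
      exact h1 (hsub C hC h)
    have h3 : e ∉ F \ U := fun h => h1 (Finset.mem_sdiff.1 h).1
    show (x e + ∑ C ∈ 𝓜, if e ∈ C then kk C + (1, 1) else 0) + (if e ∈ F \ U then t else 0) = x e
    rw [Finset.sum_eq_zero h2, if_neg h3, add_zero, add_zero]
  have yU : ∀ e ∈ U, y e ≠ (1, 1) := by
    intro e he hcon
    obtain ⟨C, hC, heC⟩ := (memU e).1 he
    have h3 : e ∉ F \ U := fun h => (Finset.mem_sdiff.1 h).2 he
    have h4 : (∑ C' ∈ 𝓜, if e ∈ C' then kk C' + (1, 1) else (0 : K4)) = kk C + (1, 1) := by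
      rw [Finset.sum_eq_single_of_mem C hC, if_pos heC]
      intro C' hC' hne
      rw [if_neg]
      intro h
      exact Finset.disjoint_left.1 (hdis C' hC' C hC hne) h heC
    have h5 : y e = x e + (kk C + (1, 1)) := by
      show (x e + ∑ C ∈ 𝓜, if e ∈ C then kk C + (1, 1) else 0)
        + (if e ∈ F \ U then t else 0) = _
      rw [h4, if_neg h3, add_zero]
    rw [h5] at hcon
    have h6 : x e = kk C := by
      have h7 : ∀ u v : K4, u + (v + (1, 1)) = (1, 1) → u = v := by decide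
      exact h7 _ _ hcon
    exact hkk C hC e heC h6
  have yF : ∀ e ∈ F \ U, y e = x e + t := by
    intro e he
    have h2 : ∀ C ∈ 𝓜, (if e ∈ C then kk C + (1, 1) else (0 : K4)) = 0 := by
      intro C hC
      rw [if_neg]
      intro h
      exact (Finset.mem_sdiff.1 he).2 ((memU e).2 ⟨C, hC, h⟩)
    show (x e + ∑ C ∈ 𝓜, if e ∈ C then kk C + (1, 1) else 0) + (if e ∈ F \ U then t else 0) = _
    rw [Finset.sum_eq_zero h2, if_pos he, add_zero]
  have hX : G.Ev (Finset.univ.filter (fun e => (y e).1 = 1)) :=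
    G.Fl_hom y hy (AddMonoidHom.fst _ _)
  have hY : G.Ev (Finset.univ.filter (fun e => (y e).2 = 1)) :=
    G.Fl_hom y hy (AddMonoidHom.snd _ _)
  set X := Finset.univ.filter (fun e => (y e).1 = 1) with hXdef
  set Y := Finset.univ.filter (fun e => (y e).2 = 1) with hYdef
  have memX : ∀ e, e ∈ X ↔ (y e).1 = 1 := by
    intro e; rw [hXdef, Finset.mem_filter]; simp
  have memY : ∀ e, e ∈ Y ↔ (y e).2 = 1 := by
    intro e; rw [hYdef, Finset.mem_filter]; simp
  have memZ : ∀ e, e ∈ (X ∆ Y) ∆ F ↔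
      ((((y e).1 = 1 ∧ ¬ (y e).2 = 1) ∨ ((y e).2 = 1 ∧ ¬ (y e).1 = 1)) ∧ e ∉ F) ∨
      (e ∈ F ∧ ¬ (((y e).1 = 1 ∧ ¬ (y e).2 = 1) ∨ ((y e).2 = 1 ∧ ¬ (y e).1 = 1))) := by
    intro e
    rw [Finset.mem_symmDiff, Finset.mem_symmDiff, memX, memY]
  refine ⟨[X, Y, (X ∆ Y) ∆ F], ?_, ?_, ?_⟩
  · intro C hC
    simp only [List.mem_cons, List.not_mem_nil, or_false] at hC
    rcases hC with rfl | rfl | rfl
    · exact hX
    · exact hY
    · exact G.Ev_symm _ F (G.Ev_symm X Y hX hY) hF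
  · intro e
    by_cases h1 : (y e).1 = 1
    · exact ⟨X, by simp, (memX e).2 h1⟩
    · by_cases h2 : (y e).2 = 1
      · exact ⟨Y, by simp, (memY e).2 h2⟩
      · refine ⟨(X ∆ Y) ∆ F, by simp, ?_⟩
        rw [memZ]
        refine Or.inr ⟨?_, by tauto⟩
        rw [memF]
        intro heM
        have h3 := hnz e heM
        rw [← yM e heM] at h3
        have h4 : ∀ z : K4, z ≠ 0 → ¬ z.1 = 1 → ¬ z.2 = 1 → False := by decide
        exact h4 (y e) h3 h1 h2
  · have e1 : ((([X, Y, (X ∆ Y) ∆ F].map (fun C => ∑ e ∈ C, w e)).sum : ℕ) : ℚ)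
        = (∑ e ∈ X, (w e : ℚ)) + (∑ e ∈ Y, (w e : ℚ)) + ∑ e ∈ (X ∆ Y) ∆ F, (w e : ℚ) := by
      simp only [List.map_cons, List.map_nil, List.sum_cons, List.sum_nil, Nat.cast_add,
        Nat.cast_sum, add_zero]
      ring
    rw [e1, cost_split w M X, cost_split w M Y, cost_split w M ((X ∆ Y) ∆ F), ← hFdef]
    have e2 : (∑ e ∈ F, if e ∈ X then (w e : ℚ) else 0)
        + (∑ e ∈ F, if e ∈ Y then (w e : ℚ) else 0)
        + (∑ e ∈ F, if e ∈ (X ∆ Y) ∆ F then (w e : ℚ) else 0)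
        = (∑ e ∈ F, (w e : ℚ)) + 2 * ∑ e ∈ F, if y e = (1, 1) then (w e : ℚ) else 0 := by
      rw [Finset.mul_sum, ← Finset.sum_add_distrib, ← Finset.sum_add_distrib,
        ← Finset.sum_add_distrib]
      refine Finset.sum_congr rfl fun e he => ?_
      by_cases h11 : y e = (1, 1)
      · have h1 : (y e).1 = 1 := by rw [h11]
        have h2 : (y e).2 = 1 := by rw [h11]
        have h3 : e ∈ (X ∆ Y) ∆ F := by rw [memZ]; tauto
        rw [if_pos ((memX e).2 h1), if_pos ((memY e).2 h2), if_pos h3, if_pos h11]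
        ring
      · rcases cost_K4' (y e) h11 with (⟨h1, h2⟩ | ⟨h1, h2⟩) | ⟨h1, h2⟩
        · have h3 : e ∉ (X ∆ Y) ∆ F := by rw [memZ]; tauto
          rw [if_pos ((memX e).2 h1), if_neg (fun h => h2 ((memY e).1 h)), if_neg h3, if_neg h11]
          ring
        · have h3 : e ∉ (X ∆ Y) ∆ F := by rw [memZ]; tauto
          rw [if_neg (fun h => h1 ((memX e).1 h)), if_pos ((memY e).2 h2), if_neg h3, if_neg h11]
          ring
        · have h3 : e ∈ (X ∆ Y) ∆ F := by rw [memZ]; tauto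
          rw [if_neg (fun h => h1 ((memX e).1 h)), if_neg (fun h => h2 ((memY e).1 h)), if_pos h3,
            if_neg h11]
          ring
    have e3 : (∑ e ∈ M, if e ∈ X then (w e : ℚ) else 0)
        + (∑ e ∈ M, if e ∈ Y then (w e : ℚ) else 0)
        + (∑ e ∈ M, if e ∈ (X ∆ Y) ∆ F then (w e : ℚ) else 0)
        = 2 * (∑ e ∈ M, (w e : ℚ)) := by
      rw [Finset.mul_sum, ← Finset.sum_add_distrib, ← Finset.sum_add_distrib]
      refine Finset.sum_congr rfl fun e he => ?_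
      have heF : e ∉ F := fun h => (memF e).1 h he
      have hne : y e ≠ 0 := by rw [yM e he]; exact hnz e he
      by_cases h11 : y e = (1, 1)
      · have h1 : (y e).1 = 1 := by rw [h11]
        have h2 : (y e).2 = 1 := by rw [h11]
        have h3 : e ∉ (X ∆ Y) ∆ F := by rw [memZ]; tauto
        rw [if_pos ((memX e).2 h1), if_pos ((memY e).2 h2), if_neg h3]
        ring
      · rcases cost_K4 (y e) hne h11 with ⟨h1, h2⟩ | ⟨h1, h2⟩
        · have h3 : e ∈ (X ∆ Y) ∆ F := by rw [memZ]; tauto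
          rw [if_pos ((memX e).2 h1), if_neg (fun h => h2 ((memY e).1 h)), if_pos h3]
          ring
        · have h3 : e ∈ (X ∆ Y) ∆ F := by rw [memZ]; tauto
          rw [if_neg (fun h => h1 ((memX e).1 h)), if_pos ((memY e).2 h2), if_pos h3]
          ring
    -- the bad edges lie in `F \ U`
    have e4 : (∑ e ∈ F, if y e = (1, 1) then (w e : ℚ) else 0)
        = ∑ e ∈ F \ U, if x e + t = (1, 1) then (w e : ℚ) else 0 := by
      rw [← Finset.sum_sdiff hUF]
      have h1 : (∑ e ∈ U, if y e = (1, 1) then (w e : ℚ) else 0) = 0 :=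
        Finset.sum_eq_zero fun e he => if_neg (yU e he)
      rw [h1, add_zero]
      refine Finset.sum_congr rfl fun e he => ?_
      rw [yF e he]
    have e5 : (∑ e ∈ F \ U, (w e : ℚ)) + (∑ C ∈ 𝓜, ∑ e ∈ C, (w e : ℚ)) = ∑ e ∈ F, (w e : ℚ) := by
      have h1 : (∑ e ∈ U, (w e : ℚ)) = ∑ C ∈ 𝓜, ∑ e ∈ C, (w e : ℚ) := by
        rw [hU, Finset.sum_biUnion]
        · rfl
        · intro C hC C' hC' hne
          exact hdis C hC C' hC' hne
      rw [← h1, Finset.sum_sdiff hUF]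
    rw [e4] at e2
    linarith

end MG

end Pool.Agent.Lib.MP_95e9b3_coC
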