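import Pool.Agent.Lib.MP_95e9b3_coC.Reach

/-!
# JOB SeyB: reducing the weights on the key cut lowers the minimum by one only

Notation: `w(J) = ∑ e ∈ J, w e`, `N0 = {e | w e = 0}`; `N0 ∩ cut Z = ∅` by `h1`. `Jm ∩ cut Z = {e0}`
(by `huniq` for `Jm`). For a set `C` let `β(C) = w(C \ Jm) - w(C ∩ Jm) : ℤ`; then
`β(C) = w(Jm ∆ C) - k`, and `β(C1 ∪ C2) = β(C1) + β(C2)` for disjoint sets.
`C` is called Z-even if `dg C v` is even for all `v ∉ Z` and `∑ v ∈ Z, dg C v` is even.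

FACT 1. For Z-even `C`: there is `Π ⊆ N0` with `C ∆ Π` even. (`join_exists` with `F = N0`, `J0 = C`:
if `N0 ∩ cut U = ∅` then `Z ⊆ U` or `Z ∩ U = ∅` by `hz` and `closed_Rch`, so `∑ v ∈ U, dg C v` is
even.) Therefore, as `w = 0` on `Π`: `β(C) = w(Jm ∆ (C ∆ Π)) - k ≥ 0` by `hmin`; `β(C)` is even
because `β(C) ≡ w(C) = w(C ∆ Π)`, which is even by `hpar`; and if `β(C) = 0` then
`((Jm ∆ C) ∩ cut Z).card = 1` (`huniq` for `Jm ∆ (C ∆ Π)`; `Π ∩ cut Z = ∅`).

FACT 2. For Z-even `C`: `β(C) ≥ |C ∩ cut Z| - 2 [e0 ∈ C]`. Induction on `|C ∩ cut Z|`. If it is `0`: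
FACT 1 (`e0 ∉ C`). Otherwise pick `e ∈ C ∩ cut Z` with ends `v ∈ Z`, `v' ∉ Z`. Let
`C' = C.filter (s ∉ Z ∧ t ∉ Z)`, `Y = cv C' v'`, disjoint from `Z`. `∑ v ∈ Y, dg C v` is even, so
`(C ∩ cut Y).card` is even; it contains `e`, so it contains some `e' ≠ e`, with one end `u' ∈ Y`; the
other end `u` is in `Z` (otherwise `e' ∈ C'` and both ends are in `Y`). `Rch_join` in `C'` for
`v', u'`: `P' ⊆ C'`. `C1 = P' ∪ {e, e'}` has odd vertices `v, u` (none if `v = u`), so it is Z-even,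
`C1 ∩ cut Z = {e, e'}`; `C2 = C \ C1` is Z-even with `|C2 ∩ cut Z| = |C ∩ cut Z| - 2`.
`β(C) = β(C1) + β(C2)`; use the induction hypothesis for `C2`; and `β(C1) ≥ 2 - 2 [e0 ∈ C1]`: if
`e0 ∈ C1` this is FACT 1; if `e0 ∉ C1` then `β(C1) ≥ 0` is even and not `0`, since
`(Jm ∆ C1) ∩ cut Z = {e0, e, e'}` has three elements.

END. For a `J0`-join `J` put `C = Jm ∆ J`, an even set. `β(C) = w(J) - k`. If `e0 ∈ J` then `e0 ∉ C`
and `|C ∩ cut Z| = |J ∩ cut Z| - 1`; if `e0 ∉ J` then `e0 ∈ C` and `|C ∩ cut Z| = |J ∩ cut Z| + 1`.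
In both cases FACT 2 gives `w(J) - k ≥ |J ∩ cut Z| - 1`.
-/

set_option autoImplicit false

namespace Pool.Agent.Lib.MP_95e9b3_coC

open Finset
open scoped symmDiff

namespace MG

variable {V W E : Type} [Fintype V] [DecidableEq V] [Fintype W] [DecidableEq W]
  [Fintype E] [DecidableEq E]

private theorem seyB_par (G : MG V E) (A B : Finset E) (v : V) :
    G.dg (A ∆ B) v % 2 = (G.dg A v + G.dg B v) % 2 := by
  have := G.dg_symm A B v
  omega

private theorem seyB_w (w : E → ℕ) (A B : Finset E) :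
    ∑ e ∈ A ∆ B, w e + 2 * ∑ e ∈ A ∩ B, w e = ∑ e ∈ A, w e + ∑ e ∈ B, w e := by
  have h1 : ∑ e ∈ A ∆ B, w e = ∑ e ∈ A \ B, w e + ∑ e ∈ B \ A, w e := by
    rw [symmDiff_def, sup_eq_union, sum_union disjoint_sdiff_sdiff]
  have h2 := Finset.sum_inter_add_sum_sdiff A B w
  have h3 := Finset.sum_inter_add_sum_sdiff B A w
  rw [inter_comm B A] at h3
  omega

private theorem seyB_w0 (w : E → ℕ) (A P : Finset E) (hP : ∀ e ∈ P, w e = 0) :
    ∑ e ∈ A ∆ P, w e = ∑ e ∈ A, w e := by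
  have h := seyB_w w A P
  have h1 : ∑ e ∈ P, w e = 0 := sum_eq_zero hP
  have h2 : ∑ e ∈ A ∩ P, w e = 0 := sum_eq_zero fun e he => hP e (mem_inter.1 he).2
  omega

private theorem seyB_cut0 (A P D : Finset E) (hP : ∀ e ∈ P, e ∉ D) : (A ∆ P) ∩ D = A ∩ D := by
  ext e
  simp only [mem_inter, mem_symmDiff]
  constructor
  · rintro ⟨h1 | h1, h2⟩
    · exact ⟨h1.1, h2⟩
    · exact absurd h2 (hP e h1.1)
  · rintro ⟨h1, h2⟩
    exact ⟨Or.inl ⟨h1, fun h3 => hP e h3 h2⟩, h2⟩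

private theorem seyB_end (G : MG V E) (Z : Finset V) (e : E) (h : e ∈ G.cut Z) :
    ∃ u ∈ Z, ∃ v, v ∉ Z ∧ G.Jn e u v := by
  rw [mem_cut] at h
  by_cases h1 : G.s e ∈ Z
  · by_cases h2 : G.t e ∈ Z
    · exact absurd (iff_of_true h1 h2) h
    · exact ⟨_, h1, _, h2, Or.inl ⟨rfl, rfl⟩⟩
  · by_cases h2 : G.t e ∈ Z
    · exact ⟨_, h2, _, h1, Or.inr ⟨rfl, rfl⟩⟩
    · exact absurd (iff_of_false h1 h2) h

private theorem seyB_jcut (G : MG V E) (Z : Finset V) (e : E) (u v : V) (hj : G.Jn e u v)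
    (hu : u ∈ Z) (hv : v ∉ Z) : e ∈ G.cut Z := by
  rw [mem_cut]
  rcases hj with hj | hj
  · rw [hj.1, hj.2]
    exact fun h => hv (h.1 hu)
  · rw [hj.1, hj.2]
    exact fun h => hv (h.2 hu)

private theorem seyB_sum2 (U : Finset V) (f : V → ℕ) (h : ∀ v ∈ U, f v % 2 = 0) :
    (∑ v ∈ U, f v) % 2 = 0 := by
  rw [Finset.sum_nat_mod, Finset.sum_congr rfl h, sum_const_zero, Nat.zero_mod]

/-- the Z-even sets -/
private def seyB_ze (G : MG V E) (Z : Finset V) (C : Finset E) : Prop :=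
  (∀ v, v ∉ Z → G.dg C v % 2 = 0) ∧ (∑ v ∈ Z, G.dg C v) % 2 = 0

private theorem seyB_zecut (G : MG V E) (Z : Finset V) (C : Finset E) (hC : seyB_ze G Z C)
    (U : Finset V) (hU : Disjoint Z U) : (C ∩ G.cut U).card % 2 = 0 := by
  have h1 := G.sum_dg C U
  have h2 := seyB_sum2 U (G.dg C) fun v hv => hC.1 v fun h => (Finset.disjoint_left.1 hU) h hv
  omega

private theorem seyB_zecut' (G : MG V E) (Z : Finset V) (C : Finset E) (hC : seyB_ze G Z C)
    (U : Finset V) (hU : Z ⊆ U) : (C ∩ G.cut U).card % 2 = 0 := by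
  have h1 := G.sum_dg C U
  have h2 := seyB_sum2 (U \ Z) (G.dg C) fun v hv => hC.1 v (mem_sdiff.1 hv).2
  have h3 := Finset.sum_sdiff (f := G.dg C) hU
  have h4 := hC.2
  omega

/-- the signed weight -/
private def seyB_b (w : E → ℕ) (Jm C : Finset E) : ℤ :=
  ∑ e ∈ C, (if e ∈ Jm then -(w e : ℤ) else (w e : ℤ))

private theorem seyB_beq (w : E → ℕ) (Jm C : Finset E) :
    seyB_b w Jm C = ((∑ e ∈ Jm ∆ C, w e : ℕ) : ℤ) - ((∑ e ∈ Jm, w e : ℕ) : ℤ) := by
  have h1 := seyB_w w Jm C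
  have h2 : seyB_b w Jm C =
      ((∑ e ∈ C, w e : ℕ) : ℤ) - 2 * ((∑ e ∈ Jm ∩ C, w e : ℕ) : ℤ) := by
    unfold seyB_b
    have h3 : ((∑ e ∈ Jm ∩ C, w e : ℕ) : ℤ) = ∑ e ∈ C, (if e ∈ Jm then (w e : ℤ) else 0) := by
      rw [← Finset.sum_filter, Nat.cast_sum]
      apply Finset.sum_congr
      · ext e
        rw [mem_inter, mem_filter]
        exact and_comm
      · intros
        rfl
    rw [h3, Nat.cast_sum, Finset.mul_sum, ← Finset.sum_sub_distrib]
    apply Finset.sum_congr rfl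
    intro e _
    split_ifs <;> ring
  omega

private theorem seyB_badd (w : E → ℕ) (Jm A B : Finset E) (h : Disjoint A B) :
    seyB_b w Jm (A ∪ B) = seyB_b w Jm A + seyB_b w Jm B := by
  unfold seyB_b
  exact sum_union h

private theorem seyB_f1 (G : MG V E) (w : E → ℕ) (hpar : ∀ C, G.Ev C → Even (∑ e ∈ C, w e))
    (J0 Jm : Finset E) (k : ℕ)
    (hJm : G.Sim Jm J0) (hmk : ∑ e ∈ Jm, w e = k)
    (hmin : ∀ J, G.Sim J J0 → k ≤ ∑ e ∈ J, w e)
    (Z : Finset V) (h1 : ∀ e ∈ G.cut Z, 1 ≤ w e)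
    (huniq : ∀ J, G.Sim J J0 → ∑ e ∈ J, w e = k → (J ∩ G.cut Z).card = 1)
    (hz : ∀ u ∈ Z, ∀ v ∈ Z, G.Rch (Finset.univ.filter (fun e => w e = 0)) u v)
    (C : Finset E) (hC : seyB_ze G Z C) :
    0 ≤ seyB_b w Jm C ∧ seyB_b w Jm C % 2 = 0 ∧
      (seyB_b w Jm C = 0 → ((Jm ∆ C) ∩ G.cut Z).card = 1) := by
  obtain ⟨P, hP, hPs⟩ := G.join_exists (Finset.univ.filter (fun e => w e = 0)) C (by
    intro U hU
    rw [Nat.even_iff]
    by_cases hd : Disjoint Z U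
    · exact seyB_zecut G Z C hC U hd
    · rw [Finset.not_disjoint_iff] at hd
      obtain ⟨z, hzZ, hzU⟩ := hd
      exact seyB_zecut' G Z C hC U fun v hv => G.closed_Rch _ U hU z v hzU (hz z hzZ v hv))
  have hPw : ∀ e ∈ P, w e = 0 := fun e he => (mem_filter.1 (hP he)).2
  have hPc : ∀ e ∈ P, e ∉ G.cut Z := by
    intro e he hec
    have h2 := hPw e he
    have h3 := h1 e hec
    omega
  have hev : G.Ev (C ∆ P) := by
    intro v
    have h2 := seyB_par G C P v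
    have h3 := hPs v
    rw [Nat.even_iff]
    omega
  have hs : G.Sim (Jm ∆ (C ∆ P)) J0 := G.Sim_symmDiff Jm J0 _ hJm hev
  have e1 : Jm ∆ (C ∆ P) = (Jm ∆ C) ∆ P := (symmDiff_assoc _ _ _).symm
  rw [e1] at hs
  have hk := hmin _ hs
  have hw0 := seyB_w0 w (Jm ∆ C) P hPw
  have hbe := seyB_beq w Jm C
  have hev2 := hpar _ hev
  rw [seyB_w0 w C P hPw, Nat.even_iff] at hev2
  have hw1 := seyB_w w Jm C
  refine ⟨by omega, by omega, ?_⟩
  intro h0
  have h2 := huniq _ hs (by omega)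
  rw [seyB_cut0 (Jm ∆ C) P _ hPc] at h2
  exact h2

private theorem seyB_f2 (G : MG V E) (w : E → ℕ) (hpar : ∀ C, G.Ev C → Even (∑ e ∈ C, w e))
    (J0 Jm : Finset E) (k : ℕ)
    (hJm : G.Sim Jm J0) (hmk : ∑ e ∈ Jm, w e = k)
    (hmin : ∀ J, G.Sim J J0 → k ≤ ∑ e ∈ J, w e)
    (Z : Finset V) (h1 : ∀ e ∈ G.cut Z, 1 ≤ w e)
    (huniq : ∀ J, G.Sim J J0 → ∑ e ∈ J, w e = k → (J ∩ G.cut Z).card = 1)
    (hz : ∀ u ∈ Z, ∀ v ∈ Z, G.Rch (Finset.univ.filter (fun e => w e = 0)) u v)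
    (e0 : E) (he0 : Jm ∩ G.cut Z = {e0}) (n : ℕ) :
    ∀ C : Finset E, seyB_ze G Z C → (C ∩ G.cut Z).card = n →
      (n : ℤ) - 2 * (if e0 ∈ C then 1 else 0) ≤ seyB_b w Jm C := by
  classical
  induction n using Nat.strong_induction_on with
  | _ n ih =>
  intro C hC hn
  have hf1 := seyB_f1 G w hpar J0 Jm k hJm hmk hmin Z h1 huniq hz
  rcases Nat.eq_zero_or_pos n with hn0 | hn0
  · have h2 := (hf1 C hC).1
    split_ifs <;> omega
  have hne : (C ∩ G.cut Z).Nonempty := by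
    rw [← card_pos]
    omega
  obtain ⟨e, he⟩ := hne
  rw [mem_inter] at he
  obtain ⟨v, hv, v', hv', hj⟩ := seyB_end G Z e he.2
  set C' : Finset E := C.filter (fun e => G.s e ∉ Z ∧ G.t e ∉ Z) with hC'
  have hC'c : ∀ f ∈ C', f ∉ G.cut Z := by
    intro f hf hfc
    rw [hC', mem_filter] at hf
    rw [mem_cut] at hfc
    exact hfc (iff_of_false hf.2.1 hf.2.2)
  set Y : Finset V := G.cv C' v' with hY
  have hYZ : ∀ y ∈ Y, y ∉ Z := by
    intro y hy
    have h1 : C' ∩ G.cut Zᶜ = ∅ := by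
      rw [cut_compl]
      ext f
      simp only [mem_inter, notMem_empty, iff_false]
      exact fun h => hC'c f h.1 h.2
    have h2 := G.closed_Rch C' Zᶜ h1 v' y (mem_compl.2 hv') ((G.mem_cv C' v' y).1 hy)
    exact mem_compl.1 h2
  have hv'Y : v' ∈ Y := (G.mem_cv C' v' v').2 (G.Rch_refl C' v')
  have hvY : v ∉ Y := fun h => hYZ v h hv
  have heY : e ∈ G.cut Y := by
    refine seyB_jcut G Y e v' v ?_ hv'Y hvY
    rcases hj with hj | hj
    · exact Or.inr hj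
    · exact Or.inl hj
  have hevY := seyB_zecut G Z C hC Y (Finset.disjoint_left.2 fun y hy hy2 => hYZ y hy2 hy)
  have hcard : 1 < (C ∩ G.cut Y).card := by
    have h2 : 0 < (C ∩ G.cut Y).card := card_pos.2 ⟨e, mem_inter.2 ⟨he.1, heY⟩⟩
    omega
  obtain ⟨e', he', hee'⟩ := Finset.exists_mem_ne hcard e
  rw [mem_inter] at he'
  obtain ⟨u', hu', u, hu, hj'⟩ := seyB_end G Y e' he'.2
  have hu'Z := hYZ u' hu'
  have huZ : u ∈ Z := by
    by_contra huZ
    have h2 : e' ∈ C' := by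
      rw [hC', mem_filter]
      refine ⟨he'.1, ?_⟩
      rcases hj' with hj | hj
      · rw [hj.1, hj.2]
        exact ⟨hu'Z, huZ⟩
      · rw [hj.1, hj.2]
        exact ⟨huZ, hu'Z⟩
    apply hu
    rw [hY, mem_cv] at hu' ⊢
    refine G.Rch_trans C' v' u' u hu' ?_
    have h3 := G.Rch_edge C' e' h2
    rcases hj' with hj | hj
    · rw [hj.1, hj.2] at h3
      exact h3
    · rw [hj.1, hj.2] at h3
      exact G.Rch_symm C' _ _ h3
  have he'c : e' ∈ G.cut Z := by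
    refine seyB_jcut G Z e' u u' ?_ huZ hu'Z
    rcases hj' with hj | hj
    · exact Or.inr hj
    · exact Or.inl hj
  obtain ⟨P', hP', hPp'⟩ := G.Rch_join C' v' u' ((G.mem_cv C' v' u').1 hu')
  have heP' : e ∉ P' := fun h => hC'c e (hP' h) he.2
  have he'P' : e' ∉ P' := fun h => hC'c e' (hP' h) he'c
  have heP2 : e ∉ insert e' P' := by
    rw [mem_insert]
    rintro (h | h)
    · exact hee' h.symm
    · exact heP' h
  set C1 : Finset E := insert e (insert e' P') with hC1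
  have hC1d : ∀ y, G.dg C1 y % 2 =
      ((if y = v then 1 else 0) + (if y = u then 1 else 0)) % 2 := by
    intro y
    have h2 : G.dg C1 y = G.inc e y + (G.inc e' y + G.dg P' y) := by
      unfold dg
      rw [hC1, sum_insert heP2, sum_insert he'P']
    have h3 := hPp' y
    have h4 := G.inc_Jn e v v' hj y
    have h5 := G.inc_Jn e' u' u hj' y
    omega
  have hC1C : C1 ⊆ C := by
    intro f hf
    rw [hC1, mem_insert, mem_insert] at hf
    rcases hf with rfl | rfl | hf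
    · exact he.1
    · exact he'.1
    · exact (mem_filter.1 (hP' hf)).1
  have hC1z : seyB_ze G Z C1 := by
    constructor
    · intro y hy
      have h2 := hC1d y
      have h3 : y ≠ v := fun h => hy (h ▸ hv)
      have h4 : y ≠ u := fun h => hy (h ▸ huZ)
      rw [if_neg h3, if_neg h4] at h2
      omega
    · have h2 : (∑ y ∈ Z, G.dg C1 y) % 2 =
          (∑ y ∈ Z, ((if y = v then 1 else 0) + (if y = u then 1 else 0))) % 2 := by
        rw [Finset.sum_nat_mod, Finset.sum_nat_mod Z 2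
          (fun y => (if y = v then 1 else 0) + (if y = u then 1 else 0))]
        rw [Finset.sum_congr rfl fun y _ => hC1d y]
      rw [sum_add_distrib, Finset.sum_ite_eq' Z v (fun _ => 1),
        Finset.sum_ite_eq' Z u (fun _ => 1), if_pos hv, if_pos huZ] at h2
      omega
  have hC1c : C1 ∩ G.cut Z = {e, e'} := by
    ext f
    rw [mem_inter, hC1, mem_insert, mem_insert, mem_insert, mem_singleton]
    constructor
    · rintro ⟨h2 | h2 | h2, h3⟩
      · exact Or.inl h2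
      · exact Or.inr h2
      · exact absurd h3 (hC'c f (hP' h2))
    · rintro (rfl | rfl)
      · exact ⟨Or.inl rfl, he.2⟩
      · exact ⟨Or.inr (Or.inl rfl), he'c⟩
  have hdis : Disjoint C1 (C \ C1) := disjoint_sdiff
  have hun : C1 ∪ (C \ C1) = C := union_sdiff_of_subset hC1C
  have hC2z : seyB_ze G Z (C \ C1) := by
    constructor
    · intro y hy
      have h2 := G.dg_sdiff C1 C hC1C y
      have h3 := hC1z.1 y hy
      have h4 := hC.1 y hy
      omega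
    · have h2 : ∑ y ∈ Z, G.dg (C \ C1) y + ∑ y ∈ Z, G.dg C1 y = ∑ y ∈ Z, G.dg C y := by
        rw [← sum_add_distrib]
        exact Finset.sum_congr rfl fun y _ => G.dg_sdiff C1 C hC1C y
      have h3 := hC1z.2
      have h4 := hC.2
      omega
  have hC2n : ((C \ C1) ∩ G.cut Z).card + 2 = n := by
    have h2 : (C \ C1) ∩ G.cut Z ∪ C1 ∩ G.cut Z = C ∩ G.cut Z := by
      rw [← Finset.union_inter_distrib_right, sdiff_union_of_subset hC1C]
    have h3 : Disjoint ((C \ C1) ∩ G.cut Z) (C1 ∩ G.cut Z) := by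
      rw [Finset.disjoint_left]
      intro f hf hf2
      exact (mem_sdiff.1 (mem_inter.1 hf).1).2 (mem_inter.1 hf2).1
    have h4 := card_union_of_disjoint h3
    rw [h2, hC1c, card_pair (fun h => hee' h.symm)] at h4
    omega
  have hih := ih _ (by omega) (C \ C1) hC2z rfl
  have hb := seyB_badd w Jm C1 (C \ C1) hdis
  rw [hun] at hb
  have hb1 : (2 : ℤ) - 2 * (if e0 ∈ C1 then 1 else 0) ≤ seyB_b w Jm C1 := by
    obtain ⟨h2, h3, h4⟩ := hf1 C1 hC1z
    by_cases h5 : e0 ∈ C1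
    · rw [if_pos h5]
      omega
    · rw [if_neg h5]
      have h6 : seyB_b w Jm C1 ≠ 0 := by
        intro h7
        have h8 := h4 h7
        have hx : ∀ f, f ∈ C1 → f ∈ G.cut Z → f ∈ (Jm ∆ C1) ∩ G.cut Z := by
          intro f hf hfc
          rw [mem_inter, mem_symmDiff]
          refine ⟨Or.inr ⟨hf, ?_⟩, hfc⟩
          intro hfJ
          have h9 : f ∈ Jm ∩ G.cut Z := mem_inter.2 ⟨hfJ, hfc⟩
          rw [he0, mem_singleton] at h9
          exact h5 (h9 ▸ hf)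
        have h9 : 1 < ((Jm ∆ C1) ∩ G.cut Z).card := by
          rw [Finset.one_lt_card]
          refine ⟨e, hx e ?_ he.2, e', hx e' ?_ he'c, fun h => hee' h.symm⟩
          · rw [hC1]
            exact mem_insert_self _ _
          · rw [hC1]
            exact mem_insert_of_mem (mem_insert_self _ _)
        omega
      omega
  have hite : (if e0 ∈ C then (1 : ℤ) else 0) =
      (if e0 ∈ C1 then 1 else 0) + (if e0 ∈ C \ C1 then 1 else 0) := by
    by_cases h5 : e0 ∈ C1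
    · rw [if_pos h5, if_pos (hC1C h5), if_neg (fun h => (mem_sdiff.1 h).2 h5)]
      rfl
    · rw [if_neg h5]
      by_cases h6 : e0 ∈ C
      · rw [if_pos h6, if_pos (mem_sdiff.2 ⟨h6, h5⟩)]
        rfl
      · rw [if_neg h6, if_neg (fun h => h6 (mem_sdiff.1 h).1)]
        rfl
  rw [hb, hite]
  push_cast at hih
  omega

theorem seyB (G : MG V E) (w : E → ℕ) (hpar : ∀ C, G.Ev C → Even (∑ e ∈ C, w e))
    (J0 Jm : Finset E) (k : ℕ)
    (hJm : G.Sim Jm J0) (hmk : ∑ e ∈ Jm, w e = k)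
    (hmin : ∀ J, G.Sim J J0 → k ≤ ∑ e ∈ J, w e)
    (Z : Finset V) (h1 : ∀ e ∈ G.cut Z, 1 ≤ w e)
    (huniq : ∀ J, G.Sim J J0 → ∑ e ∈ J, w e = k → (J ∩ G.cut Z).card = 1)
    (hz : ∀ u ∈ Z, ∀ v ∈ Z, G.Rch (Finset.univ.filter (fun e => w e = 0)) u v) :
    ∀ J, G.Sim J J0 → k + (J ∩ G.cut Z).card ≤ ∑ e ∈ J, w e + 1 := by
  classical
  intro J hJ
  have hc1 := huniq Jm hJm hmk
  rw [card_eq_one] at hc1
  obtain ⟨e0, he0⟩ := hc1
  have hev : G.Ev (Jm ∆ J) := by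
    rw [← Sim_iff]
    exact G.Sim_trans Jm J0 J hJm (G.Sim_symm J J0 hJ)
  have hC : seyB_ze G Z (Jm ∆ J) := by
    constructor
    · intro v _
      exact Nat.even_iff.1 (hev v)
    · exact seyB_sum2 Z _ fun v _ => Nat.even_iff.1 (hev v)
  have h2 := seyB_f2 G w hpar J0 Jm k hJm hmk hmin Z h1 huniq hz e0 he0 _ (Jm ∆ J) hC rfl
  have h3 := seyB_beq w Jm (Jm ∆ J)
  have e1 : Jm ∆ (Jm ∆ J) = J := symmDiff_symmDiff_cancel_left Jm J
  rw [e1] at h3
  have he0m : e0 ∈ Jm ∩ G.cut Z := by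
    rw [he0]
    exact mem_singleton_self e0
  rw [mem_inter] at he0m
  have hint : ∀ f, f ∈ Jm → f ∈ G.cut Z → f = e0 := by
    intro f hf hfc
    have h4 : f ∈ Jm ∩ G.cut Z := mem_inter.2 ⟨hf, hfc⟩
    rw [he0, mem_singleton] at h4
    exact h4
  by_cases h5 : e0 ∈ J
  · have h6 : e0 ∉ Jm ∆ J := by
      rw [mem_symmDiff]
      rintro (h | h)
      · exact h.2 h5
      · exact h.2 he0m.1
    have h7 : insert e0 ((Jm ∆ J) ∩ G.cut Z) = J ∩ G.cut Z := by
      ext f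
      rw [mem_insert, mem_inter, mem_inter, mem_symmDiff]
      constructor
      · rintro (rfl | ⟨h | h, h8⟩)
        · exact ⟨h5, he0m.2⟩
        · exact absurd (hint f h.1 h8 ▸ h5) h.2
        · exact ⟨h.1, h8⟩
      · rintro ⟨h, h8⟩
        by_cases h9 : f = e0
        · exact Or.inl h9
        · exact Or.inr ⟨Or.inr ⟨h, fun h10 => h9 (hint f h10 h8)⟩, h8⟩
    have h8 : e0 ∉ (Jm ∆ J) ∩ G.cut Z := fun h => h6 (mem_inter.1 h).1
    have h9 := card_insert_of_notMem h8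
    rw [h7] at h9
    rw [if_neg h6] at h2
    omega
  · have h6 : e0 ∈ Jm ∆ J := by
      rw [mem_symmDiff]
      exact Or.inl ⟨he0m.1, h5⟩
    have h7 : (Jm ∆ J) ∩ G.cut Z = insert e0 (J ∩ G.cut Z) := by
      ext f
      rw [mem_insert, mem_inter, mem_inter, mem_symmDiff]
      constructor
      · rintro ⟨h | h, h8⟩
        · exact Or.inl (hint f h.1 h8)
        · exact Or.inr ⟨h.1, h8⟩
      · rintro (rfl | ⟨h, h8⟩)
        · exact ⟨Or.inl ⟨he0m.1, h5⟩, he0m.2⟩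
        · exact ⟨Or.inr ⟨h, fun h10 => h5 (hint f h10 h8 ▸ h)⟩, h8⟩
    have h8 : e0 ∉ J ∩ G.cut Z := fun h => h5 (mem_inter.1 h).1
    have h9 := card_insert_of_notMem h8
    rw [← h7] at h9
    rw [if_pos h6] at h2
    omega

end MG

end Pool.Agent.Lib.MP_95e9b3_coC
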