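import Pool.Agent.Lib.MP_95e9b3_coC.SeyA
import Pool.Agent.Lib.MP_95e9b3_coC.SeyB

/-!
# JOB EJ: Seymour's packing theorem and the Edmonds-Johnson theorem

`seymour`: induction on `k`, for all `w`. `k = 0`: nothing to do. `k + 1`: a `J0`-join exists
(`J0` itself); let `k1` be the minimal weight of a `J0`-join (`Nat.find`), attained by `Jm`;
`k1 ≥ k + 1 > 0`. `seyA` gives `Z`, `seyB` gives `k1 + (J ∩ cut Z).card ≤ w(J) + 1` for all joins.
Let `w' e = w e - (if e ∈ cut Z then 1 else 0)` (no truncation). For an even set `C`,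
`w'(C) = w(C) - (C ∩ cut Z).card` is even (`Ev_cut`). For a join `J`: `w'(J) ≥ k1 - 1 ≥ k`. The
induction hypothesis gives `U : Fin k → Finset V`; add `Z` (`Fin.cons`).

`EJ`: a join `J ⊆ F` exists (`join_exists`: if `F ∩ cut U = ∅` then `(J0 ∩ cut U).card` is not odd
by `hc`). Let `N ≥ 1` be an integer such that `N * w e` is a natural number for every `e ∈ F`
(product of the denominators), `R = N * ∑ e ∈ F, w e * z e`, and `B : ℕ` with `B > R`.
Let `w' e = 2 * (N * w e)` for `e ∈ F` and `w' e = 2 * B` for `e ∉ F` (natural numbers). All `w'(C)`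
are even. Let `k` be the minimum of `w'` over all joins, attained by `Jm`. `seymour`:
`U : Fin k → Finset V`. Then
`k ≤ ∑ i, ∑ e ∈ F ∩ cut (U i), z e = ∑ e ∈ F, z e * #{i | e ∈ cut (U i)} ≤ ∑ e ∈ F, z e * w' e = 2 R`.
So `w'(Jm) ≤ 2 R < 2 B`: `Jm ⊆ F`, and `2 N ∑ e ∈ Jm, w e = w'(Jm) ≤ 2 R`.
-/

set_option autoImplicit false

namespace Pool.Agent.Lib.MP_95e9b3_coC

open Finset
open scoped symmDiff

namespace MG

variable {V W E : Type} [Fintype V] [DecidableEq V] [Fintype W] [DecidableEq W]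
  [Fintype E] [DecidableEq E]

private theorem ej_min (G : MG V E) (J0 : Finset E) (w : E → ℕ) :
    ∃ Jm, G.Sim Jm J0 ∧ ∀ J, G.Sim J J0 → ∑ e ∈ Jm, w e ≤ ∑ e ∈ J, w e := by
  classical
  obtain ⟨Jm, h1, h2⟩ := Finset.exists_min_image
    ((Finset.univ : Finset (Finset E)).filter (fun J => G.Sim J J0)) (fun J => ∑ e ∈ J, w e)
    ⟨J0, mem_filter.2 ⟨mem_univ _, G.Sim_refl J0⟩⟩
  exact ⟨Jm, (mem_filter.1 h1).2, fun J hJ => h2 J (mem_filter.2 ⟨mem_univ _, hJ⟩)⟩

private theorem ej_den (F : Finset E) (w : E → ℚ) (hw : ∀ e ∈ F, 0 ≤ w e) :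
    ∃ N : ℕ, 0 < N ∧ ∃ a : E → ℕ, ∀ e ∈ F, (a e : ℚ) = (N : ℚ) * w e := by
  classical
  refine ⟨∏ e ∈ F, (w e).den, Finset.prod_pos fun e _ => (w e).den_pos, ?_⟩
  have h : ∀ e, ∃ n : ℕ, e ∈ F → (n : ℚ) = ((∏ e ∈ F, (w e).den : ℕ) : ℚ) * w e := by
    intro e
    by_cases he : e ∈ F
    · obtain ⟨c, hc⟩ := Finset.dvd_prod_of_mem (fun e => (w e).den) he
      refine ⟨c * (w e).num.toNat, fun _ => ?_⟩
      have h1 : ((w e).num.toNat : ℤ) = (w e).num := Int.toNat_of_nonneg (Rat.num_nonneg.2 (hw e he))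
      have h2 : (((w e).num.toNat : ℕ) : ℚ) = ((w e).num : ℚ) := by
        rw [← h1]
        rw [Int.cast_natCast, Int.toNat_natCast]
      have h3 : ((w e).den : ℚ) * w e = ((w e).num : ℚ) := by
        rw [mul_comm]
        exact Rat.mul_den_eq_num (w e)
      rw [hc]
      push_cast
      rw [h2, ← h3]
      ring
    · exact ⟨0, fun h => absurd h he⟩
  choose a ha using h
  exact ⟨a, fun e he => ha e he⟩

theorem seymour (G : MG V E) (J0 : Finset E) (k : ℕ) : ∀ (w : E → ℕ),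
    (∀ C, G.Ev C → Even (∑ e ∈ C, w e)) → (∀ J, G.Sim J J0 → k ≤ ∑ e ∈ J, w e) →
    ∃ U : Fin k → Finset V, (∀ i, Odd (J0 ∩ G.cut (U i)).card) ∧
      ∀ e, (Finset.univ.filter (fun i => e ∈ G.cut (U i))).card ≤ w e := by
  classical
  induction k with
  | zero =>
    intro w _ _
    refine ⟨Fin.elim0, fun i => i.elim0, fun e => ?_⟩
    rw [Finset.univ_eq_empty, Finset.filter_empty, Finset.card_empty]
    exact Nat.zero_le _
  | succ k ih =>
    intro w hpar hmin
    obtain ⟨Jm, hJm, hm⟩ := ej_min G J0 w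
    have hk1 := hmin Jm hJm
    obtain ⟨Z, hodd, h1, huniq, hz⟩ := G.seyA w J0 Jm (∑ e ∈ Jm, w e) (by omega) hJm rfl hm
    have hB := G.seyB w hpar J0 Jm (∑ e ∈ Jm, w e) hJm rfl hm Z h1 huniq hz
    have hsum : ∀ C : Finset E, ∑ e ∈ C, (w e - (if e ∈ G.cut Z then 1 else 0)) +
        (C ∩ G.cut Z).card = ∑ e ∈ C, w e := by
      intro C
      have h2 : (C ∩ G.cut Z).card = ∑ e ∈ C, (if e ∈ G.cut Z then 1 else 0) := by
        rw [← Finset.sum_filter, Finset.sum_const, smul_eq_mul, mul_one, Finset.filter_mem_eq_inter]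
      rw [h2, ← sum_add_distrib]
      apply Finset.sum_congr rfl
      intro e _
      split_ifs with h3
      · have := h1 e h3
        omega
      · omega
    obtain ⟨U, hU1, hU2⟩ := ih (fun e => w e - (if e ∈ G.cut Z then 1 else 0)) (by
        intro C hC
        have h2 := hsum C
        have h3 := hpar C hC
        have h4 := G.Ev_cut C hC Z
        rw [Nat.even_iff] at h3 h4 ⊢
        omega) (by
        intro J hJ
        have h2 := hsum J
        have h3 := hB J hJ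
        change k ≤ ∑ e ∈ J, (w e - (if e ∈ G.cut Z then 1 else 0))
        omega)
    refine ⟨Fin.cons Z U, ?_, ?_⟩
    · intro i
      refine Fin.cases ?_ (fun j => ?_) i
      · rw [Fin.cons_zero]
        exact hodd
      · rw [Fin.cons_succ]
        exact hU1 j
    · intro e
      have h2 := hU2 e
      rw [Finset.card_filter, Fin.sum_univ_succ]
      rw [Finset.card_filter] at h2
      simp only [Fin.cons_zero, Fin.cons_succ]
      by_cases h3 : e ∈ G.cut Z
      · have h4 := h1 e h3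
        simp only [if_pos h3] at h2 ⊢
        omega
      · simp only [if_neg h3] at h2 ⊢
        omega

theorem EJ (G : MG V E) (F J0 : Finset E) (w z : E → ℚ) (hw : ∀ e ∈ F, 0 ≤ w e)
    (hz : ∀ e ∈ F, 0 ≤ z e)
    (hc : ∀ U : Finset V, Odd (J0 ∩ G.cut U).card → 1 ≤ ∑ e ∈ F ∩ G.cut U, z e) :
    ∃ J ⊆ F, G.Sim J J0 ∧ ∑ e ∈ J, w e ≤ ∑ e ∈ F, w e * z e := by
  classical
  obtain ⟨N, hN, a, ha⟩ := ej_den F w hw
  obtain ⟨B, hB⟩ := exists_nat_gt (∑ e ∈ F, (a e : ℚ) * z e)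
  set w' : E → ℕ := fun e => 2 * (if e ∈ F then a e else B) with hw'
  obtain ⟨Jm, hJm, hm⟩ := ej_min G J0 w'
  obtain ⟨U, hU1, hU2⟩ := G.seymour J0 (∑ e ∈ Jm, w' e) w' (by
    intro C _
    rw [hw', ← Finset.mul_sum]
    exact even_two_mul _) hm
  have hk : ((∑ e ∈ Jm, w' e : ℕ) : ℚ) ≤ 2 * ∑ e ∈ F, (a e : ℚ) * z e := by
    have h1 : ((∑ e ∈ Jm, w' e : ℕ) : ℚ) = ∑ _i : Fin (∑ e ∈ Jm, w' e), (1 : ℚ) := by
      rw [Finset.sum_const, Finset.card_univ, Fintype.card_fin, nsmul_eq_mul, mul_one]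
    have h2 : ∑ _i : Fin (∑ e ∈ Jm, w' e), (1 : ℚ) ≤
        ∑ i : Fin (∑ e ∈ Jm, w' e), ∑ e ∈ F, (if e ∈ G.cut (U i) then z e else 0) := by
      apply Finset.sum_le_sum
      intro i _
      have h3 := hc (U i) (hU1 i)
      rw [← Finset.sum_filter, Finset.filter_mem_eq_inter]
      exact h3
    rw [h1]
    refine h2.trans ?_
    rw [Finset.sum_comm, Finset.mul_sum]
    apply Finset.sum_le_sum
    intro e he
    have h4 := hU2 e
    rw [← Finset.sum_filter, Finset.sum_const, nsmul_eq_mul]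
    have h5 : ((Finset.univ.filter (fun i => e ∈ G.cut (U i))).card : ℚ) ≤ 2 * (a e : ℚ) := by
      have h6 : w' e = 2 * a e := by
        rw [hw']
        simp only [if_pos he]
      rw [h6] at h4
      exact_mod_cast h4
    have h7 := mul_le_mul_of_nonneg_right h5 (hz e he)
    linarith
  have hsub : Jm ⊆ F := by
    intro e he
    by_contra heF
    have h1 : w' e ≤ ∑ e ∈ Jm, w' e := Finset.single_le_sum (fun _ _ => Nat.zero_le _) he
    have h2 : w' e = 2 * B := by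
      rw [hw']
      simp only [if_neg heF]
    rw [h2] at h1
    have h3 : (2 : ℚ) * B ≤ ((∑ e ∈ Jm, w' e : ℕ) : ℚ) := by exact_mod_cast h1
    linarith
  refine ⟨Jm, hsub, hJm, ?_⟩
  have h1 : ((∑ e ∈ Jm, w' e : ℕ) : ℚ) = 2 * ((N : ℚ) * ∑ e ∈ Jm, w e) := by
    rw [Finset.mul_sum, Finset.mul_sum, Nat.cast_sum]
    apply Finset.sum_congr rfl
    intro e he
    rw [← ha e (hsub he), hw']
    simp only [if_pos (hsub he)]
    push_cast
    ring
  have h2 : ∑ e ∈ F, (a e : ℚ) * z e = (N : ℚ) * ∑ e ∈ F, w e * z e := by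
    rw [Finset.mul_sum]
    apply Finset.sum_congr rfl
    intro e he
    rw [ha e he]
    ring
  rw [h1, h2] at hk
  have hN' : (0 : ℚ) < N := by exact_mod_cast hN
  exact le_of_mul_le_mul_left (by linarith) hN'

end MG

end Pool.Agent.Lib.MP_95e9b3_coC
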