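import Pool.Agent.Lib.MP_95e9b3_coC.Bases
import Pool.Agent.Lib.MP_95e9b3_coC.EJ

/-!
# Two disjoint joins, one of them light, in graphs without cuts of size 1, ..., 5

Let `H` be a multigraph in which every cut has `0` or at least `6` edges, let all edges outside `M` be
loops, and let `w ≥ 0`. Then there are disjoint `J, J' ⊆ M` with the same degree parities as `M` such that
`18 w(J) ≤ 5 w(M)`.

`csa_col`: by `bases` with `k = 3` the edges can be coloured with three colours such that every nonempty cut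
contains all three colours.
`csa_two`: if `e` is in two cuts `D1, D2` such that `D1` has exactly two edges of colour `≠ j` and `D2` has
exactly two edges of colour `≠ j'`, where `j ≠ j'` are different from the colour `i` of `e`, then `e` is the
only edge of colour `i` in `D1` and in `D2`; `D1 ∆ D2` is a cut without edges of colour `i`, so `D1 = D2`, and
`D1` has only three edges.
`csa_join`: for every colour `j` apply `EJ` to the edges `N` of `M` of colour `≠ j` and the weights `1/2` on the
edges which are in a cut with exactly two edges in `N`, and `1/3` on the other edges.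
-/

set_option autoImplicit false

namespace Pool.Agent.Lib.MP_95e9b3_coC

open Finset
open scoped symmDiff

namespace MG

variable {V W E : Type} [Fintype V] [DecidableEq V] [Fintype W] [DecidableEq W]
  [Fintype E] [DecidableEq E]

private theorem csa_col (H : MG V E) (h6 : ∀ U : Finset V, (H.cut U).card = 0 ∨ 6 ≤ (H.cut U).card) :
    ∃ c : E → Fin 3, ∀ U : Finset V, (H.cut U).Nonempty → ∀ i, ∃ e ∈ H.cut U, c e = i := by
  classical
  obtain ⟨B, -, hBB, hB⟩ := H.bases 3 ∅ (fun U _ => by
    rcases h6 U with h | h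
    · exact Or.inl h
    · exact Or.inr h)
  have hmeet : ∀ U : Finset V, (H.cut U).Nonempty → ∀ i, ∃ e ∈ H.cut U, e ∈ B i := by
    intro U hU i
    by_contra hcon
    have h1 : (B i ∪ ∅) ∩ H.cut U = ∅ := by
      rw [Finset.union_empty, Finset.eq_empty_iff_forall_notMem]
      intro e he
      exact hcon ⟨e, (Finset.mem_inter.1 he).2, (Finset.mem_inter.1 he).1⟩
    obtain ⟨e, he⟩ := hU
    have h2 := (mem_cut H U e).1 he
    have h3 : H.Rch (B i ∪ ∅) (H.s e) (H.t e) :=
      hB i _ _ (Rch_edge H Finset.univ e (Finset.mem_univ e))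
    apply h2
    constructor
    · intro hs
      exact closed_Rch H _ U h1 _ _ hs h3
    · intro ht
      exact closed_Rch H _ U h1 _ _ ht (Rch_symm H _ _ _ h3)
  refine ⟨fun e => if e ∈ B 0 then 0 else if e ∈ B 1 then 1 else 2, ?_⟩
  intro U hU i
  obtain ⟨e, he, hei⟩ := hmeet U hU i
  refine ⟨e, he, ?_⟩
  have hd : ∀ j, j ≠ i → e ∉ B j := fun j hj h =>
    Finset.disjoint_left.1 (hBB j i hj) h hei
  show (if e ∈ B 0 then (0 : Fin 3) else if e ∈ B 1 then 1 else 2) = i
  have h3 : i = 0 ∨ i = 1 ∨ i = 2 := by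
    clear hd hei
    revert i
    decide
  rcases h3 with rfl | rfl | rfl
  · rw [if_pos hei]
  · rw [if_neg (hd 0 (by decide)), if_pos hei]
  · rw [if_neg (hd 0 (by decide)), if_neg (hd 1 (by decide))]

private theorem csa_other : ∀ j : Fin 3, ∃ a b : Fin 3, a ≠ b ∧ a ≠ j ∧ b ≠ j := by decide

/-- the bad edges for the colour `j` -/
private def csa_bad (H : MG V E) (c : E → Fin 3) (j : Fin 3) (e : E) : Prop :=
  ∃ U : Finset V, e ∈ H.cut U ∧ ((H.cut U).filter (fun f => c f ≠ j)).card = 2

private theorem csa_one (H : MG V E) (c : E → Fin 3)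
    (hc : ∀ U : Finset V, (H.cut U).Nonempty → ∀ i, ∃ e ∈ H.cut U, c e = i)
    (e : E) (j j' : Fin 3) (hj : c e ≠ j) (hj' : c e ≠ j') (hjj : j ≠ j') (U : Finset V)
    (hU : e ∈ H.cut U) (h2 : ((H.cut U).filter (fun f => c f ≠ j)).card = 2) :
    (∀ f ∈ H.cut U, c f = c e → f = e) ∧ ((H.cut U).filter (fun f => c f = j')).card = 1 := by
  classical
  obtain ⟨g, hg, hgj⟩ := hc U ⟨e, hU⟩ j'
  have hge : g ≠ e := by
    rintro rfl
    exact hj' hgj
  have hsub : ({e, g} : Finset E) ⊆ (H.cut U).filter (fun f => c f ≠ j) := by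
    intro x hx
    rw [Finset.mem_insert, Finset.mem_singleton] at hx
    rw [Finset.mem_filter]
    rcases hx with rfl | rfl
    · exact ⟨hU, hj⟩
    · exact ⟨hg, by rw [hgj]; exact hjj.symm⟩
  have heq := Finset.eq_of_subset_of_card_le hsub (by
    rw [h2, Finset.card_pair hge.symm])
  have hmem : ∀ f ∈ H.cut U, c f ≠ j → f = e ∨ f = g := by
    intro f hf hfj
    have h1 : f ∈ (H.cut U).filter (fun f => c f ≠ j) := Finset.mem_filter.2 ⟨hf, hfj⟩
    rw [← heq, Finset.mem_insert, Finset.mem_singleton] at h1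
    exact h1
  constructor
  · intro f hf hfc
    rcases hmem f hf (by rw [hfc]; exact hj) with h | h
    · exact h
    · exfalso
      rw [h, hgj] at hfc
      exact hj' hfc.symm
  · rw [Finset.card_eq_one]
    refine ⟨g, ?_⟩
    ext f
    rw [Finset.mem_filter, Finset.mem_singleton]
    constructor
    · rintro ⟨hf, hfj⟩
      rcases hmem f hf (by rw [hfj]; exact hjj.symm) with h | h
      · exfalso
        rw [h] at hfj
        exact hj' hfj
      · exact h
    · rintro rfl
      exact ⟨hg, hgj⟩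

private theorem csa_two (H : MG V E)
    (h6 : ∀ U : Finset V, (H.cut U).card = 0 ∨ 6 ≤ (H.cut U).card) (c : E → Fin 3)
    (hc : ∀ U : Finset V, (H.cut U).Nonempty → ∀ i, ∃ e ∈ H.cut U, c e = i)
    (e : E) (j j' : Fin 3) (hj : c e ≠ j) (hj' : c e ≠ j') (hjj : j ≠ j')
    (hb : csa_bad H c j e) (hb' : csa_bad H c j' e) : False := by
  classical
  obtain ⟨U, hU, h2⟩ := hb
  obtain ⟨U', hU', h2'⟩ := hb'
  obtain ⟨k1, k2⟩ := csa_one H c hc e j j' hj hj' hjj U hU h2
  obtain ⟨k1', k2'⟩ := csa_one H c hc e j' j hj' hj hjj.symm U' hU' h2'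
  have hempty : H.cut (U ∆ U') = ∅ := by
    by_contra hne
    obtain ⟨g, hg, hgc⟩ := hc (U ∆ U') (Finset.nonempty_iff_ne_empty.2 hne) (c e)
    rw [cut_symm, Finset.mem_symmDiff] at hg
    rcases hg with ⟨h3, h4⟩ | ⟨h3, h4⟩
    · rw [k1 g h3 hgc] at h4
      exact h4 hU'
    · rw [k1' g h3 hgc] at h4
      exact h4 hU
  rw [cut_symm] at hempty
  have heq : H.cut U = H.cut U' := by
    ext x
    by_contra hx
    have h3 : x ∈ H.cut U ∆ H.cut U' := by
      rw [Finset.mem_symmDiff]
      tauto
    rw [hempty] at h3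
    exact absurd h3 (Finset.notMem_empty x)
  rw [← heq] at k2'
  have hcard : (H.cut U).card = 3 := by
    have h3 := Finset.card_filter_add_card_filter_not (s := H.cut U) (fun f => c f ≠ j)
    have h4 : (H.cut U).filter (fun f => ¬ c f ≠ j) = (H.cut U).filter (fun f => c f = j) := by
      apply Finset.filter_congr
      intro x _
      exact not_not
    rw [h4, h2, k2'] at h3
    omega
  rcases h6 U with h | h <;> omega

open Classical in
/-- two disjoint joins in `M`, the first one of weight at most `5/18` of the weight of `M` -/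
theorem csa_join (H : MG V E) (M : Finset E) (hM : ∀ e, e ∉ M → H.s e = H.t e)
    (h6 : ∀ U : Finset V, (H.cut U).card = 0 ∨ 6 ≤ (H.cut U).card) (w : E → ℕ) :
    ∃ J J' : Finset E, J ⊆ M ∧ J' ⊆ M ∧ Disjoint J J' ∧ H.Sim J M ∧ H.Sim J' M ∧
      18 * (∑ e ∈ J, (w e : ℚ)) ≤ 5 * ∑ e ∈ M, (w e : ℚ) := by
  obtain ⟨c, hc⟩ := csa_col H h6
  have hcutM : ∀ U : Finset V, H.cut U ⊆ M := by
    intro U e he
    by_contra h
    rw [mem_cut, hM e h] at he
    exact he Iff.rfl
  obtain ⟨z, hz⟩ : ∃ z : Fin 3 → E → ℚ, ∀ j e, z j e = if csa_bad H c j e then 1 / 2 else 1 / 3 :=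
    ⟨_, fun _ _ => rfl⟩
  have hz3 : ∀ j e, 1 / 3 ≤ z j e := by
    intro j e
    rw [hz]
    split_ifs <;> norm_num
  have hJ : ∀ j, ∃ J ⊆ M.filter (fun e => c e ≠ j), H.Sim J M ∧
      ∑ e ∈ J, (w e : ℚ) ≤ ∑ e ∈ M.filter (fun e => c e ≠ j), (w e : ℚ) * z j e := by
    intro j
    refine H.EJ (M.filter (fun e => c e ≠ j)) M (fun e => (w e : ℚ)) (z j) (fun e _ => Nat.cast_nonneg _)
      (fun e _ => le_trans (by norm_num) (hz3 j e)) ?_
    intro U hU
    have h1 : M ∩ H.cut U = H.cut U := Finset.inter_eq_right.2 (hcutM U)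
    rw [h1] at hU
    have h2 : (M.filter (fun e => c e ≠ j)) ∩ H.cut U = (H.cut U).filter (fun e => c e ≠ j) := by
      ext e
      rw [Finset.mem_inter, Finset.mem_filter, Finset.mem_filter]
      constructor
      · rintro ⟨⟨-, h3⟩, h4⟩
        exact ⟨h4, h3⟩
      · rintro ⟨h3, h4⟩
        exact ⟨⟨hcutM U h3, h4⟩, h3⟩
    rw [h2]
    have hne : (H.cut U).Nonempty := by
      rw [← Finset.card_pos]
      exact hU.pos
    have hge : 2 ≤ ((H.cut U).filter (fun e => c e ≠ j)).card := by
      obtain ⟨a, b, hab, ha, hb⟩ := csa_other j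
      obtain ⟨x, hx, hxa⟩ := hc U hne a
      obtain ⟨y, hy, hyb⟩ := hc U hne b
      have hxy : x ≠ y := by
        rintro rfl
        exact hab (hxa.symm.trans hyb)
      rw [← Finset.card_pair hxy]
      apply Finset.card_le_card
      intro e he
      rw [Finset.mem_insert, Finset.mem_singleton] at he
      rw [Finset.mem_filter]
      rcases he with rfl | rfl
      · exact ⟨hx, by rw [hxa]; exact ha⟩
      · exact ⟨hy, by rw [hyb]; exact hb⟩
    rcases Nat.eq_or_lt_of_le hge with h3 | h3
    · have h4 : ∑ e ∈ (H.cut U).filter (fun e => c e ≠ j), z j e =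
          ∑ e ∈ (H.cut U).filter (fun e => c e ≠ j), (1 / 2 : ℚ) := by
        apply Finset.sum_congr rfl
        intro e he
        rw [hz]
        exact if_pos ⟨U, (Finset.mem_filter.1 he).1, h3.symm⟩
      rw [h4, Finset.sum_const, ← h3]
      norm_num
    · have h4 : ∑ _e ∈ (H.cut U).filter (fun e => c e ≠ j), (1 / 3 : ℚ) ≤
          ∑ e ∈ (H.cut U).filter (fun e => c e ≠ j), z j e :=
        Finset.sum_le_sum fun e _ => hz3 j e
      rw [Finset.sum_const, nsmul_eq_mul] at h4
      have h5 : (3 : ℚ) ≤ (((H.cut U).filter (fun e => c e ≠ j)).card : ℚ) := by exact_mod_cast h3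
      linarith
  have htot : ∑ j : Fin 3, ∑ e ∈ M.filter (fun e => c e ≠ j), (w e : ℚ) * z j e ≤
      5 / 6 * ∑ e ∈ M, (w e : ℚ) := by
    have h1 : ∀ j : Fin 3, ∑ e ∈ M.filter (fun e => c e ≠ j), (w e : ℚ) * z j e =
        ∑ e ∈ M, (w e : ℚ) * (if c e ≠ j then z j e else 0) := by
      intro j
      rw [Finset.sum_filter]
      apply Finset.sum_congr rfl
      intro e _
      split_ifs
      · rfl
      · rw [mul_zero]
    rw [Finset.sum_congr rfl (fun j _ => h1 j), Finset.sum_comm, Finset.mul_sum]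
    apply Finset.sum_le_sum
    intro e _
    rw [← Finset.mul_sum, mul_comm]
    refine mul_le_mul_of_nonneg_right ?_ (Nat.cast_nonneg _)
    have h2 : ∀ j j' : Fin 3, c e ≠ j → c e ≠ j' → j ≠ j' → z j e + z j' e ≤ 5 / 6 := by
      intro j j' hj hj' hjj
      rw [hz, hz]
      by_cases h3 : csa_bad H c j e
      · by_cases h4 : csa_bad H c j' e
        · exact (csa_two H h6 c hc e j j' hj hj' hjj h3 h4).elim
        · rw [if_pos h3, if_neg h4]
          norm_num
      · rw [if_neg h3]
        split_ifs <;> norm_num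
    rw [Fin.sum_univ_three]
    have h3 : c e = 0 ∨ c e = 1 ∨ c e = 2 := by
      generalize c e = i
      revert i
      decide
    rcases h3 with h3 | h3 | h3
    · rw [h3, if_neg (by decide), if_pos (by decide), if_pos (by decide)]
      have := h2 1 2 (by rw [h3]; decide) (by rw [h3]; decide) (by decide)
      linarith
    · rw [h3, if_pos (by decide), if_neg (by decide), if_pos (by decide)]
      have := h2 0 2 (by rw [h3]; decide) (by rw [h3]; decide) (by decide)
      linarith
    · rw [h3, if_pos (by decide), if_pos (by decide), if_neg (by decide)]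
      have := h2 0 1 (by rw [h3]; decide) (by rw [h3]; decide) (by decide)
      linarith
  choose J hJ1 hJ2 hJ3 using hJ
  have hmin : ∃ j, 18 * (∑ e ∈ J j, (w e : ℚ)) ≤ 5 * ∑ e ∈ M, (w e : ℚ) := by
    by_contra hcon
    rw [not_exists] at hcon
    have h0 := not_le.1 (hcon 0)
    have h1 := not_le.1 (hcon 1)
    have h2 := not_le.1 (hcon 2)
    have g0 := hJ3 0
    have g1 := hJ3 1
    have g2 := hJ3 2
    rw [Fin.sum_univ_three] at htot
    linarith
  obtain ⟨j, hj⟩ := hmin
  obtain ⟨J', hJ', hS'⟩ := H.join_exists (M.filter (fun e => c e = j)) M (by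
    intro U hU
    by_cases hne : (H.cut U).Nonempty
    · exfalso
      obtain ⟨e, he, hej⟩ := hc U hne j
      have h1 : e ∈ (M.filter (fun e => c e = j)) ∩ H.cut U :=
        Finset.mem_inter.2 ⟨Finset.mem_filter.2 ⟨hcutM U he, hej⟩, he⟩
      rw [hU] at h1
      exact absurd h1 (Finset.notMem_empty e)
    · rw [Finset.not_nonempty_iff_eq_empty.1 hne, Finset.inter_empty, Finset.card_empty]
      exact Even.zero)
  refine ⟨J j, J', (hJ1 j).trans (Finset.filter_subset _ _), hJ'.trans (Finset.filter_subset _ _), ?_,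
    hJ2 j, hS', hj⟩
  rw [Finset.disjoint_left]
  intro e h1 h2
  exact (Finset.mem_filter.1 (hJ1 j h1)).2 (Finset.mem_filter.1 (hJ' h2)).2

end MG

end Pool.Agent.Lib.MP_95e9b3_coC
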