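import Pool.Agent.Lib.MP_95e9b3_coC.Cubic
import Pool.Agent.Lib.MP_95e9b3_coC.EJ

/-!
# JOB Match: a good perfect matching of a cubic multigraph without bridges

Let `u e = w e - η * av e ≥ 0`, let `𝒟` be the finset of all `U : Finset V` with `(cut U).card = 3`,
`Λ = ∑ e, w e + 1`, and `w' e = u e + Λ * #{U ∈ 𝒟 | e ∈ cut U}`. Apply `EJ` with `F = J0 = univ`,
`z = 1/3`: if `(univ ∩ cut U).card = (cut U).card` is odd it is not `1` (`Br0`), so it is at least
`3`. We get `M` with `Sim M univ` and `∑ e ∈ M, w' e ≤ (∑ e, w' e) / 3`, i.e.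
`u(M) + Λ ∑_{U ∈ 𝒟} |M ∩ cut U| ≤ u(E) / 3 + Λ * 𝒟.card`. For `U ∈ 𝒟`, `|M ∩ cut U|` is odd
(`Sim_cut`), so it is at least `1`; since `u(M) ≥ 0` and `u(E)/3 < Λ`, all of them are `1`; then
`u(M) ≤ u(E) / 3`. For `U = {v}`: `(cut {v}).card = 3` (`dg_eq`, `loopless`), so `dg M v = 1`.
Second statement (`M` is a union of series classes): `cut U = {e, f}`: `U.card` is even
(`cut_parity`), `∑ v ∈ U, dg M v = U.card`, so `|M ∩ cut U|` is even (`sum_dg`).
-/

set_option autoImplicit false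

namespace Pool.Agent.Lib.MP_95e9b3_coC

open Finset
open scoped symmDiff

namespace MG

variable {V W E : Type} [Fintype V] [DecidableEq V] [Fintype W] [DecidableEq W]
  [Fintype E] [DecidableEq E]

theorem match_exists (G : MG V E) (hc : ∀ v, G.dg Finset.univ v = 3) (hb : G.Br0)
    (w : E → ℕ) (hw : ∀ e, 1 ≤ w e) (η : ℚ) (hη : 0 ≤ η) (hη1 : η ≤ 1) :
    ∃ M : Finset E, (∀ v, G.dg M v = 1) ∧
      (∀ U : Finset V, (G.cut U).card = 3 → (M ∩ G.cut U).card = 1) ∧
      ∑ e ∈ M, ((w e : ℚ) - η * G.av e) ≤ (∑ e, ((w e : ℚ) - η * G.av e)) / 3 := by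
  classical
  have hu : ∀ e, 0 ≤ (w e : ℚ) - η * G.av e := by
    intro e
    have h1 : (1 : ℚ) ≤ (w e : ℚ) := by exact_mod_cast hw e
    have h2 : η * G.av e ≤ 1 * 1 :=
      mul_le_mul hη1 (av_le_one G e) (av_pos G e).le zero_le_one
    linarith
  have hu' : ∀ e, (w e : ℚ) - η * G.av e ≤ (w e : ℚ) := by
    intro e
    have h2 : 0 ≤ η * G.av e := mul_nonneg hη (av_pos G e).le
    linarith
  set D : Finset (Finset V) := Finset.univ.filter (fun U => (G.cut U).card = 3) with hD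
  set L : ℚ := ∑ e, (w e : ℚ) + 1 with hL
  have hL1 : 1 ≤ L := by
    have : (0 : ℚ) ≤ ∑ e, (w e : ℚ) := Finset.sum_nonneg (fun e _ => Nat.cast_nonneg _)
    linarith
  have hcount : ∀ J : Finset E, ∑ e ∈ J, (((D.filter (fun U => e ∈ G.cut U)).card : ℕ) : ℚ) =
      ((∑ U ∈ D, (J ∩ G.cut U).card : ℕ) : ℚ) := by
    intro J
    have h1 : ∑ e ∈ J, (D.filter (fun U => e ∈ G.cut U)).card = ∑ U ∈ D, (J ∩ G.cut U).card := by
      have h2 : ∀ e ∈ J, (D.filter (fun U => e ∈ G.cut U)).card =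
          ∑ U ∈ D, if e ∈ G.cut U then 1 else 0 := fun e _ => Finset.card_filter _ _
      rw [Finset.sum_congr rfl h2, Finset.sum_comm]
      apply Finset.sum_congr rfl
      intro U _
      rw [← Finset.card_filter, Finset.filter_mem_eq_inter]
    rw [← h1]
    push_cast
    rfl
  obtain ⟨M, -, hsim, hle⟩ := EJ G Finset.univ Finset.univ
    (fun e => ((w e : ℚ) - η * G.av e) + L * (((D.filter (fun U => e ∈ G.cut U)).card : ℕ) : ℚ))
    (fun _ => 1 / 3)
    (fun e _ => add_nonneg (hu e) (mul_nonneg (by linarith) (Nat.cast_nonneg _)))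
    (fun e _ => by norm_num)
    (fun U hU => by
      rw [Finset.sum_const, nsmul_eq_mul]
      have h1 : (Finset.univ ∩ G.cut U).card ≠ 1 := by
        rw [Finset.univ_inter]
        exact hb U
      have h3 : 3 ≤ (Finset.univ ∩ G.cut U).card := by
        obtain ⟨k, hk⟩ := hU
        omega
      have h4 : (3 : ℚ) ≤ ((Finset.univ ∩ G.cut U).card : ℚ) := by exact_mod_cast h3
      linarith)
  rw [Finset.sum_add_distrib, ← Finset.mul_sum, hcount, ← Finset.sum_mul,
    Finset.sum_add_distrib, ← Finset.mul_sum, hcount] at hle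
  have hE : ∑ U ∈ D, (Finset.univ ∩ G.cut U).card = 3 * D.card := by
    rw [Finset.sum_congr rfl (fun U hU => ?_), Finset.sum_const, smul_eq_mul, mul_comm]
    rw [Finset.univ_inter]
    exact (Finset.mem_filter.1 hU).2
  rw [hE] at hle
  have hodd : ∀ U ∈ D, 1 ≤ (M ∩ G.cut U).card := by
    intro U hU
    have h1 := Sim_cut G M Finset.univ hsim U
    rw [Finset.univ_inter, (Finset.mem_filter.1 hU).2] at h1
    omega
  have hge : D.card ≤ ∑ U ∈ D, (M ∩ G.cut U).card := by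
    rw [Finset.card_eq_sum_ones]
    exact Finset.sum_le_sum hodd
  have huM : 0 ≤ ∑ e ∈ M, ((w e : ℚ) - η * G.av e) := Finset.sum_nonneg (fun e _ => hu e)
  have huE : 0 ≤ ∑ e, ((w e : ℚ) - η * G.av e) := Finset.sum_nonneg (fun e _ => hu e)
  have huE' : ∑ e, ((w e : ℚ) - η * G.av e) < L := by
    have : ∑ e, ((w e : ℚ) - η * G.av e) ≤ ∑ e, (w e : ℚ) := Finset.sum_le_sum (fun e _ => hu' e)
    linarith
  have hle2 : ∑ U ∈ D, (M ∩ G.cut U).card ≤ D.card := by
    by_contra hlt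
    have h1 : D.card + 1 ≤ ∑ U ∈ D, (M ∩ G.cut U).card := by omega
    have h2 : (D.card : ℚ) + 1 ≤ ((∑ U ∈ D, (M ∩ G.cut U).card : ℕ) : ℚ) := by exact_mod_cast h1
    have h3 : L * ((D.card : ℚ) + 1) ≤ L * ((∑ U ∈ D, (M ∩ G.cut U).card : ℕ) : ℚ) :=
      mul_le_mul_of_nonneg_left h2 (by linarith)
    push_cast at hle h3
    nlinarith
  have heq : ∑ U ∈ D, (M ∩ G.cut U).card = D.card := le_antisymm hle2 hge
  have hone : ∀ U ∈ D, (M ∩ G.cut U).card = 1 := by
    have h1 : ∑ U ∈ D, 1 = ∑ U ∈ D, (M ∩ G.cut U).card := by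
      rw [heq, Finset.card_eq_sum_ones]
    intro U hU
    exact ((Finset.sum_eq_sum_iff_of_le hodd).1 h1 U hU).symm
  have hloop : ∀ (J : Finset E) (v : V), (J.filter (fun e => G.s e = v ∧ G.t e = v)).card = 0 := by
    intro J v
    rw [Finset.card_eq_zero, Finset.filter_eq_empty_iff]
    rintro e - ⟨h1, h2⟩
    exact loopless G hc hb e (h1.trans h2.symm)
  refine ⟨M, fun v => ?_, fun U hU => hone U (Finset.mem_filter.2 ⟨Finset.mem_univ _, hU⟩), ?_⟩
  · have h1 := dg_eq G Finset.univ v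
    rw [hc v, hloop, Finset.univ_inter] at h1
    have h2 := hone {v} (Finset.mem_filter.2 ⟨Finset.mem_univ _, by omega⟩)
    rw [dg_eq G M v, hloop, h2]
  · rw [heq] at hle
    push_cast at hle
    linarith

theorem match_ser (G : MG V E) (hc : ∀ v, G.dg Finset.univ v = 3)
    (M : Finset E) (hM : ∀ v, G.dg M v = 1) (e f : E) (h : G.Ser e f) (he : e ∈ M) : f ∈ M := by
  rcases h with h | ⟨U, hU⟩
  · rw [← h]
    exact he
  by_cases hef : e = f
  · rw [← hef]
    exact he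
  have hcard : (G.cut U).card = 2 := by
    rw [hU, Finset.card_pair hef]
  have hpar := cut_parity G hc U
  have hs := sum_dg G M U
  have hs' : ∑ v ∈ U, G.dg M v = U.card := by
    rw [Finset.sum_congr rfl (fun v _ => hM v), Finset.card_eq_sum_ones]
  have hmem : e ∈ M ∩ G.cut U := by
    rw [Finset.mem_inter, hU]
    exact ⟨he, Finset.mem_insert_self _ _⟩
  have hpos : 0 < (M ∩ G.cut U).card := Finset.card_pos.2 ⟨e, hmem⟩
  have h2 : 2 ≤ (M ∩ G.cut U).card := by omega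
  have heq : M ∩ G.cut U = G.cut U :=
    Finset.eq_of_subset_of_card_le Finset.inter_subset_right (by omega)
  have hf : f ∈ M ∩ G.cut U := by
    rw [heq, hU]
    exact Finset.mem_insert_of_mem (Finset.mem_singleton_self _)
  exact (Finset.mem_inter.1 hf).1

end MG

end Pool.Agent.Lib.MP_95e9b3_coC
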