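import Pool.Agent.Lib.MP_95e9b3_coC.CsA
import Pool.Agent.Lib.MP_95e9b3_coC.Match
import Pool.Agent.Lib.MP_95e9b3_coC.Cost

/-!
# Cyclically 6-edge-connected cubic multigraphs with weights

`C6 G`: every cut with a nonempty even edge set on both sides has at least six edges. For a cubic multigraph
`G` without bridges with `C6 G` and weights `w ≥ 1` there is a cover by even sets of total weight at most
`59/36 w(E)`: `match_exists` (`η = 0`) gives a perfect matching `M` with `w(M) ≤ w(E)/3`; `F = univ \ M` has all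
degrees `2`. Let `H` be the contraction of the components of `F`. A nonempty cut of `H` is a cut of `G` without
edges of `F`, both sides contain circuits of `F`, so it has at least six edges. `csa_join` gives `J`, `J'`; let
`x = (0,1)` on `J`, `(1,0)` on `J'`, `(1,1)` on the rest of `M`, extend the flow (`Fl_lift`) and apply `costC`
with `k = (0,1)` and `l` the heavier one of the other two values.
-/

set_option autoImplicit false

namespace Pool.Agent.Lib.MP_95e9b3_coC

open Finset
open scoped symmDiff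

namespace MG

variable {V W E : Type} [Fintype V] [DecidableEq V] [Fintype W] [DecidableEq W]
  [Fintype E] [DecidableEq E]

/-- every cut with a nonempty even edge set on both sides has at least six edges -/
def C6 (G : MG V E) : Prop :=
  ∀ (U : Finset V) (C C' : Finset E), C.Nonempty → G.Ev C → (∀ e ∈ C, G.s e ∈ U ∧ G.t e ∈ U) →
    C'.Nonempty → G.Ev C' → (∀ e ∈ C', G.s e ∉ U ∧ G.t e ∉ U) → 6 ≤ (G.cut U).card

/-- the part of a 2-factor inside a closed set of vertices -/
private theorem csb_part (G : MG V E) (F : Finset E) (hF : ∀ v, G.dg F v = 2) (U : Finset V)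
    (hU : F ∩ G.cut U = ∅) (v : V) (hv : v ∈ U) :
    ∃ C : Finset E, C.Nonempty ∧ G.Ev C ∧ ∀ e ∈ C, G.s e ∈ U ∧ G.t e ∈ U := by
  classical
  have hcl : ∀ e ∈ F, (G.s e ∈ U ↔ G.t e ∈ U) := by
    intro e he
    by_contra h
    have h1 : e ∈ F ∩ G.cut U := Finset.mem_inter.2 ⟨he, (mem_cut G U e).2 h⟩
    rw [hU] at h1
    exact absurd h1 (Finset.notMem_empty e)
  have hdg : ∀ u, G.dg (F.filter (fun e => G.s e ∈ U)) u = if u ∈ U then 2 else 0 := by
    intro u
    by_cases hu : u ∈ U
    · rw [if_pos hu, ← hF u]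
      unfold dg
      rw [Finset.sum_filter]
      apply Finset.sum_congr rfl
      intro e he
      by_cases h1 : G.s e ∈ U
      · rw [if_pos h1]
      · rw [if_neg h1]
        have h2 : G.t e ∉ U := fun h => h1 ((hcl e he).2 h)
        have h3 : G.s e ≠ u := by
          rintro rfl
          exact h1 hu
        have h4 : G.t e ≠ u := by
          rintro rfl
          exact h2 hu
        unfold inc
        rw [if_neg h3, if_neg h4, zero_add]
    · rw [if_neg hu]
      unfold dg
      apply Finset.sum_eq_zero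
      intro e he
      obtain ⟨h1, h2⟩ := Finset.mem_filter.1 he
      have h3 := (hcl e h1).1 h2
      have h4 : G.s e ≠ u := by
        rintro rfl
        exact hu h2
      have h5 : G.t e ≠ u := by
        rintro rfl
        exact hu h3
      unfold inc
      rw [if_neg h4, if_neg h5, zero_add]
  refine ⟨F.filter (fun e => G.s e ∈ U), ?_, ?_, ?_⟩
  · rw [Finset.nonempty_iff_ne_empty]
    intro h
    have h1 := hdg v
    rw [h, dg_empty, if_pos hv] at h1
    omega
  · intro u
    rw [hdg u]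
    split_ifs
    · exact even_two
    · exact Even.zero
  · intro e he
    obtain ⟨h1, h2⟩ := Finset.mem_filter.1 he
    exact ⟨h2, (hcl e h1).1 h2⟩

private theorem csb_six (G : MG V E) (h6 : G.C6) (F : Finset E) (hF : ∀ v, G.dg F v = 2)
    (U : Finset V) (hU : F ∩ G.cut U = ∅) : (G.cut U).card = 0 ∨ 6 ≤ (G.cut U).card := by
  rcases Finset.eq_empty_or_nonempty (G.cut U) with h | ⟨e, he⟩
  · left
    rw [h, Finset.card_empty]
  · right
    have h1 := (mem_cut G U e).1 he
    obtain ⟨a, b, ha, hb⟩ : ∃ a b, a ∈ U ∧ b ∉ U := by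
      by_cases h2 : G.s e ∈ U
      · exact ⟨G.s e, G.t e, h2, fun h3 => h1 (iff_of_true h2 h3)⟩
      · by_cases h3 : G.t e ∈ U
        · exact ⟨G.t e, G.s e, h3, h2⟩
        · exact absurd (iff_of_false h2 h3) h1
    obtain ⟨C, c1, c2, c3⟩ := csb_part G F hF U hU a ha
    obtain ⟨C', d1, d2, d3⟩ := csb_part G F hF Uᶜ (by rw [cut_compl]; exact hU) b
      (Finset.mem_compl.2 hb)
    exact h6 U C C' c1 c2 c3 d1 d2 fun e he =>
      ⟨Finset.mem_compl.1 (d3 e he).1, Finset.mem_compl.1 (d3 e he).2⟩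

theorem csb_cubic (G : MG V E) (hc : ∀ v, G.dg Finset.univ v = 3) (hb : G.Br0) (h6 : G.C6)
    (w : E → ℕ) (hw : ∀ e, 1 ≤ w e) : G.Cov w (59 / 36 * ∑ e, (w e : ℚ)) := by
  classical
  obtain ⟨M, hM, -, hwM⟩ := G.match_exists hc hb w hw 0 le_rfl zero_le_one
  obtain ⟨F, hFM⟩ : ∃ F : Finset E, F = Finset.univ \ M := ⟨_, rfl⟩
  have hF : ∀ v, G.dg F v = 2 := by
    intro v
    have h1 := dg_sdiff G M Finset.univ (Finset.subset_univ M) v
    rw [hc v, hM v] at h1
    rw [hFM]
    omega
  have hFev : G.Ev (Finset.univ \ M) := by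
    intro v
    rw [← hFM, hF v]
    exact even_two
  have hwM' : 3 * ∑ e ∈ M, (w e : ℚ) ≤ ∑ e, (w e : ℚ) := by
    have h1 : ∀ e, (w e : ℚ) - 0 * G.av e = w e := fun e => by rw [zero_mul, sub_zero]
    rw [Finset.sum_congr rfl (fun e _ => h1 e), Finset.sum_congr rfl (fun e _ => h1 e)] at hwM
    linarith
  obtain ⟨H, hH⟩ : ∃ H : MG (Finset V) E, H = G.mp (G.cv F) := ⟨_, rfl⟩
  have hloop : ∀ e, e ∉ M → H.s e = H.t e := by
    intro e he
    rw [hH]
    refine (cv_eq G F (G.s e) (G.t e)).2 (Rch_edge G F e ?_)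
    rw [hFM]
    exact Finset.mem_sdiff.2 ⟨Finset.mem_univ e, he⟩
  have hH6 : ∀ U : Finset (Finset V), (H.cut U).card = 0 ∨ 6 ≤ (H.cut U).card := by
    intro U
    have h1 : F ∩ H.cut U = ∅ := by
      rw [Finset.eq_empty_iff_forall_notMem]
      intro e he
      obtain ⟨h2, h3⟩ := Finset.mem_inter.1 he
      rw [mem_cut] at h3
      apply h3
      rw [hloop e (by rw [hFM] at h2; exact (Finset.mem_sdiff.1 h2).2)]
    rw [hH, cut_mp] at h1 ⊢
    exact csb_six G h6 F hF _ h1
  obtain ⟨J, J', hJ, hJ', hd, hS, hS', hJw⟩ := csa_join H M hloop hH6 w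
  have hX : H.Ev (M ∆ J) := by
    rw [symmDiff_comm]
    exact (Sim_iff H J M).1 hS
  have hY : H.Ev (M ∆ J') := by
    rw [symmDiff_comm]
    exact (Sim_iff H J' M).1 hS'
  have hfl := Fl_of_Ev H (M ∆ J) (M ∆ J') hX hY
  rw [hH] at hfl
  obtain ⟨x, hx, hxe⟩ := Fl_lift G F (G.cv F) (cv_eq G F) _ hfl
  have hmX : ∀ e ∈ M, (e ∈ M ∆ J ↔ e ∉ J) := by
    intro e he
    rw [Finset.mem_symmDiff]
    constructor
    · rintro (h | h)
      · exact h.2
      · exact absurd he h.2
    · intro h
      exact Or.inl ⟨he, h⟩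
  have hmY : ∀ e ∈ M, (e ∈ M ∆ J' ↔ e ∉ J') := by
    intro e he
    rw [Finset.mem_symmDiff]
    constructor
    · rintro (h | h)
      · exact h.2
      · exact absurd he h.2
    · intro h
      exact Or.inl ⟨he, h⟩
  have hnF : ∀ e ∈ M, e ∉ F := by
    intro e he h
    rw [hFM] at h
    exact (Finset.mem_sdiff.1 h).2 he
  have hval : ∀ e ∈ M, x e = ((if e ∉ J then 1 else 0 : ZMod 2), (if e ∉ J' then 1 else 0 : ZMod 2)) := by
    intro e he
    rw [hxe e (hnF e he)]
    by_cases h1 : e ∈ J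
    · have h2 : e ∉ M ∆ J := fun h => (hmX e he).1 h h1
      by_cases h3 : e ∈ J'
      · have h4 : e ∉ M ∆ J' := fun h => (hmY e he).1 h h3
        rw [if_neg h2, if_neg h4, if_neg (not_not.2 h1), if_neg (not_not.2 h3)]
      · rw [if_neg h2, if_pos ((hmY e he).2 h3), if_neg (not_not.2 h1), if_pos h3]
    · by_cases h3 : e ∈ J'
      · have h4 : e ∉ M ∆ J' := fun h => (hmY e he).1 h h3
        rw [if_pos ((hmX e he).2 h1), if_neg h4, if_pos h1, if_neg (not_not.2 h3)]
      · rw [if_pos ((hmX e he).2 h1), if_pos ((hmY e he).2 h3), if_pos h1, if_pos h3]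
  have hdis : ∀ e, e ∈ J → e ∉ J' := fun e h => Finset.disjoint_left.1 hd h
  have hnz : ∀ e ∈ M, x e ≠ 0 := by
    intro e he h0
    rw [hval e he] at h0
    by_cases h1 : e ∈ J
    · have h2 : (if e ∉ J' then 1 else 0 : ZMod 2) = 0 := congrArg Prod.snd h0
      rw [if_pos (hdis e h1)] at h2
      exact absurd h2 (by decide)
    · have h2 : (if e ∉ J then 1 else 0 : ZMod 2) = 0 := congrArg Prod.fst h0
      rw [if_pos h1] at h2
      exact absurd h2 (by decide)
  have hk : M.filter (fun e => x e = (0, 1)) = J := by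
    ext e
    rw [Finset.mem_filter]
    constructor
    · rintro ⟨he, h⟩
      rw [hval e he] at h
      by_contra h1
      have h2 : (if e ∉ J then 1 else 0 : ZMod 2) = 0 := congrArg Prod.fst h
      rw [if_pos h1] at h2
      exact absurd h2 (by decide)
    · intro he
      refine ⟨hJ he, ?_⟩
      rw [hval e (hJ he), if_neg (not_not.2 he), if_pos (hdis e he)]
  have hl : M.filter (fun e => x e = (1, 0)) = J' := by
    ext e
    rw [Finset.mem_filter]
    constructor
    · rintro ⟨he, h⟩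
      rw [hval e he] at h
      by_contra h1
      have h2 : (if e ∉ J' then 1 else 0 : ZMod 2) = 0 := congrArg Prod.snd h
      rw [if_pos h1] at h2
      exact absurd h2 (by decide)
    · intro he
      refine ⟨hJ' he, ?_⟩
      have h1 : e ∉ J := fun h => hdis e h he
      rw [hval e (hJ' he), if_neg (not_not.2 he), if_pos h1]
  have hm : M.filter (fun e => x e = (1, 1)) = M \ (J ∪ J') := by
    ext e
    rw [Finset.mem_filter, Finset.mem_sdiff, Finset.mem_union]
    constructor
    · rintro ⟨he, h⟩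
      rw [hval e he] at h
      refine ⟨he, ?_⟩
      rintro (h1 | h1)
      · have h2 : (if e ∉ J then 1 else 0 : ZMod 2) = 1 := congrArg Prod.fst h
        rw [if_neg (not_not.2 h1)] at h2
        exact absurd h2 (by decide)
      · have h2 : (if e ∉ J' then 1 else 0 : ZMod 2) = 1 := congrArg Prod.snd h
        rw [if_neg (not_not.2 h1)] at h2
        exact absurd h2 (by decide)
    · rintro ⟨he, h⟩
      refine ⟨he, ?_⟩
      rw [hval e he, if_pos (fun h1 => h (Or.inl h1)), if_pos (fun h1 => h (Or.inr h1))]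
  have hsum : ∑ e ∈ M \ (J ∪ J'), (w e : ℚ) + (∑ e ∈ J, (w e : ℚ) + ∑ e ∈ J', (w e : ℚ)) =
      ∑ e ∈ M, (w e : ℚ) := by
    rw [← Finset.sum_union hd]
    exact Finset.sum_sdiff (Finset.union_subset hJ hJ')
  have hsplit : ∑ e ∈ Finset.univ \ M, (w e : ℚ) + ∑ e ∈ M, (w e : ℚ) = ∑ e, (w e : ℚ) :=
    Finset.sum_sdiff (Finset.subset_univ M)
  have hmono : ∀ l l' : ℚ, l ≤ l' → G.Cov w l → G.Cov w l' := by
    rintro l l' hll ⟨L, a1, a2, a3⟩
    exact ⟨L, a1, a2, a3.trans hll⟩
  by_cases hcase : ∑ e ∈ M \ (J ∪ J'), (w e : ℚ) ≤ ∑ e ∈ J', (w e : ℚ)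
  · have hC := G.costC w M hFev x hx hnz (0, 1) (1, 0) (by decide) (by decide) (by decide)
    rw [hk, hl] at hC
    exact hmono _ _ (by linarith) hC
  · have hC := G.costC w M hFev x hx hnz (0, 1) (1, 1) (by decide) (by decide) (by decide)
    rw [hk, hm] at hC
    have hcase' := (not_le.1 hcase).le
    exact hmono _ _ (by linarith) hC

end MG

end Pool.Agent.Lib.MP_95e9b3_coC
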