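import Pool.Agent.Lib.MP_95e9b3_coC.Basic

/-!
# JOB Supp: deleting a loop, suppressing a vertex of degree two, forgetting isolated vertices

`del G f`: the graph without the edge `f`, edges `{g // g ≠ f}`.
`sup G v e f`: `e ≠ f` are the two edges at `v` (loopless); in the new graph `f` is deleted and `e`
joins the other end of `e` and the other end of `f`. `ot G e v` is the other end of `e`.

`Cov_del`: from a cover of `del G e`, `e` a loop: add the even set `{e}`. Sets of edges of `del G e` are
mapped to sets of edges of `G` with `Finset.map` of the subtype embedding (same degrees).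
`Cov_sup`: a set `C'` of edges of `sup G v e f` is mapped to its image, plus `f` if `e ∈ C'`. If `C'` is
even, this set is even in `G` (at `v`: `0` or `2`; at another vertex `u`: the end of `e` in the new graph
at the other end of `f` is now an end of `f`). The weight is the same, with
`w' e = w e + w f`, `w' g = w g` otherwise.
`Br0_sup`: for `U' : Finset V` let `U` be `U'` with `v` added or removed such that `v ∈ U` iff the other
end of `e` is in `U'`. Then `e ∉ cut U`, and `f ∈ cut U` iff `e ∈ (sup G v e f).cut U'`, other edges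
are in `cut U` iff they are in the new cut (they have no end at `v`). So the cards are equal.
-/

set_option autoImplicit false

namespace Pool.Agent.Lib.MP_95e9b3_coC

open Finset
open scoped symmDiff

namespace MG

variable {V W E : Type} [Fintype V] [DecidableEq V] [Fintype W] [DecidableEq W]
  [Fintype E] [DecidableEq E]

/-- delete an edge -/
def del (G : MG V E) (f : E) : MG V {g : E // g ≠ f} := ⟨fun g => G.s g, fun g => G.t g⟩

/-- the other end of `e` -/
def ot (G : MG V E) (e : E) (v : V) : V := if G.s e = v then G.t e else G.s e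

/-- suppress the vertex `v` with edges `e`, `f` -/
def sup (G : MG V E) (v : V) (e f : E) : MG V {g : E // g ≠ f} :=
  ⟨fun g => if (g : E) = e then G.ot e v else G.s g,
   fun g => if (g : E) = e then G.ot f v else G.t g⟩

private theorem supp_sum (f : E) (h : E → ℕ) :
    ∑ g : {g : E // g ≠ f}, h g + h f = ∑ g, h g := by
  have h1 : ∑ g ∈ Finset.univ.erase f, h g = ∑ g : {g : E // g ≠ f}, h g :=
    Finset.sum_subtype (Finset.univ.erase f)
      (fun x => by rw [mem_erase]; exact ⟨fun h => h.1, fun h => ⟨h, mem_univ _⟩⟩) h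
  rw [← h1]
  exact Finset.sum_erase_add _ _ (mem_univ f)

private theorem supp_dgmap (G : MG V E) (f : E) (C : Finset {g : E // g ≠ f}) (v : V) :
    G.dg (C.map (Function.Embedding.subtype _)) v = (G.del f).dg C v := by
  unfold dg
  rw [Finset.sum_map]
  rfl

/-- the two ends of an edge at `v` -/
private theorem supp_ends (G : MG V E) (hl : ∀ e, G.s e ≠ G.t e) (v : V) (e : E)
    (he : G.inc e v ≠ 0) :
    G.ot e v ≠ v ∧ ((G.s e = v ∧ G.t e = G.ot e v) ∨ (G.s e = G.ot e v ∧ G.t e = v)) := by
  unfold ot
  unfold inc at he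
  by_cases h1 : G.s e = v
  · rw [if_pos h1]
    exact ⟨fun h => hl e (h1.trans h.symm), Or.inl ⟨h1, rfl⟩⟩
  · by_cases h2 : G.t e = v
    · rw [if_neg h1]
      exact ⟨h1, Or.inr ⟨rfl, h2⟩⟩
    · rw [if_neg h1, if_neg h2] at he
      exact absurd rfl he

private theorem supp_inc (G : MG V E) (hl : ∀ e, G.s e ≠ G.t e) (v : V) (e : E)
    (he : G.inc e v ≠ 0) (u : V) :
    G.inc e u = (if u = v then 1 else 0) + (if u = G.ot e v then 1 else 0) := by
  rcases (supp_ends G hl v e he).2 with h | h
  · exact G.inc_Jn e v (G.ot e v) (Or.inl h) u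
  · exact G.inc_Jn e v (G.ot e v) (Or.inr h) u

private theorem supp_other (G : MG V E) (hl : ∀ e, G.s e ≠ G.t e) (v : V) (e f : E)
    (hef : e ≠ f) (he : G.inc e v ≠ 0) (hf : G.inc f v ≠ 0) (hv : G.dg Finset.univ v = 2)
    (g : E) (hge : g ≠ e) (hgf : g ≠ f) : G.s g ≠ v ∧ G.t g ≠ v := by
  have h0 : G.inc g v = 0 := by
    have h1 : ∑ x ∈ ({g, e, f} : Finset E), G.inc x v ≤ G.dg Finset.univ v :=
      Finset.sum_le_sum_of_subset (subset_univ _)
    rw [Finset.sum_insert, Finset.sum_insert, Finset.sum_singleton] at h1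
    · omega
    · rw [mem_singleton]
      exact hef
    · rw [mem_insert, mem_singleton]
      rintro (h | h)
      · exact hge h
      · exact hgf h
  unfold inc at h0
  constructor
  · intro h
    rw [if_pos h] at h0
    omega
  · intro h
    rw [if_pos h] at h0
    omega

/-- the set of edges of `G` attached to a set of edges of `sup G v e f` -/
private def suppT (e f : E) (hef : e ≠ f) (C : Finset {g : E // g ≠ f}) : Finset E :=
  C.map (Function.Embedding.subtype _) ∪ (if (⟨e, hef⟩ : {g : E // g ≠ f}) ∈ C then {f} else ∅)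

private theorem suppT_sum (e f : E) (hef : e ≠ f) (C : Finset {g : E // g ≠ f}) (h : E → ℕ) :
    ∑ g ∈ suppT e f hef C, h g =
      ∑ g ∈ C, h g + (if (⟨e, hef⟩ : {g : E // g ≠ f}) ∈ C then h f else 0) := by
  unfold suppT
  rw [Finset.sum_union, Finset.sum_map]
  · split_ifs
    · rw [Finset.sum_singleton]
      rfl
    · rw [Finset.sum_empty]
      rfl
  · rw [Finset.disjoint_left]
    intro g hg hg2
    rw [Finset.mem_map] at hg
    obtain ⟨g', _, rfl⟩ := hg
    split_ifs at hg2
    · exact g'.2 (mem_singleton.1 hg2)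
    · exact absurd hg2 (notMem_empty _)

private theorem suppT_dg (G : MG V E) (hl : ∀ e, G.s e ≠ G.t e) (v : V) (e f : E)
    (hef : e ≠ f) (he : G.inc e v ≠ 0) (hf : G.inc f v ≠ 0) (C : Finset {g : E // g ≠ f})
    (u : V) :
    G.dg (suppT e f hef C) u = (G.sup v e f).dg C u +
      2 * (if (⟨e, hef⟩ : {g : E // g ≠ f}) ∈ C then (if u = v then 1 else 0) else 0) := by
  have h1 : G.dg (suppT e f hef C) u = ∑ g ∈ C, G.inc g u +
      (if (⟨e, hef⟩ : {g : E // g ≠ f}) ∈ C then G.inc f u else 0) :=
    suppT_sum e f hef C (fun g => G.inc g u)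
  have h2 : ∀ g : {g : E // g ≠ f}, (G.sup v e f).inc g u +
      (if g = ⟨e, hef⟩ then (if u = v then 1 else 0) else 0) = G.inc g u +
      (if g = ⟨e, hef⟩ then (if u = G.ot f v then 1 else 0) else 0) := by
    intro g
    by_cases hg : g = ⟨e, hef⟩
    · rw [if_pos hg, if_pos hg, hg]
      have h3 : (G.sup v e f).inc ⟨e, hef⟩ u =
          (if u = G.ot e v then 1 else 0) + (if u = G.ot f v then 1 else 0) := by
        apply (G.sup v e f).inc_Jn
        left
        constructor
        · exact if_pos rfl
        · exact if_pos rfl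
      rw [h3, supp_inc G hl v e he u]
      omega
    · rw [if_neg hg, if_neg hg]
      have h3 : (g : E) ≠ e := fun h => hg (Subtype.ext h)
      have h4 : (G.sup v e f).s g = G.s g := if_neg h3
      have h5 : (G.sup v e f).t g = G.t g := if_neg h3
      unfold inc
      rw [h4, h5]
  have h3 : (G.sup v e f).dg C u +
      (if (⟨e, hef⟩ : {g : E // g ≠ f}) ∈ C then (if u = v then 1 else 0) else 0) =
      ∑ g ∈ C, G.inc g u +
      (if (⟨e, hef⟩ : {g : E // g ≠ f}) ∈ C then (if u = G.ot f v then 1 else 0) else 0) := by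
    have h4 := Finset.sum_congr (rfl : C = C) fun g _ => h2 g
    rw [Finset.sum_add_distrib, Finset.sum_add_distrib,
      Finset.sum_ite_eq' C (⟨e, hef⟩ : {g : E // g ≠ f}) (fun _ => if u = v then 1 else 0),
      Finset.sum_ite_eq' C (⟨e, hef⟩ : {g : E // g ≠ f})
        (fun _ => if u = G.ot f v then 1 else 0)] at h4
    exact h4
  rw [h1, supp_inc G hl v f hf u]
  by_cases hC : (⟨e, hef⟩ : {g : E // g ≠ f}) ∈ C
  · rw [if_pos hC] at h3 ⊢
    rw [if_pos hC] at h3 ⊢
    omega
  · rw [if_neg hC] at h3 ⊢
    rw [if_neg hC] at h3 ⊢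
    omega

theorem Br0_del (G : MG V E) (hb : G.Br0) (e : E) (he : G.s e = G.t e) : (G.del e).Br0 := by
  intro U
  have h1 : ((G.del e).cut U).map (Function.Embedding.subtype _) = G.cut U := by
    ext g
    rw [Finset.mem_map, mem_cut]
    constructor
    · rintro ⟨g', hg', rfl⟩
      rw [mem_cut] at hg'
      exact hg'
    · intro hg
      have hge : g ≠ e := by
        rintro rfl
        rw [he] at hg
        exact hg Iff.rfl
      exact ⟨⟨g, hge⟩, ((G.del e).mem_cut U _).2 hg, rfl⟩
  rw [← Finset.card_map (Function.Embedding.subtype _), h1]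
  exact hb U

theorem Cov_del (G : MG V E) (e : E) (he : G.s e = G.t e) (w : E → ℕ) (l : ℚ)
    (h : (G.del e).Cov (fun g => w g) l) : G.Cov w (l + w e) := by
  obtain ⟨L, hL1, hL2, hL3⟩ := h
  refine ⟨{e} :: L.map (fun C => C.map (Function.Embedding.subtype _)), ?_, ?_, ?_⟩
  · intro C hC
    rw [List.mem_cons] at hC
    rcases hC with rfl | hC
    · intro v
      have h1 : G.dg {e} v = G.inc e v := by
        unfold dg
        rw [Finset.sum_singleton]
      rw [h1]
      unfold inc
      rw [he]
      split_ifs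
      · exact even_two
      · exact Even.zero
    · rw [List.mem_map] at hC
      obtain ⟨C', hC', rfl⟩ := hC
      intro v
      rw [supp_dgmap]
      exact hL1 C' hC' v
  · intro g
    by_cases hg : g = e
    · exact ⟨{e}, List.mem_cons_self, mem_singleton.2 hg⟩
    · obtain ⟨C, hC, hgC⟩ := hL2 ⟨g, hg⟩
      exact ⟨C.map (Function.Embedding.subtype _),
        List.mem_cons_of_mem _ (List.mem_map.2 ⟨C, hC, rfl⟩),
        Finset.mem_map.2 ⟨⟨g, hg⟩, hgC, rfl⟩⟩
  · rw [List.map_cons, List.sum_cons, List.map_map, Finset.sum_singleton]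
    have h1 : ((fun C : Finset E => ∑ e ∈ C, w e) ∘ fun C : Finset {g : E // g ≠ e} =>
        C.map (Function.Embedding.subtype _)) =
        fun C : Finset {g : E // g ≠ e} => ∑ g ∈ C, w (g : E) := by
      funext C
      change ∑ e ∈ C.map (Function.Embedding.subtype _), w e = _
      rw [Finset.sum_map]
      rfl
    rw [h1]
    push_cast at hL3 ⊢
    linarith

theorem dg_del (G : MG V E) (e : E) (v : V) :
    (G.del e).dg Finset.univ v + G.inc e v = G.dg Finset.univ v := by
  exact supp_sum e (fun g => G.inc g v)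

theorem Br0_sup (G : MG V E) (hb : G.Br0) (hl : ∀ e, G.s e ≠ G.t e) (v : V) (e f : E)
    (hef : e ≠ f) (he : G.inc e v ≠ 0) (hf : G.inc f v ≠ 0) (hv : G.dg Finset.univ v = 2) :
    (G.sup v e f).Br0 := by
  classical
  intro U'
  obtain ⟨ha, hae⟩ := supp_ends G hl v e he
  obtain ⟨hb', hbe⟩ := supp_ends G hl v f hf
  set a := G.ot e v with hadef
  set b := G.ot f v with hbdef
  set U : Finset V := if a ∈ U' then insert v U' else U'.erase v with hU
  have hUv : v ∈ U ↔ a ∈ U' := by
    rw [hU]
    split_ifs with h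
    · exact iff_of_true (mem_insert_self _ _) h
    · exact iff_of_false (notMem_erase _ _) h
  have hUo : ∀ u, u ≠ v → (u ∈ U ↔ u ∈ U') := by
    intro u hu
    rw [hU]
    split_ifs with h
    · rw [mem_insert]
      exact ⟨fun h1 => h1.resolve_left hu, fun h1 => Or.inr h1⟩
    · rw [mem_erase]
      exact ⟨fun h1 => h1.2, fun h1 => ⟨hu, h1⟩⟩
  let φ : {g : E // g ≠ f} → E := fun g => if (g : E) = e then f else g
  have hφe : ∀ g : {g : E // g ≠ f}, (g : E) = e → φ g = f := fun g hg => if_pos hg
  have hφn : ∀ g : {g : E // g ≠ f}, (g : E) ≠ e → φ g = g := fun g hg => if_neg hg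
  have hφ : Function.Injective φ := by
    intro g g' h
    by_cases h1 : (g : E) = e
    · by_cases h2 : (g' : E) = e
      · exact Subtype.ext (h1.trans h2.symm)
      · rw [hφe g h1, hφn g' h2] at h
        exact absurd h.symm g'.2
    · by_cases h2 : (g' : E) = e
      · rw [hφn g h1, hφe g' h2] at h
        exact absurd h g.2
      · rw [hφn g h1, hφn g' h2] at h
        exact Subtype.ext h
  have himg : ((G.sup v e f).cut U').image φ = G.cut U := by
    ext x
    rw [Finset.mem_image, mem_cut]
    constructor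
    · rintro ⟨g, hg, rfl⟩
      rw [mem_cut] at hg
      by_cases h1 : (g : E) = e
      · rw [hφe g h1]
        have h2 : (G.sup v e f).s g = a := if_pos h1
        have h3 : (G.sup v e f).t g = b := if_pos h1
        rw [h2, h3] at hg
        rcases hbe with hbe | hbe
        · rw [hbe.1, hbe.2, hUv, hUo b hb']
          exact hg
        · rw [hbe.1, hbe.2, hUv, hUo b hb']
          exact fun h => hg h.symm
      · rw [hφn g h1]
        have h2 : (G.sup v e f).s g = G.s g := if_neg h1
        have h3 : (G.sup v e f).t g = G.t g := if_neg h1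
        rw [h2, h3] at hg
        have h4 := supp_other G hl v e f hef he hf hv g h1 g.2
        rw [hUo _ h4.1, hUo _ h4.2]
        exact hg
    · intro hx
      by_cases h1 : x = f
      · refine ⟨⟨e, hef⟩, ?_, ?_⟩
        · rw [mem_cut]
          have h2 : (G.sup v e f).s ⟨e, hef⟩ = a := if_pos rfl
          have h3 : (G.sup v e f).t ⟨e, hef⟩ = b := if_pos rfl
          rw [h2, h3]
          rw [h1] at hx
          rcases hbe with hbe | hbe
          · rw [hbe.1, hbe.2, hUv, hUo b hb'] at hx
            exact hx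
          · rw [hbe.1, hbe.2, hUv, hUo b hb'] at hx
            exact fun h => hx h.symm
        · rw [hφe _ rfl, h1]
      · by_cases h0 : x = e
        · exfalso
          rw [h0] at hx
          rcases hae with hae | hae
          · rw [hae.1, hae.2, hUv, hUo a ha] at hx
            exact hx Iff.rfl
          · rw [hae.1, hae.2, hUv, hUo a ha] at hx
            exact hx Iff.rfl
        · refine ⟨⟨x, h1⟩, ?_, hφn ⟨x, h1⟩ h0⟩
          rw [mem_cut]
          have h2 : (G.sup v e f).s ⟨x, h1⟩ = G.s x := if_neg h0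
          have h3 : (G.sup v e f).t ⟨x, h1⟩ = G.t x := if_neg h0
          rw [h2, h3]
          have h4 := supp_other G hl v e f hef he hf hv x h0 h1
          rw [hUo _ h4.1, hUo _ h4.2] at hx
          exact hx
  rw [← Finset.card_image_of_injective _ hφ, himg]
  exact hb U

theorem Cov_sup (G : MG V E) (hl : ∀ e, G.s e ≠ G.t e) (v : V) (e f : E)
    (hef : e ≠ f) (he : G.inc e v ≠ 0) (hf : G.inc f v ≠ 0) (hv : G.dg Finset.univ v = 2)
    (w : E → ℕ) (l : ℚ)
    (h : (G.sup v e f).Cov (fun g => if (g : E) = e then w e + w f else w g) l) :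
    G.Cov w l := by
  obtain ⟨L, hL1, hL2, hL3⟩ := h
  refine ⟨L.map (suppT e f hef), ?_, ?_, ?_⟩
  · intro C hC
    rw [List.mem_map] at hC
    obtain ⟨C', hC', rfl⟩ := hC
    intro u
    rw [suppT_dg G hl v e f hef he hf C' u]
    exact (hL1 C' hC' u).add (even_two_mul _)
  · intro g
    by_cases hg : g = f
    · obtain ⟨C, hC, hgC⟩ := hL2 ⟨e, hef⟩
      refine ⟨suppT e f hef C, List.mem_map.2 ⟨C, hC, rfl⟩, ?_⟩
      unfold suppT
      rw [if_pos hgC, mem_union]
      exact Or.inr (mem_singleton.2 hg)
    · obtain ⟨C, hC, hgC⟩ := hL2 ⟨g, hg⟩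
      refine ⟨suppT e f hef C, List.mem_map.2 ⟨C, hC, rfl⟩, ?_⟩
      unfold suppT
      rw [mem_union]
      exact Or.inl (Finset.mem_map.2 ⟨⟨g, hg⟩, hgC, rfl⟩)
  · rw [List.map_map]
    have h1 : ((fun C : Finset E => ∑ e ∈ C, w e) ∘ suppT e f hef) =
        fun C : Finset {g : E // g ≠ f} =>
          ∑ g ∈ C, (if (g : E) = e then w e + w f else w (g : E)) := by
      funext C
      change ∑ g ∈ suppT e f hef C, w g = _
      rw [suppT_sum]
      have h2 : ∀ g : {g : E // g ≠ f}, (if (g : E) = e then w e + w f else w g) =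
          w g + (if g = ⟨e, hef⟩ then w f else 0) := by
        intro g
        by_cases hg : (g : E) = e
        · have hg' : g = ⟨e, hef⟩ := Subtype.ext hg
          rw [if_pos hg, if_pos hg', hg]
        · have hg' : g ≠ ⟨e, hef⟩ := fun h => hg (congrArg Subtype.val h)
          rw [if_neg hg, if_neg hg', add_zero]
      rw [Finset.sum_congr rfl fun g _ => h2 g, Finset.sum_add_distrib,
        Finset.sum_ite_eq' C (⟨e, hef⟩ : {g : E // g ≠ f}) (fun _ => w f)]
    rw [h1]
    exact hL3

theorem dg_sup (G : MG V E) (hl : ∀ e, G.s e ≠ G.t e) (v : V) (e f : E)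
    (hef : e ≠ f) (he : G.inc e v ≠ 0) (hf : G.inc f v ≠ 0) (hv : G.dg Finset.univ v = 2) :
    (G.sup v e f).dg Finset.univ v = 0 ∧
      ∀ u, u ≠ v → (G.sup v e f).dg Finset.univ u = G.dg Finset.univ u := by
  have h1 : suppT e f hef (Finset.univ : Finset {g : E // g ≠ f}) = Finset.univ := by
    ext g
    unfold suppT
    rw [mem_union, if_pos (mem_univ _), Finset.mem_map]
    refine iff_of_true ?_ (mem_univ _)
    by_cases hg : g = f
    · exact Or.inr (mem_singleton.2 hg)
    · exact Or.inl ⟨⟨g, hg⟩, mem_univ _, rfl⟩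
  have h2 := suppT_dg G hl v e f hef he hf (Finset.univ : Finset {g : E // g ≠ f})
  rw [h1] at h2
  constructor
  · have h3 := h2 v
    rw [if_pos (mem_univ _), if_pos rfl] at h3
    omega
  · intro u hu
    have h3 := h2 u
    rw [if_pos (mem_univ _), if_neg hu] at h3
    omega

/-- restriction to the vertices of degree three, if all degrees are `0` or `3` -/
theorem Cov_restrict (G : MG V E) (hd : ∀ v, G.dg Finset.univ v = 0 ∨ G.dg Finset.univ v = 3)
    (hb : G.Br0) :
    ∃ G' : MG {v : V // G.dg Finset.univ v = 3} E,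
      (∀ v, G'.dg Finset.univ v = 3) ∧ G'.Br0 ∧ ∀ (w : E → ℕ) (l : ℚ), G'.Cov w l → G.Cov w l := by
  have hs : ∀ e, G.dg Finset.univ (G.s e) = 3 := by
    intro e
    rcases hd (G.s e) with h | h
    · exfalso
      have h1 : G.inc e (G.s e) ≤ G.dg Finset.univ (G.s e) :=
        Finset.single_le_sum (f := fun g => G.inc g (G.s e)) (fun _ _ => Nat.zero_le _)
          (mem_univ e)
      unfold inc at h1
      rw [if_pos rfl] at h1
      omega
    · exact h
  have ht : ∀ e, G.dg Finset.univ (G.t e) = 3 := by
    intro e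
    rcases hd (G.t e) with h | h
    · exfalso
      have h1 : G.inc e (G.t e) ≤ G.dg Finset.univ (G.t e) :=
        Finset.single_le_sum (f := fun g => G.inc g (G.t e)) (fun _ _ => Nat.zero_le _)
          (mem_univ e)
      unfold inc at h1
      rw [if_pos (rfl : G.t e = G.t e)] at h1
      omega
    · exact h
  let G' : MG {v : V // G.dg Finset.univ v = 3} E :=
    ⟨fun e => ⟨G.s e, hs e⟩, fun e => ⟨G.t e, ht e⟩⟩
  have hinc : ∀ e (v : {v : V // G.dg Finset.univ v = 3}), G'.inc e v = G.inc e v := by
    intro e v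
    unfold inc
    have h1 : (G'.s e = v) = (G.s e = (v : V)) := propext Subtype.ext_iff
    have h2 : (G'.t e = v) = (G.t e = (v : V)) := propext Subtype.ext_iff
    simp only [h1, h2]
  have hdg : ∀ J (v : {v : V // G.dg Finset.univ v = 3}), G'.dg J v = G.dg J v := by
    intro J v
    unfold dg
    exact Finset.sum_congr rfl fun e _ => hinc e v
  refine ⟨G', ?_, ?_, ?_⟩
  · intro v
    rw [hdg]
    exact v.2
  · intro U
    have h1 : G'.cut U = G.cut (U.map (Function.Embedding.subtype _)) := by
      ext e
      rw [mem_cut, mem_cut]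
      have h2 : G'.s e ∈ U ↔ G.s e ∈ U.map (Function.Embedding.subtype _) := by
        rw [Finset.mem_map]
        constructor
        · intro h
          exact ⟨G'.s e, h, rfl⟩
        · rintro ⟨x, hx, hxe⟩
          have h3 : G'.s e = x := Subtype.ext hxe.symm
          rw [h3]
          exact hx
      have h3 : G'.t e ∈ U ↔ G.t e ∈ U.map (Function.Embedding.subtype _) := by
        rw [Finset.mem_map]
        constructor
        · intro h
          exact ⟨G'.t e, h, rfl⟩
        · rintro ⟨x, hx, hxe⟩
          have h3 : G'.t e = x := Subtype.ext hxe.symm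
          rw [h3]
          exact hx
      rw [h2, h3]
    rw [h1]
    exact hb _
  · intro w l
    rintro ⟨L, hL1, hL2, hL3⟩
    refine ⟨L, ?_, hL2, hL3⟩
    intro C hC v
    rcases hd v with h | h
    · have h1 := G.dg_mono C Finset.univ (subset_univ _) v
      have h2 : G.dg C v = 0 := by omega
      rw [h2]
      exact Even.zero
    · have h1 := hL1 C hC ⟨v, h⟩
      rw [hdg] at h1
      exact h1

end MG

end Pool.Agent.Lib.MP_95e9b3_coC
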