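import Pool.Agent.Lib.MP_95e9b3_coC.CsB
import Pool.Agent.Lib.MP_95e9b3_coC.Supp

/-!
# Cyclically 6-edge-connected multigraphs with all degrees at most three

`C6` is inherited by `del G e` (`e` a loop), by `sup G v e f` (`v` of degree two) and by the restriction to the
vertices of degree three. Induction on the number of edges as in `multi_main`.
-/

set_option autoImplicit false

namespace Pool.Agent.Lib.MP_95e9b3_coC

open Finset
open scoped symmDiff

namespace MG

variable {V W E : Type} [Fintype V] [DecidableEq V] [Fintype W] [DecidableEq W]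
  [Fintype E] [DecidableEq E]

private theorem csc_dgmap (G : MG V E) (f : E) (C : Finset {g : E // g ≠ f}) (v : V) :
    G.dg (C.map (Function.Embedding.subtype _)) v = (G.del f).dg C v := by
  unfold dg
  rw [Finset.sum_map]
  rfl

/-- the two ends of an edge at `v` -/
private theorem csc_ends (G : MG V E) (hl : ∀ e, G.s e ≠ G.t e) (v : V) (e : E)
    (he : G.inc e v ≠ 0) :
    G.ot e v ≠ v ∧ ((G.s e = v ∧ G.t e = G.ot e v) ∨ (G.s e = G.ot e v ∧ G.t e = v)) := by
  unfold ot
  unfold inc at he
  by_cases h1 : G.s e = v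
  · rw [if_pos h1]
    exact ⟨fun h => hl e (h1.trans h.symm), Or.inl ⟨h1, rfl⟩⟩
  · by_cases h2 : G.t e = v
    · rw [if_neg h1]
      exact ⟨h1, Or.inr ⟨rfl, h2⟩⟩
    · rw [if_neg h1, if_neg h2] at he
      exact absurd rfl he

private theorem csc_inc (G : MG V E) (hl : ∀ e, G.s e ≠ G.t e) (v : V) (e : E)
    (he : G.inc e v ≠ 0) (u : V) :
    G.inc e u = (if u = v then 1 else 0) + (if u = G.ot e v then 1 else 0) := by
  rcases (csc_ends G hl v e he).2 with h | h
  · exact G.inc_Jn e v (G.ot e v) (Or.inl h) u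
  · exact G.inc_Jn e v (G.ot e v) (Or.inr h) u

private theorem csc_other (G : MG V E) (hl : ∀ e, G.s e ≠ G.t e) (v : V) (e f : E)
    (hef : e ≠ f) (he : G.inc e v ≠ 0) (hf : G.inc f v ≠ 0) (hv : G.dg Finset.univ v = 2)
    (g : E) (hge : g ≠ e) (hgf : g ≠ f) : G.s g ≠ v ∧ G.t g ≠ v := by
  have h0 : G.inc g v = 0 := by
    have h1 : ∑ x ∈ ({g, e, f} : Finset E), G.inc x v ≤ G.dg Finset.univ v :=
      Finset.sum_le_sum_of_subset (subset_univ _)
    rw [Finset.sum_insert, Finset.sum_insert, Finset.sum_singleton] at h1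
    · omega
    · rw [mem_singleton]
      exact hef
    · rw [mem_insert, mem_singleton]
      rintro (h | h)
      · exact hge h
      · exact hgf h
  unfold inc at h0
  constructor
  · intro h
    rw [if_pos h] at h0
    omega
  · intro h
    rw [if_pos h] at h0
    omega

/-- the set of edges of `G` attached to a set of edges of `sup G v e f` -/
private def cscT (e f : E) (hef : e ≠ f) (C : Finset {g : E // g ≠ f}) : Finset E :=
  C.map (Function.Embedding.subtype _) ∪ (if (⟨e, hef⟩ : {g : E // g ≠ f}) ∈ C then {f} else ∅)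

private theorem cscT_sum (e f : E) (hef : e ≠ f) (C : Finset {g : E // g ≠ f}) (h : E → ℕ) :
    ∑ g ∈ cscT e f hef C, h g =
      ∑ g ∈ C, h g + (if (⟨e, hef⟩ : {g : E // g ≠ f}) ∈ C then h f else 0) := by
  unfold cscT
  rw [Finset.sum_union, Finset.sum_map]
  · split_ifs
    · rw [Finset.sum_singleton]
      rfl
    · rw [Finset.sum_empty]
      rfl
  · rw [Finset.disjoint_left]
    intro g hg hg2
    rw [Finset.mem_map] at hg
    obtain ⟨g', _, rfl⟩ := hg
    split_ifs at hg2
    · exact g'.2 (mem_singleton.1 hg2)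
    · exact absurd hg2 (notMem_empty _)

private theorem cscT_dg (G : MG V E) (hl : ∀ e, G.s e ≠ G.t e) (v : V) (e f : E)
    (hef : e ≠ f) (he : G.inc e v ≠ 0) (hf : G.inc f v ≠ 0) (C : Finset {g : E // g ≠ f})
    (u : V) :
    G.dg (cscT e f hef C) u = (G.sup v e f).dg C u +
      2 * (if (⟨e, hef⟩ : {g : E // g ≠ f}) ∈ C then (if u = v then 1 else 0) else 0) := by
  have h1 : G.dg (cscT e f hef C) u = ∑ g ∈ C, G.inc g u +
      (if (⟨e, hef⟩ : {g : E // g ≠ f}) ∈ C then G.inc f u else 0) :=
    cscT_sum e f hef C (fun g => G.inc g u)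
  have h2 : ∀ g : {g : E // g ≠ f}, (G.sup v e f).inc g u +
      (if g = ⟨e, hef⟩ then (if u = v then 1 else 0) else 0) = G.inc g u +
      (if g = ⟨e, hef⟩ then (if u = G.ot f v then 1 else 0) else 0) := by
    intro g
    by_cases hg : g = ⟨e, hef⟩
    · rw [if_pos hg, if_pos hg, hg]
      have h3 : (G.sup v e f).inc ⟨e, hef⟩ u =
          (if u = G.ot e v then 1 else 0) + (if u = G.ot f v then 1 else 0) := by
        apply (G.sup v e f).inc_Jn
        left
        constructor
        · exact if_pos rfl
        · exact if_pos rfl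
      rw [h3, csc_inc G hl v e he u]
      omega
    · rw [if_neg hg, if_neg hg]
      have h3 : (g : E) ≠ e := fun h => hg (Subtype.ext h)
      have h4 : (G.sup v e f).s g = G.s g := if_neg h3
      have h5 : (G.sup v e f).t g = G.t g := if_neg h3
      unfold inc
      rw [h4, h5]
  have h3 : (G.sup v e f).dg C u +
      (if (⟨e, hef⟩ : {g : E // g ≠ f}) ∈ C then (if u = v then 1 else 0) else 0) =
      ∑ g ∈ C, G.inc g u +
      (if (⟨e, hef⟩ : {g : E // g ≠ f}) ∈ C then (if u = G.ot f v then 1 else 0) else 0) := by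
    have h4 := Finset.sum_congr (rfl : C = C) fun g _ => h2 g
    rw [Finset.sum_add_distrib, Finset.sum_add_distrib,
      Finset.sum_ite_eq' C (⟨e, hef⟩ : {g : E // g ≠ f}) (fun _ => if u = v then 1 else 0),
      Finset.sum_ite_eq' C (⟨e, hef⟩ : {g : E // g ≠ f})
        (fun _ => if u = G.ot f v then 1 else 0)] at h4
    exact h4
  rw [h1, csc_inc G hl v f hf u]
  by_cases hC : (⟨e, hef⟩ : {g : E // g ≠ f}) ∈ C
  · rw [if_pos hC] at h3 ⊢
    rw [if_pos hC] at h3 ⊢
    omega
  · rw [if_neg hC] at h3 ⊢
    rw [if_neg hC] at h3 ⊢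
    omega

private theorem csc_C6_del (G : MG V E) (h6 : G.C6) (e : E) (he : G.s e = G.t e) : (G.del e).C6 := by
  intro U C C' c1 c2 c3 d1 d2 d3
  have h1 : ((G.del e).cut U).map (Function.Embedding.subtype _) = G.cut U := by
    ext g
    rw [Finset.mem_map, mem_cut]
    constructor
    · rintro ⟨g', hg', rfl⟩
      rw [mem_cut] at hg'
      exact hg'
    · intro hg
      have hge : g ≠ e := by
        rintro rfl
        rw [he] at hg
        exact hg Iff.rfl
      exact ⟨⟨g, hge⟩, ((G.del e).mem_cut U _).2 hg, rfl⟩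
  rw [← Finset.card_map (Function.Embedding.subtype _), h1]
  refine h6 U (C.map (Function.Embedding.subtype _)) (C'.map (Function.Embedding.subtype _))
    (c1.map) ?_ ?_ (d1.map) ?_ ?_
  · intro v
    rw [csc_dgmap]
    exact c2 v
  · intro g hg
    obtain ⟨g', hg', rfl⟩ := Finset.mem_map.1 hg
    exact c3 g' hg'
  · intro v
    rw [csc_dgmap]
    exact d2 v
  · intro g hg
    obtain ⟨g', hg', rfl⟩ := Finset.mem_map.1 hg
    exact d3 g' hg'

private theorem csc_C6_sup (G : MG V E) (h6 : G.C6) (hl : ∀ e, G.s e ≠ G.t e) (v : V) (e f : E)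
    (hef : e ≠ f) (he : G.inc e v ≠ 0) (hf : G.inc f v ≠ 0) (hv : G.dg Finset.univ v = 2) :
    (G.sup v e f).C6 := by
  classical
  intro U' C C' c1 c2 c3 d1 d2 d3
  obtain ⟨ha, hae⟩ := csc_ends G hl v e he
  obtain ⟨hb', hbe⟩ := csc_ends G hl v f hf
  set a := G.ot e v with hadef
  set b := G.ot f v with hbdef
  set U : Finset V := if a ∈ U' then insert v U' else U'.erase v with hU
  have hUv : v ∈ U ↔ a ∈ U' := by
    rw [hU]
    split_ifs with h
    · exact iff_of_true (mem_insert_self _ _) h
    · exact iff_of_false (notMem_erase _ _) h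
  have hUo : ∀ u, u ≠ v → (u ∈ U ↔ u ∈ U') := by
    intro u hu
    rw [hU]
    split_ifs with h
    · rw [mem_insert]
      exact ⟨fun h1 => h1.resolve_left hu, fun h1 => Or.inr h1⟩
    · rw [mem_erase]
      exact ⟨fun h1 => h1.2, fun h1 => ⟨hu, h1⟩⟩
  let φ : {g : E // g ≠ f} → E := fun g => if (g : E) = e then f else g
  have hφe : ∀ g : {g : E // g ≠ f}, (g : E) = e → φ g = f := fun g hg => if_pos hg
  have hφn : ∀ g : {g : E // g ≠ f}, (g : E) ≠ e → φ g = g := fun g hg => if_neg hg
  have hφ : Function.Injective φ := by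
    intro g g' h
    by_cases h1 : (g : E) = e
    · by_cases h2 : (g' : E) = e
      · exact Subtype.ext (h1.trans h2.symm)
      · rw [hφe g h1, hφn g' h2] at h
        exact absurd h.symm g'.2
    · by_cases h2 : (g' : E) = e
      · rw [hφn g h1, hφe g' h2] at h
        exact absurd h g.2
      · rw [hφn g h1, hφn g' h2] at h
        exact Subtype.ext h
  have himg : ((G.sup v e f).cut U').image φ = G.cut U := by
    ext x
    rw [Finset.mem_image, mem_cut]
    constructor
    · rintro ⟨g, hg, rfl⟩
      rw [mem_cut] at hg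
      by_cases h1 : (g : E) = e
      · rw [hφe g h1]
        have h2 : (G.sup v e f).s g = a := if_pos h1
        have h3 : (G.sup v e f).t g = b := if_pos h1
        rw [h2, h3] at hg
        rcases hbe with hbe | hbe
        · rw [hbe.1, hbe.2, hUv, hUo b hb']
          exact hg
        · rw [hbe.1, hbe.2, hUv, hUo b hb']
          exact fun h => hg h.symm
      · rw [hφn g h1]
        have h2 : (G.sup v e f).s g = G.s g := if_neg h1
        have h3 : (G.sup v e f).t g = G.t g := if_neg h1
        rw [h2, h3] at hg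
        have h4 := csc_other G hl v e f hef he hf hv g h1 g.2
        rw [hUo _ h4.1, hUo _ h4.2]
        exact hg
    · intro hx
      by_cases h1 : x = f
      · refine ⟨⟨e, hef⟩, ?_, ?_⟩
        · rw [mem_cut]
          have h2 : (G.sup v e f).s ⟨e, hef⟩ = a := if_pos rfl
          have h3 : (G.sup v e f).t ⟨e, hef⟩ = b := if_pos rfl
          rw [h2, h3]
          rw [h1] at hx
          rcases hbe with hbe | hbe
          · rw [hbe.1, hbe.2, hUv, hUo b hb'] at hx
            exact hx
          · rw [hbe.1, hbe.2, hUv, hUo b hb'] at hx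
            exact fun h => hx h.symm
        · rw [hφe _ rfl, h1]
      · by_cases h0 : x = e
        · exfalso
          rw [h0] at hx
          rcases hae with hae | hae
          · rw [hae.1, hae.2, hUv, hUo a ha] at hx
            exact hx Iff.rfl
          · rw [hae.1, hae.2, hUv, hUo a ha] at hx
            exact hx Iff.rfl
        · refine ⟨⟨x, h1⟩, ?_, hφn ⟨x, h1⟩ h0⟩
          rw [mem_cut]
          have h2 : (G.sup v e f).s ⟨x, h1⟩ = G.s x := if_neg h0
          have h3 : (G.sup v e f).t ⟨x, h1⟩ = G.t x := if_neg h0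
          rw [h2, h3]
          have h4 := csc_other G hl v e f hef he hf hv x h0 h1
          rw [hUo _ h4.1, hUo _ h4.2] at hx
          exact hx
  rw [← Finset.card_image_of_injective _ hφ, himg]
  have hTev : ∀ D : Finset {g : E // g ≠ f}, (G.sup v e f).Ev D → G.Ev (cscT e f hef D) := by
    intro D hD u
    rw [cscT_dg G hl v e f hef he hf D u]
    exact (hD u).add (even_two_mul _)
  have hTne : ∀ D : Finset {g : E // g ≠ f}, D.Nonempty → (cscT e f hef D).Nonempty := by
    rintro D ⟨g, hg⟩
    refine ⟨g, ?_⟩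
    unfold cscT
    exact Finset.mem_union_left _ (Finset.mem_map.2 ⟨g, hg, rfl⟩)
  have hTin : ∀ (P : Prop → Prop) (D : Finset {g : E // g ≠ f}),
      (∀ g ∈ D, P ((G.sup v e f).s g ∈ U') ∧ P ((G.sup v e f).t g ∈ U')) →
      ∀ g ∈ cscT e f hef D, P (G.s g ∈ U) ∧ P (G.t g ∈ U) := by
    intro P D hD g hg
    have hEe : (⟨e, hef⟩ : {g : E // g ≠ f}) ∈ D → P (a ∈ U') ∧ P (b ∈ U') := by
      intro h
      have h1 := hD _ h
      have h2 : (G.sup v e f).s ⟨e, hef⟩ = a := if_pos rfl
      have h3 : (G.sup v e f).t ⟨e, hef⟩ = b := if_pos rfl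
      rw [h2, h3] at h1
      exact h1
    have e1 : (v ∈ U) = (a ∈ U') := propext hUv
    have e2 : ∀ u, u ≠ v → (u ∈ U) = (u ∈ U') := fun u hu => propext (hUo u hu)
    unfold cscT at hg
    rw [Finset.mem_union, Finset.mem_map] at hg
    rcases hg with ⟨g', hg', rfl⟩ | hg
    · by_cases h1 : (g' : E) = e
      · have h2 : g' = ⟨e, hef⟩ := Subtype.ext h1
        rw [h2] at hg'
        obtain ⟨h3, h4⟩ := hEe hg'
        change P (G.s (g' : E) ∈ U) ∧ P (G.t (g' : E) ∈ U)
        rw [h1]
        rcases hae with hae | hae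
        · rw [hae.1, hae.2, e1, e2 a ha]
          exact ⟨h3, h3⟩
        · rw [hae.1, hae.2, e1, e2 a ha]
          exact ⟨h3, h3⟩
      · have h2 : (G.sup v e f).s g' = G.s g' := if_neg h1
        have h3 : (G.sup v e f).t g' = G.t g' := if_neg h1
        have h4 := csc_other G hl v e f hef he hf hv g' h1 g'.2
        have h5 := hD g' hg'
        rw [h2, h3, ← e2 _ h4.1, ← e2 _ h4.2] at h5
        exact h5
    · split_ifs at hg with h1
      · obtain ⟨h3, h4⟩ := hEe h1
        rw [Finset.mem_singleton.1 hg]
        rcases hbe with hbe | hbe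
        · rw [hbe.1, hbe.2, e1, e2 b hb']
          exact ⟨h3, h4⟩
        · rw [hbe.1, hbe.2, e1, e2 b hb']
          exact ⟨h4, h3⟩
      · exact absurd hg (notMem_empty _)
  exact h6 U _ _ (hTne C c1) (hTev C c2) (hTin (fun p => p) C c3) (hTne C' d1) (hTev C' d2)
    (hTin (fun p => ¬ p) C' d3)

/-- restriction to the vertices of degree three, if all degrees are `0` or `3` -/
private theorem csc_restrict (G : MG V E) (hd : ∀ v, G.dg Finset.univ v = 0 ∨ G.dg Finset.univ v = 3)
    (hb : G.Br0) (h6 : G.C6) :
    ∃ G' : MG {v : V // G.dg Finset.univ v = 3} E,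
      (∀ v, G'.dg Finset.univ v = 3) ∧ G'.Br0 ∧ G'.C6 ∧ ∀ (w : E → ℕ) (l : ℚ), G'.Cov w l → G.Cov w l := by
  have hs : ∀ e, G.dg Finset.univ (G.s e) = 3 := by
    intro e
    rcases hd (G.s e) with h | h
    · exfalso
      have h1 : G.inc e (G.s e) ≤ G.dg Finset.univ (G.s e) :=
        Finset.single_le_sum (f := fun g => G.inc g (G.s e)) (fun _ _ => Nat.zero_le _)
          (mem_univ e)
      unfold inc at h1
      rw [if_pos rfl] at h1
      omega
    · exact h
  have ht : ∀ e, G.dg Finset.univ (G.t e) = 3 := by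
    intro e
    rcases hd (G.t e) with h | h
    · exfalso
      have h1 : G.inc e (G.t e) ≤ G.dg Finset.univ (G.t e) :=
        Finset.single_le_sum (f := fun g => G.inc g (G.t e)) (fun _ _ => Nat.zero_le _)
          (mem_univ e)
      unfold inc at h1
      rw [if_pos (rfl : G.t e = G.t e)] at h1
      omega
    · exact h
  let G' : MG {v : V // G.dg Finset.univ v = 3} E :=
    ⟨fun e => ⟨G.s e, hs e⟩, fun e => ⟨G.t e, ht e⟩⟩
  have hinc : ∀ e (v : {v : V // G.dg Finset.univ v = 3}), G'.inc e v = G.inc e v := by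
    intro e v
    unfold inc
    have h1 : (G'.s e = v) = (G.s e = (v : V)) := propext Subtype.ext_iff
    have h2 : (G'.t e = v) = (G.t e = (v : V)) := propext Subtype.ext_iff
    simp only [h1, h2]
  have hdg : ∀ J (v : {v : V // G.dg Finset.univ v = 3}), G'.dg J v = G.dg J v := by
    intro J v
    unfold dg
    exact Finset.sum_congr rfl fun e _ => hinc e v
  have hmem : ∀ (U : Finset {v : V // G.dg Finset.univ v = 3}) (x : {v : V // G.dg Finset.univ v = 3}),
      x ∈ U ↔ (x : V) ∈ U.map (Function.Embedding.subtype _) := by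
    intro U x
    rw [Finset.mem_map]
    constructor
    · intro h
      exact ⟨x, h, rfl⟩
    · rintro ⟨y, hy, hyx⟩
      have h3 : x = y := Subtype.ext hyx.symm
      rw [h3]
      exact hy
  have hcut : ∀ U : Finset {v : V // G.dg Finset.univ v = 3},
      G'.cut U = G.cut (U.map (Function.Embedding.subtype _)) := by
    intro U
    ext e
    rw [mem_cut, mem_cut, hmem U (G'.s e), hmem U (G'.t e)]
  have hev : ∀ C : Finset E, G'.Ev C → G.Ev C := by
    intro C hC v
    rcases hd v with h | h
    · have h1 := G.dg_mono C Finset.univ (subset_univ _) v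
      have h2 : G.dg C v = 0 := by omega
      rw [h2]
      exact Even.zero
    · have h1 := hC ⟨v, h⟩
      rw [hdg] at h1
      exact h1
  refine ⟨G', ?_, ?_, ?_, ?_⟩
  · intro v
    rw [hdg]
    exact v.2
  · intro U
    rw [hcut]
    exact hb _
  · intro U C C' c1 c2 c3 d1 d2 d3
    rw [hcut]
    exact h6 _ C C' c1 (hev C c2) (fun e he => ⟨(hmem U _).1 (c3 e he).1, (hmem U _).1 (c3 e he).2⟩)
      d1 (hev C' d2) (fun e he => ⟨fun h => (d3 e he).1 ((hmem U _).2 h),
        fun h => (d3 e he).2 ((hmem U _).2 h)⟩)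
  · intro w l
    rintro ⟨L, hL1, hL2, hL3⟩
    exact ⟨L, fun C hC => hev C (hL1 C hC), hL2, hL3⟩

private theorem csc_card {E : Type} [Fintype E] [DecidableEq E] (e : E) :
    Fintype.card {g : E // g ≠ e} + 1 = Fintype.card E := by
  have h1 : Fintype.card {g : E // g ≠ e} = (Finset.univ.erase e).card :=
    Fintype.card_of_subtype _ (fun x => by
      rw [Finset.mem_erase]
      exact ⟨fun h => h.1, fun h => ⟨h, Finset.mem_univ _⟩⟩)
  rw [h1, Finset.card_erase_of_mem (Finset.mem_univ e), Finset.card_univ]
  have h2 : 0 < Fintype.card E := Fintype.card_pos_iff.mpr ⟨e⟩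
  omega

private theorem csc_sum {E : Type} [Fintype E] [DecidableEq E] (e : E) (φ : E → ℚ) :
    φ e + ∑ g : {g : E // g ≠ e}, φ g = ∑ g, φ g := by
  have h1 : ∑ g ∈ Finset.univ.erase e, φ g = ∑ g : {g : E // g ≠ e}, φ g :=
    Finset.sum_subtype _ (fun x => by
      rw [Finset.mem_erase]
      exact ⟨fun h => h.1, fun h => ⟨h, Finset.mem_univ _⟩⟩) φ
  rw [← h1]
  exact Finset.add_sum_erase _ φ (Finset.mem_univ e)

/-- weighted multigraphs without bridges, with all degrees at most three, in which every cut with a nonempty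
even edge set on both sides has at least six edges -/
theorem csc_main : ∀ (n : ℕ) (V E : Type) [Fintype V] [DecidableEq V] [Fintype E]
    [DecidableEq E] (G : MG V E) (w : E → ℕ), G.Br0 → G.C6 → (∀ v, G.dg Finset.univ v ≤ 3) →
    (∀ e, 1 ≤ w e) → Fintype.card E ≤ n → G.Cov w (59 / 36 * (∑ e, (w e : ℚ))) := by
  intro n
  induction n using Nat.strong_induction_on with
  | _ n ih =>
  intro V E _ _ _ _ G w hb h6 hd3 hw hn
  by_cases h1 : ∃ e, G.s e = G.t e
  · obtain ⟨e, he⟩ := h1
    have hcE := csc_card e
    have hdd : ∀ v, (G.del e).dg Finset.univ v + G.inc e v = G.dg Finset.univ v :=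
      fun v => G.dg_del e v
    have h2 := ih (n - 1) (by omega) V {g : E // g ≠ e} (G.del e) (fun g => w g)
      (G.Br0_del hb e he) (csc_C6_del G h6 e he) (fun v => by
        have h3 := hdd v
        have h4 := hd3 v
        omega) (fun g => hw g) (by omega)
    obtain ⟨L, a1, a2, a3⟩ := G.Cov_del e he w _ h2
    refine ⟨L, a1, a2, a3.trans ?_⟩
    have h5 := csc_sum e (fun g => (w g : ℚ))
    have h6 : (0 : ℚ) ≤ w e := Nat.cast_nonneg _
    linarith
  · have hl : ∀ e, G.s e ≠ G.t e := fun e he => h1 ⟨e, he⟩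
    by_cases h3 : ∃ v, G.dg Finset.univ v = 2
    · obtain ⟨v, hv⟩ := h3
      have hle : ∀ g v, G.inc g v ≤ 1 := by
        intro g v
        unfold inc
        by_cases h4 : G.s g = v
        · have h5 : G.t g ≠ v := fun h => hl g (h4.trans h.symm)
          rw [if_pos h4, if_neg h5]
        · rw [if_neg h4, zero_add]
          split_ifs
          · exact le_rfl
          · exact Nat.zero_le _
      have hcard : (Finset.univ.filter (fun g => G.inc g v ≠ 0)).card = 2 := by
        rw [← hv]
        unfold dg
        rw [Finset.card_filter]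
        apply Finset.sum_congr rfl
        intro g _
        have h4 := hle g v
        by_cases h5 : G.inc g v = 0
        · rw [if_neg (fun h => h h5), h5]
        · rw [if_pos h5]
          omega
      obtain ⟨e, f, hef, hs⟩ := Finset.card_eq_two.mp hcard
      have he : G.inc e v ≠ 0 := by
        have h4 : e ∈ Finset.univ.filter (fun g => G.inc g v ≠ 0) := by
          rw [hs]
          exact Finset.mem_insert_self _ _
        exact (Finset.mem_filter.mp h4).2
      have hf : G.inc f v ≠ 0 := by
        have h4 : f ∈ Finset.univ.filter (fun g => G.inc g v ≠ 0) := by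
          rw [hs]
          exact Finset.mem_insert_of_mem (Finset.mem_singleton_self _)
        exact (Finset.mem_filter.mp h4).2
      obtain ⟨d1, d2⟩ := G.dg_sup hl v e f hef he hf hv
      have hcE := csc_card f
      have h4 := ih (n - 1) (by omega) V {g : E // g ≠ f} (G.sup v e f)
        (fun g => if (g : E) = e then w e + w f else w g) (G.Br0_sup hb hl v e f hef he hf hv)
        (csc_C6_sup G h6 hl v e f hef he hf hv)
        (fun u => by
          by_cases h : u = v
          · rw [h, d1]
            omega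
          · rw [d2 u h]
            exact hd3 u)
        (fun g => by
          have h5 := hw e
          have h6 := hw g
          split_ifs
          · omega
          · exact h6) (by omega)
      obtain ⟨L, a1, a2, a3⟩ := G.Cov_sup hl v e f hef he hf hv w _ h4
      refine ⟨L, a1, a2, a3.trans (le_of_eq ?_)⟩
      have h5 := csc_sum f (fun g => (w g : ℚ))
      have h6 := csc_sum f (fun g => ((if g = e then w e + w f else w g : ℕ) : ℚ))
      have h7 : ∑ g : E, ((if g = e then w e + w f else w g : ℕ) : ℚ) =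
          ∑ g : E, (w g : ℚ) + (w f : ℚ) := by
        have h8 : ∀ g : E, ((if g = e then w e + w f else w g : ℕ) : ℚ) =
            (w g : ℚ) + (if g = e then (w f : ℚ) else 0) := by
          intro g
          by_cases h : g = e
          · rw [if_pos h, if_pos h, h]
            push_cast
            ring
          · rw [if_neg h, if_neg h, add_zero]
        rw [Finset.sum_congr rfl (fun g _ => h8 g), Finset.sum_add_distrib,
          Finset.sum_ite_eq' Finset.univ e (fun _ => (w f : ℚ)), if_pos (Finset.mem_univ e)]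
      rw [if_neg (fun h => hef h.symm)] at h6
      have h9 : ∑ g : {g : E // g ≠ f}, ((if (g : E) = e then w e + w f else w g : ℕ) : ℚ) =
          ∑ g : E, (w g : ℚ) := by
        linarith
      rw [h9]
    · have hd : ∀ v, G.dg Finset.univ v = 0 ∨ G.dg Finset.univ v = 3 := by
        intro v
        have h4 := hd3 v
        have h5 : G.dg Finset.univ v ≠ 2 := fun h => h3 ⟨v, h⟩
        have h6 : G.dg Finset.univ v ≠ 1 := by
          intro h
          have h7 := G.dg_eq Finset.univ v
          rw [Finset.univ_inter, h] at h7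
          have h8 : (Finset.univ.filter (fun e => G.s e = v ∧ G.t e = v)) = ∅ := by
            apply Finset.eq_empty_of_forall_notMem
            intro e he
            have h9 := (Finset.mem_filter.mp he).2
            exact hl e (by rw [h9.1, h9.2])
          rw [h8, Finset.card_empty] at h7
          exact hb {v} (by omega)
        omega
      obtain ⟨G', hc', hb', h6', hC⟩ := csc_restrict G hd hb h6
      exact hC w _ (G'.csb_cubic hc' hb' h6' w hw)

end MG

end Pool.Agent.Lib.MP_95e9b3_coC
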