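import Pool.Agent.Lib.MP_95e9b3_coC.Basic

/-!
# JOB Simp: simple graphs as multigraphs

`toMG G` has the vertices of `G` and the edges `{e // e ∈ G.edgeSet}`, with ends `(Quot.out e.1).1`,
`(Quot.out e.1).2` (so `s(s e, t e) = e`).
`Br0_toMG`: suppose `cut U = {e}`, `e = s(a, b)`, `a ∈ U`, `b ∉ U`. There is a walk from `a` to `b` in
`G.deleteEdges {s(a, b)}`; it has an edge with exactly one end in `U` (e.g. induction on the walk), which
is an edge of `cut U` different from `e`.
`dg_toMG`: the number of edges at `v` is the number of neighbours.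
`cyc`: strong induction on `C.card`. `C = ∅`: the empty list. Otherwise let `e ∈ C`, `e = s(a, b)`, and
let `H = SimpleGraph.fromEdgeSet {e | e ∈ C}` (`H ≤ G`). `e` is not a bridge of `H`: let `U` be the set of
vertices reachable from `a` in `H.deleteEdges {e}`; `C ∩ cut U ⊆ {e}` and `(C ∩ cut U).card` is even
(`Ev_cut`), so it is empty and `b ∈ U`. So (`SimpleGraph.isBridge_iff_adj_and_forall_cycle_notMem`) there is
a cycle `c` of `H` through `e`. Map it to `G` (`Walk.mapLe`, `IsCycle.mapLe`). Its edge set `C1 ⊆ C` is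
even: `Walk.IsTrail.even_countP_edges_iff`. The length of `c` is `C1.card` (no repeated edges). Apply
the induction hypothesis to `C \ C1` (`Ev_sdiff`).
-/

set_option autoImplicit false

namespace Pool.Agent.Lib.MP_95e9b3_coC

open Finset

namespace MG

/-- the multigraph of a simple graph -/
noncomputable def toMG {V : Type} (G : SimpleGraph V) : MG V {e : Sym2 V // e ∈ G.edgeSet} :=
  ⟨fun e => (Quot.out e.1).1, fun e => (Quot.out e.1).2⟩

theorem simp_mk {V : Type} (G : SimpleGraph V) (e : {e : Sym2 V // e ∈ G.edgeSet}) :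
    s((toMG G).s e, (toMG G).t e) = e.1 := Quot.out_eq e.1

theorem simp_reach {V : Type} (H : SimpleGraph V) (P : V → Prop) (h : ∀ x y, H.Adj x y → (P x ↔ P y))
    {a b : V} (hab : H.Reachable a b) : P a ↔ P b := by
  obtain ⟨p⟩ := hab
  induction p with
  | nil => exact Iff.rfl
  | cons hxy _ ih => exact (h _ _ hxy).trans ih

theorem simp_cut {V : Type} [Fintype V] [DecidableEq V] (G : SimpleGraph V)
    [Fintype {e : Sym2 V // e ∈ G.edgeSet}] [DecidableEq {e : Sym2 V // e ∈ G.edgeSet}]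
    (e : {e : Sym2 V // e ∈ G.edgeSet}) (x y : V) (he : e.1 = s(x, y)) (U : Finset V) :
    e ∈ (toMG G).cut U ↔ ¬ (x ∈ U ↔ y ∈ U) := by
  rw [mem_cut]
  have h := simp_mk G e
  rw [he, Sym2.eq_iff] at h
  rcases h with ⟨h1, h2⟩ | ⟨h1, h2⟩
  · rw [h1, h2]
  · rw [h1, h2]
    exact not_congr Iff.comm

theorem simp_adj {V : Type} (G : SimpleGraph V) (e : {e : Sym2 V // e ∈ G.edgeSet}) :
    G.Adj ((toMG G).s e) ((toMG G).t e) := by
  rw [← SimpleGraph.mem_edgeSet, simp_mk]
  exact e.2

theorem simp_inc {V : Type} [DecidableEq V] (G : SimpleGraph V)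
    (e : {e : Sym2 V // e ∈ G.edgeSet}) (v : V) :
    (toMG G).inc e v = if v ∈ e.1 then 1 else 0 := by
  have h := simp_mk G e
  have hne := (simp_adj G e).ne
  have hm : v ∈ e.1 ↔ v = (toMG G).s e ∨ v = (toMG G).t e := by
    rw [← h, Sym2.mem_iff]
  unfold inc
  by_cases h1 : (toMG G).s e = v
  · have h2 : (toMG G).t e ≠ v := fun h2 => hne (h1.trans h2.symm)
    rw [if_pos h1, if_neg h2, if_pos (hm.2 (Or.inl h1.symm))]
  · by_cases h2 : (toMG G).t e = v
    · rw [if_neg h1, if_pos h2, if_pos (hm.2 (Or.inr h2.symm))]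
    · rw [if_neg h1, if_neg h2, if_neg (fun h3 => (hm.1 h3).elim (fun h4 => h1 h4.symm) (fun h4 => h2 h4.symm))]

theorem simp_dg {V : Type} [Fintype V] [DecidableEq V] (G : SimpleGraph V)
    [Fintype {e : Sym2 V // e ∈ G.edgeSet}] [DecidableEq {e : Sym2 V // e ∈ G.edgeSet}]
    (C : Finset {e : Sym2 V // e ∈ G.edgeSet}) (v : V) :
    (toMG G).dg C v = (C.filter (fun e => v ∈ e.1)).card := by
  unfold dg
  rw [Finset.card_filter]
  exact Finset.sum_congr rfl fun e _ => simp_inc G e v

theorem Br0_toMG {V : Type} [Fintype V] [DecidableEq V] (G : SimpleGraph V)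
    [Fintype {e : Sym2 V // e ∈ G.edgeSet}] [DecidableEq {e : Sym2 V // e ∈ G.edgeSet}]
    (h : ∀ v w : V, G.Adj v w → (G.deleteEdges {s(v, w)}).Reachable v w) :
    (toMG G).Br0 := by
  classical
  intro U hU
  obtain ⟨e, he⟩ := Finset.card_eq_one.1 hU
  have hmk := simp_mk G e
  have hadj := simp_adj G e
  have hin : e ∈ (toMG G).cut U := by
    rw [he]
    exact Finset.mem_singleton_self e
  rw [simp_cut G e _ _ hmk.symm] at hin
  apply hin
  refine simp_reach (G.deleteEdges {s((toMG G).s e, (toMG G).t e)}) (fun x => x ∈ U) ?_ (h _ _ hadj)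
  intro x y hxy
  rw [SimpleGraph.deleteEdges_adj] at hxy
  by_contra hno
  have hf : s(x, y) ∈ G.edgeSet := hxy.1
  have h1 : (⟨s(x, y), hf⟩ : {e : Sym2 V // e ∈ G.edgeSet}) ∈ (toMG G).cut U :=
    (simp_cut G ⟨s(x, y), hf⟩ x y rfl U).2 hno
  rw [he, Finset.mem_singleton] at h1
  apply hxy.2
  rw [Set.mem_singleton_iff, hmk, ← h1]

theorem dg_toMG {V : Type} [Fintype V] [DecidableEq V] (G : SimpleGraph V)
    [Fintype {e : Sym2 V // e ∈ G.edgeSet}] [DecidableEq {e : Sym2 V // e ∈ G.edgeSet}] (v : V) :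
    (toMG G).dg Finset.univ v = Nat.card (G.neighborSet v) := by
  classical
  rw [simp_dg, ← Nat.card_congr (G.incidenceSetEquivNeighborSet v)]
  rw [← Fintype.card_subtype, ← Nat.card_eq_fintype_card]
  refine Nat.card_congr ?_
  refine
    { toFun := fun x => ⟨x.1.1, x.1.2, x.2⟩
      invFun := fun x => ⟨⟨x.1, x.2.1⟩, x.2.2⟩
      left_inv := fun x => rfl
      right_inv := fun x => rfl }

theorem simp_cyc {V : Type} [Fintype V] [DecidableEq V] (G : SimpleGraph V)
    [Fintype {e : Sym2 V // e ∈ G.edgeSet}] [DecidableEq {e : Sym2 V // e ∈ G.edgeSet}]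
    (C : Finset {e : Sym2 V // e ∈ G.edgeSet}) (hC : (toMG G).Ev C)
    (e : {e : Sym2 V // e ∈ G.edgeSet}) (he : e ∈ C) :
    ∃ (u : V) (c : G.Walk u u), c.IsCycle ∧ e.1 ∈ c.edges ∧
      ∀ f ∈ c.edges, ∃ g ∈ C, g.1 = f := by
  classical
  obtain ⟨H, hH⟩ : ∃ H : SimpleGraph V,
      H = SimpleGraph.fromEdgeSet (Subtype.val '' (C : Set {e : Sym2 V // e ∈ G.edgeSet})) := ⟨_, rfl⟩
  have hadj : ∀ x y, H.Adj x y ↔ ∃ g ∈ C, g.1 = s(x, y) := by
    intro x y
    rw [hH, SimpleGraph.fromEdgeSet_adj]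
    constructor
    · rintro ⟨⟨g, hg, hg2⟩, _⟩
      exact ⟨g, hg, hg2⟩
    · rintro ⟨g, hg, hg2⟩
      refine ⟨⟨g, hg, hg2⟩, ?_⟩
      have h1 := g.2
      rw [hg2, SimpleGraph.mem_edgeSet] at h1
      exact h1.ne
  have hle : H ≤ G := by
    intro x y hxy
    obtain ⟨g, _, hg⟩ := (hadj x y).1 hxy
    have h1 := g.2
    rw [hg, SimpleGraph.mem_edgeSet] at h1
    exact h1
  obtain ⟨a, b, hab⟩ : ∃ a b, e.1 = s(a, b) := ⟨_, _, (simp_mk G e).symm⟩
  have hHab : H.Adj a b := (hadj a b).2 ⟨e, he, hab⟩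
  have hreach : (H.deleteEdges {s(a, b)}).Reachable a b := by
    by_contra hno
    obtain ⟨U, hU⟩ : ∃ U : Finset V,
        U = Finset.univ.filter (fun u => (H.deleteEdges {s(a, b)}).Reachable a u) := ⟨_, rfl⟩
    have hmU : ∀ u, u ∈ U ↔ (H.deleteEdges {s(a, b)}).Reachable a u := by
      intro u
      rw [hU, Finset.mem_filter]
      exact and_iff_right (Finset.mem_univ u)
    have haU : a ∈ U := (hmU a).2 (SimpleGraph.Reachable.refl a)
    have hbU : b ∉ U := fun hb => hno ((hmU b).1 hb)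
    have hecut : e ∈ C ∩ (toMG G).cut U := by
      rw [Finset.mem_inter]
      refine ⟨he, (simp_cut G e a b hab U).2 fun h1 => hbU (h1.1 haU)⟩
    have hsub : C ∩ (toMG G).cut U ⊆ {e} := by
      intro f hf
      rw [Finset.mem_inter] at hf
      rw [Finset.mem_singleton]
      by_contra hfe
      have hmk := simp_mk G f
      have hc := (simp_cut G f _ _ hmk.symm U).1 hf.2
      apply hc
      have hfadj : (H.deleteEdges {s(a, b)}).Adj ((toMG G).s f) ((toMG G).t f) := by
        rw [SimpleGraph.deleteEdges_adj]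
        refine ⟨(hadj _ _).2 ⟨f, hf.1, hmk.symm⟩, ?_⟩
        rw [Set.mem_singleton_iff, hmk, ← hab]
        exact fun h1 => hfe (Subtype.ext h1)
      rw [hmU, hmU]
      exact ⟨fun h1 => h1.trans hfadj.reachable, fun h1 => h1.trans hfadj.symm.reachable⟩
    have hone : (C ∩ (toMG G).cut U).card = 1 := by
      apply le_antisymm
      · exact (Finset.card_le_card hsub).trans (Finset.card_singleton e).le
      · exact Finset.card_pos.2 ⟨e, hecut⟩
    have heven := Ev_cut (toMG G) C hC U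
    rw [hone] at heven
    exact absurd heven (by decide)
  obtain ⟨u, c, hc, hec⟩ := SimpleGraph.adj_and_reachable_delete_edges_iff_exists_cycle.1 ⟨hHab, hreach⟩
  refine ⟨u, c.mapLe hle, hc.mapLe hle, ?_, ?_⟩
  · rw [SimpleGraph.Walk.edges_mapLe_eq_edges, hab]
    exact hec
  · intro f hf
    rw [SimpleGraph.Walk.edges_mapLe_eq_edges] at hf
    have h1 := c.edges_subset_edgeSet hf
    revert h1
    refine Sym2.ind (fun x y h1 => ?_) f
    rw [SimpleGraph.mem_edgeSet, hadj] at h1
    exact h1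

theorem simp_aux {V : Type} [Fintype V] [DecidableEq V] (G : SimpleGraph V)
    [Fintype {e : Sym2 V // e ∈ G.edgeSet}] [DecidableEq {e : Sym2 V // e ∈ G.edgeSet}] (n : ℕ) :
    ∀ C : Finset {e : Sym2 V // e ∈ G.edgeSet}, C.card = n → (toMG G).Ev C →
    ∃ L : List (Σ v : V, G.Walk v v), (∀ c ∈ L, c.2.IsCycle) ∧
      (∀ e ∈ C, ∃ c ∈ L, e.1 ∈ c.2.edges) ∧ (L.map (fun c => c.2.length)).sum = C.card := by
  classical
  induction n using Nat.strong_induction_on with
  | _ n ih =>
    intro C hn hC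
    rcases Finset.eq_empty_or_nonempty C with h0 | ⟨e, he⟩
    · refine ⟨[], ?_, ?_, ?_⟩
      · intro c hc
        exact absurd hc List.not_mem_nil
      · intro e he
        rw [h0] at he
        exact absurd he (Finset.notMem_empty e)
      · rw [h0]
        rfl
    · obtain ⟨u, c, hc, hec, hcC⟩ := simp_cyc G C hC e he
      obtain ⟨C1, hC1⟩ : ∃ C1 : Finset {e : Sym2 V // e ∈ G.edgeSet},
        C1 = C.filter (fun f => f.1 ∈ c.edges) := ⟨_, rfl⟩
      have hm1 : ∀ f, f ∈ C1 ↔ f ∈ C ∧ f.1 ∈ c.edges := by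
        intro f
        rw [hC1, Finset.mem_filter]
      have hsub : C1 ⊆ C := fun f hf => ((hm1 f).1 hf).1
      have hnd : c.edges.Nodup := hc.isTrail.edges_nodup
      have himg : ∀ P : Sym2 V → Prop, ∀ [DecidablePred P],
          (C1.filter (fun f => P f.1)).card = c.edges.countP (fun f => P f) := by
        intro P _
        rw [List.countP_eq_length_filter]
        have h1 : ((c.edges.filter (fun f => P f)).toFinset).card = (c.edges.filter (fun f => P f)).length :=
          List.toFinset_card_of_nodup (hnd.filter _)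
        rw [← h1]
        refine Finset.card_bij (fun f _ => f.1) ?_ ?_ ?_
        · intro f hf
          rw [Finset.mem_filter, hm1] at hf
          rw [List.mem_toFinset, List.mem_filter]
          exact ⟨hf.1.2, by rw [decide_eq_true_eq]; exact hf.2⟩
        · intro f _ g _ hfg
          exact Subtype.ext hfg
        · intro f hf
          rw [List.mem_toFinset, List.mem_filter, decide_eq_true_eq] at hf
          obtain ⟨g, hg, hgf⟩ := hcC f hf.1
          refine ⟨g, ?_, hgf⟩
          rw [Finset.mem_filter, hm1, hgf]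
          exact ⟨⟨hg, hf.1⟩, hf.2⟩
      have hEv1 : (toMG G).Ev C1 := by
        intro v
        rw [simp_dg, himg (fun f => v ∈ f)]
        exact (hc.isTrail.even_countP_edges_iff v).2 fun h => absurd rfl h
      have hcard1 : C1.card = c.length := by
        have h1 := himg (fun _ => True)
        rw [Finset.filter_true_of_mem (fun _ _ => trivial)] at h1
        rw [h1, List.countP_eq_length_filter, List.filter_eq_self.2 (fun _ _ => by simp)]
        exact c.length_edges
      have he1 : e ∈ C1 := (hm1 e).2 ⟨he, hec⟩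
      have hpos : 0 < C1.card := Finset.card_pos.2 ⟨e, he1⟩
      have hcard2 : (C \ C1).card + C1.card = C.card := Finset.card_sdiff_add_card_eq_card hsub
      obtain ⟨L, hL1, hL2, hL3⟩ := ih (C \ C1).card (by omega) (C \ C1) rfl (Ev_sdiff (toMG G) C1 C hsub hEv1 hC)
      refine ⟨⟨u, c⟩ :: L, ?_, ?_, ?_⟩
      · intro d hd
        rcases List.mem_cons.1 hd with h1 | h1
        · rw [h1]
          exact hc
        · exact hL1 d h1
      · intro f hf
        by_cases hf1 : f ∈ C1
        · exact ⟨⟨u, c⟩, List.mem_cons_self, ((hm1 f).1 hf1).2⟩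
        · obtain ⟨d, hd, hfd⟩ := hL2 f (Finset.mem_sdiff.2 ⟨hf, hf1⟩)
          exact ⟨d, List.mem_cons_of_mem _ hd, hfd⟩
      · rw [List.map_cons, List.sum_cons, hL3, ← hcard2, hcard1]
        exact Nat.add_comm _ _

theorem cyc {V : Type} [Fintype V] [DecidableEq V] (G : SimpleGraph V)
    [Fintype {e : Sym2 V // e ∈ G.edgeSet}] [DecidableEq {e : Sym2 V // e ∈ G.edgeSet}]
    (C : Finset {e : Sym2 V // e ∈ G.edgeSet}) (hC : (toMG G).Ev C) :
    ∃ L : List (Σ v : V, G.Walk v v), (∀ c ∈ L, c.2.IsCycle) ∧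
      (∀ e ∈ C, ∃ c ∈ L, e.1 ∈ c.2.edges) ∧ (L.map (fun c => c.2.length)).sum = C.card := by
  exact simp_aux G C.card C rfl hC

end MG

end Pool.Agent.Lib.MP_95e9b3_coC
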