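import Pool.Agent.Lib.MP_95e9b3_coC.CsC
import Pool.Agent.Lib.MP_95e9b3_coC.Simp

/-!
# Simple graphs: subdivisions of cyclically 6-edge-connected cubic graphs

`csc_main` for `toMG G`, `w = 1`; the list of even sets is turned into a list of cycles with `cyc`.
-/

set_option autoImplicit false

namespace Pool.Agent.Lib.MP_95e9b3_coC

private theorem csd_list {V : Type} [Fintype V] [DecidableEq V] (G : SimpleGraph V)
    [Fintype {e : Sym2 V // e ∈ G.edgeSet}] [DecidableEq {e : Sym2 V // e ∈ G.edgeSet}]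
    (L : List (Finset {e : Sym2 V // e ∈ G.edgeSet})) :
    (∀ C ∈ L, (MG.toMG G).Ev C) →
    ∃ L' : List (Σ v : V, G.Walk v v), (∀ c ∈ L', c.2.IsCycle) ∧
      (∀ C ∈ L, ∀ e ∈ C, ∃ c ∈ L', e.1 ∈ c.2.edges) ∧
      (L'.map (fun c => c.2.length)).sum = (L.map (fun C => C.card)).sum := by
  induction L with
  | nil =>
    intro _
    exact ⟨[], fun c hc => absurd hc List.not_mem_nil, fun C hC => absurd hC List.not_mem_nil, rfl⟩
  | cons C L ih =>
    intro hL
    obtain ⟨L1, h1, h2, h3⟩ := ih fun C' hC' => hL C' (List.mem_cons_of_mem _ hC')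
    obtain ⟨L2, k1, k2, k3⟩ := MG.cyc G C (hL C List.mem_cons_self)
    refine ⟨L2 ++ L1, ?_, ?_, ?_⟩
    · intro c hc
      rw [List.mem_append] at hc
      rcases hc with hc | hc
      · exact k1 c hc
      · exact h1 c hc
    · intro C' hC' e he
      rw [List.mem_cons] at hC'
      rcases hC' with rfl | hC'
      · obtain ⟨c, hc, hce⟩ := k2 e he
        exact ⟨c, List.mem_append.2 (Or.inl hc), hce⟩
      · obtain ⟨c, hc, hce⟩ := h2 C' hC' e he
        exact ⟨c, List.mem_append.2 (Or.inr hc), hce⟩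
    · rw [List.map_append, List.sum_append, List.map_cons, List.sum_cons, h3, k3]

private theorem csd_support {V : Type} [Fintype V] [DecidableEq V] (G : SimpleGraph V)
    [Fintype {e : Sym2 V // e ∈ G.edgeSet}] [DecidableEq {e : Sym2 V // e ∈ G.edgeSet}]
    (P : V → Prop) (C : Finset {e : Sym2 V // e ∈ G.edgeSet}) (hC : (MG.toMG G).Ev C)
    (hne : C.Nonempty) (hP : ∀ e ∈ C, P ((MG.toMG G).s e) ∧ P ((MG.toMG G).t e)) :
    ∃ (u : V) (c : G.Walk u u), c.IsCycle ∧ ∀ x ∈ c.support, P x := by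
  obtain ⟨e, he⟩ := hne
  obtain ⟨u, c, hc, -, h2⟩ := MG.simp_cyc G C hC e he
  refine ⟨u, c, hc, ?_⟩
  intro x hx
  rw [SimpleGraph.Walk.mem_support_iff_exists_mem_edges_of_not_nil hc.not_nil] at hx
  obtain ⟨f, hf, hxf⟩ := hx
  obtain ⟨g, hg, hgf⟩ := h2 f hf
  rw [← hgf, ← MG.simp_mk G g, Sym2.mem_iff] at hxf
  rcases hxf with h | h
  · rw [h]
    exact (hP g hg).1
  · rw [h]
    exact (hP g hg).2

/-- every finite simple graph without bridges, with maximum degree at most three, in which every edge cut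
separating two cycles has at least six edges, has a cycle cover of total length at most `59/36 |E|` -/
theorem csd_final (V : Type) [Fintype V] (G : SimpleGraph V)
    (hd : ∀ v : V, Nat.card (G.neighborSet v) ≤ 3)
    (h : ∀ v w : V, G.Adj v w → (G.deleteEdges {s(v, w)}).Reachable v w)
    (h6 : ∀ (U : Set V) (a b : V) (p : G.Walk a a) (q : G.Walk b b), p.IsCycle → q.IsCycle →
      (∀ x ∈ p.support, x ∈ U) → (∀ x ∈ q.support, x ∉ U) →
      6 ≤ Nat.card {e : V × V // G.Adj e.1 e.2 ∧ e.1 ∈ U ∧ e.2 ∉ U}) :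
    ∃ L : List (Σ v : V, G.Walk v v),
      (∀ c ∈ L, c.2.IsCycle) ∧
      (∀ e ∈ G.edgeSet, ∃ c ∈ L, e ∈ c.2.edges) ∧
      36 * (L.map (fun c => c.2.length)).sum ≤ 59 * Nat.card G.edgeSet := by
  classical
  haveI : Fintype {e : Sym2 V // e ∈ G.edgeSet} := Fintype.ofFinite _
  have hC6 : (MG.toMG G).C6 := by
    intro U C C' c1 c2 c3 d1 d2 d3
    obtain ⟨a, p, hp, hpU⟩ := csd_support G (fun x => x ∈ U) C c2 c1 c3
    obtain ⟨b, q, hq, hqU⟩ := csd_support G (fun x => x ∉ U) C' d2 d1 d3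
    have h1 := h6 (U : Set V) a b p q hp hq hpU hqU
    refine h1.trans ?_
    have h2 : Nat.card {e : {e : Sym2 V // e ∈ G.edgeSet} // e ∈ (MG.toMG G).cut U} =
        ((MG.toMG G).cut U).card := by
      rw [Nat.card_eq_fintype_card, Fintype.card_coe]
    rw [← h2]
    refine Nat.card_le_card_of_injective
      (fun e : {e : V × V // G.Adj e.1 e.2 ∧ e.1 ∈ (U : Set V) ∧ e.2 ∉ (U : Set V)} =>
        (⟨⟨s(e.1.1, e.1.2), e.2.1⟩, (MG.simp_cut G ⟨s(e.1.1, e.1.2), e.2.1⟩ e.1.1 e.1.2 rfl U).2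
          (fun h3 => e.2.2.2 (h3.1 e.2.2.1))⟩ :
          {e : {e : Sym2 V // e ∈ G.edgeSet} // e ∈ (MG.toMG G).cut U})) ?_
    rintro ⟨⟨x, y⟩, hxy, hx, hy⟩ ⟨⟨x', y'⟩, hxy', hx', hy'⟩ heq
    have h3 : s(x, y) = s(x', y') := congrArg (fun z => z.1.1) heq
    rw [Sym2.eq_iff] at h3
    rcases h3 with ⟨h4, h5⟩ | ⟨h4, h5⟩
    · subst h4 h5
      rfl
    · subst h4 h5
      exact absurd hx hy'
  obtain ⟨L, hL1, hL2, hL3⟩ := MG.csc_main _ V {e : Sym2 V // e ∈ G.edgeSet} (MG.toMG G)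
    (fun _ => 1) (MG.Br0_toMG G h) hC6 (fun v => by rw [MG.dg_toMG]; exact hd v)
    (fun _ => le_refl 1) (le_refl _)
  obtain ⟨L', h1, h2, h3⟩ := csd_list G L hL1
  refine ⟨L', h1, ?_, ?_⟩
  · intro e he
    obtain ⟨C, hC, heC⟩ := hL2 ⟨e, he⟩
    exact h2 C hC ⟨e, he⟩ heC
  · have e1 : (L.map (fun C : Finset {e : Sym2 V // e ∈ G.edgeSet} => ∑ _e ∈ C, 1)) =
        L.map (fun C => C.card) := by
      apply List.map_congr_left
      intro C _
      exact (Finset.card_eq_sum_ones C).symm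
    have e3 : Nat.card G.edgeSet = Fintype.card {e : Sym2 V // e ∈ G.edgeSet} :=
      Nat.card_eq_fintype_card
    have e4 : ∑ _e : {e : Sym2 V // e ∈ G.edgeSet}, ((1 : ℕ) : ℚ) =
        (Fintype.card {e : Sym2 V // e ∈ G.edgeSet} : ℚ) := by
      rw [Finset.sum_const, Finset.card_univ, nsmul_eq_mul, Nat.cast_one, mul_one]
    rw [e1, e4] at hL3
    rw [h3, e3]
    have h5 : 36 * (((L.map (fun C => C.card)).sum : ℕ) : ℚ) ≤
        59 * (Fintype.card {e : Sym2 V // e ∈ G.edgeSet} : ℚ) := by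
      linarith
    exact_mod_cast h5

end Pool.Agent.Lib.MP_95e9b3_coC
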