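import Pool.Agent.Lib.MP_95e9b3_coC.Reach

/-!
# JOB Cubic: cubic multigraphs without bridges, series classes

`loopless`: a loop `e` at `v` gives `3 = dg univ v = (cut {v}).card + 2 * #loops` (`dg_eq`), so
`(cut {v}).card = 1`.
`Ser_trans`: `cut U = {e, f}`, `cut U' = {f, g}`, `e ≠ g`: `cut (U ∆ U') = {e, f} ∆ {f, g} = {e, g}`
when `e, f, g` are distinct; the other cases are trivial.
`sum_av`: the relation `Ser` is an equivalence relation with classes `kl e`, and `av e = 1 / |kl e|`.
So `∑ e ∈ S, av e` is the number of classes contained in `S` if `S` is a union of classes.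
`sum_av_ge`: by `reps` (for `S = univ`) there is a set `R` with exactly one element in each class,
`R.card = ∑ e, av e`. `univ \ R` has no nonempty even subset `C`: if `e ∈ C` and `f` is the element
of `R` in the class of `e`, `f ≠ e`, then `(C ∩ cut U).card` is even for `cut U = {e, f}`, so `f ∈ C`.
`acyc_card`: `|E| - |R| ≤ |V|`, and `2 |E| = 3 |V|` (`sum_dg_univ`).
-/

set_option autoImplicit false

namespace Pool.Agent.Lib.MP_95e9b3_coC

open Finset
open scoped symmDiff

namespace MG

variable {V W E : Type} [Fintype V] [DecidableEq V] [Fintype W] [DecidableEq W]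
  [Fintype E] [DecidableEq E]

theorem loopless (G : MG V E) (hc : ∀ v, G.dg Finset.univ v = 3) (hb : G.Br0) (e : E) :
    G.s e ≠ G.t e := by
  intro h
  have h1 := G.dg_eq Finset.univ (G.s e)
  rw [hc, Finset.univ_inter] at h1
  have h2 : 0 < (Finset.univ.filter (fun e' => G.s e' = G.s e ∧ G.t e' = G.s e)).card := by
    apply Finset.card_pos.mpr
    exact ⟨e, Finset.mem_filter.mpr ⟨Finset.mem_univ e, rfl, h.symm⟩⟩
  exact hb {G.s e} (by omega)

theorem cut_parity (G : MG V E) (hc : ∀ v, G.dg Finset.univ v = 3) (U : Finset V) :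
    (G.cut U).card % 2 = U.card % 2 := by
  have h1 := G.sum_dg Finset.univ U
  rw [Finset.univ_inter, Finset.sum_congr rfl (fun v _ => hc v), Finset.sum_const, smul_eq_mul] at h1
  omega

theorem Ser_refl (G : MG V E) (e : E) : G.Ser e e := Or.inl rfl

theorem Ser_symm (G : MG V E) (e f : E) (h : G.Ser e f) : G.Ser f e := by
  rcases h with h | ⟨U, hU⟩
  · exact Or.inl h.symm
  · exact Or.inr ⟨U, hU.trans (Finset.pair_comm e f)⟩

theorem Ser_trans (G : MG V E) (e f g : E) (h : G.Ser e f) (h' : G.Ser f g) : G.Ser e g := by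
  by_cases h1 : e = f
  · rw [h1]
    exact h'
  by_cases h2 : f = g
  · rw [← h2]
    exact h
  by_cases h3 : e = g
  · exact Or.inl h3
  rcases h with h | ⟨U, hU⟩
  · exact (h1 h).elim
  rcases h' with h' | ⟨U', hU'⟩
  · exact (h2 h').elim
  refine Or.inr ⟨U ∆ U', ?_⟩
  rw [G.cut_symm, hU, hU']
  ext x
  simp only [Finset.mem_symmDiff, Finset.mem_insert, Finset.mem_singleton]
  constructor
  · rintro (⟨hx | hx, hy⟩ | ⟨hx | hx, hy⟩)
    · exact Or.inl hx
    · exact (hy (Or.inl hx)).elim
    · exact (hy (Or.inr hx)).elim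
    · exact Or.inr hx
  · rintro (hx | hx)
    · refine Or.inl ⟨Or.inl hx, ?_⟩
      rintro (hy | hy)
      · exact h1 (hx.symm.trans hy)
      · exact h3 (hx.symm.trans hy)
    · refine Or.inr ⟨Or.inr hx, ?_⟩
      rintro (hy | hy)
      · exact h3 (hy.symm.trans hx)
      · exact h2 (hy.symm.trans hx)

theorem mem_kl (G : MG V E) (e f : E) : f ∈ G.kl e ↔ G.Ser e f := by
  simp only [kl, Finset.mem_filter, Finset.mem_univ, true_and]

private theorem cubic_kl_pos (G : MG V E) (e : E) : (0 : ℚ) < ((G.kl e).card : ℚ) := by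
  have h : 0 < (G.kl e).card := Finset.card_pos.mpr ⟨e, (G.mem_kl e e).mpr (G.Ser_refl e)⟩
  exact_mod_cast h

theorem av_pos (G : MG V E) (e : E) : 0 < G.av e := by
  unfold av
  exact div_pos one_pos (cubic_kl_pos G e)

theorem av_le_one (G : MG V E) (e : E) : G.av e ≤ 1 := by
  unfold av
  have h : 0 < (G.kl e).card := Finset.card_pos.mpr ⟨e, (G.mem_kl e e).mpr (G.Ser_refl e)⟩
  have h1 : (1 : ℚ) ≤ ((G.kl e).card : ℚ) := by exact_mod_cast h
  rw [div_le_one (cubic_kl_pos G e)]
  exact h1

/-- an even set contains all or nothing of a series class -/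
theorem Ev_ser (G : MG V E) (C : Finset E) (hC : G.Ev C) (e f : E) (h : G.Ser e f)
    (he : e ∈ C) : f ∈ C := by
  by_cases hef : e = f
  · rw [← hef]
    exact he
  rcases h with h | ⟨U, hU⟩
  · exact (hef h).elim
  by_contra hf
  have h1 := G.Ev_cut C hC U
  have h2 : C ∩ G.cut U = {e} := by
    rw [hU]
    ext x
    simp only [Finset.mem_inter, Finset.mem_insert, Finset.mem_singleton]
    constructor
    · rintro ⟨hx, hy | hy⟩
      · exact hy
      · exact (hf (hy ▸ hx)).elim
    · intro hx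
      exact ⟨hx.symm ▸ he, Or.inl hx⟩
  rw [h2, Finset.card_singleton] at h1
  exact (by decide : ¬ Even 1) h1

/-- representatives of the classes contained in a union `S` of classes -/
theorem reps (G : MG V E) (S : Finset E) (hS : ∀ e f, G.Ser e f → e ∈ S → f ∈ S) :
    ∃ R ⊆ S, (∀ e ∈ S, ∃ f ∈ R, G.Ser e f) ∧ (∀ e ∈ R, ∀ f ∈ R, G.Ser e f → e = f) ∧
      (R.card : ℚ) = ∑ e ∈ S, G.av e := by
  classical
  let st : Setoid E := ⟨G.Ser, ⟨G.Ser_refl, fun {a b} h => G.Ser_symm a b h,
    fun {a b c} h h' => G.Ser_trans a b c h h'⟩⟩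
  let r : E → E := fun e => (Quotient.mk st e).out
  have r1 : ∀ e, G.Ser e (r e) := by
    intro e
    have h : st (r e) e := Quotient.exact (Quotient.out_eq (Quotient.mk st e))
    exact G.Ser_symm _ _ h
  have r2 : ∀ e f, G.Ser e f → r e = r f := by
    intro e f h
    have h' : Quotient.mk st e = Quotient.mk st f := Quotient.sound h
    show (Quotient.mk st e).out = (Quotient.mk st f).out
    rw [h']
  refine ⟨S.image r, ?_, ?_, ?_, ?_⟩
  · intro x hx
    obtain ⟨e, he, rfl⟩ := Finset.mem_image.mp hx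
    exact hS e (r e) (r1 e) he
  · intro e he
    exact ⟨r e, Finset.mem_image_of_mem r he, r1 e⟩
  · intro x hx y hy hxy
    obtain ⟨e, he, rfl⟩ := Finset.mem_image.mp hx
    obtain ⟨f, hf, rfl⟩ := Finset.mem_image.mp hy
    exact r2 e f (G.Ser_trans _ _ _ (r1 e) (G.Ser_trans _ _ _ hxy (G.Ser_symm _ _ (r1 f))))
  · rw [← Finset.sum_fiberwise_of_maps_to (s := S) (t := S.image r) (g := r)
      (fun e he => Finset.mem_image_of_mem r he) (fun e => G.av e)]
    rw [Finset.card_eq_sum_ones, Nat.cast_sum]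
    apply Finset.sum_congr rfl
    intro x hx
    obtain ⟨a, ha, rfl⟩ := Finset.mem_image.mp hx
    have h1 : S.filter (fun e => r e = r a) = G.kl (r a) := by
      ext e
      rw [Finset.mem_filter, G.mem_kl]
      constructor
      · rintro ⟨_, h⟩
        rw [← h]
        exact G.Ser_symm _ _ (r1 e)
      · intro h
        have h2 : G.Ser a e := G.Ser_trans _ _ _ (r1 a) h
        exact ⟨hS a e h2 ha, (r2 a e h2).symm⟩
    have h3 : ∀ e ∈ G.kl (r a), G.av e = 1 / ((G.kl (r a)).card : ℚ) := by
      intro e he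
      have he' := (G.mem_kl _ _).mp he
      have h4 : G.kl e = G.kl (r a) := by
        ext y
        rw [G.mem_kl, G.mem_kl]
        exact ⟨fun h => G.Ser_trans _ _ _ he' h, fun h => G.Ser_trans _ _ _ (G.Ser_symm _ _ he') h⟩
      unfold av
      rw [h4]
    rw [h1, Finset.sum_congr rfl h3, Finset.sum_const, nsmul_eq_mul, Nat.cast_one,
      mul_one_div_cancel (cubic_kl_pos G (r a)).ne']

theorem sum_av_ge (G : MG V E) (hc : ∀ v, G.dg Finset.univ v = 3) :
    (Fintype.card V : ℚ) / 2 ≤ ∑ e, G.av e := by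
  obtain ⟨R, _, hcov, _, hcard⟩ := G.reps Finset.univ (fun _ f _ _ => Finset.mem_univ f)
  have h1 : (Finset.univ \ R).card ≤ Fintype.card V := by
    apply G.acyc_card
    intro C hCR hC
    by_contra hne
    obtain ⟨e, he⟩ := Finset.nonempty_iff_ne_empty.mpr hne
    obtain ⟨f, hf, hef⟩ := hcov e (Finset.mem_univ e)
    have h2 := hCR (G.Ev_ser C hC e f hef he)
    exact (Finset.mem_sdiff.mp h2).2 hf
  have h2 : (Finset.univ \ R).card + R.card = Fintype.card E := by
    rw [Finset.card_sdiff_add_card_eq_card (Finset.subset_univ R), Finset.card_univ]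
  have h3 : 3 * Fintype.card V = 2 * Fintype.card E := by
    have h := G.sum_dg_univ Finset.univ
    rw [Finset.sum_congr rfl (fun v _ => hc v), Finset.sum_const, smul_eq_mul, Finset.card_univ,
      Finset.card_univ] at h
    omega
  have h4 : Fintype.card V ≤ 2 * R.card := by omega
  rw [← hcard]
  have h5 : (Fintype.card V : ℚ) ≤ 2 * (R.card : ℚ) := by exact_mod_cast h4
  linarith

end MG

end Pool.Agent.Lib.MP_95e9b3_coC
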