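import Pool.Agent.Lib.MP_95e9b3_coC.Gain

/-!
# JOB CubicMain: the theorem for cubic multigraphs with weights

`η = 1/20000`. `match_exists` gives `M`; `match_ser`, `reps` for `S = M` give `A` with
`|A| = ∑ e ∈ M, av e`; `gain` gives a cover of cost at most
`3/2 w(F) + 2 w(M) - |A| / 40000 = 3/2 w(E) + 1/2 w(M) - |A| / 40000`, and
`w(M) ≤ η |A| + (w(E) - η ∑ e, av e) / 3`. So the cost is at most
`5/3 w(E) - η/6 ∑ e, av e + (η/2 - 1/40000) |A| = 5/3 w(E) - (∑ e, av e) / 120000`, and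
`∑ e, av e ≥ |V| / 2` (`sum_av_ge`).
-/

set_option autoImplicit false

namespace Pool.Agent.Lib.MP_95e9b3_coC

open Finset
open scoped symmDiff

namespace MG

variable {V W E : Type} [Fintype V] [DecidableEq V] [Fintype W] [DecidableEq W]
  [Fintype E] [DecidableEq E]

theorem cubic_main (G : MG V E) (hc : ∀ v, G.dg Finset.univ v = 3) (hb : G.Br0)
    (w : E → ℕ) (hw : ∀ e, 1 ≤ w e) :
    G.Cov w (5 / 3 * (∑ e, (w e : ℚ)) - (Fintype.card V : ℚ) / 240000) := by
  obtain ⟨M, hM, h3, hwM⟩ := G.match_exists hc hb w hw (1 / 20000) (by norm_num) (by norm_num)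
  obtain ⟨A, hAM, hMA, hA, hcard⟩ := G.reps M (fun e f h he => G.match_ser hc M hM e f h he)
  refine G.Cov_mono w _ _ ?_ (G.gain hc hb w hw M A hM h3 hAM hMA hA)
  have hav := G.sum_av_ge hc
  rw [Finset.sum_sub_distrib, Finset.sum_sub_distrib, ← Finset.mul_sum, ← Finset.mul_sum,
    ← hcard] at hwM
  have hsplit : ∑ e ∈ Finset.univ \ M, (w e : ℚ) + ∑ e ∈ M, (w e : ℚ) = ∑ e, (w e : ℚ) :=
    Finset.sum_sdiff (Finset.subset_univ M)
  linarith

end MG

end Pool.Agent.Lib.MP_95e9b3_coC
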