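import Mathlib

/-!
# Finite multigraphs, cuts, even edge sets, flows in the Klein four group

Definitions for the short cycle cover problem.
-/

set_option autoImplicit false

namespace Pool.Agent.Lib.MP_95e9b3_coC

/-- A multigraph with vertices `V` and edges `E`: every edge `e` has two ends `s e`, `t e`. -/
structure MG (V E : Type) where
  /-- first end -/
  s : E → V
  /-- second end -/
  t : E → V

/-- The Klein four group. -/
abbrev K4 := ZMod 2 × ZMod 2

namespace MG

variable {V W E : Type} [Fintype V] [DecidableEq V] [Fintype W] [DecidableEq W]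
  [Fintype E] [DecidableEq E]

/-- number of ends of `e` at `v` (0, 1 or 2) -/
def inc (G : MG V E) (e : E) (v : V) : ℕ :=
  (if G.s e = v then 1 else 0) + (if G.t e = v then 1 else 0)

/-- degree of `v` in the edge set `J` -/
def dg (G : MG V E) (J : Finset E) (v : V) : ℕ := ∑ e ∈ J, G.inc e v

/-- the edges with exactly one end in `U` -/
def cut (G : MG V E) (U : Finset V) : Finset E :=
  Finset.univ.filter (fun e => ¬ (G.s e ∈ U ↔ G.t e ∈ U))

/-- even edge sets -/
def Ev (G : MG V E) (J : Finset E) : Prop := ∀ v, Even (G.dg J v)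

/-- equal degree parities -/
def Sim (G : MG V E) (J J' : Finset E) : Prop := ∀ v, G.dg J v % 2 = G.dg J' v % 2

/-- no cut has exactly one edge -/
def Br0 (G : MG V E) : Prop := ∀ U : Finset V, (G.cut U).card ≠ 1

/-- `e` joins `a` and `b` -/
def Jn (G : MG V E) (e : E) (a b : V) : Prop :=
  (G.s e = a ∧ G.t e = b) ∨ (G.s e = b ∧ G.t e = a)

/-- `a` and `b` are connected by edges of `F` -/
def Rch (G : MG V E) (F : Finset E) (a b : V) : Prop :=
  Relation.ReflTransGen (fun x y => ∃ e ∈ F, G.Jn e x y) a b

open Classical in
/-- vertex set of the component of `v` in `F` -/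
noncomputable def cv (G : MG V E) (F : Finset E) (v : V) : Finset V :=
  Finset.univ.filter (fun u => G.Rch F v u)

open Classical in
/-- edge set of the component of `v` in `F` -/
noncomputable def ce (G : MG V E) (F : Finset E) (v : V) : Finset E :=
  F.filter (fun e => G.Rch F v (G.s e))

/-- number of components of `F` -/
noncomputable def nc (G : MG V E) (F : Finset E) : ℕ := (Finset.univ.image (G.cv F)).card

/-- image of a multigraph under a map of the vertices (contraction) -/
def mp (G : MG V E) (f : V → W) : MG W E := ⟨fun e => f (G.s e), fun e => f (G.t e)⟩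

/-- flows with values in the Klein four group -/
def Fl (G : MG V E) (x : E → K4) : Prop := ∀ v, ∑ e, G.inc e v • x e = 0

/-- there is a cover of all edges by even edge sets of total weight at most `l` -/
def Cov (G : MG V E) (w : E → ℕ) (l : ℚ) : Prop :=
  ∃ L : List (Finset E), (∀ C ∈ L, G.Ev C) ∧ (∀ e, ∃ C ∈ L, e ∈ C) ∧
    (((L.map (fun C => ∑ e ∈ C, w e)).sum : ℕ) : ℚ) ≤ l

/-- `e` and `f` are in series: equal or a 2-edge cut -/
def Ser (G : MG V E) (e f : E) : Prop := e = f ∨ ∃ U, G.cut U = {e, f}

open Classical in
/-- series class of `e` -/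
noncomputable def kl (G : MG V E) (e : E) : Finset E := Finset.univ.filter (fun f => G.Ser e f)

/-- `1 / |class of e|` -/
noncomputable def av (G : MG V E) (e : E) : ℚ := 1 / ((G.kl e).card : ℚ)

/-- the map `x` misses a value on `C` -/
def Ms (x : E → K4) (C : Finset E) : Prop := ∃ k : K4, ∀ e ∈ C, x e ≠ k

open Classical in
/-- the edges `e` of `L` in a cut `D` with `|J ∩ D|` odd and `|L ∩ D| = 2` -/
noncomputable def So (G : MG V E) (L J : Finset E) : Finset E :=
  L.filter (fun e => ∃ U, Odd (J ∩ G.cut U).card ∧ (L ∩ G.cut U).card = 2 ∧ e ∈ G.cut U)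

/-- the edges of `A` whose value is not `k`, and which are in no cut `D` with `|A ∩ D|` odd and
with exactly two edges of value different from `k` -/
noncomputable def Bk (G : MG V E) (A : Finset E) (x : E → K4) (k : K4) : Finset E :=
  (A.filter (fun e => x e ≠ k)) \ G.So (A.filter (fun e => x e ≠ k)) A

end MG

end Pool.Agent.Lib.MP_95e9b3_coC
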