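import Pool.Agent.Lib.MP_95e9b3_coC.Multi
import Pool.Agent.Lib.MP_95e9b3_coC.Simp

/-!
# JOB Final: the theorem for simple graphs

`multi_main` for `toMG G`, `w = 1`; the list of even sets is turned into a list of cycles with `cyc`
(concatenate). The bound is multiplied by `240000`.
-/

set_option autoImplicit false

namespace Pool.Agent.Lib.MP_95e9b3_coC

private theorem final_list {V : Type} [Fintype V] [DecidableEq V] (G : SimpleGraph V)
    [Fintype {e : Sym2 V // e ∈ G.edgeSet}] [DecidableEq {e : Sym2 V // e ∈ G.edgeSet}]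
    (L : List (Finset {e : Sym2 V // e ∈ G.edgeSet})) :
    (∀ C ∈ L, (MG.toMG G).Ev C) →
    ∃ L' : List (Σ v : V, G.Walk v v), (∀ c ∈ L', c.2.IsCycle) ∧
      (∀ C ∈ L, ∀ e ∈ C, ∃ c ∈ L', e.1 ∈ c.2.edges) ∧
      (L'.map (fun c => c.2.length)).sum = (L.map (fun C => C.card)).sum := by
  induction L with
  | nil =>
    intro _
    exact ⟨[], fun c hc => absurd hc List.not_mem_nil, fun C hC => absurd hC List.not_mem_nil, rfl⟩
  | cons C L ih =>
    intro hL
    obtain ⟨L1, h1, h2, h3⟩ := ih fun C' hC' => hL C' (List.mem_cons_of_mem _ hC')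
    obtain ⟨L2, k1, k2, k3⟩ := MG.cyc G C (hL C List.mem_cons_self)
    refine ⟨L2 ++ L1, ?_, ?_, ?_⟩
    · intro c hc
      rw [List.mem_append] at hc
      rcases hc with hc | hc
      · exact k1 c hc
      · exact h1 c hc
    · intro C' hC' e he
      rw [List.mem_cons] at hC'
      rcases hC' with rfl | hC'
      · obtain ⟨c, hc, hce⟩ := k2 e he
        exact ⟨c, List.mem_append.2 (Or.inl hc), hce⟩
      · obtain ⟨c, hc, hce⟩ := h2 C' hC' e he
        exact ⟨c, List.mem_append.2 (Or.inr hc), hce⟩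
    · rw [List.map_append, List.sum_append, List.map_cons, List.sum_cons, h3, k3]

/-- every finite simple graph without bridges has a cycle cover of total length at most
`5/3 |E| - (number of vertices of odd degree) / 240000` -/
theorem final (V : Type) [Fintype V] (G : SimpleGraph V)
    (h : ∀ v w : V, G.Adj v w → (G.deleteEdges {s(v, w)}).Reachable v w) :
    ∃ L : List (Σ v : V, G.Walk v v),
      (∀ c ∈ L, c.2.IsCycle) ∧
      (∀ e ∈ G.edgeSet, ∃ c ∈ L, e ∈ c.2.edges) ∧
      240000 * (L.map (fun c => c.2.length)).sum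
        + Nat.card {v : V // Odd (Nat.card (G.neighborSet v))} ≤ 400000 * Nat.card G.edgeSet := by
  classical
  haveI : Fintype {e : Sym2 V // e ∈ G.edgeSet} := Fintype.ofFinite _
  obtain ⟨L, hL1, hL2, hL3⟩ := MG.multi_main _ V {e : Sym2 V // e ∈ G.edgeSet} (MG.toMG G)
    (fun _ => 1) (MG.Br0_toMG G h) (fun _ => le_refl 1) (le_refl _)
  obtain ⟨L', h1, h2, h3⟩ := final_list G L hL1
  refine ⟨L', h1, ?_, ?_⟩
  · intro e he
    obtain ⟨C, hC, heC⟩ := hL2 ⟨e, he⟩
    exact h2 C hC ⟨e, he⟩ heC
  · have e1 : (L.map (fun C : Finset {e : Sym2 V // e ∈ G.edgeSet} => ∑ _e ∈ C, 1)) =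
        L.map (fun C => C.card) := by
      apply List.map_congr_left
      intro C _
      exact (Finset.card_eq_sum_ones C).symm
    have e2 : Nat.card {v : V // Odd (Nat.card (G.neighborSet v))} =
        (Finset.univ.filter (fun v => Odd ((MG.toMG G).dg Finset.univ v))).card := by
      rw [Nat.card_eq_fintype_card, Fintype.card_subtype]
      apply congrArg
      apply Finset.filter_congr
      intro v _
      rw [MG.dg_toMG]
    have e3 : Nat.card G.edgeSet = Fintype.card {e : Sym2 V // e ∈ G.edgeSet} :=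
      Nat.card_eq_fintype_card
    have e4 : ∑ _e : {e : Sym2 V // e ∈ G.edgeSet}, ((1 : ℕ) : ℚ) =
        (Fintype.card {e : Sym2 V // e ∈ G.edgeSet} : ℚ) := by
      rw [Finset.sum_const, Finset.card_univ, nsmul_eq_mul, Nat.cast_one, mul_one]
    rw [e1, e4] at hL3
    rw [h3, e2, e3]
    have h5 : (240000 * (((L.map (fun C => C.card)).sum : ℕ) : ℚ) +
        ((Finset.univ.filter (fun v => Odd ((MG.toMG G).dg Finset.univ v))).card : ℚ)) ≤
        400000 * (Fintype.card {e : Sym2 V // e ∈ G.edgeSet} : ℚ) := by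
      linarith
    exact_mod_cast h5

end Pool.Agent.Lib.MP_95e9b3_coC
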