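import Pool.Agent.Lib.MP_95e9b3_coC.Bases
import Pool.Agent.Lib.MP_95e9b3_coC.Flows

/-!
# JOB FlowEx: existence of flows nowhere zero outside `Z`

`bases` with `k = 2` gives `B 0, B 1`. Let `A = Zᶜ`. `join_exists` with `F = B 0 ∪ Z`, `J0 = A`: if
`(B 0 ∪ Z) ∩ cut U = ∅` then `cut U = ∅` (an edge of `cut U` has its ends connected in `univ`, hence in
`B 0 ∪ Z`, and `U` is closed: `closed_Rch`). So there is `J1 ⊆ B 0 ∪ Z` with `Sim J1 A`, and
`X = A ∆ J1` is even and contains `A \ B 0`. In the same way `Y = A ∆ J2` is even and contains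
`A \ B 1`. As `B 0`, `B 1` are disjoint, `A ⊆ X ∪ Y`; take `Fl_of_Ev`.
-/

set_option autoImplicit false

namespace Pool.Agent.Lib.MP_95e9b3_coC

open Finset
open scoped symmDiff

namespace MG

variable {V W E : Type} [Fintype V] [DecidableEq V] [Fintype W] [DecidableEq W]
  [Fintype E] [DecidableEq E]

theorem flow_exists (G : MG V E) (Z : Finset E)
    (h : ∀ U : Finset V, Z ∩ G.cut U = ∅ → (G.cut U).card = 0 ∨ 4 ≤ (G.cut U).card) :
    ∃ x : E → K4, G.Fl x ∧ ∀ e, e ∉ Z → x e ≠ 0 := by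
  obtain ⟨B, hBZ, hBB, hB⟩ := bases G 2 Z (fun U hU => by
    rcases h U hU with h1 | h1
    · exact Or.inl h1
    · exact Or.inr (by omega))
  have key : ∀ i, ∃ X : Finset E, G.Ev X ∧ ∀ e, e ∉ Z → e ∉ B i → e ∈ X := by
    intro i
    obtain ⟨J, hJ, hJS⟩ := join_exists G (B i ∪ Z) Zᶜ (by
      intro U hU
      have hc : G.cut U = ∅ := by
        rw [Finset.eq_empty_iff_forall_notMem]
        intro e he
        have h1 := (mem_cut G U e).1 he
        have h2 : G.Rch (B i ∪ Z) (G.s e) (G.t e) :=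
          hB i _ _ (Rch_edge G Finset.univ e (Finset.mem_univ e))
        apply h1
        constructor
        · intro hs
          exact closed_Rch G _ U hU _ _ hs h2
        · intro ht
          exact closed_Rch G _ U hU _ _ ht (Rch_symm G _ _ _ h2)
      rw [hc, Finset.inter_empty, Finset.card_empty]
      exact ⟨0, rfl⟩)
    refine ⟨J ∆ Zᶜ, (Sim_iff G _ _).1 hJS, ?_⟩
    intro e he hb
    rw [Finset.mem_symmDiff]
    right
    refine ⟨Finset.mem_compl.2 he, fun hj => ?_⟩
    rcases Finset.mem_union.1 (hJ hj) with h1 | h1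
    · exact hb h1
    · exact he h1
  obtain ⟨X, hX, hX'⟩ := key 0
  obtain ⟨Y, hY, hY'⟩ := key 1
  refine ⟨_, Fl_of_Ev G X Y hX hY, ?_⟩
  intro e he h0
  by_cases hb : e ∈ B 0
  · have hb1 : e ∉ B 1 := fun h1 => (Finset.disjoint_left.1 (hBB 0 1 (by decide)) hb h1)
    have h1 := hY' e he hb1
    have h2 : (if e ∈ Y then 1 else 0 : ZMod 2) = 0 := congrArg Prod.snd h0
    rw [if_pos h1] at h2
    exact absurd h2 (by decide)
  · have h1 := hX' e he hb
    have h2 : (if e ∈ X then 1 else 0 : ZMod 2) = 0 := congrArg Prod.fst h0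
    rw [if_pos h1] at h2
    exact absurd h2 (by decide)

end MG

end Pool.Agent.Lib.MP_95e9b3_coC
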