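import Pool.Agent.Lib.MP_95e9b3_coC.Flows
import Pool.Agent.Lib.MP_95e9b3_coC.EJ

/-!
# JOB Imp: an unbalanced flow from the edges in no small odd cut

`H` is a graph in which the edges outside `A` are loops, `x` a flow, nonzero on `A`, `k ≠ 0`; let
`i ≠ j` be the two other nonzero values, `L = A.filter (x ≠ k)` (even by `Fl_par_ne`),
`S = So L A`, `B = Bk A x k = L \ S`. For every `U`: `(A ∩ cut U).card` and
`((A.filter (x = i)) ∩ cut U).card` have the same parity (`Fl_par`, `Sim_cut`).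
Apply `EJ` with `F = L`, `J0 = A.filter (x = i)`, `z e = 1/3` for `e ∈ B` and `z e = 1/2` for `e ∈ S`.
Hypothesis: let `(J0 ∩ cut U).card` be odd; `(L ∩ cut U).card` is even (`Ev_cut`) and nonzero
(`J0 ⊆ L`). If it is `2`, the two edges are in `S` (definition of `So`), sum `1`; if it is `≥ 4` the sum
is `≥ 4/3`. We get `J ⊆ L`, `Sim J J0`, `w(J) ≤ w(L)/2 - w(B)/6`. `Fl_recolor` gives the flow `x'` with
value `i` on `J`, `j` on `L \ J`, `x` elsewhere. `w(x' = j) - w(x' = i) = w(L) - 2 w(J) ≥ w(B) / 3`.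
-/

set_option autoImplicit false

namespace Pool.Agent.Lib.MP_95e9b3_coC

open Finset
open scoped symmDiff

namespace MG

variable {V W E : Type} [Fintype V] [DecidableEq V] [Fintype W] [DecidableEq W]
  [Fintype E] [DecidableEq E]

private theorem Imp_vals : ∀ k : K4, k ≠ 0 → ∃ i j : K4, i ≠ 0 ∧ j ≠ 0 ∧ i ≠ j ∧ i ≠ k ∧ j ≠ k ∧
    ∀ y : K4, y ≠ 0 → y ≠ k → (y = i ∨ y = j) := by
  decide

theorem improve (H : MG V E) (A : Finset E) (x : E → K4) (hx : H.Fl x)
    (hA : ∀ e ∈ A, x e ≠ 0) (hout : ∀ e, e ∉ A → H.s e = H.t e) (w : E → ℕ) (k : K4)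
    (hk : k ≠ 0) :
    ∃ x' : E → K4, H.Fl x' ∧ (∀ e ∈ A, x' e ≠ 0) ∧ ∃ i j : K4, i ≠ 0 ∧ j ≠ 0 ∧ i ≠ j ∧
      (∑ e ∈ H.Bk A x k, w e) + 3 * (∑ e ∈ A.filter (fun e => x' e = i), w e)
        ≤ 3 * ∑ e ∈ A.filter (fun e => x' e = j), w e := by
  classical
  obtain ⟨i, j, hi0, hj0, hij, hik, hjk, hval⟩ := Imp_vals k hk
  set L : Finset E := A.filter (fun e => x e ≠ k) with hL
  set J0 : Finset E := A.filter (fun e => x e = i) with hJ0
  set B : Finset E := H.Bk A x k with hB
  have hLij : ∀ e, e ∈ L ↔ e ∈ A ∧ (x e = i ∨ x e = j) := by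
    intro e
    rw [hL, Finset.mem_filter]
    constructor
    · rintro ⟨h1, h2⟩
      exact ⟨h1, hval _ (hA e h1) h2⟩
    · rintro ⟨h1, h2 | h2⟩
      · exact ⟨h1, by rw [h2]; exact hik⟩
      · exact ⟨h1, by rw [h2]; exact hjk⟩
  have hJ0L : J0 ⊆ L := by
    intro e he
    rw [hJ0, Finset.mem_filter] at he
    exact (hLij e).mpr ⟨he.1, Or.inl he.2⟩
  have hBL : B ⊆ L := by
    rw [hB]
    exact Finset.sdiff_subset
  have hEvL : H.Ev L := Fl_par_ne H A x hx hA hout k hk
  have hSimA : H.Sim J0 A := Fl_par H A x hx hA hout i hi0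
  let z : E → ℚ := fun e => if e ∈ B then 1 / 3 else 1 / 2
  have hz13 : ∀ e, 1 / 3 ≤ z e := by
    intro e
    by_cases he : e ∈ B
    · simp only [z, he, if_true]; norm_num
    · simp only [z, he, if_false]; norm_num
  have hc : ∀ U : Finset V, Odd (J0 ∩ H.cut U).card → 1 ≤ ∑ e ∈ L ∩ H.cut U, z e := by
    intro U hodd
    have hoddA : Odd (A ∩ H.cut U).card := by
      have h1 := Sim_cut H J0 A hSimA U
      rw [Nat.odd_iff] at hodd ⊢
      omega
    have heven : Even (L ∩ H.cut U).card := Ev_cut H L hEvL U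
    have hpos : 1 ≤ (L ∩ H.cut U).card := by
      have h1 : (J0 ∩ H.cut U).card ≤ (L ∩ H.cut U).card :=
        Finset.card_le_card (Finset.inter_subset_inter_right hJ0L)
      have h2 : 1 ≤ (J0 ∩ H.cut U).card := hodd.pos
      omega
    by_cases h2 : (L ∩ H.cut U).card = 2
    · have hz : ∀ e ∈ L ∩ H.cut U, z e = 1 / 2 := by
        intro e he
        have heL := (Finset.mem_inter.mp he).1
        have heC := (Finset.mem_inter.mp he).2
        have hnB : e ∉ B := by
          rw [hB]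
          intro hb
          have hb2 := (Finset.mem_sdiff.mp hb).2
          apply hb2
          exact Finset.mem_filter.mpr ⟨heL, U, hoddA, h2, heC⟩
        simp only [z, hnB, if_false]
      rw [Finset.sum_congr rfl hz, Finset.sum_const, h2]
      norm_num
    · have h4 : 4 ≤ (L ∩ H.cut U).card := by
        rw [Nat.even_iff] at heven
        omega
      have h5 : ∑ _e ∈ L ∩ H.cut U, (1 / 3 : ℚ) ≤ ∑ e ∈ L ∩ H.cut U, z e :=
        Finset.sum_le_sum fun e _ => hz13 e
      rw [Finset.sum_const, nsmul_eq_mul] at h5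
      have h6 : (4 : ℚ) ≤ ((L ∩ H.cut U).card : ℚ) := by exact_mod_cast h4
      linarith
  obtain ⟨J, hJL, hJS, hJw⟩ := EJ H L J0 (fun e => (w e : ℚ)) z
    (fun e _ => Nat.cast_nonneg _) (fun e _ => le_trans (by norm_num) (hz13 e)) hc
  have hJsub : J ⊆ A.filter (fun e => x e = i ∨ x e = j) := by
    intro e he
    exact Finset.mem_filter.mpr ((hLij e).mp (hJL he))
  have hFl := Fl_recolor H A x hx i j J hJsub hJS
  refine ⟨_, hFl, ?_, i, j, hi0, hj0, hij, ?_⟩
  · intro e he
    show (if e ∈ A ∧ (x e = i ∨ x e = j) then (if e ∈ J then i else j) else x e) ≠ 0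
    split_ifs
    · exact hi0
    · exact hj0
    · exact hA e he
  · have hfi : A.filter (fun e => (if e ∈ A ∧ (x e = i ∨ x e = j) then
        (if e ∈ J then i else j) else x e) = i) = J := by
      ext e
      rw [Finset.mem_filter]
      constructor
      · rintro ⟨h1, h2⟩
        by_cases h3 : e ∈ A ∧ (x e = i ∨ x e = j)
        · rw [if_pos h3] at h2
          by_contra h4
          rw [if_neg h4] at h2
          exact hij h2.symm
        · rw [if_neg h3] at h2
          exact absurd ⟨h1, Or.inl h2⟩ h3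
      · intro h1
        have h3 := (hLij e).mp (hJL h1)
        exact ⟨h3.1, by rw [if_pos h3, if_pos h1]⟩
    have hfj : A.filter (fun e => (if e ∈ A ∧ (x e = i ∨ x e = j) then
        (if e ∈ J then i else j) else x e) = j) = L \ J := by
      ext e
      rw [Finset.mem_filter, Finset.mem_sdiff]
      constructor
      · rintro ⟨h1, h2⟩
        by_cases h3 : e ∈ A ∧ (x e = i ∨ x e = j)
        · rw [if_pos h3] at h2
          refine ⟨(hLij e).mpr h3, fun h4 => ?_⟩
          rw [if_pos h4] at h2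
          exact hij h2
        · rw [if_neg h3] at h2
          exact absurd ⟨h1, Or.inr h2⟩ h3
      · rintro ⟨h1, h2⟩
        have h3 := (hLij e).mp h1
        exact ⟨h3.1, by rw [if_pos h3, if_neg h2]⟩
    rw [hfi, hfj]
    have hsum : (∑ e ∈ L \ J, w e) + ∑ e ∈ J, w e = ∑ e ∈ L, w e := Finset.sum_sdiff hJL
    have hsumB : (∑ e ∈ L \ B, w e) + ∑ e ∈ B, w e = ∑ e ∈ L, w e := Finset.sum_sdiff hBL
    have hLz : ∑ e ∈ L, (w e : ℚ) * z e
        = (∑ e ∈ L \ B, (w e : ℚ)) / 2 + (∑ e ∈ B, (w e : ℚ)) / 3 := by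
      rw [← Finset.sum_sdiff hBL, Finset.sum_div, Finset.sum_div]
      congr 1
      · refine Finset.sum_congr rfl fun e he => ?_
        have := (Finset.mem_sdiff.mp he).2
        simp only [z, this, if_false]
        ring
      · refine Finset.sum_congr rfl fun e he => ?_
        simp only [z, he, if_true]
        ring
    rw [hLz] at hJw
    have hsumq : (∑ e ∈ L \ J, (w e : ℚ)) + ∑ e ∈ J, (w e : ℚ) = ∑ e ∈ L, (w e : ℚ) := by
      exact_mod_cast hsum
    have hsumBq : (∑ e ∈ L \ B, (w e : ℚ)) + ∑ e ∈ B, (w e : ℚ) = ∑ e ∈ L, (w e : ℚ) := by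
      exact_mod_cast hsumB
    have hfin : (∑ e ∈ B, (w e : ℚ)) + 3 * (∑ e ∈ J, (w e : ℚ))
        ≤ 3 * ∑ e ∈ L \ J, (w e : ℚ) := by linarith
    exact_mod_cast hfin

end MG

end Pool.Agent.Lib.MP_95e9b3_coC
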