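import Pool.Agent.Lib.MP_95e9b3_coC.Circ
import Pool.Agent.Lib.MP_95e9b3_coC.Flows

/-!
# JOB Small: circuits with at most four edges

`sep_exists`. `C = ce F u` has exactly four edges and `x` takes all four values on `C`. `circuit`
gives `v 0, …, v 3`, `f 0, …, f 3` (period 4). The `x (f i)` are distinct, so their sum is `0` and
`g := x (f 0) + x (f 2) = x (f 1) + x (f 3) ≠ 0`. Let `φ : K4 →+ ZMod 2` be the map with kernel
`{0, g}` and `Z0 = {e | φ (x e) = 1}`, an even set (`Fl_hom`) without edges of value `g` (or `0`).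
`φ (x (f 0)) = φ (x (f 2)) ≠ φ (x (f 1)) = φ (x (f 3))`, so `Z0 ∩ C` is `{f 0, f 2}` or `{f 1, f 3}`; in
both cases its odd vertices are `v 0, v 1, v 2, v 3`, so these are the odd vertices of
`Z1 = Z0 \ C`. The component `R = cv Z1 (v 0)` satisfies `Z1 ∩ cut R = ∅`, so `∑ u ∈ R, dg Z1 u` is
even, so `R` contains another odd vertex `v j`, `j ∈ {1, 2, 3}`. `Rch_join`: `Q ⊆ Z1` with odd
vertices `v 0, v j`. Let `P = {f 0}` if `j = 1`, `{f 0, f 1}` if `j = 2`, `{f 3}` if `j = 3`;
`Zc = Q ∪ P` is even, its edges in `M` are in `Z0`, so not of value `g`. It contains `f 0` and not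
`f 2` (`j = 1, 2`), or `f 3` and not `f 1` (`j = 3`).

`small_improve`. Let `𝒮` be the set of circuits `C` of `F` (sets `ce F u`) with `|C| ≤ 4`. A circuit
with at most three edges misses a value for every `x` (there are four values). Call `C ∈ 𝒮` full if
`¬ Ms x C`; then `|C| = 4` and `sep_exists` gives `g_C`, `Z_C`. If at least a twelfth of `𝒮` is not
full, take `x' = x`. Otherwise choose `g ≠ 0` such that `𝒮_g = {C ∈ 𝒮 full, g_C = g}` has
`3 |𝒮_g| ≥ #full`. Let `𝒵` be the finset of all even sets `Z` whose edges in `M` have values `≠ g`;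
`𝒵` is closed under `∆`. For `Z ∈ 𝒵` the flow `x + g 1_Z` is nonzero on `M`. Say `Z` splits `C` if there
are `e ∈ C ∩ Z`, `e' ∈ C \ Z` with `x e + x e' = g`; then `x + g 1_Z` takes the same value on `e` and `e'`,
so it misses a value on `C` (four edges, two of them with equal values). For `C ∈ 𝒮_g`: the
involution `Z ↦ Z ∆ Z_C` of `𝒵` maps sets which do not split `C` to sets which split `C` (with
`e ∈ Z_C`, `e' ∉ Z_C`, `x e + x e' = g`: exactly one of `e, e'` is in `Z ∆ Z_C`). So at least half of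
the `Z ∈ 𝒵` split `C`. Averaging over `Z ∈ 𝒵` (double counting), some `Z ∈ 𝒵` splits at least half of
`𝒮_g`: at least `#full / 6 ≥ |𝒮| * (11 / 12) / 6 ≥ |𝒮| / 12` circuits.
-/

set_option autoImplicit false

namespace Pool.Agent.Lib.MP_95e9b3_coC

open Finset
open scoped symmDiff

namespace MG

variable {V W E : Type} [Fintype V] [DecidableEq V] [Fintype W] [DecidableEq W]
  [Fintype E] [DecidableEq E]

private theorem Small_phi (g : K4) (hg : g ≠ 0) :
    ∃ φ : K4 →+ ZMod 2, φ g = 0 ∧ ∀ h : K4, φ h = 0 → h = 0 ∨ h = g := by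
  have h1 : ∀ g : K4, g ≠ 0 → g = (1, 0) ∨ g = (0, 1) ∨ g = (1, 1) := by decide
  rcases h1 g hg with rfl | rfl | rfl
  · refine ⟨AddMonoidHom.snd _ _, rfl, ?_⟩
    intro h hh
    have h2 : ∀ h : K4, h.2 = 0 → h = 0 ∨ h = (1, 0) := by decide
    exact h2 h hh
  · refine ⟨AddMonoidHom.fst _ _, rfl, ?_⟩
    intro h hh
    have h2 : ∀ h : K4, h.1 = 0 → h = 0 ∨ h = (0, 1) := by decide
    exact h2 h hh
  · refine ⟨AddMonoidHom.fst _ _ + AddMonoidHom.snd _ _, by decide, ?_⟩
    intro h hh
    have h2 : ∀ h : K4, h.1 + h.2 = 0 → h = 0 ∨ h = (1, 1) := by decide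
    exact h2 h hh

private theorem Small_four0 : ∀ a b c d : K4,
    ¬ (a = b ∨ a = c ∨ a = d ∨ b = c ∨ b = d ∨ c = d) → a + c = b + d := by
  decide

private theorem Small_add_ne : ∀ a b : K4, a ≠ b → a + b ≠ 0 := by decide

private theorem Small_four (a b c d : K4) (h1 : a ≠ b) (h2 : a ≠ c) (h3 : a ≠ d) (h4 : b ≠ c)
    (h5 : b ≠ d) (h6 : c ≠ d) : a + c = b + d ∧ a + c ≠ 0 ∧ a + b ≠ 0 ∧ a + b ≠ a + c := by
  refine ⟨Small_four0 a b c d ?_, Small_add_ne a c h2, Small_add_ne a b h1, ?_⟩
  · rintro (h | h | h | h | h | h)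
    · exact h1 h
    · exact h2 h
    · exact h3 h
    · exact h4 h
    · exact h5 h
    · exact h6 h
  · intro h
    exact h4 (add_left_cancel h)

private theorem Small_add_eq : ∀ a b g : K4, a + b = g → b = a + g := by decide

private theorem Small_ne : ∀ a g : K4, a ≠ g → a + g ≠ 0 := by decide

private theorem Small_one (a : ZMod 2) (h : a ≠ 0) : a = 1 := by
  have h1 : ∀ a : ZMod 2, a ≠ 0 → a = 1 := by decide
  exact h1 a h

omit [Fintype V] [Fintype E] [DecidableEq E] in
private theorem Small_dg1 (G : MG V E) (e : E) (w : V) : G.dg {e} w = G.inc e w := by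
  unfold dg
  rw [Finset.sum_singleton]

omit [Fintype V] [Fintype E] in
private theorem Small_dg2 (G : MG V E) (e e' : E) (h : e ≠ e') (w : V) :
    G.dg {e, e'} w = G.inc e w + G.inc e' w := by
  unfold dg
  rw [Finset.sum_pair h]

theorem sep_exists (G : MG V E) (M : Finset E) (hF : ∀ v, G.dg (Finset.univ \ M) v = 2)
    (hl : ∀ e, G.s e ≠ G.t e) (x : E → K4) (hx : G.Fl x) (hnz : ∀ e ∈ M, x e ≠ 0) (u : V)
    (hC : (G.ce (Finset.univ \ M) u).card = 4) (hfull : ¬ Ms x (G.ce (Finset.univ \ M) u)) :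
    ∃ g : K4, g ≠ 0 ∧ ∃ Z : Finset E, G.Ev Z ∧ (∀ e ∈ Z, e ∈ M → x e ≠ g) ∧
      ∃ e ∈ G.ce (Finset.univ \ M) u, ∃ e' ∈ G.ce (Finset.univ \ M) u,
        x e + x e' = g ∧ e ∈ Z ∧ e' ∉ Z := by
  classical
  obtain ⟨v, f, hv0, hf, _, hper, hvi, hfi, _, hce, _, _⟩ :=
    circuit G (Finset.univ \ M) hF (fun e _ => hl e) u
  rw [hC] at hper hvi hfi hce
  have hfM : ∀ i, f i ∉ M := fun i => (Finset.mem_sdiff.1 (hf i).1).2
  have hfC : ∀ i, i < 4 → f i ∈ G.ce (Finset.univ \ M) u := fun i hi => (hce (f i)).2 ⟨i, hi, rfl⟩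
  have hv4 : v 4 = v 0 := by
    have := (hper 0).1
    rwa [Nat.zero_add] at this
  -- the values are distinct
  have hsurj : ∀ k : K4, ∃ i : Fin 4, x (f i) = k := by
    intro k
    unfold Ms at hfull
    push Not at hfull
    obtain ⟨e, he, hk⟩ := hfull k
    obtain ⟨i, hi, rfl⟩ := (hce e).1 he
    exact ⟨⟨i, hi⟩, hk⟩
  have hinj : Function.Injective (fun i : Fin 4 => x (f i)) := by
    have hs : Function.Surjective (fun i : Fin 4 => x (f i)) := hsurj
    have hc : Fintype.card (Fin 4) = Fintype.card K4 := by decide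
    exact ((Fintype.bijective_iff_surjective_and_card _).2 ⟨hs, hc⟩).1
  have hd : ∀ i j : ℕ, i < 4 → j < 4 → i ≠ j → x (f i) ≠ x (f j) := by
    intro i j hi hj hij he
    have := hinj (a₁ := ⟨i, hi⟩) (a₂ := ⟨j, hj⟩) he
    exact hij (Fin.mk.inj this)
  have hfd : ∀ i j : ℕ, i < 4 → j < 4 → i ≠ j → f i ≠ f j := by
    intro i j hi hj hij he
    exact hij (hfi i hi j hj he)
  obtain ⟨hg1, hg0, hg2, hg3⟩ := Small_four (x (f 0)) (x (f 1)) (x (f 2)) (x (f 3))
    (hd 0 1 (by omega) (by omega) (by omega)) (hd 0 2 (by omega) (by omega) (by omega))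
    (hd 0 3 (by omega) (by omega) (by omega)) (hd 1 2 (by omega) (by omega) (by omega))
    (hd 1 3 (by omega) (by omega) (by omega)) (hd 2 3 (by omega) (by omega) (by omega))
  set g : K4 := x (f 0) + x (f 2) with hg
  obtain ⟨φ, hφg, hφ⟩ := Small_phi g hg0
  refine ⟨g, hg0, ?_⟩
  set Z0 : Finset E := Finset.univ.filter (fun e => φ (x e) = 1) with hZ0
  have hZ0e : G.Ev Z0 := Fl_hom G x hx φ
  have hZ0g : ∀ e ∈ Z0, x e ≠ g := by
    intro e he h
    have h1 := (Finset.mem_filter.1 he).2
    rw [h, hφg] at h1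
    exact absurd h1 (by decide)
  have h02 : φ (x (f 0)) = φ (x (f 2)) := by
    have h1 : φ (x (f 0)) + φ (x (f 2)) = 0 := by rw [← map_add]; exact hφg
    have h2 : ∀ a b : ZMod 2, a + b = 0 → a = b := by decide
    exact h2 _ _ h1
  have h13 : φ (x (f 1)) = φ (x (f 3)) := by
    have h1 : φ (x (f 1)) + φ (x (f 3)) = 0 := by rw [← map_add, ← hg1]; exact hφg
    have h2 : ∀ a b : ZMod 2, a + b = 0 → a = b := by decide
    exact h2 _ _ h1
  have h01 : φ (x (f 0)) ≠ φ (x (f 1)) := by
    intro h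
    have h1 : φ (x (f 0) + x (f 1)) = 0 := by
      rw [map_add, h]
      have h2 : ∀ a : ZMod 2, a + a = 0 := by decide
      exact h2 _
    rcases hφ _ h1 with h2 | h2
    · exact hg2 h2
    · exact hg3 h2
  have hincf : ∀ i w, G.inc (f i) w = (if w = v i then 1 else 0) + (if w = v (i + 1) then 1 else 0) :=
    fun i w => inc_Jn G (f i) _ _ (hf i).2 w
  -- the parities of the degrees of the rest
  have hpar : ∀ w, G.dg (Z0 \ (Z0 ∩ G.ce (Finset.univ \ M) u)) w % 2 =
      ((if w = v 0 then 1 else 0) + (if w = v 1 then 1 else 0) + (if w = v 2 then 1 else 0) +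
        (if w = v 3 then 1 else 0)) % 2 := by
    intro w
    have h1 := dg_sdiff G (Z0 ∩ G.ce (Finset.univ \ M) u) Z0 Finset.inter_subset_left w
    have h2 : G.dg (Z0 ∩ G.ce (Finset.univ \ M) u) w =
        (if w = v 0 then 1 else 0) + (if w = v 1 then 1 else 0) + (if w = v 2 then 1 else 0) +
        (if w = v 3 then 1 else 0) := by
      by_cases hc : φ (x (f 0)) = 1
      · have e1 : Z0 ∩ G.ce (Finset.univ \ M) u = {f 0, f 2} := by
          ext e
          rw [Finset.mem_inter, hZ0, Finset.mem_filter, Finset.mem_insert, Finset.mem_singleton]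
          constructor
          · rintro ⟨⟨_, h3⟩, h4⟩
            obtain ⟨i, hi, rfl⟩ := (hce e).1 h4
            have hi' : i = 0 ∨ i = 1 ∨ i = 2 ∨ i = 3 := by omega
            rcases hi' with rfl | rfl | rfl | rfl
            · exact Or.inl rfl
            · exact absurd (hc.trans h3.symm) h01
            · exact Or.inr rfl
            · rw [← h13] at h3
              exact absurd (hc.trans h3.symm) h01
          · rintro (rfl | rfl)
            · exact ⟨⟨Finset.mem_univ _, hc⟩, hfC 0 (by omega)⟩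
            · exact ⟨⟨Finset.mem_univ _, h02 ▸ hc⟩, hfC 2 (by omega)⟩
        rw [e1, Small_dg2 G _ _ (hfd 0 2 (by omega) (by omega) (by omega)), hincf, hincf]
        show (if w = v 0 then 1 else 0) + (if w = v 1 then 1 else 0) +
          ((if w = v 2 then 1 else 0) + (if w = v 3 then 1 else 0)) = _
        omega
      · have hc1 : φ (x (f 1)) = 1 := by
          have h3 : ∀ a b : ZMod 2, a ≠ b → a ≠ 1 → b = 1 := by decide
          exact h3 _ _ h01 hc
        have e1 : Z0 ∩ G.ce (Finset.univ \ M) u = {f 1, f 3} := by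
          ext e
          rw [Finset.mem_inter, hZ0, Finset.mem_filter, Finset.mem_insert, Finset.mem_singleton]
          constructor
          · rintro ⟨⟨_, h3⟩, h4⟩
            obtain ⟨i, hi, rfl⟩ := (hce e).1 h4
            have hi' : i = 0 ∨ i = 1 ∨ i = 2 ∨ i = 3 := by omega
            rcases hi' with rfl | rfl | rfl | rfl
            · exact absurd h3 hc
            · exact Or.inl rfl
            · rw [← h02] at h3
              exact absurd h3 hc
            · exact Or.inr rfl
          · rintro (rfl | rfl)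
            · exact ⟨⟨Finset.mem_univ _, hc1⟩, hfC 1 (by omega)⟩
            · exact ⟨⟨Finset.mem_univ _, h13 ▸ hc1⟩, hfC 3 (by omega)⟩
        rw [e1, Small_dg2 G _ _ (hfd 1 3 (by omega) (by omega) (by omega)), hincf, hincf]
        show (if w = v 1 then 1 else 0) + (if w = v 2 then 1 else 0) +
          ((if w = v 3 then 1 else 0) + (if w = v 4 then 1 else 0)) = _
        rw [hv4]
        omega
    have h3 := hZ0e w
    rw [← h1, h2] at h3
    rw [Nat.even_iff] at h3
    omega
  set Z1 : Finset E := Z0 \ (Z0 ∩ G.ce (Finset.univ \ M) u) with hZ1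
  have hZ1M : ∀ e ∈ Z1, e ∈ M → x e ≠ g := fun e he _ => hZ0g e (Finset.mem_sdiff.1 he).1
  have hfZ1 : ∀ i, i < 4 → f i ∉ Z1 := by
    intro i hi h
    rw [hZ1, Finset.mem_sdiff, Finset.mem_inter] at h
    exact h.2 ⟨h.1, hfC i hi⟩
  have hvd : ∀ i j : ℕ, i < 4 → j < 4 → i ≠ j → v i ≠ v j := by
    intro i j hi hj hij he
    exact hij (hvi i hi j hj he)
  -- another odd vertex in the component
  have hj : G.Rch Z1 (v 0) (v 1) ∨ G.Rch Z1 (v 0) (v 2) ∨ G.Rch Z1 (v 0) (v 3) := by
    by_contra hcon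
    push Not at hcon
    obtain ⟨hn1, hn2, hn3⟩ := hcon
    have h1 := sum_dg G Z1 (G.cv Z1 (v 0))
    rw [cv_cut, Finset.card_empty, Nat.add_zero] at h1
    have h2 : ((∑ w ∈ G.cv Z1 (v 0), G.dg Z1 w : ℕ) : ZMod 2) = 1 := by
      rw [Nat.cast_sum]
      have h3 : ∀ w ∈ G.cv Z1 (v 0), ((G.dg Z1 w : ℕ) : ZMod 2) = if w = v 0 then 1 else 0 := by
        intro w hw
        have hw' := (mem_cv G Z1 (v 0) w).1 hw
        have hw1 : w ≠ v 1 := fun h => hn1 (h ▸ hw')
        have hw2 : w ≠ v 2 := fun h => hn2 (h ▸ hw')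
        have hw3 : w ≠ v 3 := fun h => hn3 (h ▸ hw')
        have h4 := hpar w
        rw [if_neg hw1, if_neg hw2, if_neg hw3] at h4
        have h5 := (ZMod.natCast_eq_natCast_iff' _ _ 2).2 h4
        rw [h5]
        split_ifs <;> simp
      rw [Finset.sum_congr rfl h3, Finset.sum_ite_eq', if_pos ((mem_cv G Z1 (v 0) (v 0)).2 (Rch_refl G Z1 (v 0)))]
    rw [h1] at h2
    have h6 : ((2 * (Z1.filter (fun e => G.s e ∈ G.cv Z1 (v 0) ∧ G.t e ∈ G.cv Z1 (v 0))).card : ℕ) :
        ZMod 2) = 0 := by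
      rw [Nat.cast_mul]
      have h7 : ((2 : ℕ) : ZMod 2) = 0 := by decide
      rw [h7, zero_mul]
    rw [h6] at h2
    exact absurd h2 (by decide)
  -- the last step
  have hfin : ∀ (j : ℕ) (P : Finset E) (a b : ℕ), G.Rch Z1 (v 0) (v j) → a < 4 → b < 4 →
      x (f a) + x (f b) = g → f a ∈ P → f b ∉ P → (∀ e ∈ P, ∃ i, i < 4 ∧ e = f i) →
      (∀ w, G.dg P w % 2 = ((if w = v 0 then 1 else 0) + (if w = v j then 1 else 0)) % 2) →
      ∃ Z : Finset E, G.Ev Z ∧ (∀ e ∈ Z, e ∈ M → x e ≠ g) ∧
      ∃ e ∈ G.ce (Finset.univ \ M) u, ∃ e' ∈ G.ce (Finset.univ \ M) u,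
        x e + x e' = g ∧ e ∈ Z ∧ e' ∉ Z := by
    intro j P a b hr ha hb hab haP hbP hP hPd
    obtain ⟨Q, hQ, hQd⟩ := Rch_join G Z1 (v 0) (v j) hr
    have hdis : Disjoint Q P := by
      rw [Finset.disjoint_left]
      intro e he he'
      obtain ⟨i, hi, rfl⟩ := hP e he'
      exact hfZ1 i hi (hQ he)
    refine ⟨Q ∪ P, ?_, ?_, f a, hfC a ha, f b, hfC b hb, hab, Finset.mem_union_right _ haP, ?_⟩
    · intro w
      rw [dg_union G Q P hdis w, Nat.even_iff]
      have h1 := hQd w
      have h2 := hPd w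
      omega
    · intro e he heM
      rcases Finset.mem_union.1 he with he | he
      · exact hZ1M e (hQ he) heM
      · obtain ⟨i, hi, rfl⟩ := hP e he
        exact absurd heM (hfM i)
    · intro h
      rcases Finset.mem_union.1 h with h | h
      · exact hfZ1 b hb (hQ h)
      · exact hbP h
  rcases hj with hj | hj | hj
  · refine hfin 1 {f 0} 0 2 hj (by omega) (by omega) rfl (Finset.mem_singleton_self _) ?_ ?_ ?_
    · rw [Finset.mem_singleton]
      exact hfd 2 0 (by omega) (by omega) (by omega)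
    · intro e he
      exact ⟨0, by omega, Finset.mem_singleton.1 he⟩
    · intro w
      rw [Small_dg1, hincf]
  · refine hfin 2 {f 0, f 1} 0 2 hj (by omega) (by omega) rfl (Finset.mem_insert_self _ _) ?_ ?_ ?_
    · rw [Finset.mem_insert, Finset.mem_singleton, not_or]
      exact ⟨hfd 2 0 (by omega) (by omega) (by omega), hfd 2 1 (by omega) (by omega) (by omega)⟩
    · intro e he
      rw [Finset.mem_insert, Finset.mem_singleton] at he
      rcases he with he | he
      · exact ⟨0, by omega, he⟩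
      · exact ⟨1, by omega, he⟩
    · intro w
      rw [Small_dg2 G _ _ (hfd 0 1 (by omega) (by omega) (by omega)), hincf, hincf]
      show ((if w = v 0 then 1 else 0) + (if w = v 1 then 1 else 0) +
          ((if w = v 1 then 1 else 0) + (if w = v 2 then 1 else 0))) % 2 = _
      omega
  · refine hfin 3 {f 3} 3 1 hj (by omega) (by omega) ?_ (Finset.mem_singleton_self _) ?_ ?_ ?_
    · rw [add_comm]
      exact hg1.symm
    · rw [Finset.mem_singleton]
      exact hfd 1 3 (by omega) (by omega) (by omega)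
    · intro e he
      exact ⟨3, by omega, Finset.mem_singleton.1 he⟩
    · intro w
      rw [Small_dg1, hincf]
      show ((if w = v 3 then 1 else 0) + (if w = v 4 then 1 else 0)) % 2 = _
      rw [hv4]
      omega

omit [Fintype V] [DecidableEq V] [Fintype E] [DecidableEq E] in
/-- a set with at most three values misses a value -/
private theorem Small_ms (x : E → K4) (C : Finset E) (h : (C.image x).card < 4) : Ms x C := by
  by_contra hcon
  unfold Ms at hcon
  push Not at hcon
  have h1 : C.image x = Finset.univ := by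
    rw [Finset.eq_univ_iff_forall]
    intro k
    obtain ⟨e, he, hk⟩ := hcon k
    exact Finset.mem_image.2 ⟨e, he, hk⟩
  rw [h1] at h
  exact absurd h (by decide)

omit [Fintype V] [DecidableEq V] [Fintype E] in
private theorem Small_ms2 (x : E → K4) (C : Finset E) (h : C.card ≤ 4) (e e' : E) (he : e ∈ C)
    (he' : e' ∈ C) (hne : e ≠ e') (hx : x e = x e') : Ms x C := by
  apply Small_ms
  have h1 : C.image x ⊆ (C.erase e).image x := by
    intro k hk
    obtain ⟨a, ha, rfl⟩ := Finset.mem_image.1 hk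
    by_cases hae : a = e
    · subst hae
      exact Finset.mem_image.2 ⟨e', Finset.mem_erase.2 ⟨hne.symm, he'⟩, hx.symm⟩
    · exact Finset.mem_image.2 ⟨a, Finset.mem_erase.2 ⟨hae, ha⟩, rfl⟩
  have h2 := Finset.card_le_card h1
  have h3 := Finset.card_image_le (s := C.erase e) (f := x)
  have h4 := Finset.card_erase_lt_of_mem he
  omega

open Classical in
theorem small_improve (G : MG V E) (M : Finset E) (hF : ∀ v, G.dg (Finset.univ \ M) v = 2)
    (hl : ∀ e, G.s e ≠ G.t e) (x : E → K4) (hx : G.Fl x) (hnz : ∀ e ∈ M, x e ≠ 0) :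
    ∃ x' : E → K4, G.Fl x' ∧ (∀ e ∈ M, x' e ≠ 0) ∧
      (((Finset.univ.image (G.ce (Finset.univ \ M))).filter (fun C => C.card ≤ 4)).card) ≤
        12 * (((Finset.univ.image (G.ce (Finset.univ \ M))).filter
          (fun C => C.card ≤ 4 ∧ Ms x' C)).card) := by
  set S : Finset (Finset E) := (Finset.univ.image (G.ce (Finset.univ \ M))).filter (fun C => C.card ≤ 4) with hS
  have hSf : ∀ x' : E → K4, (Finset.univ.image (G.ce (Finset.univ \ M))).filter
      (fun C => C.card ≤ 4 ∧ Ms x' C) = S.filter (fun C => Ms x' C) := by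
    intro x'
    rw [hS, Finset.filter_filter]
  by_cases h12 : S.card ≤ 12 * (S.filter (fun C => Ms x C)).card
  · exact ⟨x, hx, hnz, by rw [hSf]; exact h12⟩
  push Not at h12
  set T : Finset (Finset E) := S.filter (fun C => ¬ Ms x C) with hT
  have hST : (S.filter (fun C => Ms x C)).card + T.card = S.card := Finset.card_filter_add_card_filter_not _
  have hTC : ∀ C ∈ T, ∃ g : K4, g ≠ 0 ∧ ∃ Z : Finset E, G.Ev Z ∧ (∀ e ∈ Z, e ∈ M → x e ≠ g) ∧
      ∃ e ∈ C, ∃ e' ∈ C, x e + x e' = g ∧ e ∈ Z ∧ e' ∉ Z := by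
    intro C hC
    rw [hT, Finset.mem_filter] at hC
    obtain ⟨hC1, hC2⟩ := hC
    rw [hS, Finset.mem_filter] at hC1
    obtain ⟨hC3, hC4⟩ := hC1
    obtain ⟨u, _, rfl⟩ := Finset.mem_image.1 hC3
    refine sep_exists G M hF hl x hx hnz u ?_ hC2
    by_contra hne
    apply hC2
    apply Small_ms
    have := Finset.card_image_le (s := G.ce (Finset.univ \ M) u) (f := x)
    omega
  have hTne : T.Nonempty := by
    rw [Finset.nonempty_iff_ne_empty]
    intro h
    rw [h, Finset.card_empty] at hST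
    omega
  have : Nonempty E := by
    obtain ⟨C0, hC0⟩ := hTne
    obtain ⟨_, _, _, _, _, e, _, _⟩ := hTC C0 hC0
    exact ⟨e⟩
  choose! γ hγ0 ζ hζe hζM a ha b hb hab haζ hbζ using hTC
  -- the most frequent value
  obtain ⟨g, hg0, hg3⟩ : ∃ g : K4, g ≠ 0 ∧ T.card ≤ 3 * (T.filter (fun C => γ C = g)).card := by
    by_contra hcon
    push Not at hcon
    have h1 : T.card = ∑ g ∈ (Finset.univ : Finset K4).erase 0, (T.filter (fun C => γ C = g)).card :=
      Finset.card_eq_sum_card_fiberwise (fun C hC => Finset.mem_coe.2 (Finset.mem_erase.2 ⟨hγ0 C hC, Finset.mem_univ _⟩))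
    have h2 : ∑ g ∈ (Finset.univ : Finset K4).erase 0, 3 * (T.filter (fun C => γ C = g)).card <
        ∑ g ∈ (Finset.univ : Finset K4).erase 0, T.card := by
      apply Finset.sum_lt_sum_of_nonempty
      · exact ⟨(1, 0), by decide⟩
      · intro g hg
        exact hcon g (Finset.mem_erase.1 hg).1
    rw [← Finset.mul_sum, ← h1, Finset.sum_const, smul_eq_mul] at h2
    have h3 : ((Finset.univ : Finset K4).erase 0).card = 3 := by decide
    rw [h3] at h2
    exact lt_irrefl _ h2
  set Tg : Finset (Finset E) := T.filter (fun C => γ C = g) with hTg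
  set ZS : Finset (Finset E) := Finset.univ.filter (fun Z => G.Ev Z ∧ ∀ e ∈ Z, e ∈ M → x e ≠ g) with hZS
  have hZSne : ZS.Nonempty := by
    refine ⟨∅, ?_⟩
    rw [hZS, Finset.mem_filter]
    exact ⟨Finset.mem_univ _, Ev_empty G, fun e he => absurd he (Finset.notMem_empty e)⟩
  set spl : Finset E → Finset E → Prop := fun Z C => ∃ e ∈ C, ∃ e' ∈ C, e ∈ Z ∧ e' ∉ Z ∧ x e + x e' = g with hspl
  have hhalf : ∀ C ∈ Tg, ZS.card ≤ 2 * (ZS.filter (fun Z => spl Z C)).card := by
    intro C hC
    rw [hTg, Finset.mem_filter] at hC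
    obtain ⟨hCT, hCg⟩ := hC
    have h1 : (ZS.filter (fun Z => ¬ spl Z C)).card ≤ (ZS.filter (fun Z => spl Z C)).card := by
      refine Finset.card_le_card_of_injOn (fun Z => Z ∆ ζ C) ?_ ?_
      · intro Z hZ
        rw [Finset.mem_coe, Finset.mem_filter] at hZ
        obtain ⟨hZ1, hZ2⟩ := hZ
        rw [hZS, Finset.mem_filter] at hZ1
        obtain ⟨_, hZ3, hZ4⟩ := hZ1
        rw [Finset.mem_coe, Finset.mem_filter, hZS, Finset.mem_filter]
        refine ⟨⟨Finset.mem_univ _, Ev_symm G _ _ hZ3 (hζe C hCT), ?_⟩, ?_⟩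
        · intro e he heM
          rcases Finset.mem_symmDiff.1 he with h | h
          · exact hZ4 e h.1 heM
          · have := hζM C hCT e h.1 heM
            rw [hCg] at this
            exact this
        · have hab' := hab C hCT
          rw [hCg] at hab'
          have haz := haζ C hCT
          have hbz := hbζ C hCT
          by_cases haZ : a C ∈ Z
          · have hbZ : b C ∈ Z := by
              by_contra hbZ
              exact hZ2 ⟨a C, ha C hCT, b C, hb C hCT, haZ, hbZ, hab'⟩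
            refine ⟨b C, hb C hCT, a C, ha C hCT, ?_, ?_, ?_⟩
            · exact Finset.mem_symmDiff.2 (Or.inl ⟨hbZ, hbz⟩)
            · intro h
              rcases Finset.mem_symmDiff.1 h with h | h
              · exact h.2 haz
              · exact h.2 haZ
            · rw [add_comm]
              exact hab'
          · have hbZ : b C ∉ Z := by
              intro hbZ
              refine hZ2 ⟨b C, hb C hCT, a C, ha C hCT, hbZ, haZ, ?_⟩
              rw [add_comm]
              exact hab'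
            refine ⟨a C, ha C hCT, b C, hb C hCT, ?_, ?_, hab'⟩
            · exact Finset.mem_symmDiff.2 (Or.inr ⟨haz, haZ⟩)
            · intro h
              rcases Finset.mem_symmDiff.1 h with h | h
              · exact hbZ h.1
              · exact hbz h.1
      · intro Z _ Z' _ h
        exact symmDiff_left_injective (ζ C) h
    have h2 : (ZS.filter (fun Z => spl Z C)).card + (ZS.filter (fun Z => ¬ spl Z C)).card = ZS.card :=
      Finset.card_filter_add_card_filter_not _
    omega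
  -- averaging
  obtain ⟨Z, hZ, hZc⟩ : ∃ Z ∈ ZS, Tg.card ≤ 2 * (Tg.filter (fun C => spl Z C)).card := by
    apply Finset.exists_le_of_sum_le hZSne
    have h1 : ∑ Z ∈ ZS, 2 * (Tg.filter (fun C => spl Z C)).card =
        ∑ C ∈ Tg, 2 * (ZS.filter (fun Z => spl Z C)).card := by
      rw [← Finset.mul_sum, ← Finset.mul_sum]
      have := Finset.sum_card_bipartiteAbove_eq_sum_card_bipartiteBelow (s := ZS) (t := Tg) (fun Z C => spl Z C)
      exact congrArg (fun m => 2 * m) this
    rw [h1, Finset.sum_const, smul_eq_mul]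
    calc ZS.card * Tg.card = ∑ C ∈ Tg, ZS.card := by rw [Finset.sum_const, smul_eq_mul, mul_comm]
      _ ≤ _ := Finset.sum_le_sum hhalf
  rw [hZS, Finset.mem_filter] at hZ
  obtain ⟨_, hZe, hZM⟩ := hZ
  refine ⟨fun e => x e + (if e ∈ Z then g else 0), Fl_add G x _ hx (Fl_ind G Z hZe g), ?_, ?_⟩
  · intro e he
    show x e + (if e ∈ Z then g else 0) ≠ 0
    by_cases h : e ∈ Z
    · rw [if_pos h]
      exact Small_ne _ _ (hZM e h he)
    · rw [if_neg h, add_zero]
      exact hnz e he
  · rw [hSf]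
    have h1 : Tg.filter (fun C => spl Z C) ⊆ S.filter (fun C => Ms (fun e => x e + (if e ∈ Z then g else 0)) C) := by
      intro C hC
      rw [Finset.mem_filter] at hC
      obtain ⟨hC1, e, he, e', he', heZ, heZ', heg⟩ := hC
      rw [hTg, Finset.mem_filter] at hC1
      have hCS : C ∈ S := (Finset.mem_filter.1 hC1.1).1
      rw [Finset.mem_filter]
      refine ⟨hCS, ?_⟩
      have hC4 : C.card ≤ 4 := (Finset.mem_filter.1 hCS).2
      refine Small_ms2 _ C hC4 e e' he he' (fun h => heZ' (h ▸ heZ)) ?_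
      show x e + (if e ∈ Z then g else 0) = x e' + (if e' ∈ Z then g else 0)
      rw [if_pos heZ, if_neg heZ', add_zero]
      exact (Small_add_eq _ _ _ heg).symm
    have h2 := Finset.card_le_card h1
    omega

end MG

end Pool.Agent.Lib.MP_95e9b3_coC
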