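import Pool.Agent.Lib.MP_95e9b3_coC.SixE
import Pool.Agent.Lib.MP_95e9b3_coC.Small
import Pool.Agent.Lib.MP_95e9b3_coC.Cnt2
import Pool.Agent.Lib.MP_95e9b3_coC.Imp
import Pool.Agent.Lib.MP_95e9b3_coC.Cost
import Pool.Agent.Lib.MP_95e9b3_coC.FlowEx

/-!
# JOB Gain: assembly of the gain

`F = univ \ M`, `dg F v = 2` (`dg_sdiff`), so `F` is even; `loopless`. `N = |A|`.
`W := {U : Finset V // U ∈ univ.image (cv (univ \ A))}`, `f v = ⟨cv (univ \ A) v, _⟩`; `hf` is `cv_eq`.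
`cut_A`, `flow_exists` (`Z = univ \ A`): a flow `x` of `G`, nonzero on `A`, so on `M` (`nz_M`). It is
a flow of `H = G.mp f` (`Fl_mp`), in which the edges outside `A` are loops (`Rch_edge`). `H_deg`.
`excellent` for `H`, `A`, `x`: `N ≤ 3 |Exc| + 1281 β + 711 N4`. Let `q` be the number of circuits of `F`
(sets `ce F u`) with at most four edges, `E6 = Exc.filter (∀ u, f u = y → 4 < |ce F u|)`. Every `y`
with `dg_H A y = 4` and every `y ∈ Exc \ E6` has a `u` in its fibre with `|ce F u| ≤ 4` (`node`), and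
different `y` have different circuits (`ce_props`: equal circuits give `Rch F u u'`, so
`Rch (univ \ A) u u'`, so `f u = f u'`). So `N4 ≤ q`, `|Exc| ≤ |E6| + q`, `N ≤ 3 |E6| + 1281 β + 714 q`.
So one of the following holds (otherwise `N` would be smaller than `N / 3 + N / 3 + N / 3`; if `N = 0`
everything is trivial, use (1)):
(1) `9 |E6| ≥ N`: `six_improve` gives a flow `x'` and `𝓜` with `6 |𝓜| ≥ |E6|`; `costB` (`ce_props`):
gain `1/2 ∑ C ∈ 𝓜, w(C) ≥ 3 |𝓜| ≥ |E6| / 2 ≥ N / 18`.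
(2) `3843 β ≥ N`: for some nonzero `k`, `3 |B_k| ≥ β`; `class_weight` gives `w' ≥ 1`; `improve` for
`H, A, x, w', k` gives a flow `x1` of `H`, `i ≠ j`, `|B_k| + 3 w'(x1 = i) ≤ 3 w'(x1 = j)`; `Fl_lift` gives
a flow `x2` of `G` with `x2 = x1` on `A`; `costC` with the values `i, j`; `class_weight`:
`w(M, x2 = j) - w(M, x2 = i) ≥ |B_k| / 3 ≥ β / 9 ≥ N / 34587`.
(3) `2142 q ≥ N`: `small_improve` and `costB` with `𝓜` the set of circuits with `|C| ≤ 4` and
`Ms x' C`; every circuit has at least two edges (`circuit`): gain `≥ |𝓜| ≥ q / 12 ≥ N / 25704`.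
`Cov` is monotone in the bound.
-/

set_option autoImplicit false

namespace Pool.Agent.Lib.MP_95e9b3_coC

open Finset
open scoped symmDiff

namespace MG

variable {V W E : Type} [Fintype V] [DecidableEq V] [Fintype W] [DecidableEq W]
  [Fintype E] [DecidableEq E]

theorem Cov_mono (G : MG V E) (w : E → ℕ) (l l' : ℚ) (h : l ≤ l') (hC : G.Cov w l) :
    G.Cov w l' := by
  obtain ⟨L, h1, h2, h3⟩ := hC
  exact ⟨L, h1, h2, le_trans h3 h⟩

/-- the nodes with a short circuit are at most as many as the short circuits -/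
private theorem Gain_bad (G : MG V E) (M A : Finset E) (hF : ∀ v, G.dg (Finset.univ \ M) v = 2)
    (hAM : A ⊆ M) (f : V → W) (hf : ∀ u v, f u = f v ↔ G.Rch (Finset.univ \ A) u v)
    (hsurj : Function.Surjective f) (B : Finset W)
    (hB : ∀ y ∈ B, ∃ u, f u = y ∧ (G.ce (Finset.univ \ M) u).card ≤ 4) :
    B.card ≤ ((Finset.univ.image (G.ce (Finset.univ \ M))).filter (fun C => C.card ≤ 4)).card := by
  classical
  have h1 : ∀ y : W, ∃ u, f u = y ∧ (y ∈ B → (G.ce (Finset.univ \ M) u).card ≤ 4) := by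
    intro y
    by_cases hy : y ∈ B
    · obtain ⟨u, hu, hu4⟩ := hB y hy
      exact ⟨u, hu, fun _ => hu4⟩
    · obtain ⟨u, hu⟩ := hsurj y
      exact ⟨u, hu, fun h => absurd h hy⟩
  choose r hr hr4 using h1
  obtain ⟨_, _, _, hce⟩ := ce_props G (Finset.univ \ M) hF
  refine Finset.card_le_card_of_injOn (fun y => G.ce (Finset.univ \ M) (r y)) ?_ ?_
  · intro y hy
    exact Finset.mem_coe.mpr (Finset.mem_filter.mpr
      ⟨Finset.mem_image_of_mem _ (Finset.mem_univ _), hr4 y (Finset.mem_coe.mp hy)⟩)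
  · intro y _ y' _ h
    have h2 : G.Rch (Finset.univ \ M) (r y) (r y') := (hce _ _).mpr h
    have h3 : G.Rch (Finset.univ \ A) (r y) (r y') :=
      Rch_mono G _ _ (Finset.sdiff_subset_sdiff (Finset.Subset.refl _) hAM) _ _ h2
    have h4 := (hf _ _).mpr h3
    rw [hr, hr] at h4
    exact h4

/-- lower bound for the weight of a family of circuits -/
private theorem Gain_wt (w : E → ℕ) (hw : ∀ e, 1 ≤ w e) (𝓜 : Finset (Finset E)) (m : ℕ)
    (hm : ∀ C ∈ 𝓜, m ≤ C.card) :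
    (m : ℚ) * (𝓜.card : ℚ) ≤ ∑ C ∈ 𝓜, ∑ e ∈ C, (w e : ℚ) := by
  have h1 : ∀ C ∈ 𝓜, (m : ℚ) ≤ ∑ e ∈ C, (w e : ℚ) := by
    intro C hC
    have h2 : (C.card : ℚ) ≤ ∑ e ∈ C, (w e : ℚ) := by
      have h3 : ∑ e ∈ C, (1 : ℚ) ≤ ∑ e ∈ C, (w e : ℚ) :=
        Finset.sum_le_sum (fun e _ => by exact_mod_cast hw e)
      simpa using h3
    have h4 : (m : ℚ) ≤ (C.card : ℚ) := by exact_mod_cast hm C hC
    exact le_trans h4 h2
  have h5 := Finset.sum_le_sum h1
  rw [Finset.sum_const, nsmul_eq_mul] at h5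
  linarith

theorem gain (G : MG V E) (hc : ∀ v, G.dg Finset.univ v = 3) (hb : G.Br0)
    (w : E → ℕ) (hw : ∀ e, 1 ≤ w e) (M A : Finset E) (hM : ∀ v, G.dg M v = 1)
    (h3 : ∀ U : Finset V, (G.cut U).card = 3 → (M ∩ G.cut U).card = 1) (hAM : A ⊆ M)
    (hMA : ∀ e ∈ M, ∃ f ∈ A, G.Ser e f) (hA : ∀ e ∈ A, ∀ f ∈ A, G.Ser e f → e = f) :
    G.Cov w (3 / 2 * (∑ e ∈ Finset.univ \ M, (w e : ℚ)) + 2 * (∑ e ∈ M, (w e : ℚ))
      - (A.card : ℚ) / 40000) := by
  classical
  have hF2 : ∀ v, G.dg (Finset.univ \ M) v = 2 := by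
    intro v
    have h1 := dg_sdiff G M Finset.univ (Finset.subset_univ _) v
    rw [hM v, hc v] at h1
    omega
  have hFev : G.Ev (Finset.univ \ M) := by
    intro v
    rw [hF2 v]
    exact even_two
  have hl := loopless G hc hb
  let f : V → {U : Finset V // U ∈ Finset.univ.image (G.cv (Finset.univ \ A))} :=
    fun v => ⟨G.cv (Finset.univ \ A) v, Finset.mem_image_of_mem _ (Finset.mem_univ v)⟩
  have hf : ∀ u v, f u = f v ↔ G.Rch (Finset.univ \ A) u v := by
    intro u v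
    rw [← cv_eq]
    exact Subtype.ext_iff
  have hsurj : Function.Surjective f := by
    intro y
    obtain ⟨v, _, hv⟩ := Finset.mem_image.mp y.2
    exact ⟨v, Subtype.ext hv⟩
  have hcutA : ∀ U : Finset V, (Finset.univ \ A) ∩ G.cut U = ∅ →
      (G.cut U).card = 0 ∨ 4 ≤ (G.cut U).card := fun U hU => cut_A G hb M A h3 hAM hA U hU
  obtain ⟨x, hx, hx0⟩ := flow_exists G (Finset.univ \ A) hcutA
  have hxA : ∀ e ∈ A, x e ≠ 0 := by
    intro e he
    exact hx0 e (fun h => (Finset.mem_sdiff.mp h).2 he)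
  have hxM := nz_M G M A hMA x hx hxA
  have hHx := Fl_mp G f x hx
  have hout : ∀ e, e ∉ A → (G.mp f).s e = (G.mp f).t e := by
    intro e he
    exact (hf _ _).mpr (Rch_edge G _ e (Finset.mem_sdiff.mpr ⟨Finset.mem_univ _, he⟩))
  have hdeg := H_deg G hb M A hM hAM hMA hcutA f hf hsurj
  obtain ⟨𝒢, πa, πb, Exc, h𝒢, hia, hib, hExc, hcount⟩ := excellent (G.mp f) A x hHx hxA hout hdeg
  obtain ⟨hce1, hce2, hce3, hce4⟩ := ce_props G (Finset.univ \ M) hF2
  obtain ⟨x6, hx6, hx6A, 𝓜6, h61, h62, h63⟩ := six_improve G hc hb M A hM hAM hMA f hf hsurj x hHx hxA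
    𝒢 πa πb Exc h𝒢 hia hib hExc
  -- counting
  have hN4 : (Finset.univ.filter (fun v => (G.mp f).dg A v = 4 ∧
      ¬ ∃ e ∈ A, (G.mp f).s e = v ∧ (G.mp f).t e = v)).card ≤
      ((Finset.univ.image (G.ce (Finset.univ \ M))).filter (fun C => C.card ≤ 4)).card := by
    refine Gain_bad G M A hF2 hAM f hf hsurj _ ?_
    intro y hy
    have h4 := (Finset.mem_filter.mp hy).2.1
    by_contra hcon
    have hbig : ∀ u, f u = y → 4 < (G.ce (Finset.univ \ M) u).card := by
      intro u hu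
      by_contra h5
      exact hcon ⟨u, hu, not_lt.mp h5⟩
    have h5 := (node G hc hb M A hM hAM hMA f hf hsurj y hbig).1
    omega
  have hE6 : Exc.card ≤ (Exc.filter (fun y => ∀ u, f u = y → 4 < (G.ce (Finset.univ \ M) u).card)).card +
      ((Finset.univ.image (G.ce (Finset.univ \ M))).filter (fun C => C.card ≤ 4)).card := by
    rw [← Finset.card_filter_add_card_filter_not (s := Exc)
      (fun y => ∀ u, f u = y → 4 < (G.ce (Finset.univ \ M) u).card)]
    refine Nat.add_le_add_left ?_ _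
    refine Gain_bad G M A hF2 hAM f hf hsurj _ ?_
    intro y hy
    have h4 := (Finset.mem_filter.mp hy).2
    by_contra hcon
    refine h4 ?_
    intro u hu
    by_contra h5
    exact hcon ⟨u, hu, not_lt.mp h5⟩
  generalize hN4' : (Finset.univ.filter (fun v => (G.mp f).dg A v = 4 ∧
      ¬ ∃ e ∈ A, (G.mp f).s e = v ∧ (G.mp f).t e = v)).card = N4 at hN4 hcount
  generalize hE6' : (Exc.filter (fun y => ∀ u, f u = y → 4 < (G.ce (Finset.univ \ M) u).card)).card = E6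
    at hE6 h63
  generalize hq : ((Finset.univ.image (G.ce (Finset.univ \ M))).filter (fun C => C.card ≤ 4)).card = q
    at hN4 hE6
  have hcases : A.card ≤ 9 * E6 ∨ A.card ≤ 3843 * (((G.mp f).Bk A x (1, 0)).card
      + ((G.mp f).Bk A x (0, 1)).card + ((G.mp f).Bk A x (1, 1)).card) ∨ A.card ≤ 2142 * q := by
    omega
  rcases hcases with h1 | h2 | h3'
  · -- six
    have hcov := costB G w M hFev x6 hx6 (nz_M G M A hMA x6 hx6 hx6A) 𝓜6
      (fun C hC => by
        obtain ⟨u, _, rfl⟩ := Finset.mem_image.mp (h61 hC)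
        exact hce2 u)
      (fun C hC => by
        obtain ⟨u, _, rfl⟩ := Finset.mem_image.mp (h61 hC)
        exact hce1 u)
      (fun C hC C' hC' hne => by
        obtain ⟨u, _, rfl⟩ := Finset.mem_image.mp (h61 hC)
        obtain ⟨u', _, rfl⟩ := Finset.mem_image.mp (h61 hC')
        exact hce3 u u' hne)
      (fun C hC => (h62 C hC).2)
    refine Cov_mono G w _ _ ?_ hcov
    have hwt := Gain_wt w hw 𝓜6 6 (fun C hC => le_of_eq (h62 C hC).1.symm)
    have h63' : (E6 : ℚ) ≤ 6 * (𝓜6.card : ℚ) := by exact_mod_cast h63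
    have h1' : (A.card : ℚ) ≤ 9 * (E6 : ℚ) := by exact_mod_cast h1
    have h0 : (0 : ℚ) ≤ (A.card : ℚ) := Nat.cast_nonneg _
    push_cast at hwt
    linarith
  · -- excess
    have hk : ∃ k : K4, k ≠ 0 ∧ A.card ≤ 11529 * ((G.mp f).Bk A x k).card := by
      by_contra hcon
      have ha : ¬ A.card ≤ 11529 * ((G.mp f).Bk A x (1, 0)).card := fun h => hcon ⟨(1, 0), by decide, h⟩
      have hb1 : ¬ A.card ≤ 11529 * ((G.mp f).Bk A x (0, 1)).card := fun h => hcon ⟨(0, 1), by decide, h⟩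
      have hc1 : ¬ A.card ≤ 11529 * ((G.mp f).Bk A x (1, 1)).card := fun h => hcon ⟨(1, 1), by decide, h⟩
      omega
    obtain ⟨k, hk0, hkN⟩ := hk
    obtain ⟨w', hw'1, hw'2⟩ := class_weight G M A hAM hMA hA w hw
    obtain ⟨x1, hx1, hx1A, i, j, hi, hj, hij, himp⟩ := improve (G.mp f) A x hHx hxA hout w' k hk0
    obtain ⟨x2, hx2, hx2e⟩ := Fl_lift G (Finset.univ \ A) f hf x1 hx1
    have hx2A : ∀ e ∈ A, x2 e = x1 e := by
      intro e he
      exact hx2e e (fun h => (Finset.mem_sdiff.mp h).2 he)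
    have hx2nz : ∀ e ∈ A, x2 e ≠ 0 := by
      intro e he
      rw [hx2A e he]
      exact hx1A e he
    have hcov := costC G w M hFev x2 hx2 (nz_M G M A hMA x2 hx2 hx2nz) i j hi hj hij
    refine Cov_mono G w _ _ ?_ hcov
    have hfil : ∀ l : K4, A.filter (fun e => x2 e = l) = A.filter (fun e => x1 e = l) := by
      intro l
      refine Finset.filter_congr ?_
      intro e he
      rw [hx2A e he]
    have hwi := hw'2 x2 hx2 i
    have hwj := hw'2 x2 hx2 j
    rw [hfil] at hwi hwj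
    have hBw : ((G.mp f).Bk A x k).card ≤ ∑ e ∈ (G.mp f).Bk A x k, w' e := by
      have h5 : ∑ e ∈ (G.mp f).Bk A x k, 1 ≤ ∑ e ∈ (G.mp f).Bk A x k, w' e :=
        Finset.sum_le_sum (fun e _ => hw'1 e)
      simpa using h5
    have himp2 : ((G.mp f).Bk A x k).card + 3 * (∑ e ∈ M.filter (fun e => x2 e = i), w e)
        ≤ 3 * ∑ e ∈ M.filter (fun e => x2 e = j), w e := by
      rw [hwi, hwj]
      omega
    have himp3 : (((G.mp f).Bk A x k).card : ℚ) + 3 * (∑ e ∈ M.filter (fun e => x2 e = i), (w e : ℚ))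
        ≤ 3 * ∑ e ∈ M.filter (fun e => x2 e = j), (w e : ℚ) := by exact_mod_cast himp2
    have hkN' : (A.card : ℚ) ≤ 11529 * (((G.mp f).Bk A x k).card : ℚ) := by exact_mod_cast hkN
    have h0 : (0 : ℚ) ≤ (A.card : ℚ) := Nat.cast_nonneg _
    linarith
  · -- small circuits
    obtain ⟨x', hx', hnz', hcard⟩ := small_improve G M hF2 hl x hx hxM
    have hex : ∃ 𝓜 : Finset (Finset E), (∀ C ∈ 𝓜, ∃ u, G.ce (Finset.univ \ M) u = C) ∧ (∀ C ∈ 𝓜, Ms x' C) ∧
        q ≤ 12 * 𝓜.card := by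
      rw [← hq]
      refine ⟨_, ?_, ?_, hcard⟩
      · intro C hC
        obtain ⟨u, _, hu⟩ := Finset.mem_image.mp (Finset.mem_filter.mp hC).1
        exact ⟨u, hu⟩
      · intro C hC
        exact (Finset.mem_filter.mp hC).2.2
    obtain ⟨𝓜, hm1, hm2, hm3⟩ := hex
    have hcov := costB G w M hFev x' hx' hnz' 𝓜
      (fun C hC => by
        obtain ⟨u, rfl⟩ := hm1 C hC
        exact hce2 u)
      (fun C hC => by
        obtain ⟨u, rfl⟩ := hm1 C hC
        exact hce1 u)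
      (fun C hC C' hC' hne => by
        obtain ⟨u, rfl⟩ := hm1 C hC
        obtain ⟨u', rfl⟩ := hm1 C' hC'
        exact hce3 u u' hne)
      hm2
    refine Cov_mono G w _ _ ?_ hcov
    have hwt := Gain_wt w hw 𝓜 2 (fun C hC => by
      obtain ⟨u, rfl⟩ := hm1 C hC
      obtain ⟨v, g, hcirc⟩ := circuit G (Finset.univ \ M) hF2 (fun e _ => hl e) u
      exact hcirc.2.2.2.2.2.2.2.2.2)
    have hm3' : (q : ℚ) ≤ 12 * (𝓜.card : ℚ) := by exact_mod_cast hm3
    have h3'' : (A.card : ℚ) ≤ 2142 * (q : ℚ) := by exact_mod_cast h3'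
    have h0 : (0 : ℚ) ≤ (A.card : ℚ) := Nat.cast_nonneg _
    push_cast at hwt
    linarith

end MG

end Pool.Agent.Lib.MP_95e9b3_coC
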