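import Pool.Agent.Lib.MP_95e9b3_coC.Basic

/-!
# JOB Split: splitting off two edges at a vertex of degree at least four without creating a bridge

`spl G v e f`: the ends at `v` of `e` and `f` are moved to a new vertex `none`.

STEP 0. Let `G` be loopless and without bridges, `e ≠ f` at `v`, and let `(spl G v e f).Br0` fail. Then
there is `X : Finset V`, `v ∉ X`, `e, f ∈ cut X`, `(cut X).card = 3`. Proof: let
`((spl G v e f).cut U').card = 1`, `X' = {u | some u ∈ U'}`. If `none` and `some v` are both in `U'` or both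
not in `U'`, the cut is `cut X'`, contradiction. Otherwise, replacing `U'` by its complement
(`cut_compl`), `none ∈ U'`, `some v ∉ U'`. An edge `g ≠ e, f` is in the cut iff `g ∈ cut X'`; `e` is in
the cut iff its other end is not in `X'`, i.e. iff `e ∉ cut X'`; the same for `f`. So
`(cut X').card` is `3` if `e, f ∈ cut X'`, `1` if exactly one of them is, and `-1` if none is.

STEP 1. Suppose for every `f ≠ e0` at `v` the split at `e0, f` has a bridge; let `X f` be as in STEP 0,
`cut (X f) = {e0, f, g f}`. CLAIM: there is `Y`, `v ∉ Y`, `(cut Y).card = 3`, `e0 ∈ cut Y`, and all three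
edges of `cut Y` have an end at `v`. Let `f1 ≠ e0` be at `v`. If `g f1` is at `v` take `Y = X f1`. If not,
choose `f2 ≠ e0, f1` at `v`. If `g f2` is at `v` take `Y = X f2`. Otherwise let `X1 = X f1`,
`X2 = X f2`, `P = X1 ∩ X2`, `Q1 = X1 \ X2`, `Q2 = X2 \ X1`, `O` = the rest without `v`. `f2 ∉ cut X1`,
`f1 ∉ cut X2`. `e0` joins `v, P`; `f1` joins `v, Q1`; `f2` joins `v, Q2`; `g1 = g f1`, `g2 = g f2` are not
at `v`. An edge `P - Q1` is in `cut X2` so it is `g2`; `P - Q2`: it is `g1`; `Q1 - Q2` and `P - O`: it is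
`g1` and `g2`; `Q1 - O`: `g1`; `Q2 - O`: `g2`; at `v` and in `X1 ∪ X2`: `e0, f1, f2` only.
As `(cut P).card ≠ 1`, one of `P - O`, `P - Q1`, `P - Q2` has an edge. If `g1 = g2` joins `P - O` then
`cut Q1 = {f1}`, contradiction. If `g2` joins `P - Q1` then `cut Q2 ⊆ {f2, g1}` and it contains `g1`
only if `g1` joins `P - Q2`; so `g1` joins `P - Q2`. Symmetrically, if `g1` joins `P - Q2` then `g2`
joins `P - Q1`. So both hold, and `Y = X1 ∪ X2` has `cut Y = {e0, f1, f2}`.

STEP 2. `v` has an edge `f3 ∉ cut Y` (at least four edges at `v`). Let `X = X f3`,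
`cut X = {e0, f3, g}`. Let `Q = X \ Y`. The other end of `f3` is in `Q`, the other end of `e0` is in
`X ∩ Y`. There is no edge between `Y` and `Yᶜ \ {v}`. So `cut Q ⊆ {f3, g}`, `f3 ∈ cut Q`;
`cut (X ∩ Y) ⊆ {e0, g}`, `e0 ∈ cut (X ∩ Y)` (an edge between `X ∩ Y` and `Y \ X` or `v` is in `cut X`;
`f3` has no end in `Y`). If `g` were in both, it would join `Q` and `X ∩ Y`, so not be in `cut X`. So
one of the two cuts has exactly one edge. Contradiction.
-/

set_option autoImplicit false

namespace Pool.Agent.Lib.MP_95e9b3_coC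

open Finset
open scoped symmDiff

namespace MG

variable {V W E : Type} [Fintype V] [DecidableEq V] [Fintype W] [DecidableEq W]
  [Fintype E] [DecidableEq E]

/-- splitting off `e` and `f` at `v` -/
def spl (G : MG V E) (v : V) (e f : E) : MG (Option V) E :=
  ⟨fun g => if (g = e ∨ g = f) ∧ G.s g = v then none else some (G.s g),
   fun g => if (g = e ∨ g = f) ∧ G.t g = v then none else some (G.t g)⟩

private theorem Split_L1 (G : MG V E) (A B : Finset V) :
    (G.cut A).card + (G.cut B).card = (G.cut (A \ B)).card + (G.cut (B \ A)).card +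
      2 * (Finset.univ.filter (fun e => (G.s e ∈ A ∧ G.s e ∈ B ∧ G.t e ∉ A ∧ G.t e ∉ B) ∨
        (G.t e ∈ A ∧ G.t e ∈ B ∧ G.s e ∉ A ∧ G.s e ∉ B))).card := by
  simp only [cut, Finset.card_filter, Finset.mul_sum, ← Finset.sum_add_distrib]
  refine Finset.sum_congr rfl ?_
  intro e _
  by_cases h1 : G.s e ∈ A <;> by_cases h2 : G.s e ∈ B <;> by_cases h3 : G.t e ∈ A <;>
    by_cases h4 : G.t e ∈ B <;> simp [h1, h2, h3, h4, Finset.mem_sdiff]

private theorem Split_L2 (G : MG V E) (A B : Finset V) :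
    (G.cut A).card + (G.cut B).card = (G.cut (A ∩ B)).card + (G.cut (A ∪ B)).card +
      2 * (Finset.univ.filter (fun e => (G.s e ∈ A ∧ G.s e ∉ B ∧ G.t e ∉ A ∧ G.t e ∈ B) ∨
        (G.t e ∈ A ∧ G.t e ∉ B ∧ G.s e ∉ A ∧ G.s e ∈ B))).card := by
  simp only [cut, Finset.card_filter, Finset.mul_sum, ← Finset.sum_add_distrib]
  refine Finset.sum_congr rfl ?_
  intro e _
  by_cases h1 : G.s e ∈ A <;> by_cases h2 : G.s e ∈ B <;> by_cases h3 : G.t e ∈ A <;>
    by_cases h4 : G.t e ∈ B <;> simp [h1, h2, h3, h4, Finset.mem_inter, Finset.mem_union]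

private theorem Split_L3 (G : MG V E) (A B : Finset V) :
    (G.cut (A ∩ B)).card + (G.cut (A \ B)).card = (G.cut A).card +
      2 * (Finset.univ.filter (fun e => (G.s e ∈ A ∧ G.s e ∈ B ∧ G.t e ∈ A ∧ G.t e ∉ B) ∨
        (G.t e ∈ A ∧ G.t e ∈ B ∧ G.s e ∈ A ∧ G.s e ∉ B))).card := by
  simp only [cut, Finset.card_filter, Finset.mul_sum, ← Finset.sum_add_distrib]
  refine Finset.sum_congr rfl ?_
  intro e _
  by_cases h1 : G.s e ∈ A <;> by_cases h2 : G.s e ∈ B <;> by_cases h3 : G.t e ∈ A <;>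
    by_cases h4 : G.t e ∈ B <;> simp [h1, h2, h3, h4, Finset.mem_inter, Finset.mem_sdiff]

/-- an edge at `v ∉ X` is in the cut of `X` iff one of its ends is in `X` -/
private theorem Split_at (G : MG V E) (v : V) (g : E) (hg : G.inc g v ≠ 0) (X : Finset V)
    (hv : v ∉ X) : g ∈ G.cut X ↔ (G.s g ∈ X ∨ G.t g ∈ X) := by
  rw [mem_cut]
  have h1 : G.s g = v ∨ G.t g = v := by
    by_contra hcon
    refine hg ?_
    have ha : G.s g ≠ v := fun h => hcon (Or.inl h)
    have hb : G.t g ≠ v := fun h => hcon (Or.inr h)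
    simp [inc, ha, hb]
  rcases h1 with h | h
  · rw [h]
    constructor
    · intro h2
      right
      by_contra h3
      exact h2 ⟨fun h4 => absurd h4 hv, fun h4 => absurd h4 h3⟩
    · intro h2 h3
      rcases h2 with h2 | h2
      · exact hv h2
      · exact hv (h3.mpr h2)
  · rw [h]
    constructor
    · intro h2
      left
      by_contra h3
      exact h2 ⟨fun h4 => absurd h4 h3, fun h4 => absurd h4 hv⟩
    · intro h2 h3
      rcases h2 with h2 | h2
      · exact hv (h3.mp h2)
      · exact hv h2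

/-- at `v` the cuts of unions, intersections and differences are computed pointwise -/
private theorem Split_union (G : MG V E) (v : V) (g : E) (hg : G.inc g v ≠ 0) (X Y : Finset V)
    (hX : v ∉ X) (hY : v ∉ Y) : g ∈ G.cut (X ∪ Y) ↔ (g ∈ G.cut X ∨ g ∈ G.cut Y) := by
  have hXY : v ∉ X ∪ Y := by
    rw [Finset.mem_union]
    exact fun h => h.elim hX hY
  rw [Split_at G v g hg X hX, Split_at G v g hg Y hY, Split_at G v g hg (X ∪ Y) hXY]
  simp only [Finset.mem_union]
  tauto

private theorem Split_inter (G : MG V E) (v : V) (g : E) (hg : G.inc g v ≠ 0) (X Y : Finset V)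
    (hX : v ∉ X) (hY : v ∉ Y) : g ∈ G.cut (X ∩ Y) ↔ (g ∈ G.cut X ∧ g ∈ G.cut Y) := by
  have hXY : v ∉ X ∩ Y := by
    rw [Finset.mem_inter]
    exact fun h => hX h.1
  have h1 : G.s g = v ∨ G.t g = v := by
    by_contra hcon
    refine hg ?_
    have ha : G.s g ≠ v := fun h => hcon (Or.inl h)
    have hb : G.t g ≠ v := fun h => hcon (Or.inr h)
    simp [inc, ha, hb]
  rw [Split_at G v g hg X hX, Split_at G v g hg Y hY, Split_at G v g hg (X ∩ Y) hXY]
  simp only [Finset.mem_inter]
  rcases h1 with h | h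
  · rw [h]
    tauto
  · rw [h]
    tauto

private theorem Split_sdiff (G : MG V E) (v : V) (g : E) (hg : G.inc g v ≠ 0) (X Y : Finset V)
    (hX : v ∉ X) (hY : v ∉ Y) : g ∈ G.cut (X \ Y) ↔ (g ∈ G.cut X ∧ g ∉ G.cut Y) := by
  have hXY : v ∉ X \ Y := by
    rw [Finset.mem_sdiff]
    exact fun h => hX h.1
  have h1 : G.s g = v ∨ G.t g = v := by
    by_contra hcon
    refine hg ?_
    have ha : G.s g ≠ v := fun h => hcon (Or.inl h)
    have hb : G.t g ≠ v := fun h => hcon (Or.inr h)
    simp [inc, ha, hb]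
  rw [Split_at G v g hg X hX, Split_at G v g hg Y hY, Split_at G v g hg (X \ Y) hXY]
  simp only [Finset.mem_sdiff]
  rcases h1 with h | h
  · rw [h]
    tauto
  · rw [h]
    tauto

/-- the union of two crossing sets with three edges in the cut -/
private theorem Split_join (G : MG V E) (hb : G.Br0) (v : V) (e0 f1 f2 : E)
    (he0 : G.inc e0 v ≠ 0) (hf1 : G.inc f1 v ≠ 0) (hf2 : G.inc f2 v ≠ 0) (X Y : Finset V)
    (hX : v ∉ X) (hY : v ∉ Y) (h3X : (G.cut X).card = 3) (h3Y : (G.cut Y).card = 3)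
    (heX : e0 ∈ G.cut X) (heY : e0 ∈ G.cut Y) (h1X : f1 ∈ G.cut X) (h1Y : f1 ∉ G.cut Y)
    (h2X : f2 ∉ G.cut X) (h2Y : f2 ∈ G.cut Y) : (G.cut (X ∪ Y)).card ≤ 3 := by
  have hL1 := Split_L1 G X Y
  have hL2 := Split_L2 G X Y
  have hL3 := Split_L3 G X Y
  have hQ1 : f1 ∈ G.cut (X \ Y) := (Split_sdiff G v f1 hf1 X Y hX hY).mpr ⟨h1X, h1Y⟩
  have hQ2 : f2 ∈ G.cut (Y \ X) := (Split_sdiff G v f2 hf2 Y X hY hX).mpr ⟨h2Y, h2X⟩
  have hP : e0 ∈ G.cut (X ∩ Y) := (Split_inter G v e0 he0 X Y hX hY).mpr ⟨heX, heY⟩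
  have cQ1 : 0 < (G.cut (X \ Y)).card := Finset.card_pos.mpr ⟨_, hQ1⟩
  have cQ2 : 0 < (G.cut (Y \ X)).card := Finset.card_pos.mpr ⟨_, hQ2⟩
  have cP : 0 < (G.cut (X ∩ Y)).card := Finset.card_pos.mpr ⟨_, hP⟩
  have nQ1 := hb (X \ Y)
  have nQ2 := hb (Y \ X)
  have nP := hb (X ∩ Y)
  have hmid : 0 < (Finset.univ.filter (fun e => (G.s e ∈ X ∧ G.s e ∈ Y ∧ G.t e ∉ X ∧ G.t e ∉ Y) ∨
        (G.t e ∈ X ∧ G.t e ∈ Y ∧ G.s e ∉ X ∧ G.s e ∉ Y))).card := by
    refine Finset.card_pos.mpr ⟨e0, Finset.mem_filter.mpr ⟨Finset.mem_univ _, ?_⟩⟩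
    have h1 : G.s e0 = v ∨ G.t e0 = v := by
      by_contra hcon
      refine he0 ?_
      have ha : G.s e0 ≠ v := fun h => hcon (Or.inl h)
      have hb' : G.t e0 ≠ v := fun h => hcon (Or.inr h)
      simp [inc, ha, hb']
    have hx := (Split_at G v e0 he0 X hX).mp heX
    have hy := (Split_at G v e0 he0 Y hY).mp heY
    rcases h1 with h | h
    · rw [h] at hx hy ⊢
      right
      exact ⟨hx.resolve_left hX, hy.resolve_left hY, hX, hY⟩
    · rw [h] at hx hy ⊢
      left
      exact ⟨hx.resolve_right hX, hy.resolve_right hY, hX, hY⟩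
  omega

/-- STEP 0 -/
private theorem Split_card (S T : Finset E) (e f : E) (hef : f ≠ e)
    (h : ∀ g, g ≠ e → g ≠ f → (g ∈ S ↔ g ∈ T)) (he : e ∈ S ↔ e ∉ T) (hf : f ∈ S ↔ f ∉ T)
    (hS : S.card = 1) (hT : T.card ≠ 1) : e ∈ T ∧ f ∈ T ∧ T.card = 3 := by
  have key : ∀ R : Finset E, ((R.erase e).erase f).card + (if e ∈ R then 1 else 0)
      + (if f ∈ R then 1 else 0) = R.card := by
    intro R
    by_cases h1 : e ∈ R
    · by_cases h2 : f ∈ R
      · have h3 : f ∈ R.erase e := Finset.mem_erase.mpr ⟨hef, h2⟩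
        have h4 := Finset.card_erase_add_one h3
        have h5 := Finset.card_erase_add_one h1
        rw [if_pos h1, if_pos h2]
        omega
      · have h3 : f ∉ R.erase e := fun h => h2 (Finset.mem_of_mem_erase h)
        have h5 := Finset.card_erase_add_one h1
        rw [if_pos h1, if_neg h2, Finset.erase_eq_of_notMem h3]
        omega
    · by_cases h2 : f ∈ R
      · have h3 : f ∈ R.erase e := Finset.mem_erase.mpr ⟨hef, h2⟩
        have h4 := Finset.card_erase_add_one h3
        rw [if_neg h1, if_pos h2, Finset.erase_eq_of_notMem h1]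
        rw [Finset.erase_eq_of_notMem h1] at h4
        omega
      · rw [if_neg h1, if_neg h2, Finset.erase_eq_of_notMem h1, Finset.erase_eq_of_notMem h2]
        omega
  have hST : (S.erase e).erase f = (T.erase e).erase f := by
    ext g
    simp only [Finset.mem_erase]
    constructor
    · rintro ⟨h1, h2, h3⟩
      exact ⟨h1, h2, (h g h2 h1).mp h3⟩
    · rintro ⟨h1, h2, h3⟩
      exact ⟨h1, h2, (h g h2 h1).mpr h3⟩
  have k1 := key S
  have k2 := key T
  rw [hST] at k1
  by_cases h1 : e ∈ T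
  · have h1' : e ∉ S := fun h' => he.mp h' h1
    by_cases h2 : f ∈ T
    · have h2' : f ∉ S := fun h' => hf.mp h' h2
      rw [if_neg h1', if_neg h2'] at k1
      rw [if_pos h1, if_pos h2] at k2
      exact ⟨h1, h2, by omega⟩
    · have h2' : f ∈ S := hf.mpr h2
      rw [if_neg h1', if_pos h2'] at k1
      rw [if_pos h1, if_neg h2] at k2
      exact absurd (by omega : T.card = 1) hT
  · have h1' : e ∈ S := he.mpr h1
    by_cases h2 : f ∈ T
    · have h2' : f ∉ S := fun h' => hf.mp h' h2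
      rw [if_pos h1', if_neg h2'] at k1
      rw [if_neg h1, if_pos h2] at k2
      exact absurd (by omega : T.card = 1) hT
    · have h2' : f ∈ S := hf.mpr h2
      rw [if_pos h1', if_pos h2'] at k1
      omega

private theorem Split_step0 (G : MG V E) (hb : G.Br0) (hl : ∀ e, G.s e ≠ G.t e) (v : V) (e f : E)
    (hef : f ≠ e) (he : G.inc e v ≠ 0) (hf : G.inc f v ≠ 0) (hn : ¬ (G.spl v e f).Br0) :
    ∃ X : Finset V, v ∉ X ∧ e ∈ G.cut X ∧ f ∈ G.cut X ∧ (G.cut X).card = 3 := by
  have hn' : ∃ U, ((G.spl v e f).cut U).card = 1 := by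
    by_contra hcon
    exact hn (fun U hU => hcon ⟨U, hU⟩)
  -- the two sides
  have main : ∀ U : Finset (Option V), ((G.spl v e f).cut U).card = 1 → none ∈ U → some v ∉ U →
      ∃ X : Finset V, v ∉ X ∧ e ∈ G.cut X ∧ f ∈ G.cut X ∧ (G.cut X).card = 3 := by
    intro U hU hnone hsome
    have hX : v ∉ Finset.univ.filter (fun u => some u ∈ U) := by
      intro h
      exact hsome (Finset.mem_filter.mp h).2
    have hother : ∀ g, g ≠ e → g ≠ f → (g ∈ (G.spl v e f).cut U ↔
        g ∈ G.cut (Finset.univ.filter (fun u => some u ∈ U))) := by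
      intro g h1 h2
      rw [mem_cut, mem_cut]
      have h3 : ¬ (g = e ∨ g = f) := fun h => h.elim h1 h2
      simp [spl, h3]
    have hat : ∀ g, (g = e ∨ g = f) → G.inc g v ≠ 0 → (g ∈ (G.spl v e f).cut U ↔
        g ∉ G.cut (Finset.univ.filter (fun u => some u ∈ U))) := by
      intro g h1 h2
      have h4 : G.s g = v ∨ G.t g = v := by
        by_contra hcon
        refine h2 ?_
        have ha : G.s g ≠ v := fun h => hcon (Or.inl h)
        have hb' : G.t g ≠ v := fun h => hcon (Or.inr h)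
        simp [inc, ha, hb']
      rw [mem_cut, mem_cut]
      rcases h4 with h | h
      · have h5 : G.t g ≠ v := fun h' => hl g (h.trans h'.symm)
        have hs : (G.spl v e f).s g = none := by
          show (if (g = e ∨ g = f) ∧ G.s g = v then none else some (G.s g)) = none
          rw [if_pos ⟨h1, h⟩]
        have ht : (G.spl v e f).t g = some (G.t g) := by
          show (if (g = e ∨ g = f) ∧ G.t g = v then none else some (G.t g)) = some (G.t g)
          rw [if_neg (fun h' => h5 h'.2)]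
        rw [hs, ht, h]
        have h6 : G.t g ∈ Finset.univ.filter (fun u => some u ∈ U) ↔ some (G.t g) ∈ U := by
          simp
        rw [h6]
        have h7 : v ∈ Finset.univ.filter (fun u => some u ∈ U) ↔ False := ⟨hX, False.elim⟩
        rw [h7]
        tauto
      · have h5 : G.s g ≠ v := fun h' => hl g (h'.trans h.symm)
        have ht : (G.spl v e f).t g = none := by
          show (if (g = e ∨ g = f) ∧ G.t g = v then none else some (G.t g)) = none
          rw [if_pos ⟨h1, h⟩]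
        have hs : (G.spl v e f).s g = some (G.s g) := by
          show (if (g = e ∨ g = f) ∧ G.s g = v then none else some (G.s g)) = some (G.s g)
          rw [if_neg (fun h' => h5 h'.2)]
        rw [hs, ht, h]
        have h6 : G.s g ∈ Finset.univ.filter (fun u => some u ∈ U) ↔ some (G.s g) ∈ U := by
          simp
        rw [h6]
        have h7 : v ∈ Finset.univ.filter (fun u => some u ∈ U) ↔ False := ⟨hX, False.elim⟩
        rw [h7]
        tauto
    obtain ⟨r1, r2, r3⟩ := Split_card ((G.spl v e f).cut U)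
      (G.cut (Finset.univ.filter (fun u => some u ∈ U))) e f hef hother
      (hat e (Or.inl rfl) he) (hat f (Or.inr rfl) hf) hU (hb _)
    exact ⟨_, hX, r1, r2, r3⟩
  obtain ⟨U, hU⟩ := hn'
  by_cases h1 : none ∈ U
  · by_cases h2 : some v ∈ U
    · exfalso
      refine hb (Finset.univ.filter (fun u => some u ∈ U)) ?_
      rw [← hU]
      refine congrArg Finset.card ?_
      ext g
      rw [mem_cut, mem_cut]
      have hs : (G.spl v e f).s g ∈ U ↔ G.s g ∈ Finset.univ.filter (fun u => some u ∈ U) := by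
        show (if (g = e ∨ g = f) ∧ G.s g = v then none else some (G.s g)) ∈ U ↔ _
        by_cases h3 : (g = e ∨ g = f) ∧ G.s g = v
        · rw [if_pos h3, h3.2]
          simp [h1, h2]
        · rw [if_neg h3]
          simp
      have ht : (G.spl v e f).t g ∈ U ↔ G.t g ∈ Finset.univ.filter (fun u => some u ∈ U) := by
        show (if (g = e ∨ g = f) ∧ G.t g = v then none else some (G.t g)) ∈ U ↔ _
        by_cases h3 : (g = e ∨ g = f) ∧ G.t g = v
        · rw [if_pos h3, h3.2]
          simp [h1, h2]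
        · rw [if_neg h3]
          simp
      rw [hs, ht]
    · exact main U hU h1 h2
  · by_cases h2 : some v ∈ U
    · refine main Uᶜ ?_ (Finset.mem_compl.mpr h1) (fun h => (Finset.mem_compl.mp h) h2)
      rw [cut_compl]
      exact hU
    · exfalso
      refine hb (Finset.univ.filter (fun u => some u ∈ U)) ?_
      rw [← hU]
      refine congrArg Finset.card ?_
      ext g
      rw [mem_cut, mem_cut]
      have hs : (G.spl v e f).s g ∈ U ↔ G.s g ∈ Finset.univ.filter (fun u => some u ∈ U) := by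
        show (if (g = e ∨ g = f) ∧ G.s g = v then none else some (G.s g)) ∈ U ↔ _
        by_cases h3 : (g = e ∨ g = f) ∧ G.s g = v
        · rw [if_pos h3, h3.2]
          simp [h1, h2]
        · rw [if_neg h3]
          simp
      have ht : (G.spl v e f).t g ∈ U ↔ G.t g ∈ Finset.univ.filter (fun u => some u ∈ U) := by
        show (if (g = e ∨ g = f) ∧ G.t g = v then none else some (G.t g)) ∈ U ↔ _
        by_cases h3 : (g = e ∨ g = f) ∧ G.t g = v
        · rw [if_pos h3, h3.2]
          simp [h1, h2]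
        · rw [if_neg h3]
          simp
      rw [hs, ht]

/-- in a loopless graph `inc` is at most one -/
private theorem Split_inc (G : MG V E) (hl : ∀ e, G.s e ≠ G.t e) (v : V) (g : E) :
    G.inc g v = if G.inc g v ≠ 0 then 1 else 0 := by
  have h1 := hl g
  unfold inc
  by_cases h2 : G.s g = v
  · have h3 : G.t g ≠ v := fun h => h1 (h2.trans h.symm)
    simp [h2, h3]
  · by_cases h3 : G.t g = v
    · simp [h2, h3]
    · simp [h2, h3]

theorem split_exists (G : MG V E) (hb : G.Br0) (hl : ∀ e, G.s e ≠ G.t e) (v : V)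
    (hv : 4 ≤ G.dg Finset.univ v) (e0 : E) (he0 : G.inc e0 v ≠ 0) :
    ∃ f, f ≠ e0 ∧ G.inc f v ≠ 0 ∧ (G.spl v e0 f).Br0 := by
  by_contra hcon
  have hX : ∀ f, f ≠ e0 → G.inc f v ≠ 0 → ∃ X : Finset V, v ∉ X ∧ e0 ∈ G.cut X ∧ f ∈ G.cut X ∧
      (G.cut X).card = 3 := by
    intro f h1 h2
    refine Split_step0 G hb hl v e0 f h1 he0 h2 ?_
    intro h3
    exact hcon ⟨f, h1, h2, h3⟩
  have hI : 4 ≤ (Finset.univ.filter (fun g => G.inc g v ≠ 0)).card := by
    refine le_trans hv (le_of_eq ?_)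
    rw [Finset.card_filter]
    unfold dg
    exact Finset.sum_congr rfl (fun g _ => Split_inc G hl v g)
  have hex : ∀ S : Finset E, S.card ≤ 3 → ∃ g, G.inc g v ≠ 0 ∧ g ∉ S := by
    intro S hS
    obtain ⟨g, hg, hgS⟩ := Finset.exists_mem_notMem_of_card_lt_card
      (lt_of_le_of_lt hS (Nat.lt_of_succ_le hI))
    exact ⟨g, (Finset.mem_filter.mp hg).2, hgS⟩
  obtain ⟨f1, hf1, hf1e⟩ := hex {e0} (by simp)
  have hf1e' : f1 ≠ e0 := fun h => hf1e (Finset.mem_singleton.mpr h)
  obtain ⟨X1, hvX1, heX1, hfX1, h3X1⟩ := hX f1 hf1e' hf1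
  obtain ⟨f2, hf2, hf2X⟩ := hex (G.cut X1) (le_of_eq h3X1)
  have hf2e : f2 ≠ e0 := fun h => hf2X (h ▸ heX1)
  have hf21 : f2 ≠ f1 := fun h => hf2X (h ▸ hfX1)
  obtain ⟨X2, hvX2, heX2, hfX2, h3X2⟩ := hX f2 hf2e hf2
  have three : ∀ T : Finset E, e0 ∈ T → f1 ∈ T → f2 ∈ T → 3 ≤ T.card := by
    intro T h1 h2 h3
    have h4 : ({e0, f1, f2} : Finset E) ⊆ T := by
      intro g hg
      simp only [Finset.mem_insert, Finset.mem_singleton] at hg
      rcases hg with rfl | rfl | rfl
      · exact h1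
      · exact h2
      · exact h3
    have h5 := Finset.card_le_card h4
    have h6 : ({e0, f1, f2} : Finset E).card = 3 := by
      rw [Finset.card_eq_three]
      exact ⟨e0, f1, f2, hf1e'.symm, hf2e.symm, hf21.symm, rfl⟩
    omega
  have hY : ∃ Y : Finset V, v ∉ Y ∧ (G.cut Y).card = 3 ∧ e0 ∈ G.cut Y ∧ f1 ∈ G.cut Y ∧ f2 ∈ G.cut Y := by
    by_cases h1 : f1 ∈ G.cut X2
    · exact ⟨X2, hvX2, h3X2, heX2, h1, hfX2⟩
    · have hj := Split_join G hb v e0 f1 f2 he0 hf1 hf2 X1 X2 hvX1 hvX2 h3X1 h3X2 heX1 heX2 hfX1 h1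
        hf2X hfX2
      have hv' : v ∉ X1 ∪ X2 := by
        rw [Finset.mem_union]
        exact fun h => h.elim hvX1 hvX2
      have a1 : e0 ∈ G.cut (X1 ∪ X2) := (Split_union G v e0 he0 X1 X2 hvX1 hvX2).mpr (Or.inl heX1)
      have a2 : f1 ∈ G.cut (X1 ∪ X2) := (Split_union G v f1 hf1 X1 X2 hvX1 hvX2).mpr (Or.inl hfX1)
      have a3 : f2 ∈ G.cut (X1 ∪ X2) := (Split_union G v f2 hf2 X1 X2 hvX1 hvX2).mpr (Or.inr hfX2)
      exact ⟨X1 ∪ X2, hv', le_antisymm hj (three _ a1 a2 a3), a1, a2, a3⟩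
  obtain ⟨Y, hvY, h3Y, heY, h1Y, h2Y⟩ := hY
  obtain ⟨f3, hf3, hf3Y⟩ := hex (G.cut Y) (le_of_eq h3Y)
  have hf3e : f3 ≠ e0 := fun h => hf3Y (h ▸ heY)
  have hf31 : f3 ≠ f1 := fun h => hf3Y (h ▸ h1Y)
  have hf32 : f3 ≠ f2 := fun h => hf3Y (h ▸ h2Y)
  obtain ⟨X, hvX, heX, hfX, h3X⟩ := hX f3 hf3e hf3
  have four : ∀ T : Finset E, e0 ∈ T → f1 ∈ T → f2 ∈ T → f3 ∈ T → 4 ≤ T.card := by
    intro T h1 h2 h3 h4
    have h5 := three (T.erase f3) (Finset.mem_erase.mpr ⟨hf3e.symm, h1⟩)
      (Finset.mem_erase.mpr ⟨hf31.symm, h2⟩) (Finset.mem_erase.mpr ⟨hf32.symm, h3⟩)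
    have h6 := Finset.card_erase_add_one h4
    omega
  have fin : (G.cut (X ∪ Y)).card ≤ 3 := by
    by_cases h1 : f1 ∈ G.cut X
    · by_cases h2 : f2 ∈ G.cut X
      · have := four _ heX h1 h2 hfX
        omega
      · exact Split_join G hb v e0 f3 f2 he0 hf3 hf2 X Y hvX hvY h3X h3Y heX heY hfX hf3Y h2 h2Y
    · exact Split_join G hb v e0 f3 f1 he0 hf3 hf1 X Y hvX hvY h3X h3Y heX heY hfX hf3Y h1 h1Y
  have h4 := four (G.cut (X ∪ Y)) ((Split_union G v e0 he0 X Y hvX hvY).mpr (Or.inl heX))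
    ((Split_union G v f1 hf1 X Y hvX hvY).mpr (Or.inr h1Y))
    ((Split_union G v f2 hf2 X Y hvX hvY).mpr (Or.inr h2Y))
    ((Split_union G v f3 hf3 X Y hvX hvY).mpr (Or.inl hfX))
  omega

/-- even sets of the split graph are even in the graph -/
theorem Ev_of_spl (G : MG V E) (v : V) (e f : E) (C : Finset E) (h : (G.spl v e f).Ev C) :
    G.Ev C := by
  have h1 : (G.spl v e f).mp (fun o => o.getD v) = G := by
    have hs : ∀ g, ((G.spl v e f).s g).getD v = G.s g := by
      intro g
      show (if (g = e ∨ g = f) ∧ G.s g = v then none else some (G.s g)).getD v = G.s g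
      by_cases h3 : (g = e ∨ g = f) ∧ G.s g = v
      · rw [if_pos h3]
        exact h3.2.symm
      · rw [if_neg h3]
        rfl
    have ht : ∀ g, ((G.spl v e f).t g).getD v = G.t g := by
      intro g
      show (if (g = e ∨ g = f) ∧ G.t g = v then none else some (G.t g)).getD v = G.t g
      by_cases h3 : (g = e ∨ g = f) ∧ G.t g = v
      · rw [if_pos h3]
        exact h3.2.symm
      · rw [if_neg h3]
        rfl
    have hs' : (fun g => ((G.spl v e f).s g).getD v) = G.s := funext hs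
    have ht' : (fun g => ((G.spl v e f).t g).getD v) = G.t := funext ht
    show MG.mk (fun g => ((G.spl v e f).s g).getD v) (fun g => ((G.spl v e f).t g).getD v) = G
    rw [hs', ht']
  have h2 := Ev_mp (G.spl v e f) (fun o => o.getD v) C h
  rw [h1] at h2
  exact h2

theorem Cov_of_spl (G : MG V E) (v : V) (e f : E) (w : E → ℕ) (l : ℚ)
    (h : (G.spl v e f).Cov w l) : G.Cov w l := by
  obtain ⟨L, h1, h2, h3⟩ := h
  exact ⟨L, fun C hC => Ev_of_spl G v e f C (h1 C hC), h2, h3⟩

/-- degrees in the split graph -/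
theorem dg_spl (G : MG V E) (hl : ∀ e, G.s e ≠ G.t e) (v : V) (e f : E) (hef : f ≠ e)
    (he : G.inc e v ≠ 0) (hf : G.inc f v ≠ 0) :
    (G.spl v e f).dg Finset.univ none = 2 ∧
    (G.spl v e f).dg Finset.univ (some v) + 2 = G.dg Finset.univ v ∧
    ∀ u, u ≠ v → (G.spl v e f).dg Finset.univ (some u) = G.dg Finset.univ u := by
  have hinc1 : ∀ g, (G.spl v e f).inc g none = (if g = e then G.inc e v else 0) + (if g = f then G.inc f v else 0) := by
    intro g
    have hs : ((G.spl v e f).s g = none) ↔ ((g = e ∨ g = f) ∧ G.s g = v) := by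
      show (if (g = e ∨ g = f) ∧ G.s g = v then none else some (G.s g)) = none ↔ _
      by_cases h3 : (g = e ∨ g = f) ∧ G.s g = v
      · rw [if_pos h3]
        exact ⟨fun _ => h3, fun _ => rfl⟩
      · rw [if_neg h3]
        exact ⟨fun h => (Option.some_ne_none _ h).elim, fun h => absurd h h3⟩
    have ht : ((G.spl v e f).t g = none) ↔ ((g = e ∨ g = f) ∧ G.t g = v) := by
      show (if (g = e ∨ g = f) ∧ G.t g = v then none else some (G.t g)) = none ↔ _
      by_cases h3 : (g = e ∨ g = f) ∧ G.t g = v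
      · rw [if_pos h3]
        exact ⟨fun _ => h3, fun _ => rfl⟩
      · rw [if_neg h3]
        exact ⟨fun h => (Option.some_ne_none _ h).elim, fun h => absurd h h3⟩
    have h0 : (G.spl v e f).inc g none = (if (g = e ∨ g = f) ∧ G.s g = v then 1 else 0)
        + (if (g = e ∨ g = f) ∧ G.t g = v then 1 else 0) := by
      unfold inc
      simp only [hs, ht]
    rw [h0]
    by_cases h1 : g = e
    · subst h1
      have h2 : g ≠ f := fun h => hef h.symm
      simp [h2, inc]
    · by_cases h2 : g = f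
      · subst h2
        simp [h1, inc]
      · simp [h1, h2]
  have hinc2 : ∀ g, (G.spl v e f).inc g none + (G.spl v e f).inc g (some v) = G.inc g v := by
    intro g
    unfold inc
    have hs : (if (G.spl v e f).s g = none then 1 else 0) + (if (G.spl v e f).s g = some v then 1 else 0)
        = (if G.s g = v then 1 else 0) := by
      show (if (if (g = e ∨ g = f) ∧ G.s g = v then none else some (G.s g)) = none then 1 else 0)
        + (if (if (g = e ∨ g = f) ∧ G.s g = v then none else some (G.s g)) = some v then 1 else 0) = _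
      by_cases h3 : (g = e ∨ g = f) ∧ G.s g = v
      · rw [if_pos h3]
        simp [h3.2]
      · rw [if_neg h3]
        simp
    have ht : (if (G.spl v e f).t g = none then 1 else 0) + (if (G.spl v e f).t g = some v then 1 else 0)
        = (if G.t g = v then 1 else 0) := by
      show (if (if (g = e ∨ g = f) ∧ G.t g = v then none else some (G.t g)) = none then 1 else 0)
        + (if (if (g = e ∨ g = f) ∧ G.t g = v then none else some (G.t g)) = some v then 1 else 0) = _
      by_cases h3 : (g = e ∨ g = f) ∧ G.t g = v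
      · rw [if_pos h3]
        simp [h3.2]
      · rw [if_neg h3]
        simp
    omega
  have hinc3 : ∀ u, u ≠ v → ∀ g, (G.spl v e f).inc g (some u) = G.inc g u := by
    intro u hu g
    unfold inc
    have hs : (if (G.spl v e f).s g = some u then 1 else 0) = (if G.s g = u then 1 else 0) := by
      show (if (if (g = e ∨ g = f) ∧ G.s g = v then none else some (G.s g)) = some u then 1 else 0) = _
      by_cases h3 : (g = e ∨ g = f) ∧ G.s g = v
      · rw [if_pos h3, h3.2]
        simp [Ne.symm hu]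
      · rw [if_neg h3]
        simp
    have ht : (if (G.spl v e f).t g = some u then 1 else 0) = (if G.t g = u then 1 else 0) := by
      show (if (if (g = e ∨ g = f) ∧ G.t g = v then none else some (G.t g)) = some u then 1 else 0) = _
      by_cases h3 : (g = e ∨ g = f) ∧ G.t g = v
      · rw [if_pos h3, h3.2]
        simp [Ne.symm hu]
      · rw [if_neg h3]
        simp
    rw [hs, ht]
  have he1 : G.inc e v = 1 := by
    have := Split_inc G hl v e
    rw [if_pos he] at this
    exact this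
  have hf1 : G.inc f v = 1 := by
    have := Split_inc G hl v f
    rw [if_pos hf] at this
    exact this
  have hnone : (G.spl v e f).dg Finset.univ none = 2 := by
    unfold dg
    rw [Finset.sum_congr rfl (fun g _ => hinc1 g), Finset.sum_add_distrib]
    simp [he1, hf1]
  refine ⟨hnone, ?_, ?_⟩
  · have h1 : (G.spl v e f).dg Finset.univ none + (G.spl v e f).dg Finset.univ (some v)
        = G.dg Finset.univ v := by
      unfold dg
      rw [← Finset.sum_add_distrib]
      exact Finset.sum_congr rfl (fun g _ => hinc2 g)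
    omega
  · intro u hu
    unfold dg
    exact Finset.sum_congr rfl (fun g _ => hinc3 u hu g)

end MG

end Pool.Agent.Lib.MP_95e9b3_coC
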