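import Pool.Agent.Lib.MP_95e9b3_coC.CubicMain
import Pool.Agent.Lib.MP_95e9b3_coC.Split
import Pool.Agent.Lib.MP_95e9b3_coC.Supp

/-!
# JOB Multi: the theorem for all multigraphs without bridges

Strong induction on the measure `∑ v, (dg univ v - 3) + |E|` (natural number subtraction), for all
types `V E : Type` and all `G`, `w`.
(i) there is a loop `e`: `del G e` (`Br0_del`, `Cov_del`, `dg_del`): the degree of the end of `e`
decreases by `2`, the number of odd vertices is the same, `w e ≤ 5/3 w e`.
(ii) no loops, some `v` with `dg univ v ≥ 4`: choose an edge `e0` at `v`, `split_exists`, `spl G v e0 f`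
on `Option V` (`dg_spl`, `Cov_of_spl`): same edges, `(dg v - 3)` decreases, `none` has degree `2`,
parities and so the number of odd vertices unchanged.
(iii) no loops, all degrees at most `3`, some `v` with `dg univ v = 2`: the two edges `e ≠ f` at `v`;
`sup G v e f` (`Br0_sup`, `Cov_sup`, `dg_sup`), total weight and number of odd vertices unchanged.
(iv) no loops, all degrees in `{0, 1, 3}`: degree `1` is impossible (`dg_eq`, `Br0`).
`Cov_restrict` and `cubic_main`.
-/

set_option autoImplicit false

namespace Pool.Agent.Lib.MP_95e9b3_coC

open Finset
open scoped symmDiff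

namespace MG

private theorem Multi_card {E : Type} [Fintype E] [DecidableEq E] (e : E) :
    Fintype.card {g : E // g ≠ e} + 1 = Fintype.card E := by
  have h1 : Fintype.card {g : E // g ≠ e} = (Finset.univ.erase e).card :=
    Fintype.card_of_subtype _ (fun x => by
      rw [Finset.mem_erase]
      exact ⟨fun h => h.1, fun h => ⟨h, Finset.mem_univ _⟩⟩)
  rw [h1, Finset.card_erase_of_mem (Finset.mem_univ e), Finset.card_univ]
  have h2 : 0 < Fintype.card E := Fintype.card_pos_iff.mpr ⟨e⟩
  omega

private theorem Multi_sum {E : Type} [Fintype E] [DecidableEq E] (e : E) (φ : E → ℚ) :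
    φ e + ∑ g : {g : E // g ≠ e}, φ g = ∑ g, φ g := by
  have h1 : ∑ g ∈ Finset.univ.erase e, φ g = ∑ g : {g : E // g ≠ e}, φ g :=
    Finset.sum_subtype _ (fun x => by
      rw [Finset.mem_erase]
      exact ⟨fun h => h.1, fun h => ⟨h, Finset.mem_univ _⟩⟩) φ
  rw [← h1]
  exact Finset.add_sum_erase _ φ (Finset.mem_univ e)

theorem multi_main : ∀ (n : ℕ) (V E : Type) [Fintype V] [DecidableEq V] [Fintype E]
    [DecidableEq E] (G : MG V E) (w : E → ℕ), G.Br0 → (∀ e, 1 ≤ w e) →
    ∑ v, (G.dg Finset.univ v - 3) + Fintype.card E ≤ n →
    G.Cov w (5 / 3 * (∑ e, (w e : ℚ))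
      - ((Finset.univ.filter (fun v => Odd (G.dg Finset.univ v))).card : ℚ) / 240000) := by
  intro n
  induction n using Nat.strong_induction_on with
  | _ n ih =>
  intro V E _ _ _ _ G w hb hw hn
  by_cases h1 : ∃ e, G.s e = G.t e
  · obtain ⟨e, he⟩ := h1
    have hinc : ∀ v, G.inc e v = 0 ∨ G.inc e v = 2 := by
      intro v
      unfold inc
      rw [he]
      by_cases h : G.t e = v
      · rw [if_pos h]; right; rfl
      · rw [if_neg h]; left; rfl
    have hcE := Multi_card e
    have hdd : ∀ v, (G.del e).dg Finset.univ v + G.inc e v = G.dg Finset.univ v :=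
      fun v => G.dg_del e v
    have hm : ∑ v, ((G.del e).dg Finset.univ v - 3) ≤ ∑ v, (G.dg Finset.univ v - 3) := by
      apply Finset.sum_le_sum
      intro v _
      have := hdd v
      omega
    have hodd : (Finset.univ.filter (fun v => Odd ((G.del e).dg Finset.univ v))) =
        Finset.univ.filter (fun v => Odd (G.dg Finset.univ v)) := by
      apply Finset.filter_congr
      intro v _
      have h2 := hdd v
      rcases hinc v with h | h
      · rw [Nat.odd_iff, Nat.odd_iff]
        omega
      · rw [Nat.odd_iff, Nat.odd_iff]
        omega
    have h3 := ih (n - 1) (by omega) V {g : E // g ≠ e} (G.del e) (fun g => w g)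
      (G.Br0_del hb e he) (fun g => hw g) (by omega)
    rw [hodd] at h3
    have h4 := G.Cov_del e he w _ h3
    refine G.Cov_mono w _ _ ?_ h4
    have h5 := Multi_sum e (fun g => (w g : ℚ))
    have h6 : (0 : ℚ) ≤ (w e : ℚ) := Nat.cast_nonneg _
    linarith
  · have hl : ∀ e, G.s e ≠ G.t e := fun e he => h1 ⟨e, he⟩
    have hle : ∀ g v, G.inc g v ≤ 1 := by
      intro g v
      unfold inc
      by_cases h : G.s g = v
      · rw [if_pos h, if_neg (fun h2 => hl g (by rw [h, h2]))]
      · rw [if_neg h]
        split_ifs
        · exact le_rfl
        · exact Nat.zero_le _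
    by_cases h2 : ∃ v, 4 ≤ G.dg Finset.univ v
    · obtain ⟨v, hv⟩ := h2
      have hex : ∃ e0, G.inc e0 v ≠ 0 := by
        by_contra hno
        have h3 : G.dg Finset.univ v = 0 := by
          unfold dg
          apply Finset.sum_eq_zero
          intro e _
          by_contra h4
          exact hno ⟨e, h4⟩
        omega
      obtain ⟨e0, he0⟩ := hex
      obtain ⟨f, hf1, hf2, hf3⟩ := G.split_exists hb hl v hv e0 he0
      obtain ⟨d1, d2, d3⟩ := G.dg_spl hl v e0 f hf1 he0 hf2
      have hm : ∑ u, ((G.spl v e0 f).dg Finset.univ u - 3) < ∑ u, (G.dg Finset.univ u - 3) := by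
        rw [Fintype.sum_option, d1]
        have h3 : ∑ u : V, ((G.spl v e0 f).dg Finset.univ (some u) - 3) <
            ∑ u, (G.dg Finset.univ u - 3) := by
          refine Finset.sum_lt_sum (fun u _ => ?_) ⟨v, Finset.mem_univ _, ?_⟩
          · by_cases h : u = v
            · rw [h]; omega
            · rw [d3 u h]
          · omega
        omega
      have hodd : (Finset.univ.filter (fun u => Odd ((G.spl v e0 f).dg Finset.univ u))).card =
          (Finset.univ.filter (fun u => Odd (G.dg Finset.univ u))).card := by
        rw [Finset.card_filter, Finset.card_filter, Fintype.sum_option, d1, if_neg (by decide),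
          zero_add]
        apply Finset.sum_congr rfl
        intro u _
        by_cases h : u = v
        · rw [h]
          have h3 : Odd ((G.spl v e0 f).dg Finset.univ (some v)) ↔ Odd (G.dg Finset.univ v) := by
            rw [Nat.odd_iff, Nat.odd_iff]
            omega
          by_cases h4 : Odd (G.dg Finset.univ v)
          · rw [if_pos h4, if_pos (h3.mpr h4)]
          · rw [if_neg h4, if_neg (fun h5 => h4 (h3.mp h5))]
        · rw [d3 u h]
      have h3 := ih (n - 1) (by omega) (Option V) E (G.spl v e0 f) w hf3 hw (by omega)
      rw [hodd] at h3
      exact G.Cov_of_spl v e0 f w _ h3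
    · by_cases h3 : ∃ v, G.dg Finset.univ v = 2
      · obtain ⟨v, hv⟩ := h3
        have hcard : (Finset.univ.filter (fun g => G.inc g v ≠ 0)).card = 2 := by
          rw [← hv]
          unfold dg
          rw [Finset.card_filter]
          apply Finset.sum_congr rfl
          intro g _
          have h4 := hle g v
          by_cases h5 : G.inc g v = 0
          · rw [if_neg (fun h => h h5), h5]
          · rw [if_pos h5]
            omega
        obtain ⟨e, f, hef, hs⟩ := Finset.card_eq_two.mp hcard
        have he : G.inc e v ≠ 0 := by
          have h4 : e ∈ Finset.univ.filter (fun g => G.inc g v ≠ 0) := by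
            rw [hs]
            exact Finset.mem_insert_self _ _
          exact (Finset.mem_filter.mp h4).2
        have hf : G.inc f v ≠ 0 := by
          have h4 : f ∈ Finset.univ.filter (fun g => G.inc g v ≠ 0) := by
            rw [hs]
            exact Finset.mem_insert_of_mem (Finset.mem_singleton_self _)
          exact (Finset.mem_filter.mp h4).2
        obtain ⟨d1, d2⟩ := G.dg_sup hl v e f hef he hf hv
        have hcE := Multi_card f
        have hm : ∑ u, ((G.sup v e f).dg Finset.univ u - 3) ≤ ∑ u, (G.dg Finset.univ u - 3) := by
          apply Finset.sum_le_sum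
          intro u _
          by_cases h : u = v
          · rw [h, d1]
            omega
          · rw [d2 u h]
        have hodd : (Finset.univ.filter (fun u => Odd ((G.sup v e f).dg Finset.univ u))) =
            Finset.univ.filter (fun u => Odd (G.dg Finset.univ u)) := by
          apply Finset.filter_congr
          intro u _
          by_cases h : u = v
          · rw [h, d1, hv, Nat.odd_iff, Nat.odd_iff]
          · rw [d2 u h]
        have h4 := ih (n - 1) (by omega) V {g : E // g ≠ f} (G.sup v e f)
          (fun g => if (g : E) = e then w e + w f else w g) (G.Br0_sup hb hl v e f hef he hf hv)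
          (fun g => by
            have h5 := hw e
            have h6 := hw g
            split_ifs
            · omega
            · exact h6) (by omega)
        rw [hodd] at h4
        refine G.Cov_mono w _ _ (le_of_eq ?_) (G.Cov_sup hl v e f hef he hf hv w _ h4)
        have h5 := Multi_sum f (fun g => (w g : ℚ))
        have h6 := Multi_sum f (fun g => ((if g = e then w e + w f else w g : ℕ) : ℚ))
        have h7 : ∑ g : E, ((if g = e then w e + w f else w g : ℕ) : ℚ) =
            ∑ g : E, (w g : ℚ) + (w f : ℚ) := by
          have h8 : ∀ g : E, ((if g = e then w e + w f else w g : ℕ) : ℚ) =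
              (w g : ℚ) + (if g = e then (w f : ℚ) else 0) := by
            intro g
            by_cases h : g = e
            · rw [if_pos h, if_pos h, h]
              push_cast
              ring
            · rw [if_neg h, if_neg h, add_zero]
          rw [Finset.sum_congr rfl (fun g _ => h8 g), Finset.sum_add_distrib,
            Finset.sum_ite_eq' Finset.univ e (fun _ => (w f : ℚ)), if_pos (Finset.mem_univ e)]
        rw [if_neg (fun h => hef h.symm)] at h6
        have h9 : ∑ g : {g : E // g ≠ f}, ((if (g : E) = e then w e + w f else w g : ℕ) : ℚ) =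
            ∑ g : E, (w g : ℚ) := by
          linarith
        rw [h9]
      · have hd : ∀ v, G.dg Finset.univ v = 0 ∨ G.dg Finset.univ v = 3 := by
          intro v
          have h4 : ¬ 4 ≤ G.dg Finset.univ v := fun h => h2 ⟨v, h⟩
          have h5 : G.dg Finset.univ v ≠ 2 := fun h => h3 ⟨v, h⟩
          have h6 : G.dg Finset.univ v ≠ 1 := by
            intro h
            have h7 := G.dg_eq Finset.univ v
            rw [Finset.univ_inter, h] at h7
            have h8 : (Finset.univ.filter (fun e => G.s e = v ∧ G.t e = v)) = ∅ := by
              apply Finset.eq_empty_of_forall_notMem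
              intro e he
              have h9 := (Finset.mem_filter.mp he).2
              exact hl e (by rw [h9.1, h9.2])
            rw [h8, Finset.card_empty] at h7
            exact hb {v} (by omega)
          omega
        obtain ⟨G', hc', hb', hC⟩ := G.Cov_restrict hd hb
        have h4 := hC w _ (G'.cubic_main hc' hb' w hw)
        refine G.Cov_mono w _ _ (le_of_eq ?_) h4
        have h5 : Fintype.card {v : V // G.dg Finset.univ v = 3} =
            (Finset.univ.filter (fun v => Odd (G.dg Finset.univ v))).card := by
          apply Fintype.card_of_subtype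
          intro v
          rw [Finset.mem_filter]
          constructor
          · intro h
            rcases hd v with h6 | h6
            · exfalso
              have h7 := h.2
              rw [h6] at h7
              exact absurd h7 (by decide)
            · exact h6
          · intro h
            refine ⟨Finset.mem_univ _, ?_⟩
            rw [h]
            decide
        rw [h5]

end MG

end Pool.Agent.Lib.MP_95e9b3_coC
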