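import Pool.Agent.Lib.MP_95e9b3_coC.Reach

/-!
# JOB Rank: number of components, contracted graphic rank, k disjoint spanning sets

`nc_empty`: `cv ∅ v = {v}`.
`nc_insert_of_Rch`: the components do not change (`Rch (insert e F) = Rch F`).
`nc_insert`: if the ends `u = s e`, `v = t e` are not connected in `F`, then
`cv (insert e F) a` is `cv F u ∪ cv F v` if `a` is connected to `u` or `v` in `F`, and `cv F a`
otherwise; so the set of components loses `cv F u`, `cv F v` (different) and gets the union.
-/

set_option autoImplicit false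

namespace Pool.Agent.Lib.MP_95e9b3_coC

open Finset
open scoped symmDiff

namespace MG

variable {V W E : Type} [Fintype V] [DecidableEq V] [Fintype W] [DecidableEq W]
  [Fintype E] [DecidableEq E]

theorem rank_ins (G : MG V E) (F : Finset E) (e : E) (a b : V) (h : G.Rch (insert e F) a b) :
    G.Rch F a b ∨ (G.Rch F a (G.s e) ∧ G.Rch F (G.t e) b) ∨
      (G.Rch F a (G.t e) ∧ G.Rch F (G.s e) b) := by
  induction h with
  | refl => exact Or.inl (Rch_refl G F a)
  | @tail b c _ hbc ih =>
    obtain ⟨e', he', hj⟩ := hbc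
    rcases Finset.mem_insert.mp he' with rfl | he'
    · rcases hj with ⟨h1, h2⟩ | ⟨h1, h2⟩
      · subst h1 h2
        rcases ih with ih | ⟨ih1, ih2⟩ | ⟨ih1, ih2⟩
        · exact Or.inr (Or.inl ⟨ih, Rch_refl G F _⟩)
        · exact Or.inr (Or.inl ⟨ih1, Rch_refl G F _⟩)
        · exact Or.inl ih1
      · subst h1 h2
        rcases ih with ih | ⟨ih1, ih2⟩ | ⟨ih1, ih2⟩
        · exact Or.inr (Or.inr ⟨ih, Rch_refl G F _⟩)
        · exact Or.inl ih1
        · exact Or.inr (Or.inr ⟨ih1, Rch_refl G F _⟩)
    · have hs : G.Rch F b c := Relation.ReflTransGen.single ⟨e', he', hj⟩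
      rcases ih with ih | ⟨ih1, ih2⟩ | ⟨ih1, ih2⟩
      · exact Or.inl (Rch_trans G F _ _ _ ih hs)
      · exact Or.inr (Or.inl ⟨ih1, Rch_trans G F _ _ _ ih2 hs⟩)
      · exact Or.inr (Or.inr ⟨ih1, Rch_trans G F _ _ _ ih2 hs⟩)

theorem rank_cv_eq (G : MG V E) (F F' : Finset E) (h : ∀ a b, G.Rch F' a b ↔ G.Rch F a b) :
    G.cv F' = G.cv F := by
  funext a
  ext b
  rw [mem_cv, mem_cv]
  exact h a b

theorem rank_img (G : MG V E) (F : Finset E) (e : E) (U : Finset V) (hs : G.s e ∈ U)
    (ht : G.t e ∈ U) (h : ¬ G.Rch F (G.s e) (G.t e)) :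
    (U.image (G.cv (insert e F))).card + 1 = (U.image (G.cv F)).card := by
  have hin : G.Rch (insert e F) (G.s e) (G.t e) :=
    Rch_edge G (insert e F) e (Finset.mem_insert_self e F)
  have hmono : ∀ a b, G.Rch F a b → G.Rch (insert e F) a b := fun a b =>
    Rch_mono G F (insert e F) (Finset.subset_insert e F) a b
  have hmerge : ∀ a, (G.Rch F a (G.s e) ∨ G.Rch F a (G.t e)) →
      G.cv (insert e F) a = G.cv F (G.s e) ∪ G.cv F (G.t e) := by
    intro a ha
    have hau : G.Rch (insert e F) a (G.s e) := by
      rcases ha with ha | ha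
      · exact hmono _ _ ha
      · exact Rch_trans G _ _ _ _ (hmono _ _ ha) (Rch_symm G _ _ _ hin)
    ext b
    rw [Finset.mem_union, mem_cv, mem_cv, mem_cv]
    constructor
    · intro hb
      have hub : G.Rch (insert e F) (G.s e) b := Rch_trans G _ _ _ _ (Rch_symm G _ _ _ hau) hb
      rcases rank_ins G F e _ _ hub with h1 | ⟨_, h1⟩ | ⟨_, h1⟩
      · exact Or.inl h1
      · exact Or.inr h1
      · exact Or.inl h1
    · intro hb
      rcases hb with hb | hb
      · exact Rch_trans G _ _ _ _ hau (hmono _ _ hb)
      · exact Rch_trans G _ _ _ _ hau (Rch_trans G _ _ _ _ hin (hmono _ _ hb))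
  have hkeep : ∀ a, ¬ (G.Rch F a (G.s e) ∨ G.Rch F a (G.t e)) →
      G.cv (insert e F) a = G.cv F a := by
    intro a ha
    ext b
    rw [mem_cv, mem_cv]
    constructor
    · intro hb
      rcases rank_ins G F e _ _ hb with h1 | ⟨h1, _⟩ | ⟨h1, _⟩
      · exact h1
      · exact absurd (Or.inl h1) ha
      · exact absurd (Or.inr h1) ha
    · exact hmono _ _
  have hset : U.image (G.cv (insert e F)) = insert (G.cv F (G.s e) ∪ G.cv F (G.t e))
      (((U.image (G.cv F)).erase (G.cv F (G.s e))).erase (G.cv F (G.t e))) := by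
    ext X
    constructor
    · intro hX
      obtain ⟨a, haU, rfl⟩ := Finset.mem_image.mp hX
      by_cases ha : G.Rch F a (G.s e) ∨ G.Rch F a (G.t e)
      · rw [hmerge a ha]
        exact Finset.mem_insert_self _ _
      · rw [hkeep a ha]
        refine Finset.mem_insert_of_mem (Finset.mem_erase.mpr ⟨?_, Finset.mem_erase.mpr
          ⟨?_, Finset.mem_image_of_mem _ haU⟩⟩)
        · intro hh
          exact ha (Or.inr ((cv_eq G F _ _).mp hh))
        · intro hh
          exact ha (Or.inl ((cv_eq G F _ _).mp hh))
    · intro hX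
      rcases Finset.mem_insert.mp hX with rfl | hX
      · rw [← hmerge (G.s e) (Or.inl (Rch_refl G F _))]
        exact Finset.mem_image_of_mem _ hs
      · obtain ⟨h1, hX⟩ := Finset.mem_erase.mp hX
        obtain ⟨h2, hX⟩ := Finset.mem_erase.mp hX
        obtain ⟨a, haU, rfl⟩ := Finset.mem_image.mp hX
        have ha : ¬ (G.Rch F a (G.s e) ∨ G.Rch F a (G.t e)) := by
          rintro (ha | ha)
          · exact h2 ((cv_eq G F _ _).mpr ha)
          · exact h1 ((cv_eq G F _ _).mpr ha)
        rw [← hkeep a ha]
        exact Finset.mem_image_of_mem _ haU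
  have hne : G.cv F (G.t e) ≠ G.cv F (G.s e) := by
    intro hh
    exact h (Rch_symm G _ _ _ ((cv_eq G F _ _).mp hh))
  have hnot : (G.cv F (G.s e) ∪ G.cv F (G.t e)) ∉
      (((U.image (G.cv F)).erase (G.cv F (G.s e))).erase (G.cv F (G.t e))) := by
    intro hX
    obtain ⟨h1, hX⟩ := Finset.mem_erase.mp hX
    obtain ⟨h2, hX⟩ := Finset.mem_erase.mp hX
    obtain ⟨a, haU, ha⟩ := Finset.mem_image.mp hX
    apply h
    have hu : G.s e ∈ G.cv F a := by
      rw [ha]
      exact Finset.mem_union_left _ ((mem_cv G F _ _).mpr (Rch_refl G F _))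
    have hv : G.t e ∈ G.cv F a := by
      rw [ha]
      exact Finset.mem_union_right _ ((mem_cv G F _ _).mpr (Rch_refl G F _))
    exact Rch_trans G _ _ _ _ (Rch_symm G _ _ _ ((mem_cv G F _ _).mp hu)) ((mem_cv G F _ _).mp hv)
  have hA : G.cv F (G.s e) ∈ U.image (G.cv F) := Finset.mem_image_of_mem _ hs
  have hB : G.cv F (G.t e) ∈ (U.image (G.cv F)).erase (G.cv F (G.s e)) :=
    Finset.mem_erase.mpr ⟨hne, Finset.mem_image_of_mem _ ht⟩
  rw [hset, Finset.card_insert_of_notMem hnot, Finset.card_erase_add_one hB,
    Finset.card_erase_add_one hA]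

theorem rank_ev (G : MG V E) (J : Finset E) (e : E) (he : e ∉ J)
    (hJ : ∀ v, G.dg J v % 2 = ((if v = G.s e then 1 else 0) + (if v = G.t e then 1 else 0)) % 2) :
    G.Ev (insert e J) := by
  intro v
  have h1 : G.dg (insert e J) v = G.inc e v + G.dg J v := by
    unfold dg
    rw [Finset.sum_insert he]
  have h2 := hJ v
  have h3 : G.inc e v = (if v = G.s e then 1 else 0) + (if v = G.t e then 1 else 0) := by
    unfold inc
    rw [if_congr (eq_comm : G.s e = v ↔ v = G.s e) rfl rfl,
      if_congr (eq_comm : G.t e = v ↔ v = G.t e) rfl rfl]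
  rw [h1, Nat.even_iff, h3]
  omega

theorem nc_empty (G : MG V E) : G.nc ∅ = Fintype.card V := by
  have hcv : G.cv ∅ = fun v => ({v} : Finset V) := by
    funext v
    ext b
    rw [mem_cv, Finset.mem_singleton]
    constructor
    · intro h
      have key : ∀ c, G.Rch ∅ v c → c = v := by
        intro c hc
        induction hc with
        | refl => rfl
        | tail _ hbc _ =>
          obtain ⟨e, he, _⟩ := hbc
          exact absurd he (Finset.notMem_empty e)
      exact key b h
    · rintro rfl
      exact Rch_refl G ∅ _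
  unfold nc
  rw [hcv, Finset.card_image_of_injective _ (fun a b h => Finset.singleton_injective h)]
  exact Finset.card_univ

theorem nc_insert_of_Rch (G : MG V E) (F : Finset E) (e : E) (h : G.Rch F (G.s e) (G.t e)) :
    G.nc (insert e F) = G.nc F := by
  have hcv : G.cv (insert e F) = G.cv F := by
    apply rank_cv_eq
    intro a b
    constructor
    · intro hab
      rcases rank_ins G F e a b hab with h1 | ⟨h1, h2⟩ | ⟨h1, h2⟩
      · exact h1
      · exact Rch_trans G _ _ _ _ h1 (Rch_trans G _ _ _ _ h h2)
      · exact Rch_trans G _ _ _ _ h1 (Rch_trans G _ _ _ _ (Rch_symm G _ _ _ h) h2)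
    · exact Rch_mono G F (insert e F) (Finset.subset_insert e F) a b
  unfold nc
  rw [hcv]

theorem nc_insert (G : MG V E) (F : Finset E) (e : E) (h : ¬ G.Rch F (G.s e) (G.t e)) :
    G.nc (insert e F) + 1 = G.nc F := by
  exact rank_img G F e Finset.univ (Finset.mem_univ _) (Finset.mem_univ _) h

/-- fewer components after adding edges -/
theorem nc_anti (G : MG V E) (F F' : Finset E) (h : F ⊆ F') : G.nc F' ≤ G.nc F := by
  have key : ∀ P : Finset E, G.nc (F ∪ P) ≤ G.nc F := by
    intro P
    induction P using Finset.induction_on with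
    | empty => rw [Finset.union_empty]
    | @insert e P _ ih =>
      rw [Finset.union_insert]
      by_cases hr : G.Rch (F ∪ P) (G.s e) (G.t e)
      · rw [nc_insert_of_Rch G _ e hr]
        exact ih
      · have := nc_insert G _ e hr
        omega
  have h1 := key F'
  rwa [Finset.union_eq_right.mpr h] at h1

/-- if the number of components does not change, connection does not change -/
theorem Rch_of_nc_eq (G : MG V E) (F F' : Finset E) (h : F ⊆ F') (hn : G.nc F' = G.nc F)
    (a b : V) (hab : G.Rch F' a b) : G.Rch F a b := by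
  have key : ∀ P : Finset E, G.nc (F ∪ P) = G.nc F → ∀ a b, G.Rch (F ∪ P) a b → G.Rch F a b := by
    intro P
    induction P using Finset.induction_on with
    | empty =>
      intro _ a b hab
      rwa [Finset.union_empty] at hab
    | @insert e P _ ih =>
      intro hc a b hab
      rw [Finset.union_insert] at hc hab
      have h1 : G.nc (insert e (F ∪ P)) ≤ G.nc (F ∪ P) :=
        nc_anti G _ _ (Finset.subset_insert _ _)
      have h2 : G.nc (F ∪ P) ≤ G.nc F := nc_anti G _ _ Finset.subset_union_left
      have hr : G.Rch (F ∪ P) (G.s e) (G.t e) := by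
        by_contra hr
        have := nc_insert G _ e hr
        omega
      have hP : G.nc (F ∪ P) = G.nc F := by omega
      refine ih hP a b ?_
      rcases rank_ins G _ e a b hab with h3 | ⟨h3, h4⟩ | ⟨h3, h4⟩
      · exact h3
      · exact Rch_trans G _ _ _ _ h3 (Rch_trans G _ _ _ _ hr h4)
      · exact Rch_trans G _ _ _ _ h3 (Rch_trans G _ _ _ _ (Rch_symm G _ _ _ hr) h4)
  have hF : F ∪ F' = F' := Finset.union_eq_right.mpr h
  refine key F' ?_ a b ?_
  · rw [hF]
    exact hn
  · rw [hF]
    exact hab

/-- number of components of `F` inside a union `U` of components of `F ∪ P`, `P` acyclic over `F`: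
if no even set `C ⊆ F ∪ P` meets `P`, then the edges of `P` inside `U` form a forest on the
components of `F` inside `U`. Proof: add the edges of `P` with an end in `U` one by one to `F`. Each
of them, say `e`, has both ends in `U`, and its ends are not connected by `F` and the edges already
added (`Rch_join` would give an even set `insert e P'` meeting `P`); so the number
`(U.image (cv F')).card` decreases by one each time; it stays positive. -/
theorem forest_count (G : MG V E) (F P : Finset E) (hd : Disjoint F P)
    (h : ∀ C ⊆ F ∪ P, G.Ev C → Disjoint C P) (U : Finset V) (hU : (F ∪ P) ∩ G.cut U = ∅)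
    (hne : U.Nonempty) :
    (P.filter (fun e => G.s e ∈ U)).card + 1 ≤ (U.image (G.cv F)).card := by
  have key : ∀ Q : Finset E, Q ⊆ P.filter (fun e => G.s e ∈ U) →
      (U.image (G.cv (F ∪ Q))).card + Q.card ≤ (U.image (G.cv F)).card := by
    intro Q
    induction Q using Finset.induction_on with
    | empty =>
      intro _
      rw [Finset.union_empty, Finset.card_empty, Nat.add_zero]
    | @insert e Q heQ ih =>
      intro hQ
      have hQ' : Q ⊆ P.filter (fun e => G.s e ∈ U) :=
        (Finset.subset_insert e Q).trans hQ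
      have heP := Finset.mem_filter.mp (hQ (Finset.mem_insert_self e Q))
      have hs : G.s e ∈ U := heP.2
      have hecut : e ∉ G.cut U := by
        intro hc
        have : e ∈ (F ∪ P) ∩ G.cut U :=
          Finset.mem_inter.mpr ⟨Finset.mem_union_right _ heP.1, hc⟩
        rw [hU] at this
        exact Finset.notMem_empty e this
      have ht : G.t e ∈ U := by
        rw [mem_cut, not_not] at hecut
        exact hecut.mp hs
      have heF : e ∉ F := fun hh => Finset.disjoint_left.mp hd hh heP.1
      have hr : ¬ G.Rch (F ∪ Q) (G.s e) (G.t e) := by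
        intro hr
        obtain ⟨J, hJ, hJd⟩ := Rch_join G _ _ _ hr
        have heJ : e ∉ J := by
          intro hh
          rcases Finset.mem_union.mp (hJ hh) with h1 | h1
          · exact heF h1
          · exact heQ h1
        have hEv : G.Ev (insert e J) := rank_ev G J e heJ hJd
        have hsub : insert e J ⊆ F ∪ P := by
          intro x hx
          rcases Finset.mem_insert.mp hx with rfl | hx
          · exact Finset.mem_union_right _ heP.1
          · rcases Finset.mem_union.mp (hJ hx) with h1 | h1
            · exact Finset.mem_union_left _ h1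
            · exact Finset.mem_union_right _ (Finset.mem_filter.mp (hQ' h1)).1
        exact Finset.disjoint_left.mp (h _ hsub hEv) (Finset.mem_insert_self e J) heP.1
      have h1 := rank_img G (F ∪ Q) e U hs ht hr
      have h2 := ih hQ'
      rw [Finset.union_insert, Finset.card_insert_of_notMem heQ]
      omega
  have h1 := key _ (Finset.Subset.refl _)
  obtain ⟨u, hu⟩ := hne
  have h2 : 0 < (U.image (G.cv (F ∪ P.filter (fun e => G.s e ∈ U)))).card :=
    Finset.card_pos.mpr ⟨_, Finset.mem_image_of_mem _ hu⟩
  omega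

end MG

end Pool.Agent.Lib.MP_95e9b3_coC
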