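import Pool.Agent.Lib.MP_95e9b3_coC.Basic

/-!
# JOB Reach: connection by edges of `F`, components, paths as edge sets, existence of joins

`Rch_join`: induction on the path (`Relation.ReflTransGen.head_induction_on` or `induction`);
start with `P = ∅`; one more step with the edge `e`: replace `P` by `P ∆ {e}`.

`join_exists`: strong induction on `k = #{v | dg J0 v % 2 = 1}` is awkward because `J0` changes, so
prove: for every `J0`, by strong induction on the number of odd vertices of `J0`. If there is none,
`J = ∅`. Otherwise let `a` be an odd vertex and `U = cv F a`. `F ∩ cut U = ∅`, so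
`(J0 ∩ cut U).card` is even, so by `sum_dg` the number of odd vertices in `U` is even, hence there is
another odd vertex `b ∈ U`, `b ≠ a`. `Rch_join` gives `P ⊆ F` with odd vertices exactly `a, b`.
Apply the induction hypothesis to `J0 ∆ P` (its odd vertices are those of `J0` without `a, b`; the
cut hypothesis persists because `P ⊆ F` has no edge in `cut U'` if `F ∩ cut U' = ∅`), get `J1 ⊆ F`,
and take `J = J1 ∆ P`.
-/

set_option autoImplicit false

namespace Pool.Agent.Lib.MP_95e9b3_coC

open Finset
open scoped symmDiff

namespace MG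

variable {V W E : Type} [Fintype V] [DecidableEq V] [Fintype W] [DecidableEq W]
  [Fintype E] [DecidableEq E]

theorem Rch_refl (G : MG V E) (F : Finset E) (a : V) : G.Rch F a a := by
  exact Relation.ReflTransGen.refl

theorem Rch_symm (G : MG V E) (F : Finset E) (a b : V) (h : G.Rch F a b) : G.Rch F b a := by
  unfold Rch at h ⊢
  induction h with
  | refl => exact Relation.ReflTransGen.refl
  | tail _ hbc ih =>
    obtain ⟨e, he, hj⟩ := hbc
    exact Relation.ReflTransGen.head ⟨e, he, hj.symm⟩ ih

theorem Rch_trans (G : MG V E) (F : Finset E) (a b c : V) (h : G.Rch F a b) (h' : G.Rch F b c) :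
    G.Rch F a c := by
  exact Relation.ReflTransGen.trans h h'

theorem Rch_mono (G : MG V E) (F F' : Finset E) (hF : F ⊆ F') (a b : V) (h : G.Rch F a b) :
    G.Rch F' a b := by
  unfold Rch at h ⊢
  induction h with
  | refl => exact Relation.ReflTransGen.refl
  | tail _ hbc ih =>
    obtain ⟨e, he, hj⟩ := hbc
    exact Relation.ReflTransGen.tail ih ⟨e, hF he, hj⟩

theorem Rch_edge (G : MG V E) (F : Finset E) (e : E) (he : e ∈ F) :
    G.Rch F (G.s e) (G.t e) := by
  exact Relation.ReflTransGen.single ⟨e, he, Or.inl ⟨rfl, rfl⟩⟩

/-- a path gives a set of edges with odd vertices `a`, `b` -/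
theorem Rch_join (G : MG V E) (F : Finset E) (a b : V) (h : G.Rch F a b) :
    ∃ P ⊆ F, ∀ v, G.dg P v % 2 = ((if v = a then 1 else 0) + (if v = b then 1 else 0)) % 2 := by
  unfold Rch at h
  induction h with
  | refl =>
    refine ⟨∅, Finset.empty_subset _, fun v => ?_⟩
    rw [dg_empty]
    split_ifs <;> rfl
  | tail _ hbc ih =>
    obtain ⟨P, hP, hd⟩ := ih
    obtain ⟨e, he, hj⟩ := hbc
    refine ⟨P ∆ {e}, ?_, ?_⟩
    · intro x hx
      rw [Finset.mem_symmDiff] at hx
      rcases hx with hx | hx
      · exact hP hx.1
      · rw [Finset.mem_singleton] at hx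
        rw [hx.1]; exact he
    · intro v
      have h1 := G.dg_symm P {e} v
      have h2 : G.dg {e} v = G.inc e v := by
        unfold dg
        rw [Finset.sum_singleton]
      rw [h2, G.inc_Jn e _ _ hj v] at h1
      have h3 := hd v
      omega

/-- a set closed under `F` containing `a` contains everything connected to `a` -/
theorem closed_Rch (G : MG V E) (F : Finset E) (U : Finset V) (hU : F ∩ G.cut U = ∅) (a b : V)
    (ha : a ∈ U) (h : G.Rch F a b) : b ∈ U := by
  unfold Rch at h
  induction h with
  | refl => exact ha
  | tail _ hbc ih =>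
    obtain ⟨e, he, hj⟩ := hbc
    have h1 : ¬ e ∈ G.cut U := by
      intro h2
      have h3 : e ∈ F ∩ G.cut U := Finset.mem_inter.mpr ⟨he, h2⟩
      rw [hU] at h3
      exact absurd h3 (Finset.notMem_empty e)
    rw [mem_cut, not_not] at h1
    rcases hj with ⟨h4, h5⟩ | ⟨h4, h5⟩
    · rw [← h5]
      rw [← h4] at ih
      exact h1.mp ih
    · rw [← h4]
      rw [← h5] at ih
      exact h1.mpr ih

theorem mem_cv (G : MG V E) (F : Finset E) (a b : V) : b ∈ G.cv F a ↔ G.Rch F a b := by
  classical
  simp [cv]

theorem cv_cut (G : MG V E) (F : Finset E) (a : V) : F ∩ G.cut (G.cv F a) = ∅ := by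
  rw [Finset.eq_empty_iff_forall_notMem]
  intro e he
  rw [Finset.mem_inter, mem_cut, mem_cv, mem_cv] at he
  apply he.2
  have h1 := G.Rch_edge F e he.1
  exact ⟨fun h => G.Rch_trans F _ _ _ h h1, fun h => G.Rch_trans F _ _ _ h (G.Rch_symm F _ _ h1)⟩

theorem cv_eq (G : MG V E) (F : Finset E) (a b : V) : G.cv F a = G.cv F b ↔ G.Rch F a b := by
  constructor
  · intro h
    rw [← mem_cv, h, mem_cv]
    exact G.Rch_refl F b
  · intro h
    ext v
    rw [mem_cv, mem_cv]
    exact ⟨fun h1 => G.Rch_trans F _ _ _ (G.Rch_symm F _ _ h) h1,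
      fun h1 => G.Rch_trans F _ _ _ h h1⟩

theorem mem_ce (G : MG V E) (F : Finset E) (a : V) (e : E) :
    e ∈ G.ce F a ↔ e ∈ F ∧ G.Rch F a (G.s e) := by
  classical
  simp [ce]

/-- existence of joins inside `F` -/
theorem join_exists (G : MG V E) (F J0 : Finset E)
    (h : ∀ U : Finset V, F ∩ G.cut U = ∅ → Even (J0 ∩ G.cut U).card) :
    ∃ J ⊆ F, G.Sim J J0 := by
  generalize hn : (Finset.univ.filter (fun v => G.dg J0 v % 2 = 1)).card = n
  induction n using Nat.strong_induction_on generalizing J0 with
  | _ n ih =>
    by_cases h0 : ∃ a, G.dg J0 a % 2 = 1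
    · obtain ⟨a, ha⟩ := h0
      have hev := h (G.cv F a) (G.cv_cut F a)
      have haU : a ∈ G.cv F a := by
        rw [mem_cv]; exact G.Rch_refl F a
      have hb : ∃ b ∈ G.cv F a, b ≠ a ∧ G.dg J0 b % 2 = 1 := by
        by_contra hcon
        push Not at hcon
        have h1 := G.sum_dg J0 (G.cv F a)
        rw [← Finset.add_sum_erase _ _ haU] at h1
        have h2 : Even (∑ v ∈ (G.cv F a).erase a, G.dg J0 v) := by
          refine Finset.even_sum _ (fun v hv => ?_)
          rw [Finset.mem_erase] at hv
          have h3 := hcon v hv.2 hv.1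
          rw [Nat.even_iff]
          omega
        obtain ⟨c, hc⟩ := hev
        obtain ⟨c', hc'⟩ := h2
        omega
      obtain ⟨b, hbU, hba, hbo⟩ := hb
      rw [mem_cv] at hbU
      obtain ⟨P, hPF, hPd⟩ := G.Rch_join F a b hbU
      have hpar : ∀ v, G.dg (J0 ∆ P) v % 2 = (G.dg J0 v + G.dg P v) % 2 := by
        intro v
        have h1 := G.dg_symm J0 P v
        omega
      have hlt : (Finset.univ.filter (fun v => G.dg (J0 ∆ P) v % 2 = 1)).card < n := by
        rw [← hn]
        apply Finset.card_lt_card
        rw [Finset.ssubset_iff_of_subset]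
        · refine ⟨a, ?_, ?_⟩
          · rw [Finset.mem_filter]; exact ⟨Finset.mem_univ _, ha⟩
          · rw [Finset.mem_filter]
            rintro ⟨_, h2⟩
            rw [hpar] at h2
            have h3 := hPd a
            rw [if_pos rfl, if_neg (Ne.symm hba)] at h3
            omega
        · intro v hv
          rw [Finset.mem_filter] at hv ⊢
          refine ⟨Finset.mem_univ _, ?_⟩
          have h2 := hv.2
          rw [hpar] at h2
          have h3 := hPd v
          by_cases hva : v = a
          · rw [hva]; exact ha
          · by_cases hvb : v = b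
            · rw [hvb]; exact hbo
            · rw [if_neg hva, if_neg hvb] at h3
              omega
      have hcut : ∀ U : Finset V, F ∩ G.cut U = ∅ → Even ((J0 ∆ P) ∩ G.cut U).card := by
        intro U hU
        have h1 : (J0 ∆ P) ∩ G.cut U = J0 ∩ G.cut U := by
          ext e
          rw [Finset.mem_inter, Finset.mem_inter, Finset.mem_symmDiff]
          have h2 : e ∈ P → e ∈ G.cut U → False := by
            intro h3 h4
            have h5 : e ∈ F ∩ G.cut U := Finset.mem_inter.mpr ⟨hPF h3, h4⟩
            rw [hU] at h5
            exact absurd h5 (Finset.notMem_empty e)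
          tauto
        rw [h1]
        exact h U hU
      obtain ⟨J1, hJ1, hs⟩ := ih _ hlt (J0 ∆ P) hcut rfl
      refine ⟨J1 ∆ P, ?_, ?_⟩
      · intro x hx
        rw [Finset.mem_symmDiff] at hx
        rcases hx with hx | hx
        · exact hJ1 hx.1
        · exact hPF hx.1
      · intro v
        have h1 := G.dg_symm J1 P v
        have h2 := hs v
        rw [hpar] at h2
        omega
    · push Not at h0
      refine ⟨∅, Finset.empty_subset _, fun v => ?_⟩
      rw [dg_empty]
      have := h0 v
      omega

/-- a maximal set of edges without nonempty even subset has at most `|V|` edges -/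
theorem acyc_card (G : MG V E) (F : Finset E) (h : ∀ C ⊆ F, G.Ev C → C = ∅) :
    F.card ≤ Fintype.card V := by
  -- the map `C ↦ (v ↦ dg C v % 2)` from the subsets of `F` to `V → Fin 2` is injective
  -- (`C`, `C'` with equal parities: `C ∆ C'` is even, so empty), hence `2 ^ |F| ≤ 2 ^ |V|`.
  have h1 : F.powerset.card ≤ (Finset.univ : Finset (V → Fin 2)).card := by
    refine Finset.card_le_card_of_injOn
      (fun C => fun v => (⟨G.dg C v % 2, Nat.mod_lt _ (by norm_num)⟩ : Fin 2))
      (fun _ _ => Finset.mem_coe.mpr (Finset.mem_univ _)) ?_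
    intro C hC C' hC' hEq
    rw [Finset.mem_coe, Finset.mem_powerset] at hC hC'
    have h2 : G.Sim C C' := by
      intro v
      have h3 := congrFun hEq v
      exact congrArg Fin.val h3
    rw [Sim_iff] at h2
    have h4 : C ∆ C' ⊆ F := by
      intro x hx
      rw [Finset.mem_symmDiff] at hx
      rcases hx with hx | hx
      · exact hC hx.1
      · exact hC' hx.1
    have h5 := h _ h4 h2
    exact symmDiff_eq_bot.mp h5
  rw [Finset.card_powerset, Finset.card_univ, Fintype.card_fun, Fintype.card_fin] at h1
  exact (Nat.pow_le_pow_iff_right (by norm_num)).mp h1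

/-- connected sets have enough edges: `|component| ≤ #edges + 1` -/
theorem cv_card_le (G : MG V E) (F : Finset E) (a : V) :
    (G.cv F a).card ≤ (G.ce F a).card + 1 := by
  -- induction on `F` (`Finset.induction_on`), for all `a`. Adding `e = uv` to `F`: if `u`, `v` were
  -- connected in `F` (or neither of them is connected to `a`) the component of `a` is unchanged;
  -- otherwise say `a ~ u` (or `a ~ v`): the new component is the union of the two old components
  -- `cv F u`, `cv F v`, and the new edge set contains the disjoint sets `ce F u`, `ce F v`, `{e}`.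
  induction F using Finset.induction_on generalizing a with
  | empty =>
    have h1 : G.cv ∅ a ⊆ {a} := by
      intro b hb
      rw [mem_cv] at hb
      have h2 := G.closed_Rch ∅ {a} (Finset.empty_inter _) a b (Finset.mem_singleton_self a) hb
      exact h2
    have h2 := Finset.card_le_card h1
    rw [Finset.card_singleton] at h2
    omega
  | insert e F he ih =>
    have hsub : F ⊆ insert e F := Finset.subset_insert e F
    have hcemono : G.ce F a ⊆ G.ce (insert e F) a := by
      intro f hf
      rw [mem_ce] at hf ⊢
      exact ⟨hsub hf.1, G.Rch_mono F _ hsub _ _ hf.2⟩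
    by_cases hU : (G.s e ∈ G.cv F a ↔ G.t e ∈ G.cv F a)
    · have h1 : G.cv (insert e F) a ⊆ G.cv F a := by
        intro b hb
        rw [mem_cv] at hb
        refine G.closed_Rch (insert e F) (G.cv F a) ?_ a b ?_ hb
        · rw [Finset.insert_inter_of_notMem, G.cv_cut]
          rw [mem_cut, not_not]
          exact hU
        · rw [mem_cv]; exact G.Rch_refl F a
      have h2 := Finset.card_le_card h1
      have h3 := Finset.card_le_card hcemono
      have h4 := ih a
      omega
    · have hxy : ∃ x y, G.Jn e x y ∧ x ∈ G.cv F a ∧ y ∉ G.cv F a := by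
        by_cases hs : G.s e ∈ G.cv F a
        · refine ⟨G.s e, G.t e, Or.inl ⟨rfl, rfl⟩, hs, fun ht => hU ⟨fun _ => ht, fun _ => hs⟩⟩
        · have ht : G.t e ∈ G.cv F a := by
            by_contra ht
            exact hU ⟨fun h => absurd h hs, fun h => absurd h ht⟩
          exact ⟨G.t e, G.s e, Or.inr ⟨rfl, rfl⟩, ht, hs⟩
      obtain ⟨x, y, hj, hx, hy⟩ := hxy
      rw [mem_cv] at hx hy
      have hxy' : G.Rch (insert e F) x y :=
        Relation.ReflTransGen.single ⟨e, Finset.mem_insert_self e F, hj⟩
      have hax : G.Rch (insert e F) a x := G.Rch_mono F _ hsub _ _ hx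
      have hay : G.Rch (insert e F) a y := G.Rch_trans _ _ _ _ hax hxy'
      have h1 : G.cv (insert e F) a ⊆ G.cv F a ∪ G.cv F y := by
        intro b hb
        rw [mem_cv] at hb
        refine G.closed_Rch (insert e F) (G.cv F a ∪ G.cv F y) ?_ a b ?_ hb
        · rw [Finset.eq_empty_iff_forall_notMem]
          intro f hf
          rw [Finset.mem_inter, mem_cut, Finset.mem_insert] at hf
          apply hf.2
          rcases hf.1 with hfe | hfF
          · rw [hfe]
            have hxm : x ∈ G.cv F a ∪ G.cv F y := by
              rw [Finset.mem_union, mem_cv]; exact Or.inl hx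
            have hym : y ∈ G.cv F a ∪ G.cv F y := by
              rw [Finset.mem_union]; right
              rw [mem_cv]; exact G.Rch_refl F y
            rcases hj with ⟨h4, h5⟩ | ⟨h4, h5⟩
            · rw [h4, h5]; exact ⟨fun _ => hym, fun _ => hxm⟩
            · rw [h4, h5]; exact ⟨fun _ => hxm, fun _ => hym⟩
          · have h6 := G.Rch_edge F f hfF
            have h7 := G.Rch_symm F _ _ h6
            rw [Finset.mem_union, Finset.mem_union, mem_cv, mem_cv, mem_cv, mem_cv]
            constructor
            · rintro (h8 | h8)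
              · exact Or.inl (G.Rch_trans F _ _ _ h8 h6)
              · exact Or.inr (G.Rch_trans F _ _ _ h8 h6)
            · rintro (h8 | h8)
              · exact Or.inl (G.Rch_trans F _ _ _ h8 h7)
              · exact Or.inr (G.Rch_trans F _ _ _ h8 h7)
        · rw [Finset.mem_union, mem_cv]; exact Or.inl (G.Rch_refl F a)
      have h2 : insert e (G.ce F a ∪ G.ce F y) ⊆ G.ce (insert e F) a := by
        intro f hf
        rw [Finset.mem_insert, Finset.mem_union] at hf
        rcases hf with hf | hf | hf
        · rw [hf, mem_ce]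
          refine ⟨Finset.mem_insert_self e F, ?_⟩
          rcases hj with ⟨h4, _⟩ | ⟨h4, _⟩
          · rw [h4]; exact hax
          · rw [h4]; exact hay
        · exact hcemono hf
        · rw [mem_ce] at hf ⊢
          exact ⟨hsub hf.1, G.Rch_trans _ _ _ _ hay (G.Rch_mono F _ hsub _ _ hf.2)⟩
      have h3 : e ∉ G.ce F a ∪ G.ce F y := by
        intro h
        rw [Finset.mem_union, mem_ce, mem_ce] at h
        rcases h with h | h
        · exact he h.1
        · exact he h.1
      have h4 : Disjoint (G.ce F a) (G.ce F y) := by
        rw [Finset.disjoint_left]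
        intro f hf hf'
        rw [mem_ce] at hf hf'
        exact hy (G.Rch_trans F _ _ _ hf.2 (G.Rch_symm F _ _ hf'.2))
      have h5 := Finset.card_le_card h2
      rw [Finset.card_insert_of_notMem h3, Finset.card_union_of_disjoint h4] at h5
      have h6 := Finset.card_le_card h1
      have h7 := Finset.card_union_le (G.cv F a) (G.cv F y)
      have h8 := ih a
      have h9 := ih y
      omega

end MG

end Pool.Agent.Lib.MP_95e9b3_coC
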