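import Pool.Agent.Lib.MP_95e9b3_coC.Match
import Pool.Agent.Lib.MP_95e9b3_coC.Flows

/-!
# JOB Reps: cuts inside the set `A` of representatives; weights of classes

`A ⊆ M` contains exactly one edge of each series class contained in `M`.
`cut_A`: let `Z = univ \ A` and `Z ∩ cut U = ∅`, so `cut U ⊆ A`. `(cut U).card ≠ 1` by `Br0`.
It is not `2`: two different elements of `A` are not in series. It is not `3`: then
`(M ∩ cut U).card = 1`, but `cut U ⊆ A ⊆ M`.
`rho`: choose for `e ∈ M` an `f ∈ A` with `Ser e f`; it is unique.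
-/

set_option autoImplicit false

namespace Pool.Agent.Lib.MP_95e9b3_coC

open Finset
open scoped symmDiff

namespace MG

variable {V W E : Type} [Fintype V] [DecidableEq V] [Fintype W] [DecidableEq W]
  [Fintype E] [DecidableEq E]

theorem cut_A (G : MG V E) (hb : G.Br0) (M A : Finset E)
    (h3 : ∀ U : Finset V, (G.cut U).card = 3 → (M ∩ G.cut U).card = 1) (hAM : A ⊆ M)
    (hA : ∀ e ∈ A, ∀ f ∈ A, G.Ser e f → e = f) (U : Finset V)
    (hU : (Finset.univ \ A) ∩ G.cut U = ∅) : (G.cut U).card = 0 ∨ 4 ≤ (G.cut U).card := by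
  have hsub : G.cut U ⊆ A := by
    intro e he
    by_contra hA'
    have h1 : e ∈ (Finset.univ \ A) ∩ G.cut U :=
      Finset.mem_inter.2 ⟨Finset.mem_sdiff.2 ⟨Finset.mem_univ e, hA'⟩, he⟩
    rw [hU] at h1
    exact absurd h1 (Finset.notMem_empty e)
  have h1 := hb U
  have h2 : (G.cut U).card ≠ 2 := by
    intro h
    obtain ⟨a, b, hab, hc⟩ := Finset.card_eq_two.1 h
    have ha : a ∈ A := hsub (by rw [hc]; exact Finset.mem_insert_self a {b})
    have hb' : b ∈ A := hsub (by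
      rw [hc]
      exact Finset.mem_insert_of_mem (Finset.mem_singleton_self b))
    exact hab (hA a ha b hb' (Or.inr ⟨U, hc⟩))
  have h4 : (G.cut U).card ≠ 3 := by
    intro h
    have h5 := h3 U h
    rw [Finset.inter_eq_right.2 (hsub.trans hAM)] at h5
    omega
  omega

/-- the representative of a class, and the weight of a class -/
theorem rho (G : MG V E) (M A : Finset E) (hAM : A ⊆ M)
    (hMA : ∀ e ∈ M, ∃ f ∈ A, G.Ser e f) (hA : ∀ e ∈ A, ∀ f ∈ A, G.Ser e f → e = f) :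
    ∃ ρ : E → E, (∀ e ∈ M, ρ e ∈ A ∧ G.Ser e (ρ e)) ∧ (∀ e ∈ A, ρ e = e) ∧
      (∀ e ∈ M, ∀ f ∈ A, G.Ser e f → ρ e = f) := by
  classical
  choose! ρ hρ using hMA
  have h1 : ∀ e ∈ M, ∀ f ∈ A, G.Ser e f → ρ e = f := by
    intro e he f hf h
    exact hA _ (hρ e he).1 f hf (G.Ser_trans _ e _ (G.Ser_symm _ _ (hρ e he).2) h)
  exact ⟨ρ, hρ, fun e he => h1 e (hAM he) e he (G.Ser_refl e), h1⟩

/-- the weight of a colour class of `M` is computed on `A` with the weights of the classes -/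
theorem class_weight (G : MG V E) (M A : Finset E) (hAM : A ⊆ M)
    (hMA : ∀ e ∈ M, ∃ f ∈ A, G.Ser e f) (hA : ∀ e ∈ A, ∀ f ∈ A, G.Ser e f → e = f)
    (w : E → ℕ) (hw : ∀ e, 1 ≤ w e) :
    ∃ w' : E → ℕ, (∀ e, 1 ≤ w' e) ∧ ∀ x : E → K4, G.Fl x → ∀ k : K4,
      ∑ e ∈ M.filter (fun e => x e = k), w e = ∑ e ∈ A.filter (fun e => x e = k), w' e := by
  classical
  obtain ⟨ρ, hρ, hρA, -⟩ := G.rho M A hAM hMA hA
  refine ⟨fun f => if f ∈ A then ∑ e ∈ M.filter (fun e => ρ e = f), w e else 1, ?_, ?_⟩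
  · intro f
    by_cases hf : f ∈ A
    · simp only [if_pos hf]
      refine (hw f).trans ?_
      exact Finset.single_le_sum (f := w) (fun e _ => Nat.zero_le (w e))
        (Finset.mem_filter.2 ⟨hAM hf, hρA f hf⟩)
    · simp only [if_neg hf]
      exact le_rfl
  · intro x hx k
    have hx' : ∀ e ∈ M, x (ρ e) = x e := fun e he => (G.Fl_ser x hx e (ρ e) (hρ e he).2).symm
    have hmaps : ∀ e ∈ M.filter (fun e => x e = k), ρ e ∈ A.filter (fun e => x e = k) := by
      intro e he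
      have h1 := Finset.mem_filter.1 he
      exact Finset.mem_filter.2 ⟨(hρ e h1.1).1, by rw [hx' e h1.1]; exact h1.2⟩
    rw [← Finset.sum_fiberwise_of_maps_to hmaps]
    refine Finset.sum_congr rfl fun f hf => ?_
    have h2 := Finset.mem_filter.1 hf
    show _ = (if f ∈ A then ∑ e ∈ M.filter (fun e => ρ e = f), w e else 1)
    rw [if_pos h2.1]
    refine Finset.sum_congr ?_ fun _ _ => rfl
    ext e
    rw [Finset.mem_filter, Finset.mem_filter, Finset.mem_filter]
    constructor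
    · rintro ⟨⟨h3, -⟩, h4⟩
      exact ⟨h3, h4⟩
    · rintro ⟨h3, h4⟩
      refine ⟨⟨h3, ?_⟩, h4⟩
      rw [← hx' e h3, h4]
      exact h2.2

/-- every flow which is nonzero on `A` is nonzero on `M` -/
theorem nz_M (G : MG V E) (M A : Finset E) (hMA : ∀ e ∈ M, ∃ f ∈ A, G.Ser e f)
    (x : E → K4) (hx : G.Fl x) (hA : ∀ e ∈ A, x e ≠ 0) : ∀ e ∈ M, x e ≠ 0 := by
  intro e he
  obtain ⟨f, hf, h⟩ := hMA e he
  rw [G.Fl_ser x hx e f h]
  exact hA f hf

end MG

end Pool.Agent.Lib.MP_95e9b3_coC
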