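import Pool.Agent.Lib.MP_95e9b3_coC.Reach

/-!
# JOB SeyA: the key cut in the weighted Seymour theorem

A `J0`-join is a set `J` with `Sim J J0`. `w(J) = ∑ e ∈ J, w e`. `N0 = {e | w e = 0}`. Weights and
symmetric differences: `w(A ∆ B) = w(A) + w(B) - 2 w(A ∩ B)`.

PROOF. For vertices `x ≠ b` and `m : ℕ` let `Φ x b m` be: there is `J''` with
`∀ v, dg J'' v % 2 = (dg J0 v + [v = x] + [v = b]) % 2` and `w(J'') = m`.
Choose `x ≠ b`, `m` with `Φ x b m` and `m` minimal (`Nat.find` for `∃ x b, x ≠ b ∧ Φ x b m`).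
Existence and `m < k`: `w(Jm) = k > 0`, so there is `e ∈ Jm` with `w e > 0`; `e` is not a loop
(otherwise `Jm \ {e}` is a `J0`-join of smaller weight, against `hmin`); `J'' = Jm \ {e}` shows
`Φ (s e) (t e) (k - w e)`. So `m < k`. Let `Z = cv N0 b`. Hence `N0 ∩ cut Z = ∅` (`cv_cut`).
(1) `x ∉ Z`: otherwise `Rch_join` gives `P ⊆ N0` with odd vertices `b, x`; `J'' ∆ P` is a `J0`-join
of weight `m < k`.
(2) Every `J''` as in `Φ x b m` (for this minimal `m`) has `J'' ∩ cut Z = ∅`: suppose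
`e ∈ J'' ∩ cut Z` with ends `u ∈ Z`, `v ∉ Z`; `w e > 0`. Let `P ⊆ N0` have odd vertices `b, u`.
`(J'' \ {e}) ∆ P` has the parities of `J0 + x + v` and weight `m - w e < m`. If `v ≠ x` this
contradicts the minimality of `m`; if `v = x` it is a `J0`-join of weight `< k`.
(3) `(J0 ∩ cut Z).card` is odd: `∑ v ∈ Z, dg J'' v` is even by (2) and `sum_dg`, and it is
`≡ ∑ v ∈ Z, dg J0 v + 1` since `b ∈ Z`, `x ∉ Z`.
(4) Let `J` be a `J0`-join of weight `k`. `(J ∩ cut Z).card` is odd (`Sim_cut`). Suppose it is `≥ 3`.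
Fix `J''` with `Φ x b m`. Let `Q = J ∆ J''`; its odd vertices are exactly `x, b`; by (2)
`Q ∩ cut Z = J ∩ cut Z`. Let `Q' = Q.filter (s ∉ Z ∧ t ∉ Z)`, `C = cv Q' x`; `C` is disjoint from `Z`
(closed set `Zᶜ`). `∑ v ∈ C, dg Q v` is odd, so there is `e ∈ Q ∩ cut C`, with ends `v' ∈ C`,
`v ∉ C`; then `v ∈ Z` (otherwise `e ∈ Q'` and `v ∈ C`). `Rch_join` for `x, v'` in `Q'` gives
`P' ⊆ Q'`. `P2 = insert e P'` has odd vertices `x, v` and `P2 ∩ cut Z = {e}`. `P1 = Q \ P2` has odd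
vertices `b, v` and `(P1 ∩ cut Z).card ≥ 2`. Let `Π ⊆ N0` have odd vertices `b, v` (both are in
`Z = cv N0 b`). `S = P1 ∆ Π` is even, `w` vanishes on `Π`.
`w(J ∆ S) = w(J) - w(P1 ∩ J) + w(P1 ∩ J'') ≥ k`, so `w(P1 ∩ J'') ≥ w(P1 ∩ J)` (note
`P1 ⊆ J ∆ J''`). Then `J'' ∆ S` has the parities of `J''` and weight
`m - w(P1 ∩ J'') + w(P1 ∩ J) ≤ m`, hence `= m`; by (2) it does not meet `cut Z`; but
`(J'' ∆ S) ∩ cut Z = P1 ∩ cut Z ≠ ∅`. Contradiction.
(5) the last property: `Z = cv N0 b`.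
-/

set_option autoImplicit false

namespace Pool.Agent.Lib.MP_95e9b3_coC

open Finset
open scoped symmDiff

namespace MG

variable {V W E : Type} [Fintype V] [DecidableEq V] [Fintype W] [DecidableEq W]
  [Fintype E] [DecidableEq E]

private theorem seyA_par (G : MG V E) (A B : Finset E) (v : V) :
    G.dg (A ∆ B) v % 2 = (G.dg A v + G.dg B v) % 2 := by
  have := G.dg_symm A B v
  omega

private theorem seyA_w (w : E → ℕ) (A B : Finset E) :
    ∑ e ∈ A ∆ B, w e + 2 * ∑ e ∈ A ∩ B, w e = ∑ e ∈ A, w e + ∑ e ∈ B, w e := by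
  have h1 : ∑ e ∈ A ∆ B, w e = ∑ e ∈ A \ B, w e + ∑ e ∈ B \ A, w e := by
    rw [symmDiff_def, sup_eq_union, sum_union disjoint_sdiff_sdiff]
  have h2 := Finset.sum_inter_add_sum_sdiff A B w
  have h3 := Finset.sum_inter_add_sum_sdiff B A w
  rw [inter_comm B A] at h3
  omega

private theorem seyA_w0 (w : E → ℕ) (A P : Finset E) (hP : ∀ e ∈ P, w e = 0) :
    ∑ e ∈ A ∆ P, w e = ∑ e ∈ A, w e := by
  have h := seyA_w w A P
  have h1 : ∑ e ∈ P, w e = 0 := sum_eq_zero hP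
  have h2 : ∑ e ∈ A ∩ P, w e = 0 := sum_eq_zero fun e he => hP e (mem_inter.1 he).2
  omega

private theorem seyA_cut0 (A P D : Finset E) (hP : ∀ e ∈ P, e ∉ D) : (A ∆ P) ∩ D = A ∩ D := by
  ext e
  simp only [mem_inter, mem_symmDiff]
  constructor
  · rintro ⟨h1 | h1, h2⟩
    · exact ⟨h1.1, h2⟩
    · exact absurd h2 (hP e h1.1)
  · rintro ⟨h1, h2⟩
    exact ⟨Or.inl ⟨h1, fun h3 => hP e h3 h2⟩, h2⟩

private theorem seyA_summod (U : Finset V) (f g : V → ℕ) (h : ∀ v, f v % 2 = g v % 2) :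
    (∑ v ∈ U, f v) % 2 = (∑ v ∈ U, g v) % 2 := by
  rw [Finset.sum_nat_mod, Finset.sum_nat_mod U 2 g]
  rw [Finset.sum_congr rfl fun v _ => h v]

private theorem seyA_cutpar (G : MG V E) (A B : Finset E) (x b : V)
    (h : ∀ v, G.dg A v % 2 =
      (G.dg B v + (if v = x then 1 else 0) + (if v = b then 1 else 0)) % 2) (U : Finset V) :
    (A ∩ G.cut U).card % 2 =
      ((B ∩ G.cut U).card + (if x ∈ U then 1 else 0) + (if b ∈ U then 1 else 0)) % 2 := by
  have h1 := G.sum_dg A U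
  have h2 := G.sum_dg B U
  have h3 := seyA_summod U _ _ h
  rw [sum_add_distrib, sum_add_distrib, Finset.sum_ite_eq' U x (fun _ => 1),
    Finset.sum_ite_eq' U b (fun _ => 1)] at h3
  omega

private theorem seyA_end (G : MG V E) (Z : Finset V) (e : E) (h : e ∈ G.cut Z) :
    ∃ u ∈ Z, ∃ v, v ∉ Z ∧ G.Jn e u v := by
  rw [mem_cut] at h
  by_cases h1 : G.s e ∈ Z
  · by_cases h2 : G.t e ∈ Z
    · exact absurd (iff_of_true h1 h2) h
    · exact ⟨_, h1, _, h2, Or.inl ⟨rfl, rfl⟩⟩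
  · by_cases h2 : G.t e ∈ Z
    · exact ⟨_, h2, _, h1, Or.inr ⟨rfl, rfl⟩⟩
    · exact absurd (iff_of_false h1 h2) h

private theorem seyA_erase (G : MG V E) (J : Finset E) (e : E) (he : e ∈ J) (v : V) :
    G.dg (J.erase e) v + G.inc e v = G.dg J v := by
  unfold dg
  exact Finset.sum_erase_add _ _ he

theorem seyA (G : MG V E) (w : E → ℕ) (J0 Jm : Finset E) (k : ℕ) (hk : 0 < k)
    (hJm : G.Sim Jm J0) (hmk : ∑ e ∈ Jm, w e = k)
    (hmin : ∀ J, G.Sim J J0 → k ≤ ∑ e ∈ J, w e) :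
    ∃ Z : Finset V, Odd (J0 ∩ G.cut Z).card ∧ (∀ e ∈ G.cut Z, 1 ≤ w e) ∧
      (∀ J, G.Sim J J0 → ∑ e ∈ J, w e = k → (J ∩ G.cut Z).card = 1) ∧
      (∀ u ∈ Z, ∀ v ∈ Z, G.Rch (Finset.univ.filter (fun e => w e = 0)) u v) := by
  classical
  set N0 : Finset E := Finset.univ.filter (fun e => w e = 0) with hN0
  have hex : ∃ m : ℕ, ∃ x b : V, x ≠ b ∧ ∃ J'' : Finset E, (∀ v, G.dg J'' v % 2 =
      (G.dg J0 v + (if v = x then 1 else 0) + (if v = b then 1 else 0)) % 2) ∧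
      ∑ e ∈ J'', w e = m ∧ m < k := by
    have h1 : ∃ e ∈ Jm, 0 < w e := by
      by_contra hcon
      push Not at hcon
      have h2 : ∑ e ∈ Jm, w e = 0 := sum_eq_zero fun e he => Nat.le_zero.1 (hcon e he)
      omega
    obtain ⟨e, he, hwe⟩ := h1
    have hsum : ∑ f ∈ Jm.erase e, w f + w e = k := by
      rw [← hmk]
      exact Finset.sum_erase_add _ _ he
    have hne : G.s e ≠ G.t e := by
      intro hst
      have h3 : G.Sim (Jm.erase e) J0 := by
        intro v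
        have h4 := seyA_erase G Jm e he v
        have h5 := hJm v
        have h6 : G.inc e v % 2 = 0 := by
          unfold inc
          rw [hst]
          split_ifs <;> rfl
        omega
      have h7 := hmin _ h3
      omega
    refine ⟨∑ f ∈ Jm.erase e, w f, G.s e, G.t e, hne, Jm.erase e, ?_, rfl, by omega⟩
    intro v
    have h4 := seyA_erase G Jm e he v
    have h5 := hJm v
    have h6 := G.inc_Jn e (G.s e) (G.t e) (Or.inl ⟨rfl, rfl⟩) v
    omega
  set m := Nat.find hex with hm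
  obtain ⟨x, b, hxb, J2, hJ2, hw2, hmk2⟩ := Nat.find_spec hex
  rw [← hm] at hw2 hmk2
  have hminP : ∀ x' b' : V, x' ≠ b' → ∀ J' : Finset E, (∀ v, G.dg J' v % 2 =
      (G.dg J0 v + (if v = x' then 1 else 0) + (if v = b' then 1 else 0)) % 2) →
      m ≤ ∑ e ∈ J', w e := by
    intro x' b' hx' J' hJ'
    by_contra hlt
    push Not at hlt
    exact Nat.find_min hex hlt ⟨x', b', hx', J', hJ', rfl, by omega⟩
  clear_value m
  set Z : Finset V := G.cv N0 b with hZ
  have hZcut : N0 ∩ G.cut Z = ∅ := G.cv_cut N0 b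
  have hcw : ∀ e ∈ G.cut Z, 1 ≤ w e := by
    intro e he
    by_contra hcon
    have h1 : e ∈ N0 ∩ G.cut Z := by
      rw [mem_inter, hN0, mem_filter]
      exact ⟨⟨mem_univ _, by omega⟩, he⟩
    rw [hZcut] at h1
    exact absurd h1 (notMem_empty e)
  have hbZ : b ∈ Z := (G.mem_cv N0 b b).2 (G.Rch_refl N0 b)
  have hzr : ∀ u ∈ Z, ∀ v ∈ Z, G.Rch N0 u v := by
    intro u hu v hv
    exact G.Rch_trans N0 u b v (G.Rch_symm N0 b u ((G.mem_cv N0 b u).1 hu))
      ((G.mem_cv N0 b v).1 hv)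
  have hN0w : ∀ P : Finset E, P ⊆ N0 → ∀ e ∈ P, w e = 0 := by
    intro P hP e he
    have h1 := hP he
    rw [hN0, mem_filter] at h1
    exact h1.2
  -- (1)
  have hxZ : x ∉ Z := by
    intro hxZ
    obtain ⟨P, hP, hPp⟩ := G.Rch_join N0 b x (hzr b hbZ x hxZ)
    have h1 : G.Sim (J2 ∆ P) J0 := by
      intro v
      have h2 := seyA_par G J2 P v
      have h3 := hJ2 v
      have h4 := hPp v
      omega
    have h5 := hmin _ h1
    rw [seyA_w0 w J2 P (hN0w P hP)] at h5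
    omega
  -- (2)
  have h2c : ∀ J' : Finset E, (∀ v, G.dg J' v % 2 =
      (G.dg J0 v + (if v = x then 1 else 0) + (if v = b then 1 else 0)) % 2) →
      ∑ e ∈ J', w e ≤ m → ∀ e ∈ J', e ∉ G.cut Z := by
    intro J' hJ' hwJ' e he hec
    obtain ⟨u, hu, v, hv, hj⟩ := seyA_end G Z e hec
    have hwe := hcw e hec
    obtain ⟨P, hP, hPp⟩ := G.Rch_join N0 b u (hzr b hbZ u hu)
    have hsum : ∑ f ∈ J'.erase e, w f + w e = ∑ f ∈ J', w f := Finset.sum_erase_add _ _ he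
    have hw3 := seyA_w0 w (J'.erase e) P (hN0w P hP)
    have hpar3 : ∀ y, G.dg ((J'.erase e) ∆ P) y % 2 =
        (G.dg J0 y + (if y = x then 1 else 0) + (if y = v then 1 else 0)) % 2 := by
      intro y
      have h2 := seyA_par G (J'.erase e) P y
      have h3 := hJ' y
      have h4 := hPp y
      have h5 := seyA_erase G J' e he y
      have h6 := G.inc_Jn e u v hj y
      omega
    by_cases hvx : x = v
    · have h1 : G.Sim ((J'.erase e) ∆ P) J0 := by
        intro y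
        have h2 := hpar3 y
        rw [hvx] at h2
        omega
      have h5 := hmin _ h1
      omega
    · have h5 := hminP x v hvx _ hpar3
      omega
  have hJ2c : ∀ e ∈ J2, e ∉ G.cut Z := h2c J2 hJ2 (by omega)
  -- (3)
  have hodd : Odd (J0 ∩ G.cut Z).card := by
    have h1 := seyA_cutpar G J2 J0 x b hJ2 Z
    have h2 : J2 ∩ G.cut Z = ∅ := by
      ext e
      simp only [mem_inter, notMem_empty, iff_false]
      exact fun h => hJ2c e h.1 h.2
    rw [h2, card_empty, if_neg hxZ, if_pos hbZ] at h1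
    rw [Nat.odd_iff]
    omega
  refine ⟨Z, hodd, hcw, ?_, hzr⟩
  -- (4)
  intro J hJ hwJ
  by_contra hcard
  have hJodd := G.Sim_cut J J0 hJ Z
  rw [Nat.odd_iff] at hodd
  have hcard3 : 1 < (J ∩ G.cut Z).card := by omega
  set Q : Finset E := J ∆ J2 with hQ
  have hQp : ∀ v, G.dg Q v % 2 =
      (G.dg (∅ : Finset E) v + (if v = x then 1 else 0) + (if v = b then 1 else 0)) % 2 := by
    intro v
    have h2 := seyA_par G J J2 v
    have h3 := hJ v
    have h4 := hJ2 v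
    have h5 := G.dg_empty v
    rw [← hQ] at h2
    omega
  have hQc : Q ∩ G.cut Z = J ∩ G.cut Z := seyA_cut0 J J2 _ hJ2c
  set Q' : Finset E := Q.filter (fun e => G.s e ∉ Z ∧ G.t e ∉ Z) with hQ'
  have hQ'c : ∀ e ∈ Q', e ∉ G.cut Z := by
    intro e he hec
    rw [hQ', mem_filter] at he
    rw [mem_cut] at hec
    exact hec (iff_of_false he.2.1 he.2.2)
  set C : Finset V := G.cv Q' x with hC
  have hCZ : ∀ y ∈ C, y ∉ Z := by
    intro y hy
    have h1 : Q' ∩ G.cut Zᶜ = ∅ := by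
      rw [cut_compl]
      ext e
      simp only [mem_inter, notMem_empty, iff_false]
      exact fun h => hQ'c e h.1 h.2
    have h2 := G.closed_Rch Q' Zᶜ h1 x y (mem_compl.2 hxZ) ((G.mem_cv Q' x y).1 hy)
    exact mem_compl.1 h2
  have hxC : x ∈ C := (G.mem_cv Q' x x).2 (G.Rch_refl Q' x)
  have hbC : b ∉ C := fun h => hCZ b h hbZ
  have hQC : (Q ∩ G.cut C).card % 2 = 1 := by
    have h1 := seyA_cutpar G Q ∅ x b hQp C
    rw [if_pos hxC, if_neg hbC, empty_inter, card_empty] at h1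
    omega
  have hne : (Q ∩ G.cut C).Nonempty := by
    rw [← card_pos]
    omega
  obtain ⟨e, he⟩ := hne
  rw [mem_inter] at he
  obtain ⟨v', hv', v, hv, hj⟩ := seyA_end G C e he.2
  have hvZ : v ∈ Z := by
    by_contra hvZ
    have h1 : e ∈ Q' := by
      rw [hQ', mem_filter]
      refine ⟨he.1, ?_⟩
      rcases hj with hj | hj
      · rw [hj.1, hj.2]
        exact ⟨hCZ v' hv', hvZ⟩
      · rw [hj.1, hj.2]
        exact ⟨hvZ, hCZ v' hv'⟩
    apply hv
    rw [hC, mem_cv] at hv' ⊢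
    refine G.Rch_trans Q' x v' v hv' ?_
    have h2 := G.Rch_edge Q' e h1
    rcases hj with hj | hj
    · rw [hj.1, hj.2] at h2
      exact h2
    · rw [hj.1, hj.2] at h2
      exact G.Rch_symm Q' _ _ h2
  have heQ' : e ∉ Q' := by
    intro h
    rw [hQ', mem_filter] at h
    rcases hj with hj | hj
    · rw [hj.2] at h
      exact h.2.2 hvZ
    · rw [hj.1] at h
      exact h.2.1 hvZ
  obtain ⟨P', hP', hPp'⟩ := G.Rch_join Q' x v' ((G.mem_cv Q' x v').1 hv')
  have heP' : e ∉ P' := fun h => heQ' (hP' h)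
  set P2 : Finset E := insert e P' with hP2
  have hP2d : ∀ y, G.dg P2 y = G.inc e y + G.dg P' y := by
    intro y
    unfold dg
    rw [hP2, sum_insert heP']
  have hP2Q : P2 ⊆ Q := by
    intro f hf
    rw [hP2, mem_insert] at hf
    rcases hf with rfl | hf
    · exact he.1
    · exact (mem_filter.1 (hP' hf)).1
  set P1 : Finset E := Q \ P2 with hP1
  have hP1Q : P1 ⊆ Q := sdiff_subset
  have hP1p : ∀ y, G.dg P1 y % 2 =
      ((if y = b then 1 else 0) + (if y = v then 1 else 0)) % 2 := by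
    intro y
    have h1 := G.dg_sdiff P2 Q hP2Q y
    have h2 := hP2d y
    have h3 := hPp' y
    have h4 := hQp y
    have h5 := G.dg_empty y
    have h6 := G.inc_Jn e v' v hj y
    rw [← hP1] at h1
    omega
  obtain ⟨f, hf, hfe⟩ := Finset.exists_mem_ne hcard3 e
  have hfQ : f ∈ Q ∩ G.cut Z := by
    rw [hQc]
    exact hf
  rw [mem_inter] at hf hfQ
  have hfP1 : f ∈ P1 := by
    rw [hP1, mem_sdiff, hP2, mem_insert]
    refine ⟨hfQ.1, ?_⟩
    rintro (h | h)
    · exact hfe h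
    · exact hQ'c f (hP' h) hf.2
  obtain ⟨Pi, hPi, hPip⟩ := G.Rch_join N0 b v (hzr b hbZ v hvZ)
  have hfPi : f ∉ Pi := by
    intro h
    have h1 := hN0w Pi hPi f h
    have h2 := hcw f hf.2
    omega
  have hSev : G.Ev (P1 ∆ Pi) := by
    intro y
    have h1 := seyA_par G P1 Pi y
    have h2 := hP1p y
    have h3 := hPip y
    rw [Nat.even_iff]
    omega
  have hk1 := hmin _ (G.Sim_symmDiff J J0 (P1 ∆ Pi) hJ hSev)
  have e1 : J ∆ (P1 ∆ Pi) = (J ∆ P1) ∆ Pi := (symmDiff_assoc _ _ _).symm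
  have e2 : J2 ∆ (P1 ∆ Pi) = (J2 ∆ P1) ∆ Pi := (symmDiff_assoc _ _ _).symm
  rw [e1, seyA_w0 w _ Pi (hN0w Pi hPi)] at hk1
  have hw1 := seyA_w w J P1
  have hw2' := seyA_w w J2 P1
  have hwP1 : ∑ e ∈ P1, w e = ∑ e ∈ J ∩ P1, w e + ∑ e ∈ J2 ∩ P1, w e := by
    rw [← sum_union]
    · congr 1
      ext g
      rw [mem_union, mem_inter, mem_inter]
      constructor
      · intro hg
        have h1 := hP1Q hg
        rw [hQ, mem_symmDiff] at h1
        rcases h1 with h1 | h1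
        · exact Or.inl ⟨h1.1, hg⟩
        · exact Or.inr ⟨h1.1, hg⟩
      · rintro (h | h)
        · exact h.2
        · exact h.2
    · rw [Finset.disjoint_left]
      intro g hg hg2
      rw [mem_inter] at hg hg2
      have h1 := hP1Q hg.2
      rw [hQ, mem_symmDiff] at h1
      rcases h1 with h1 | h1
      · exact h1.2 hg2.1
      · exact h1.2 hg.1
  have hpar4 : ∀ y, G.dg (J2 ∆ (P1 ∆ Pi)) y % 2 =
      (G.dg J0 y + (if y = x then 1 else 0) + (if y = b then 1 else 0)) % 2 := by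
    intro y
    have h1 := seyA_par G J2 (P1 ∆ Pi) y
    have h2 := hJ2 y
    have h3 := hSev y
    rw [Nat.even_iff] at h3
    omega
  have hw4 : ∑ e ∈ J2 ∆ (P1 ∆ Pi), w e ≤ m := by
    rw [e2, seyA_w0 w _ Pi (hN0w Pi hPi)]
    omega
  refine h2c _ hpar4 hw4 f ?_ hf.2
  rw [mem_symmDiff, mem_symmDiff]
  exact Or.inr ⟨Or.inl ⟨hfP1, hfPi⟩, fun h => hJ2c f h hf.2⟩

end MG

end Pool.Agent.Lib.MP_95e9b3_coC
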