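import Pool.Agent.Lib.MP_95e9b3_coC.Defs

/-!
# JOB SixA: a finite check for circuits with six edges

`c : Fin 6 → K4` are the values of the six edges of `M` at the vertices of a circuit with six edges; the
values on the circuit are the partial sums `∑ j ∈ Finset.univ.filter (· ≤ i), c j` up to a constant. The
six positions are divided into two triples by the bijection `p : Fin 2 × Fin 3 ≃ Fin 6`, on each
triple the three nonzero values are placed in the order given by a permutation. For at least `6` of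
the `36` pairs of permutations the partial sums miss a value (up to the constant).
Checked by computer: the minimum over the `10` unordered bipartitions is exactly `6`.
`col : Fin 3 → K4`, `0 ↦ (1,0)`, `1 ↦ (0,1)`, `2 ↦ (1,1)`.
Hint: the number depends only on the set `T = {p (0, j)}` (reparametrise the permutations), and
there are 20 sets `T`; for each of them it is enough to exhibit 6 pairs of permutations, or use
`decide` on a reformulation with `List` or `Bool` valued functions. `decide` with the kernel option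
(`decide +kernel`) is allowed, `native_decide` is not. Another formulation: the number of functions
`c : Fin 6 → Fin 3` whose restrictions to `T` and to the complement are bijections and which miss a
value is at least 6, for each of the 20 sets `T` with three elements.
-/

set_option autoImplicit false

namespace Pool.Agent.Lib.MP_95e9b3_coC

/-- the three nonzero elements -/
def col : Fin 3 → K4 := ![(1, 0), (0, 1), (1, 1)]

/-- the partial sums of `c` miss a value -/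
def mis6 (c : Fin 6 → K4) : Prop :=
  ∃ k : K4, ∀ i : Fin 6, ∑ j ∈ Finset.univ.filter (fun j => j ≤ i), c j ≠ k

/-- the partial sums -/
private def SixA_s (c : Fin 6 → K4) : Fin 6 → K4 :=
  ![c 0, c 0 + c 1, c 0 + c 1 + c 2, c 0 + c 1 + c 2 + c 3, c 0 + c 1 + c 2 + c 3 + c 4,
    c 0 + c 1 + c 2 + c 3 + c 4 + c 5]

private theorem SixA_sum (c : Fin 6 → K4) (i : Fin 6) :
    ∑ j ∈ Finset.univ.filter (fun j => j ≤ i), c j = SixA_s c i := by
  have h0 : ∀ d : Fin 6 → K4, ∑ j, d j = d 0 + d 1 + d 2 + d 3 + d 4 + d 5 := by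
    intro d
    rw [Fin.sum_univ_six]
  rw [Finset.sum_filter, h0]
  fin_cases i <;> simp [SixA_s, Fin.le_def]

private def SixA_mis (c : Fin 6 → K4) : Bool :=
  [(0, 0), (1, 0), (0, 1), (1, 1)].any fun k =>
    decide (c 0 ≠ k) && (decide (c 0 + c 1 ≠ k) && (decide (c 0 + c 1 + c 2 ≠ k) &&
      (decide (c 0 + c 1 + c 2 + c 3 ≠ k) && (decide (c 0 + c 1 + c 2 + c 3 + c 4 ≠ k) &&
        decide (c 0 + c 1 + c 2 + c 3 + c 4 + c 5 ≠ k)))))

private theorem SixA_mis6 (c : Fin 6 → K4) (h : SixA_mis c = true) : mis6 c := by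
  unfold SixA_mis at h
  rw [List.any_eq_true] at h
  obtain ⟨k, _, hk⟩ := h
  rw [Bool.and_eq_true, Bool.and_eq_true, Bool.and_eq_true, Bool.and_eq_true, Bool.and_eq_true,
    decide_eq_true_iff, decide_eq_true_iff, decide_eq_true_iff, decide_eq_true_iff,
    decide_eq_true_iff, decide_eq_true_iff] at hk
  obtain ⟨h0, h1, h2, h3, h4, h5⟩ := hk
  refine ⟨k, fun i => ?_⟩
  rw [SixA_sum]
  fin_cases i
  · exact h0
  · exact h1
  · exact h2
  · exact h3
  · exact h4
  · exact h5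

/-- the positions of `true` and of `false` are mapped injectively -/
private def SixA_inj (τ : Fin 6 → Bool) (c : Fin 6 → Fin 3) : Bool :=
  decide (∀ i j : Fin 6, i < j → τ i = τ j → c i ≠ c j)

private def SixA_good (τ : Fin 6 → Bool) (c : Fin 6 → Fin 3) : Bool :=
  SixA_inj τ c && SixA_mis (fun i => col (c i))

private def SixA_all : List (Fin 6 → Fin 3) :=
  [![0, 0, 1, 1, 2, 2], ![0, 0, 1, 2, 1, 2], ![0, 0, 1, 2, 2, 1], ![0, 0, 2, 1, 1, 2],
   ![0, 0, 2, 1, 2, 1], ![0, 0, 2, 2, 1, 1], ![0, 1, 0, 1, 2, 2], ![0, 1, 0, 2, 1, 2],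
   ![0, 1, 0, 2, 2, 1], ![0, 1, 1, 0, 2, 2], ![0, 1, 1, 2, 0, 2], ![0, 1, 1, 2, 2, 0],
   ![0, 1, 2, 0, 1, 2], ![0, 1, 2, 0, 2, 1], ![0, 1, 2, 1, 0, 2], ![0, 1, 2, 1, 2, 0],
   ![0, 1, 2, 2, 0, 1], ![0, 1, 2, 2, 1, 0], ![0, 2, 0, 1, 1, 2], ![0, 2, 0, 1, 2, 1],
   ![0, 2, 0, 2, 1, 1], ![0, 2, 1, 0, 1, 2], ![0, 2, 1, 0, 2, 1], ![0, 2, 1, 1, 0, 2],
   ![0, 2, 1, 1, 2, 0], ![0, 2, 1, 2, 0, 1], ![0, 2, 1, 2, 1, 0], ![0, 2, 2, 0, 1, 1],
   ![0, 2, 2, 1, 0, 1], ![0, 2, 2, 1, 1, 0], ![1, 0, 0, 1, 2, 2], ![1, 0, 0, 2, 1, 2],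
   ![1, 0, 0, 2, 2, 1], ![1, 0, 1, 0, 2, 2], ![1, 0, 1, 2, 0, 2], ![1, 0, 1, 2, 2, 0],
   ![1, 0, 2, 0, 1, 2], ![1, 0, 2, 0, 2, 1], ![1, 0, 2, 1, 0, 2], ![1, 0, 2, 1, 2, 0],
   ![1, 0, 2, 2, 0, 1], ![1, 0, 2, 2, 1, 0], ![1, 1, 0, 0, 2, 2], ![1, 1, 0, 2, 0, 2],
   ![1, 1, 0, 2, 2, 0], ![1, 1, 2, 0, 0, 2], ![1, 1, 2, 0, 2, 0], ![1, 1, 2, 2, 0, 0],
   ![1, 2, 0, 0, 1, 2], ![1, 2, 0, 0, 2, 1], ![1, 2, 0, 1, 0, 2], ![1, 2, 0, 1, 2, 0],
   ![1, 2, 0, 2, 0, 1], ![1, 2, 0, 2, 1, 0], ![1, 2, 1, 0, 0, 2], ![1, 2, 1, 0, 2, 0],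
   ![1, 2, 1, 2, 0, 0], ![1, 2, 2, 0, 0, 1], ![1, 2, 2, 0, 1, 0], ![1, 2, 2, 1, 0, 0],
   ![2, 0, 0, 1, 1, 2], ![2, 0, 0, 1, 2, 1], ![2, 0, 0, 2, 1, 1], ![2, 0, 1, 0, 1, 2],
   ![2, 0, 1, 0, 2, 1], ![2, 0, 1, 1, 0, 2], ![2, 0, 1, 1, 2, 0], ![2, 0, 1, 2, 0, 1],
   ![2, 0, 1, 2, 1, 0], ![2, 0, 2, 0, 1, 1], ![2, 0, 2, 1, 0, 1], ![2, 0, 2, 1, 1, 0],
   ![2, 1, 0, 0, 1, 2], ![2, 1, 0, 0, 2, 1], ![2, 1, 0, 1, 0, 2], ![2, 1, 0, 1, 2, 0],
   ![2, 1, 0, 2, 0, 1], ![2, 1, 0, 2, 1, 0], ![2, 1, 1, 0, 0, 2], ![2, 1, 1, 0, 2, 0],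
   ![2, 1, 1, 2, 0, 0], ![2, 1, 2, 0, 0, 1], ![2, 1, 2, 0, 1, 0], ![2, 1, 2, 1, 0, 0],
   ![2, 2, 0, 0, 1, 1], ![2, 2, 0, 1, 0, 1], ![2, 2, 0, 1, 1, 0], ![2, 2, 1, 0, 0, 1],
   ![2, 2, 1, 0, 1, 0], ![2, 2, 1, 1, 0, 0]]

private def SixA_l (τ : Fin 6 → Bool) : List (Fin 6 → Fin 3) := (SixA_all.filter (SixA_good τ)).take 6

private def SixA_ok (τ : Fin 6 → Bool) : Bool :=
  !(decide ((Finset.univ.filter (fun i : Fin 6 => τ i = true)).card = 3)) ||
    (decide (SixA_l τ).Nodup && decide ((SixA_l τ).length = 6))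

private theorem SixA_check : ∀ a b c d e f : Bool, SixA_ok ![a, b, c, d, e, f] = true := by
  decide +kernel

open Classical in
theorem six_check (p : (Fin 2 × Fin 3) ≃ Fin 6) :
    6 ≤ (Finset.univ.filter (fun q : Equiv.Perm (Fin 3) × Equiv.Perm (Fin 3) =>
      mis6 (fun i => if (p.symm i).1 = 0 then col (q.1 (p.symm i).2)
        else col (q.2 (p.symm i).2)))).card := by
  -- the set of the positions of the first triple
  set τ : Fin 6 → Bool := fun i => decide ((p.symm i).1 = 0) with hτ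
  have hτ0 : ∀ j, τ (p (0, j)) = true := by
    intro j
    simp [hτ]
  have hτ1 : ∀ j, τ (p (1, j)) = false := by
    intro j
    simp [hτ]
  have hcount : (Finset.univ.filter (fun i : Fin 6 => τ i = true)).card = 3 := by
    have h2 : (Finset.univ.filter (fun i : Fin 6 => τ i = true)) =
        (Finset.univ.filter (fun x : Fin 2 × Fin 3 => x.1 = 0)).map p.toEmbedding := by
      ext i
      simp only [Finset.mem_filter, Finset.mem_univ, true_and, Finset.mem_map,
        Equiv.coe_toEmbedding, hτ, decide_eq_true_iff]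
      constructor
      · intro h
        exact ⟨p.symm i, h, p.apply_symm_apply i⟩
      · rintro ⟨x, hx, rfl⟩
        rw [p.symm_apply_apply]
        exact hx
    rw [h2, Finset.card_map]
    decide
  have hvec : ![τ 0, τ 1, τ 2, τ 3, τ 4, τ 5] = τ := by
    funext i
    fin_cases i <;> rfl
  have hok := SixA_check (τ 0) (τ 1) (τ 2) (τ 3) (τ 4) (τ 5)
  rw [hvec] at hok
  unfold SixA_ok at hok
  rw [hcount] at hok
  simp only [decide_true, Bool.not_true, Bool.false_or, Bool.and_eq_true, decide_eq_true_iff] at hok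
  obtain ⟨hnd, hlen⟩ := hok
  -- good functions
  have hgood : ∀ c ∈ SixA_l τ, (∀ i j : Fin 6, i ≠ j → τ i = τ j → c i ≠ c j) ∧
      mis6 (fun i => col (c i)) := by
    intro c hc
    have h1 : c ∈ SixA_all.filter (SixA_good τ) := List.mem_of_mem_take hc
    rw [List.mem_filter] at h1
    have h2 := h1.2
    unfold SixA_good at h2
    rw [Bool.and_eq_true] at h2
    have h3 : ∀ i j : Fin 6, i < j → τ i = τ j → c i ≠ c j := of_decide_eq_true h2.1
    refine ⟨?_, SixA_mis6 _ h2.2⟩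
    intro i j hij he
    rcases lt_or_gt_of_ne hij with h | h
    · exact h3 i j h he
    · exact (h3 j i h he.symm).symm
  have hb : ∀ c ∈ SixA_l τ, ∀ a : Fin 2, Function.Bijective (fun j => c (p (a, j))) := by
    intro c hc a
    rw [Finite.injective_iff_bijective.symm]
    intro j j' he
    by_contra hne
    have hne' : p (a, j) ≠ p (a, j') := by
      intro h
      have := p.injective h
      exact hne (Prod.mk.inj this).2
    refine (hgood c hc).1 _ _ hne' ?_ he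
    fin_cases a
    · exact (hτ0 j).trans (hτ0 j').symm
    · exact (hτ1 j).trans (hτ1 j').symm
  let Ψ : (Fin 6 → Fin 3) → Equiv.Perm (Fin 3) × Equiv.Perm (Fin 3) := fun c =>
    if h : ∀ a : Fin 2, Function.Bijective (fun j => c (p (a, j))) then
      (Equiv.ofBijective _ (h 0), Equiv.ofBijective _ (h 1)) else (1, 1)
  have hΨ : ∀ c ∈ SixA_l τ, ∀ i, (if (p.symm i).1 = 0 then (Ψ c).1 (p.symm i).2
      else (Ψ c).2 (p.symm i).2) = c i := by
    intro c hc i
    have e : Ψ c = (Equiv.ofBijective _ (hb c hc 0), Equiv.ofBijective _ (hb c hc 1)) := dif_pos (hb c hc)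
    rw [e]
    obtain ⟨⟨a, j⟩, rfl⟩ := p.surjective i
    rw [p.symm_apply_apply]
    by_cases ha : a = 0
    · subst ha
      rw [if_pos rfl]
      rfl
    · have ha1 : a = 1 := by
        fin_cases a
        · exact absurd rfl ha
        · rfl
      subst ha1
      rw [if_neg ha]
      rfl
  have hcard : (SixA_l τ).toFinset.card = 6 := by
    rw [List.toFinset_card_of_nodup hnd, hlen]
  refine hcard.symm.le.trans (Finset.card_le_card_of_injOn Ψ ?_ ?_)
  · intro c hc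
    rw [Finset.mem_coe, List.mem_toFinset] at hc
    rw [Finset.mem_coe, Finset.mem_filter]
    refine ⟨Finset.mem_univ _, ?_⟩
    have h1 := (hgood c hc).2
    have h2 : (fun i => if (p.symm i).1 = 0 then col ((Ψ c).1 (p.symm i).2)
        else col ((Ψ c).2 (p.symm i).2)) = fun i => col (c i) := by
      funext i
      rw [← hΨ c hc i]
      split_ifs <;> rfl
    rw [h2]
    exact h1
  · intro c hc c' hc' he
    rw [Finset.mem_coe, List.mem_toFinset] at hc hc'
    funext i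
    rw [← hΨ c hc i, ← hΨ c' hc' i, he]

end Pool.Agent.Lib.MP_95e9b3_coC
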