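import Pool.Agent.Lib.MP_95e9b3_coC.Flows
import Pool.Agent.Lib.MP_95e9b3_coC.SixA

/-!
# JOB SixB: averaging over independent permutations, and the recoloured flows

`avg6`: sum over all `σ : E → Equiv.Perm (Fin 3)`:
`∑ σ, #{v ∈ Exc | (σ (f v), σ (f' v)) ∈ Q v} = ∑ v ∈ Exc, #{σ | (σ (f v), σ (f' v)) ∈ Q v}`. For
`f v ≠ f' v` the map `σ ↦ (σ (f v), σ (f' v))` has all fibres of the same size (`36 * fibre = #σ`;
e.g. compare fibres with `Function.update`, or use `Fintype.piFinset`), so the inner number is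
`≥ 6 * #σ / 36`. So some `σ` is at least average.

`bundle_flow`: `y e = col (σ e 1)` for `e ∈ 𝒢`, `y (πa f) = col (σ f 0)`, `y (πb f) = col (σ f 2)` for
`f ∈ 𝒢`, `y = x` elsewhere. The sets `𝒢`, `πa 𝒢`, `πb 𝒢` are pairwise disjoint because `x` has
different values on them, and `πa`, `πb` are injective on `𝒢`. For every vertex `v` the sum of
`inc e v • y e` over `e ∈ {πa f, f, πb f}` is `inc f v • (col 0 + col 1 + col 2) = 0`, the same as for
`x`; so `Fl y`.
-/

set_option autoImplicit false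

namespace Pool.Agent.Lib.MP_95e9b3_coC

open Finset
open scoped symmDiff

private theorem sixB_fib {E : Type} [Fintype E] [DecidableEq E] (a b : E) (hab : a ≠ b)
    (Q : Finset (Equiv.Perm (Fin 3) × Equiv.Perm (Fin 3))) (hQ : 6 ≤ Q.card) :
    Fintype.card (E → Equiv.Perm (Fin 3)) ≤
      6 * (Finset.univ.filter (fun σ : E → Equiv.Perm (Fin 3) => (σ a, σ b) ∈ Q)).card := by
  classical
  have hfib : ∀ g : Equiv.Perm (Fin 3) × Equiv.Perm (Fin 3),
      (Finset.univ.filter (fun σ : E → Equiv.Perm (Fin 3) => (σ a, σ b) = g)).card =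
      (Finset.univ.filter (fun σ : E → Equiv.Perm (Fin 3) => (σ a, σ b) = (1, 1))).card := by
    intro g
    let τ : E → Equiv.Perm (Fin 3) :=
      Function.update (Function.update (fun _ => (1 : Equiv.Perm (Fin 3))) a g.1) b g.2
    have ha : τ a = g.1 := by
      change Function.update (Function.update (fun _ => (1 : Equiv.Perm (Fin 3))) a g.1) b g.2 a =
        g.1
      rw [Function.update_of_ne hab, Function.update_self]
    have hb : τ b = g.2 := by
      change Function.update (Function.update (fun _ => (1 : Equiv.Perm (Fin 3))) a g.1) b g.2 b =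
        g.2
      rw [Function.update_self]
    symm
    apply Finset.card_bij (fun σ _ => fun e => τ e * σ e)
    · intro σ hσ
      rw [mem_filter] at hσ ⊢
      refine ⟨mem_univ _, ?_⟩
      have h1 := Prod.mk.inj hσ.2
      change (τ a * σ a, τ b * σ b) = g
      rw [h1.1, h1.2, mul_one, mul_one, ha, hb]
    · intro σ _ σ' _ h
      funext e
      have h1 := congrFun h e
      exact mul_left_cancel h1
    · intro σ hσ
      rw [mem_filter] at hσ
      refine ⟨fun e => (τ e)⁻¹ * σ e, ?_, ?_⟩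
      · rw [mem_filter]
        refine ⟨mem_univ _, ?_⟩
        have h1 : σ a = g.1 := congrArg Prod.fst hσ.2
        have h2 : σ b = g.2 := congrArg Prod.snd hσ.2
        change ((τ a)⁻¹ * σ a, (τ b)⁻¹ * σ b) = (1, 1)
        rw [h1, h2, ha, hb, inv_mul_cancel, inv_mul_cancel]
      · funext e
        exact mul_inv_cancel_left (τ e) (σ e)
  set K := (Finset.univ.filter (fun σ : E → Equiv.Perm (Fin 3) => (σ a, σ b) = (1, 1))).card
    with hK
  have h1 : Fintype.card (E → Equiv.Perm (Fin 3)) = 36 * K := by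
    have h2 := Finset.card_eq_sum_card_fiberwise (s := (Finset.univ : Finset
      (E → Equiv.Perm (Fin 3)))) (t := (Finset.univ : Finset (Equiv.Perm (Fin 3) ×
      Equiv.Perm (Fin 3)))) (f := fun σ => (σ a, σ b)) (fun σ _ => by simp)
    rw [Finset.card_univ] at h2
    rw [h2, Finset.sum_congr rfl fun g _ => hfib g, Finset.sum_const, smul_eq_mul,
      Finset.card_univ]
    rfl
  have h3 : (Finset.univ.filter (fun σ : E → Equiv.Perm (Fin 3) => (σ a, σ b) ∈ Q)).card =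
      Q.card * K := by
    have h2 := Finset.card_eq_sum_card_fiberwise (s := (Finset.univ.filter
      (fun σ : E → Equiv.Perm (Fin 3) => (σ a, σ b) ∈ Q))) (t := Q)
      (f := fun σ => (σ a, σ b)) (fun σ hσ => (mem_filter.1 hσ).2)
    rw [h2]
    have h4 : ∀ g ∈ Q, ((Finset.univ.filter (fun σ : E → Equiv.Perm (Fin 3) =>
        (σ a, σ b) ∈ Q)).filter (fun σ => (σ a, σ b) = g)).card = K := by
      intro g hg
      rw [← hfib g, Finset.filter_filter]
      apply congrArg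
      apply Finset.filter_congr
      intro σ _
      constructor
      · exact fun h => h.2
      · intro h
        refine ⟨?_, h⟩
        rw [h]
        exact hg
    rw [Finset.sum_congr rfl h4, Finset.sum_const, smul_eq_mul]
  rw [h1, h3]
  have h5 := Nat.mul_le_mul_right K hQ
  omega

theorem avg6 {V E : Type} [Fintype E] [DecidableEq E] [DecidableEq V] (Exc : Finset V)
    (f f' : V → E)
    (hne : ∀ v ∈ Exc, f v ≠ f' v) (Q : V → Finset (Equiv.Perm (Fin 3) × Equiv.Perm (Fin 3)))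
    (hQ : ∀ v ∈ Exc, 6 ≤ (Q v).card) :
    ∃ σ : E → Equiv.Perm (Fin 3),
      Exc.card ≤ 6 * (Exc.filter (fun v => (σ (f v), σ (f' v)) ∈ Q v)).card := by
  classical
  have h1 : ∀ v ∈ Exc, Fintype.card (E → Equiv.Perm (Fin 3)) ≤
      6 * (Finset.univ.filter (fun σ : E → Equiv.Perm (Fin 3) =>
        (σ (f v), σ (f' v)) ∈ Q v)).card :=
    fun v hv => sixB_fib (f v) (f' v) (hne v hv) (Q v) (hQ v hv)
  have h2 : ∑ _σ : E → Equiv.Perm (Fin 3), Exc.card ≤
      ∑ σ : E → Equiv.Perm (Fin 3),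
        6 * (Exc.filter (fun v => (σ (f v), σ (f' v)) ∈ Q v)).card := by
    rw [← Finset.mul_sum]
    have h3 : ∑ σ : E → Equiv.Perm (Fin 3),
        (Exc.filter (fun v => (σ (f v), σ (f' v)) ∈ Q v)).card =
        ∑ v ∈ Exc, (Finset.univ.filter (fun σ : E → Equiv.Perm (Fin 3) =>
          (σ (f v), σ (f' v)) ∈ Q v)).card := by
      simp only [Finset.card_filter]
      exact Finset.sum_comm
    rw [h3, Finset.mul_sum, Finset.sum_const, smul_eq_mul, Finset.card_univ, mul_comm]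
    calc Exc.card * Fintype.card (E → Equiv.Perm (Fin 3))
        = ∑ _v ∈ Exc, Fintype.card (E → Equiv.Perm (Fin 3)) := by
          rw [Finset.sum_const, smul_eq_mul]
      _ ≤ _ := Finset.sum_le_sum h1
  obtain ⟨σ, _, hσ⟩ := Finset.exists_le_of_sum_le
    ⟨(fun _ => 1 : E → Equiv.Perm (Fin 3)), mem_univ _⟩ h2
  exact ⟨σ, hσ⟩

namespace MG

variable {V W E : Type} [Fintype V] [DecidableEq V] [Fintype W] [DecidableEq W]
  [Fintype E] [DecidableEq E]

theorem bundle_flow (H : MG V E) (A : Finset E) (x : E → K4) (hx : H.Fl x)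
    (hA : ∀ e ∈ A, x e ≠ 0) (𝒢 : Finset E) (πa πb : E → E)
    (h𝒢 : ∀ f ∈ 𝒢, f ∈ A ∧ πa f ∈ A ∧ πb f ∈ A ∧ x (πa f) = (1, 0) ∧ x f = (0, 1) ∧
        x (πb f) = (1, 1) ∧ (∀ v, H.inc (πa f) v = H.inc f v) ∧
        (∀ v, H.inc (πb f) v = H.inc f v))
    (ha : ∀ f ∈ 𝒢, ∀ f' ∈ 𝒢, πa f = πa f' → f = f')
    (hb : ∀ f ∈ 𝒢, ∀ f' ∈ 𝒢, πb f = πb f' → f = f')
    (σ : E → Equiv.Perm (Fin 3)) :
    ∃ y : E → K4, H.Fl y ∧ (∀ e ∈ A, y e ≠ 0) ∧
      ∀ f ∈ 𝒢, y (πa f) = col (σ f 0) ∧ y f = col (σ f 1) ∧ y (πb f) = col (σ f 2) := by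
  classical
  have hcol0 : ∀ i : Fin 3, col i ≠ 0 := by decide
  have hcs : ∀ τ : Equiv.Perm (Fin 3), col (τ 0) + col (τ 1) + col (τ 2) = 0 := by
    intro τ
    have h1 := Equiv.sum_comp τ col
    rw [Fin.sum_univ_three, Fin.sum_univ_three] at h1
    rw [h1]
    decide
  have hx0 : ∀ f ∈ 𝒢, x (πa f) = (1, 0) := fun f hf => (h𝒢 f hf).2.2.2.1
  have hx1 : ∀ f ∈ 𝒢, x f = (0, 1) := fun f hf => (h𝒢 f hf).2.2.2.2.1
  have hx2 : ∀ f ∈ 𝒢, x (πb f) = (1, 1) := fun f hf => (h𝒢 f hf).2.2.2.2.2.1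
  have n01 : ((1, 0) : K4) ≠ (0, 1) := by decide
  have n02 : ((1, 0) : K4) ≠ (1, 1) := by decide
  have n12 : ((0, 1) : K4) ≠ (1, 1) := by decide
  have hab : ∀ f ∈ 𝒢, ∀ f' ∈ 𝒢, πa f ≠ f' := by
    intro f hf f' hf' h
    apply n01
    rw [← hx0 f hf, ← hx1 f' hf', h]
  have hac : ∀ f ∈ 𝒢, ∀ f' ∈ 𝒢, πa f ≠ πb f' := by
    intro f hf f' hf' h
    apply n02
    rw [← hx0 f hf, ← hx2 f' hf', h]
  have hbc : ∀ f ∈ 𝒢, ∀ f' ∈ 𝒢, f ≠ πb f' := by
    intro f hf f' hf' h
    apply n12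
    rw [← hx1 f hf, ← hx2 f' hf', h]
  let d : E → E → K4 := fun f e => (if e = f then col (σ f 1) - x f else 0) +
    (if e = πa f then col (σ f 0) - x (πa f) else 0) +
    (if e = πb f then col (σ f 2) - x (πb f) else 0)
  have hd : ∀ f e, d f e = (if e = f then col (σ f 1) - x f else 0) +
    (if e = πa f then col (σ f 0) - x (πa f) else 0) +
    (if e = πb f then col (σ f 2) - x (πb f) else 0) := fun _ _ => rfl
  have hy1 : ∀ f0 ∈ 𝒢, x f0 + ∑ f ∈ 𝒢, d f f0 = col (σ f0 1) := by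
    intro f0 hf0
    rw [Finset.sum_eq_single_of_mem f0 hf0]
    · rw [hd, if_pos rfl, if_neg (fun h => hab f0 hf0 f0 hf0 h.symm), if_neg (hbc f0 hf0 f0 hf0)]
      abel
    · intro f hf hne
      rw [hd, if_neg (fun h => hne h.symm), if_neg (fun h => hab f hf f0 hf0 h.symm),
        if_neg (hbc f0 hf0 f hf)]
      abel
  have hy0 : ∀ f0 ∈ 𝒢, x (πa f0) + ∑ f ∈ 𝒢, d f (πa f0) = col (σ f0 0) := by
    intro f0 hf0
    rw [Finset.sum_eq_single_of_mem f0 hf0]
    · rw [hd, if_neg (hab f0 hf0 f0 hf0), if_pos rfl, if_neg (hac f0 hf0 f0 hf0)]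
      abel
    · intro f hf hne
      rw [hd, if_neg (hab f0 hf0 f hf), if_neg (fun h => hne (ha f hf f0 hf0 h.symm)),
        if_neg (hac f0 hf0 f hf)]
      abel
  have hy2 : ∀ f0 ∈ 𝒢, x (πb f0) + ∑ f ∈ 𝒢, d f (πb f0) = col (σ f0 2) := by
    intro f0 hf0
    rw [Finset.sum_eq_single_of_mem f0 hf0]
    · rw [hd, if_neg (fun h => hbc f0 hf0 f0 hf0 h.symm),
        if_neg (fun h => hac f0 hf0 f0 hf0 h.symm), if_pos rfl]
      abel
    · intro f hf hne
      rw [hd, if_neg (fun h => hbc f hf f0 hf0 h.symm),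
        if_neg (fun h => hac f hf f0 hf0 h.symm), if_neg (fun h => hne (hb f hf f0 hf0 h.symm))]
      abel
  refine ⟨fun e => x e + ∑ f ∈ 𝒢, d f e, ?_, ?_, ?_⟩
  · intro v
    have h1 : ∀ e, H.inc e v • (x e + ∑ f ∈ 𝒢, d f e) =
        H.inc e v • x e + ∑ f ∈ 𝒢, H.inc e v • d f e := by
      intro e
      rw [smul_add, Finset.smul_sum]
    rw [Finset.sum_congr rfl fun e _ => h1 e, Finset.sum_add_distrib, hx v, zero_add,
      Finset.sum_comm]
    apply Finset.sum_eq_zero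
    intro f hf
    have h2 : ∀ e, H.inc e v • d f e =
        (if e = f then H.inc e v • (col (σ f 1) - x f) else 0) +
        (if e = πa f then H.inc e v • (col (σ f 0) - x (πa f)) else 0) +
        (if e = πb f then H.inc e v • (col (σ f 2) - x (πb f)) else 0) := by
      intro e
      rw [hd, smul_add, smul_add, smul_ite, smul_ite, smul_ite, smul_zero]
    rw [Finset.sum_congr rfl fun e _ => h2 e, Finset.sum_add_distrib, Finset.sum_add_distrib,
      Finset.sum_ite_eq', Finset.sum_ite_eq', Finset.sum_ite_eq', if_pos (mem_univ _),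
      if_pos (mem_univ _), if_pos (mem_univ _), (h𝒢 f hf).2.2.2.2.2.2.1 v,
      (h𝒢 f hf).2.2.2.2.2.2.2 v, ← smul_add, ← smul_add]
    have h3 : col (σ f 1) - x f + (col (σ f 0) - x (πa f)) + (col (σ f 2) - x (πb f)) = 0 := by
      rw [hx0 f hf, hx1 f hf, hx2 f hf]
      have h4 := hcs (σ f)
      have h5 : col (σ f 1) - (0, 1) + (col (σ f 0) - (1, 0)) + (col (σ f 2) - (1, 1)) =
          (col (σ f 0) + col (σ f 1) + col (σ f 2)) - ((0, 1) + (1, 0) + (1, 1)) := by abel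
      rw [h5, h4]
      decide
    rw [h3, smul_zero]
  · intro e he
    change x e + ∑ f ∈ 𝒢, d f e ≠ 0
    by_cases c1 : ∃ f ∈ 𝒢, e = f
    · obtain ⟨f, hf, rfl⟩ := c1
      rw [hy1 e hf]
      exact hcol0 _
    by_cases c2 : ∃ f ∈ 𝒢, e = πa f
    · obtain ⟨f, hf, rfl⟩ := c2
      rw [hy0 f hf]
      exact hcol0 _
    by_cases c3 : ∃ f ∈ 𝒢, e = πb f
    · obtain ⟨f, hf, rfl⟩ := c3
      rw [hy2 f hf]
      exact hcol0 _
    · rw [Finset.sum_eq_zero, add_zero]
      · exact hA e he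
      · intro f hf
        rw [hd, if_neg (fun h => c1 ⟨f, hf, h⟩), if_neg (fun h => c2 ⟨f, hf, h⟩),
          if_neg (fun h => c3 ⟨f, hf, h⟩)]
        rfl
  · intro f hf
    exact ⟨hy0 f hf, hy1 f hf, hy2 f hf⟩

end MG

end Pool.Agent.Lib.MP_95e9b3_coC
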