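import Pool.Agent.Lib.MP_95e9b3_coC.Flows
import Pool.Agent.Lib.MP_95e9b3_coC.SixA
import Pool.Agent.Lib.MP_95e9b3_coC.Circ

/-!
# JOB SixD: a circuit with six edges misses a value if the partial sums do

`F = univ \ M`, `U = cv F u`, `C = ce F u` has six edges. `circuit` gives `v`, `f` (period 6). Let `m i`
be the edge of `M` at `v i`. By `hg`, `m i = g q` for some `q`, and `m` is injective on `{0, …, 5}`
because no `g q` has both ends in `U`. So there is a bijection `p` with `m (p q) = g q`, i.e.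
`g (p.symm i) = m i` for `i : Fin 6` (both sides have six elements). The flow equation at `v (i+1)`:
`x (f i) + x (f (i+1)) + x (m (i+1)) = 0` (the edges at `v (i+1)` are these three, with `inc = 1`). So
`x (f i) = x (f 5) + ∑ j ≤ i, x (m j)` for `i = 0, …, 5` (at `v 0` the edges are `f 5`, `f 0`, `m 0`). If
the partial sums miss `k` then `x` misses `x (f 5) + k` on `C = {f 0, …, f 5}`.
-/

set_option autoImplicit false

namespace Pool.Agent.Lib.MP_95e9b3_coC

open Finset
open scoped symmDiff

namespace MG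

variable {V W E : Type} [Fintype V] [DecidableEq V] [Fintype W] [DecidableEq W]
  [Fintype E] [DecidableEq E]

private theorem SixD_rel : ∀ a b c : K4, a + b + c = 0 → b = a + c := by decide

private theorem SixD_inc_le (G : MG V E) (hl : ∀ e, G.s e ≠ G.t e) (e : E) (w : V) :
    G.inc e w ≤ 1 := by
  unfold inc
  have h := hl e
  by_cases h1 : G.s e = w
  · have h2 : G.t e ≠ w := fun h3 => h (h1.trans h3.symm)
    simp [h1, h2]
  · by_cases h2 : G.t e = w
    · simp [h1, h2]
    · simp [h1, h2]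

private theorem SixD_inc_ne (G : MG V E) (e : E) (w : V) (h : G.inc e w ≠ 0) :
    G.s e = w ∨ G.t e = w := by
  unfold inc at h
  by_cases h1 : G.s e = w
  · exact Or.inl h1
  · by_cases h2 : G.t e = w
    · exact Or.inr h2
    · simp [h1, h2] at h

private theorem SixD_match (G : MG V E) (M : Finset E) (hM : ∀ v, G.dg M v = 1) (w : V) :
    ∃ e ∈ M, G.inc e w ≠ 0 ∧ ∀ e' ∈ M, G.inc e' w ≠ 0 → e' = e := by
  have h := hM w
  unfold dg at h
  have hex : ∃ e ∈ M, G.inc e w ≠ 0 := by
    by_contra hcon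
    push_neg at hcon
    rw [Finset.sum_eq_zero hcon] at h
    exact absurd h (by norm_num)
  obtain ⟨e, heM, he⟩ := hex
  refine ⟨e, heM, he, ?_⟩
  intro e' he'M he'
  by_contra hne
  have h2 : G.inc e w + ∑ x ∈ M.erase e, G.inc x w = 1 := by
    rw [Finset.add_sum_erase M (fun x => G.inc x w) heM]
    exact h
  have h3 : G.inc e' w ≤ ∑ x ∈ M.erase e, G.inc x w :=
    Finset.single_le_sum (f := fun x => G.inc x w) (fun _ _ => Nat.zero_le _)
      (Finset.mem_erase.2 ⟨hne, he'M⟩)
  omega

theorem six_local (G : MG V E) (M : Finset E) (hF : ∀ v, G.dg (Finset.univ \ M) v = 2)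
    (hM : ∀ v, G.dg M v = 1) (hl : ∀ e, G.s e ≠ G.t e) (u : V)
    (hC : (G.ce (Finset.univ \ M) u).card = 6) (g : Fin 2 × Fin 3 → E)
    (hgi : Function.Injective g)
    (hg : ∀ e ∈ M, (G.s e ∈ G.cv (Finset.univ \ M) u ∨ G.t e ∈ G.cv (Finset.univ \ M) u) →
      ∃ q, g q = e)
    (hgM : ∀ q, g q ∈ M)
    (hg1 : ∀ q, ¬ (G.s (g q) ∈ G.cv (Finset.univ \ M) u ∧
      G.t (g q) ∈ G.cv (Finset.univ \ M) u)) :
    ∃ p : (Fin 2 × Fin 3) ≃ Fin 6, ∀ x : E → K4, G.Fl x →
      mis6 (fun i => x (g (p.symm i))) → Ms x (G.ce (Finset.univ \ M) u) := by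
  obtain ⟨v, f, hv0, hJ, hne, hper, hvi, hfi, hcv, hce, hend, h2⟩ :=
    G.circuit (Finset.univ \ M) hF (fun e _ => hl e) u
  rw [hC] at hper hvi hfi hcv hce h2
  choose m hmM hm1 hmu using SixD_match G M hM
  have hfM : ∀ i, f i ∉ M := fun i => (Finset.mem_sdiff.1 (hJ i).1).2
  have hvU : ∀ i, i < 6 → v i ∈ G.cv (Finset.univ \ M) u := fun i hi => (hcv (v i)).2 ⟨i, hi, rfl⟩
  have hq : ∀ i : Fin 6, ∃ q, g q = m (v i) := by
    intro i
    refine hg (m (v i)) (hmM _) ?_
    rcases SixD_inc_ne G _ _ (hm1 (v i)) with h | h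
    · left
      rw [h]
      exact hvU i i.2
    · right
      rw [h]
      exact hvU i i.2
  choose qf hqf using hq
  have hinj : Function.Injective qf := by
    intro i j hij
    by_contra hne'
    have hvne : v i ≠ v j := fun h => hne' (Fin.ext (hvi i i.2 j j.2 h))
    have hm : m (v i) = m (v j) := by rw [← hqf i, ← hqf j, hij]
    have h1 := SixD_inc_ne G _ _ (hm1 (v i))
    have h2' := SixD_inc_ne G _ _ (hm1 (v j))
    rw [← hm] at h2'
    apply hg1 (qf i)
    rw [hqf i]
    rcases h1 with h1 | h1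
    · rcases h2' with h2' | h2'
      · exact absurd (h1.symm.trans h2') hvne
      · exact ⟨by rw [h1]; exact hvU i i.2, by rw [h2']; exact hvU j j.2⟩
    · rcases h2' with h2' | h2'
      · exact ⟨by rw [h2']; exact hvU j j.2, by rw [h1]; exact hvU i i.2⟩
      · exact absurd (h1.symm.trans h2') hvne
  have hbij : Function.Bijective qf :=
    (Fintype.bijective_iff_injective_and_card qf).2 ⟨hinj, by simp⟩
  refine ⟨(Equiv.ofBijective qf hbij).symm, ?_⟩
  intro x hx hmis
  have hstep : ∀ i, x (f i) + x (f (i + 1)) + x (m (v (i + 1))) = 0 := by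
    intro i
    have h := hx (v (i + 1))
    have hJi := (hJ i).2
    have hJi1 := (hJ (i + 1)).2
    have hi1 : G.inc (f i) (v (i + 1)) = 1 := by
      have hle := SixD_inc_le G hl (f i) (v (i + 1))
      have hpos : G.inc (f i) (v (i + 1)) ≠ 0 := by
        unfold inc
        rcases hJi with ⟨_, h4⟩ | ⟨h4, _⟩
        · simp [h4]
        · simp [h4]
      omega
    have hi2 : G.inc (f (i + 1)) (v (i + 1)) = 1 := by
      have hle := SixD_inc_le G hl (f (i + 1)) (v (i + 1))
      have hpos : G.inc (f (i + 1)) (v (i + 1)) ≠ 0 := by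
        unfold inc
        rcases hJi1 with ⟨h4, _⟩ | ⟨_, h4⟩
        · simp [h4]
        · simp [h4]
      omega
    have hi3 : G.inc (m (v (i + 1))) (v (i + 1)) = 1 := by
      have hle := SixD_inc_le G hl (m (v (i + 1))) (v (i + 1))
      have hpos := hm1 (v (i + 1))
      omega
    have hsub : ∑ e ∈ ({f i, f (i + 1), m (v (i + 1))} : Finset E),
        G.inc e (v (i + 1)) • x e = ∑ e, G.inc e (v (i + 1)) • x e := by
      apply Finset.sum_subset (Finset.subset_univ _)
      intro e _ he
      simp only [Finset.mem_insert, Finset.mem_singleton, not_or] at he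
      have h0 : G.inc e (v (i + 1)) = 0 := by
        by_contra hc
        by_cases heM : e ∈ M
        · exact he.2.2 (hmu _ e heM hc)
        · rcases hend i e (Finset.mem_sdiff.2 ⟨Finset.mem_univ _, heM⟩) hc with h5 | h5
          · exact he.1 h5
          · exact he.2.1 h5
      rw [h0, zero_smul]
    rw [← hsub] at h
    have hd1 : f i ∉ ({f (i + 1), m (v (i + 1))} : Finset E) := by
      simp only [Finset.mem_insert, Finset.mem_singleton, not_or]
      exact ⟨hne i, fun h6 => hfM i (h6 ▸ hmM _)⟩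
    have hd2 : f (i + 1) ∉ ({m (v (i + 1))} : Finset E) := by
      simp only [Finset.mem_singleton]
      exact fun h6 => hfM (i + 1) (h6 ▸ hmM _)
    rw [Finset.sum_insert hd1, Finset.sum_insert hd2, Finset.sum_singleton, hi1, hi2, hi3,
      one_smul, one_smul, one_smul] at h
    rw [add_assoc]
    exact h
  have hx1 : ∀ i, x (f (i + 1)) = x (f i) + x (m (v (i + 1))) := fun i =>
    SixD_rel _ _ _ (hstep i)
  have hx0 : x (f 0) = x (f 5) + x (m (v 0)) := by
    have h := hx1 5
    have h6 := hper 0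
    rw [zero_add] at h6
    rw [h6.2, h6.1] at h
    exact h
  have hp : ∀ i : Fin 6, g ((Equiv.ofBijective qf hbij).symm.symm i) = m (v i) := by
    intro i
    rw [Equiv.symm_symm, Equiv.ofBijective_apply]
    exact hqf i
  obtain ⟨k, hk⟩ := hmis
  simp only [hp] at hk
  have e1 := hx1 0
  have e2 := hx1 1
  have e3 := hx1 2
  have e4 := hx1 3
  have e5 := hx1 4
  simp only [Nat.reduceAdd, zero_add] at e1 e2 e3 e4 e5
  have hk0 := hk 0
  have hk1 := hk 1
  have hk2 := hk 2
  have hk3 := hk 3
  have hk4 := hk 4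
  have hk5 := hk 5
  simp only [Finset.sum_filter, Fin.sum_univ_six] at hk0 hk1 hk2 hk3 hk4 hk5
  refine ⟨x (f 5) + k, ?_⟩
  intro e he
  obtain ⟨i, hi, rfl⟩ := (hce e).1 he
  have hcan : ∀ a b : K4, x (f 5) + a = x (f 5) + b → a = b := fun a b h => add_left_cancel h
  interval_cases i
  · intro h
    apply hk0
    apply hcan
    rw [← h, hx0]
    simp
  · intro h
    apply hk1
    apply hcan
    rw [← h, e1, hx0]
    simp [add_assoc]
  · intro h
    apply hk2
    apply hcan
    rw [← h, e2, e1, hx0]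
    simp [add_assoc]
  · intro h
    apply hk3
    apply hcan
    rw [← h, e3, e2, e1, hx0]
    simp [add_assoc]
  · intro h
    apply hk4
    apply hcan
    rw [← h, e4, e3, e2, e1, hx0]
    simp [add_assoc]
  · intro h
    apply hk5
    apply hcan
    rw [← h]
    nth_rewrite 2 [e5]
    rw [e4, e3, e2, e1, hx0]
    simp [add_assoc]

end MG

end Pool.Agent.Lib.MP_95e9b3_coC
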