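import Pool.Agent.Lib.MP_95e9b3_coC.Rank
import Pool.Agent.Lib.MP_95e9b3_coC.Reps

/-!
# JOB Struct: the vertices of the contracted graph

`G` cubic without bridges, `M` a perfect matching (`dg M v = 1`), `F = univ \ M` (`dg F v = 2`),
`A ⊆ M` representatives, `Z = univ \ A`, `f : V → W` with fibres the components of `Z`,
`H = G.mp f`. The fibre `U = {v | f v = y}` is a component of `Z`: `Z ∩ cut U = ∅`,
`H.cut {y} = G.cut U` (`cut_mp`), and by `dg_mp`, `dg_H A y = ∑ v ∈ U, dg_G A v`.

`H_deg`: by `cut_A` (with `hcutA`), `(cut U).card = 0` or `≥ 4`. In the second case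
`dg_H A y ≥ 4` (`dg_eq`; `cut U ⊆ A`). Let `cut U = ∅`. Take `v ∈ U` and an edge `e ∈ M` at `v`
(`dg M v = 1`) and `r ∈ A` with `Ser e r`. There is an even set `C` with `e ∈ C`: the cut
condition `Br0` and `join_exists` with `F = univ \ {e}`, `J0 = {e}` (if `(univ \ {e}) ∩ cut U' = ∅` then
`cut U' ⊆ {e}`, so `cut U' = ∅` by `Br0`) give `J ⊆ univ \ {e}` with `{e} ∪ J` even. The part `C'` of `C`
inside `U` (both ends in `U`) is even because `cut U = ∅`; it contains `e`, so `r` (`Ev_ser`). So `r ∈ A`
has both ends in `U`: a loop of `H` at `y`.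

`node`: suppose every `u ∈ U` has `4 < (ce F u).card` (the component of `u` in `F` has at least five
edges). For a component of `F` we have `(ce F u).card = (cv F u).card` (`2 * #edges = ∑ degrees`,
`sum_dg`). Let `j` be the number of components of `F` in `U` (`(U.image (cv F)).card`), `P = M \ A`,
`p = (P.filter (s ∈ U)).card`. `F ∪ P = Z`. By `forest_count`, `p + 1 ≤ j`: no even set `C ⊆ F ∪ P`
meets `P` (`Ev_ser`: if `e ∈ C ∩ P` then the representative of `e` is in `C ∩ A = ∅`). Now
`U.card = ∑ v ∈ U, dg M v = ∑ v ∈ U, dg A v + ∑ v ∈ U, dg P v = dg_H A y + 2 p` and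
`U.card ≥ 5 j`. So `5 j ≤ d + 2 p ≤ d + 2 j - 2`, `3 j + 2 ≤ d`, so `d ≥ 5`, and if `d = 6` then
`j = 1`, `p = 0`, `U.card = 6`, `cv F u = U` for every `u ∈ U`, and every edge of `M` with an end in `U`
is in `A` (it is not in `P`, as `p = 0`; an edge of `P` has both ends in `U` or none).
-/

set_option autoImplicit false

namespace Pool.Agent.Lib.MP_95e9b3_coC

open Finset
open scoped symmDiff

namespace MG

variable {V W E : Type} [Fintype V] [DecidableEq V] [Fintype W] [DecidableEq W]
  [Fintype E] [DecidableEq E]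

/-- every edge of a graph without bridges is in an even set -/
theorem Ev_through (G : MG V E) (hb : G.Br0) (e : E) : ∃ C, G.Ev C ∧ e ∈ C := by
  obtain ⟨J, hJ, hS⟩ := G.join_exists (Finset.univ \ {e}) {e} (by
    intro U hU
    by_cases he : e ∈ G.cut U
    · exfalso
      refine hb U ?_
      have h1 : G.cut U = {e} := by
        ext g
        rw [Finset.mem_singleton]
        constructor
        · intro hg
          by_contra hne
          have h2 : g ∈ (Finset.univ \ {e}) ∩ G.cut U := by
            rw [Finset.mem_inter, Finset.mem_sdiff, Finset.mem_singleton]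
            exact ⟨⟨Finset.mem_univ _, hne⟩, hg⟩
          rw [hU] at h2
          exact absurd h2 (Finset.notMem_empty _)
        · intro hg
          rw [hg]
          exact he
      rw [h1, Finset.card_singleton]
    · have h1 : ({e} : Finset E) ∩ G.cut U = ∅ := by
        rw [Finset.singleton_inter_of_notMem he]
      rw [h1, Finset.card_empty]
      exact ⟨0, rfl⟩)
  refine ⟨J ∆ {e}, (G.Sim_iff J {e}).mp hS, ?_⟩
  rw [Finset.mem_symmDiff]
  right
  refine ⟨Finset.mem_singleton_self e, fun h => ?_⟩
  have h1 := hJ h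
  rw [Finset.mem_sdiff] at h1
  exact h1.2 (Finset.mem_singleton_self e)

private theorem Struct_cut (G : MG V E) (A : Finset E) (f : V → W)
    (hf : ∀ u v, f u = f v ↔ G.Rch (Finset.univ \ A) u v) (y : W) :
    (Finset.univ \ A) ∩ G.cut (Finset.univ.filter (fun v => f v = y)) = ∅ := by
  apply Finset.eq_empty_of_forall_notMem
  intro e he
  rw [Finset.mem_inter] at he
  have h1 : f (G.s e) = f (G.t e) := (hf _ _).mpr (G.Rch_edge _ e he.1)
  have h2 := (G.mem_cut _ e).mp he.2
  apply h2
  rw [Finset.mem_filter, Finset.mem_filter, h1]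
  exact ⟨fun h => ⟨Finset.mem_univ _, h.2⟩, fun h => ⟨Finset.mem_univ _, h.2⟩⟩

private theorem Struct_mp (G : MG V E) (f : V → W) (y : W) :
    (G.mp f).cut {y} = G.cut (Finset.univ.filter (fun v => f v = y)) := by
  rw [G.cut_mp f {y}]
  congr 1
  ext v
  rw [Finset.mem_filter, Finset.mem_filter, Finset.mem_singleton]

private theorem Struct_inc (G : MG V E) (J : Finset E) (v : V) (h : G.dg J v ≠ 0) :
    ∃ e ∈ J, G.s e = v ∨ G.t e = v := by
  by_contra hno
  apply h
  unfold dg
  apply Finset.sum_eq_zero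
  intro e he
  unfold inc
  rw [if_neg (fun h1 => hno ⟨e, he, Or.inl h1⟩), if_neg (fun h1 => hno ⟨e, he, Or.inr h1⟩),
    add_zero]

theorem H_deg (G : MG V E) (hb : G.Br0) (M A : Finset E) (hM : ∀ v, G.dg M v = 1) (hAM : A ⊆ M)
    (hMA : ∀ e ∈ M, ∃ f ∈ A, G.Ser e f)
    (hcutA : ∀ U : Finset V, (Finset.univ \ A) ∩ G.cut U = ∅ →
      (G.cut U).card = 0 ∨ 4 ≤ (G.cut U).card)
    (f : V → W) (hf : ∀ u v, f u = f v ↔ G.Rch (Finset.univ \ A) u v)
    (hsurj : Function.Surjective f) (y : W) :
    4 ≤ (G.mp f).dg A y ∨ ∃ e ∈ A, (G.mp f).s e = y ∧ (G.mp f).t e = y := by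
  have hU := Struct_cut G A f hf y
  have hmem : ∀ e, e ∈ G.cut (Finset.univ.filter (fun v => f v = y)) → e ∈ A := by
    intro e he
    by_contra hA
    have h1 : e ∈ (Finset.univ \ A) ∩ G.cut (Finset.univ.filter (fun v => f v = y)) := by
      rw [Finset.mem_inter, Finset.mem_sdiff]
      exact ⟨⟨Finset.mem_univ _, hA⟩, he⟩
    rw [hU] at h1
    exact absurd h1 (Finset.notMem_empty _)
  rcases hcutA _ hU with h0 | h4
  · right
    rw [Finset.card_eq_zero] at h0
    obtain ⟨v, hv⟩ := hsurj y
    obtain ⟨e, heM, hev⟩ := Struct_inc G M v (by rw [hM v]; exact one_ne_zero)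
    obtain ⟨r, hrA, hser⟩ := hMA e heM
    obtain ⟨C, hC, heC⟩ := G.Ev_through hb e
    have hends : ∀ g, f (G.s g) = y ↔ f (G.t g) = y := by
      intro g
      by_contra hno
      have h1 : g ∈ G.cut (Finset.univ.filter (fun v => f v = y)) := by
        rw [G.mem_cut, Finset.mem_filter, Finset.mem_filter]
        intro h2
        apply hno
        constructor
        · intro h3
          exact (h2.mp ⟨Finset.mem_univ _, h3⟩).2
        · intro h3
          exact (h2.mpr ⟨Finset.mem_univ _, h3⟩).2
      rw [h0] at h1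
      exact absurd h1 (Finset.notMem_empty _)
    have hEv : G.Ev (C.filter (fun g => f (G.s g) = y)) := by
      intro u
      by_cases hu : f u = y
      · have h1 : G.dg (C.filter (fun g => f (G.s g) = y)) u = G.dg C u := by
          unfold dg
          rw [Finset.sum_filter]
          apply Finset.sum_congr rfl
          intro g _
          by_cases hg : f (G.s g) = y
          · rw [if_pos hg]
          · rw [if_neg hg]
            unfold inc
            rw [if_neg (fun h => hg (by rw [h]; exact hu)),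
              if_neg (fun h => hg ((hends g).mpr (by rw [h]; exact hu))), add_zero]
        rw [h1]
        exact hC u
      · have h1 : G.dg (C.filter (fun g => f (G.s g) = y)) u = 0 := by
          unfold dg
          apply Finset.sum_eq_zero
          intro g hg
          have hg' := (Finset.mem_filter.mp hg).2
          unfold inc
          rw [if_neg (fun h => hu (by rw [← h]; exact hg')),
            if_neg (fun h => hu (by rw [← h]; exact (hends g).mp hg')), add_zero]
        rw [h1]
        exact ⟨0, rfl⟩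
    have hes : f (G.s e) = y := by
      rcases hev with h | h
      · rw [h]; exact hv
      · exact (hends e).mpr (by rw [h]; exact hv)
    have hr := G.Ev_ser _ hEv e r hser (Finset.mem_filter.mpr ⟨heC, hes⟩)
    have hr' := (Finset.mem_filter.mp hr).2
    exact ⟨r, hrA, hr', (hends r).mp hr'⟩
  · left
    rw [(G.mp f).dg_eq A y, Struct_mp G f y]
    have h1 : A ∩ G.cut (Finset.univ.filter (fun v => f v = y)) =
        G.cut (Finset.univ.filter (fun v => f v = y)) :=
      Finset.inter_eq_right.mpr hmem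
    rw [h1]
    omega

private theorem Struct_cvcard (G : MG V E) (F : Finset E) (hF : ∀ v, G.dg F v = 2) (u : V) :
    (G.ce F u).card = (G.cv F u).card := by
  have h1 := G.sum_dg F (G.cv F u)
  rw [G.cv_cut F u, Finset.card_empty, Finset.sum_congr rfl (fun v _ => hF v), Finset.sum_const,
    smul_eq_mul] at h1
  have h2 : F.filter (fun e => G.s e ∈ G.cv F u ∧ G.t e ∈ G.cv F u) = G.ce F u := by
    ext e
    rw [Finset.mem_filter, G.mem_ce, G.mem_cv, G.mem_cv]
    constructor
    · intro h
      exact ⟨h.1, h.2.1⟩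
    · intro h
      exact ⟨h.1, h.2, G.Rch_trans F _ _ _ h.2 (G.Rch_edge F e h.1)⟩
  rw [h2] at h1
  omega

theorem node (G : MG V E) (hc : ∀ v, G.dg Finset.univ v = 3) (hb : G.Br0) (M A : Finset E)
    (hM : ∀ v, G.dg M v = 1) (hAM : A ⊆ M) (hMA : ∀ e ∈ M, ∃ f ∈ A, G.Ser e f)
    (f : V → W) (hf : ∀ u v, f u = f v ↔ G.Rch (Finset.univ \ A) u v)
    (hsurj : Function.Surjective f) (y : W)
    (hbig : ∀ u, f u = y → 4 < (G.ce (Finset.univ \ M) u).card) :
    5 ≤ (G.mp f).dg A y ∧ ((G.mp f).dg A y = 6 → ∀ u, f u = y →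
      (G.ce (Finset.univ \ M) u).card = 6 ∧ (∀ v, f v = y ↔ v ∈ G.cv (Finset.univ \ M) u) ∧
      ∀ e ∈ M, (f (G.s e) = y ∨ f (G.t e) = y) → e ∈ A) := by
  have hU := Struct_cut G A f hf y
  have hFP : (Finset.univ \ M) ∪ (M \ A) = Finset.univ \ A := by
    ext e
    rw [Finset.mem_union, Finset.mem_sdiff, Finset.mem_sdiff, Finset.mem_sdiff]
    constructor
    · rintro (⟨h1, h2⟩ | ⟨h1, h2⟩)
      · exact ⟨h1, fun h => h2 (hAM h)⟩
      · exact ⟨Finset.mem_univ _, h2⟩
    · rintro ⟨h1, h2⟩
      by_cases h : e ∈ M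
      · exact Or.inr ⟨h, h2⟩
      · exact Or.inl ⟨h1, h⟩
  have hd : Disjoint (Finset.univ \ M) (M \ A) := by
    rw [Finset.disjoint_left]
    intro e h1 h2
    exact (Finset.mem_sdiff.mp h1).2 (Finset.mem_sdiff.mp h2).1
  have hF2 : ∀ v, G.dg (Finset.univ \ M) v = 2 := by
    intro v
    have h1 := G.dg_sdiff M Finset.univ (Finset.subset_univ M) v
    rw [hc v, hM v] at h1
    omega
  obtain ⟨u0, hu0⟩ := hsurj y
  have hne : (Finset.univ.filter (fun v => f v = y)).Nonempty :=
    ⟨u0, Finset.mem_filter.mpr ⟨Finset.mem_univ _, hu0⟩⟩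
  have hfor := G.forest_count (Finset.univ \ M) (M \ A) hd (by
    intro C hC hEv
    rw [Finset.disjoint_left]
    intro e he heP
    obtain ⟨r, hr, hser⟩ := hMA e (Finset.mem_sdiff.mp heP).1
    have h1 := hC (G.Ev_ser C hEv e r hser he)
    rw [hFP] at h1
    exact (Finset.mem_sdiff.mp h1).2 hr) (Finset.univ.filter (fun v => f v = y))
    (by rw [hFP]; exact hU) hne
  have hPcut : (M \ A) ∩ G.cut (Finset.univ.filter (fun v => f v = y)) = ∅ := by
    apply Finset.eq_empty_of_forall_notMem
    intro e he
    rw [Finset.mem_inter] at he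
    have h1 : e ∈ (Finset.univ \ A) ∩ G.cut (Finset.univ.filter (fun v => f v = y)) := by
      rw [Finset.mem_inter, ← hFP, Finset.mem_union]
      exact ⟨Or.inr he.1, he.2⟩
    rw [hU] at h1
    exact absurd h1 (Finset.notMem_empty _)
  have hFcut : (Finset.univ \ M) ∩ G.cut (Finset.univ.filter (fun v => f v = y)) = ∅ := by
    apply Finset.eq_empty_of_forall_notMem
    intro e he
    rw [Finset.mem_inter] at he
    have h1 : e ∈ (Finset.univ \ A) ∩ G.cut (Finset.univ.filter (fun v => f v = y)) := by
      rw [Finset.mem_inter, ← hFP, Finset.mem_union]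
      exact ⟨Or.inl he.1, he.2⟩
    rw [hU] at h1
    exact absurd h1 (Finset.notMem_empty _)
  have hPst : ∀ e ∈ M \ A, (f (G.s e) = y ↔ f (G.t e) = y) := by
    intro e he
    by_contra hno
    have h1 : e ∈ (M \ A) ∩ G.cut (Finset.univ.filter (fun v => f v = y)) := by
      rw [Finset.mem_inter]
      refine ⟨he, ?_⟩
      rw [G.mem_cut, Finset.mem_filter, Finset.mem_filter]
      intro h2
      apply hno
      constructor
      · intro h3
        exact (h2.mp ⟨Finset.mem_univ _, h3⟩).2
      · intro h3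
        exact (h2.mpr ⟨Finset.mem_univ _, h3⟩).2
    rw [hPcut] at h1
    exact absurd h1 (Finset.notMem_empty _)
  have hcount : (Finset.univ.filter (fun v => f v = y)).card = (G.mp f).dg A y +
      2 * ((M \ A).filter (fun e => G.s e ∈ Finset.univ.filter (fun v => f v = y))).card := by
    have h1 : ∑ v ∈ Finset.univ.filter (fun v => f v = y), G.dg M v =
        (Finset.univ.filter (fun v => f v = y)).card := by
      rw [Finset.sum_congr rfl (fun v _ => hM v), Finset.sum_const, smul_eq_mul, mul_one]
    have h2 : ∀ v, G.dg M v = G.dg (M \ A) v + G.dg A v := fun v => (G.dg_sdiff A M hAM v).symm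
    rw [Finset.sum_congr rfl (fun v _ => h2 v), Finset.sum_add_distrib, ← G.dg_mp f A y,
      G.sum_dg (M \ A), hPcut, Finset.card_empty] at h1
    have h3 : (M \ A).filter (fun e => G.s e ∈ Finset.univ.filter (fun v => f v = y) ∧
        G.t e ∈ Finset.univ.filter (fun v => f v = y)) =
        (M \ A).filter (fun e => G.s e ∈ Finset.univ.filter (fun v => f v = y)) := by
      apply Finset.filter_congr
      intro e he
      constructor
      · intro h; exact h.1
      · intro h
        refine ⟨h, ?_⟩
        rw [Finset.mem_filter] at h ⊢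
        exact ⟨Finset.mem_univ _, (hPst e he).mp h.2⟩
    rw [h3] at h1
    omega
  have hfib : ∀ u, f u = y → (Finset.univ.filter (fun v => f v = y)).filter
      (fun v => G.cv (Finset.univ \ M) v = G.cv (Finset.univ \ M) u) =
      G.cv (Finset.univ \ M) u := by
    intro u hu
    ext v
    rw [Finset.mem_filter, G.cv_eq, G.mem_cv]
    constructor
    · intro h
      exact G.Rch_symm _ _ _ h.2
    · intro h
      refine ⟨G.closed_Rch _ _ hFcut u v (Finset.mem_filter.mpr ⟨Finset.mem_univ _, hu⟩) h,
        G.Rch_symm _ _ _ h⟩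
  have hge : 5 * ((Finset.univ.filter (fun v => f v = y)).image (G.cv (Finset.univ \ M))).card ≤
      (Finset.univ.filter (fun v => f v = y)).card := by
    rw [Finset.card_eq_sum_card_image (G.cv (Finset.univ \ M))
      (Finset.univ.filter (fun v => f v = y)), mul_comm, ← smul_eq_mul, ← Finset.sum_const]
    apply Finset.sum_le_sum
    intro K hK
    obtain ⟨u, hu, rfl⟩ := Finset.mem_image.mp hK
    have hu' := (Finset.mem_filter.mp hu).2
    rw [hfib u hu', ← Struct_cvcard G _ hF2 u]
    exact hbig u hu'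
  have hj1 : 1 ≤ ((Finset.univ.filter (fun v => f v = y)).image (G.cv (Finset.univ \ M))).card := by
    omega
  refine ⟨by omega, ?_⟩
  intro hd6 u hu
  have hj : ((Finset.univ.filter (fun v => f v = y)).image (G.cv (Finset.univ \ M))).card = 1 := by
    omega
  have hp : ((M \ A).filter (fun e => G.s e ∈ Finset.univ.filter (fun v => f v = y))).card = 0 := by
    omega
  have hUc : (Finset.univ.filter (fun v => f v = y)).card = 6 := by omega
  have hcvU : G.cv (Finset.univ \ M) u = Finset.univ.filter (fun v => f v = y) := by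
    rw [← hfib u hu]
    apply Finset.filter_true_of_mem
    intro v hv
    obtain ⟨K, hK⟩ := Finset.card_eq_one.mp hj
    have h1 : G.cv (Finset.univ \ M) v ∈
        (Finset.univ.filter (fun v => f v = y)).image (G.cv (Finset.univ \ M)) :=
      Finset.mem_image_of_mem _ hv
    have h2 : G.cv (Finset.univ \ M) u ∈
        (Finset.univ.filter (fun v => f v = y)).image (G.cv (Finset.univ \ M)) :=
      Finset.mem_image_of_mem _ (Finset.mem_filter.mpr ⟨Finset.mem_univ _, hu⟩)
    rw [hK, Finset.mem_singleton] at h1 h2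
    rw [h1, h2]
  refine ⟨?_, ?_, ?_⟩
  · rw [Struct_cvcard G _ hF2 u, hcvU]
    exact hUc
  · intro v
    rw [hcvU, Finset.mem_filter]
    constructor
    · intro h; exact ⟨Finset.mem_univ _, h⟩
    · intro h; exact h.2
  · intro e heM hes
    by_contra heA
    have heP : e ∈ M \ A := Finset.mem_sdiff.mpr ⟨heM, heA⟩
    have hs : f (G.s e) = y := by
      rcases hes with h | h
      · exact h
      · exact (hPst e heP).mpr h
    rw [Finset.card_eq_zero] at hp
    have h1 : e ∈ (M \ A).filter (fun e => G.s e ∈ Finset.univ.filter (fun v => f v = y)) :=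
      Finset.mem_filter.mpr ⟨heP, Finset.mem_filter.mpr ⟨Finset.mem_univ _, hs⟩⟩
    rw [hp] at h1
    exact absurd h1 (Finset.notMem_empty _)

end MG

end Pool.Agent.Lib.MP_95e9b3_coC
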