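import Pool.Agent.Lib.MP_95e9b3_coC.SixB
import Pool.Agent.Lib.MP_95e9b3_coC.SixD
import Pool.Agent.Lib.MP_95e9b3_coC.Struct

/-!
# A flow missing a value on many circuits with six edges
-/

set_option autoImplicit false

namespace Pool.Agent.Lib.MP_95e9b3_coC

open Finset
open scoped symmDiff

namespace MG

variable {V W E : Type} [Fintype V] [DecidableEq V] [Fintype W] [DecidableEq W]
  [Fintype E] [DecidableEq E]

/-- the six edges -/
private def SixE_g (πa πb : E → E) (a b : E) : Fin 2 × Fin 3 → E := fun q =>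
  ![πa (![a, b] q.1), ![a, b] q.1, πb (![a, b] q.1)] q.2

omit [Fintype V] [Fintype W] [Fintype E] [DecidableEq V] [DecidableEq W] in
private theorem SixE_mem (πa πb : E → E) (a b e : E) :
    e ∈ ({πa a, a, πb a, πa b, b, πb b} : Finset E) ↔ ∃ q, SixE_g πa πb a b q = e := by
  simp only [Finset.mem_insert, Finset.mem_singleton]
  constructor
  · rintro (h | h | h | h | h | h)
    · exact ⟨(0, 0), h.symm⟩
    · exact ⟨(0, 1), h.symm⟩
    · exact ⟨(0, 2), h.symm⟩
    · exact ⟨(1, 0), h.symm⟩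
    · exact ⟨(1, 1), h.symm⟩
    · exact ⟨(1, 2), h.symm⟩
  · rintro ⟨⟨i, j⟩, h⟩
    rw [← h]
    fin_cases i <;> fin_cases j <;> simp [SixE_g]

omit [Fintype V] [Fintype W] [Fintype E] [DecidableEq V] [DecidableEq W] [DecidableEq E] in
private theorem SixE_inj (x : E → K4) (πa πb : E → E) (a b : E) (hab : a ≠ b)
    (h0 : ∀ c ∈ [a, b], x (πa c) = (1, 0) ∧ x c = (0, 1) ∧ x (πb c) = (1, 1))
    (ha : πa a ≠ πa b) (hb : πb a ≠ πb b) : Function.Injective (SixE_g πa πb a b) := by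
  have hA := h0 a (by simp)
  have hB := h0 b (by simp)
  have hx : ∀ q, x (SixE_g πa πb a b q) = col q.2 := by
    rintro ⟨i, j⟩
    fin_cases i <;> fin_cases j <;> simp [SixE_g, col, hA, hB]
  rintro ⟨i, j⟩ ⟨i', j'⟩ h
  have h1 : col j = col j' := by
    have e := congrArg x h
    rw [hx, hx] at e
    exact e
  have h2 : j = j' := by
    have hc : ∀ j j' : Fin 3, col j = col j' → j = j' := by decide
    exact hc j j' h1
  subst h2
  have h3 : i = i' := by
    fin_cases i <;> fin_cases i' <;> fin_cases j <;> simp_all [SixE_g, eq_comm]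
  rw [h3]

private theorem SixE_loop (G : MG V E) (hc : ∀ v, G.dg Finset.univ v = 3) (hb : G.Br0) (e : E) :
    G.s e ≠ G.t e := by
  intro h
  have h1 := G.dg_eq Finset.univ (G.s e)
  rw [hc] at h1
  have h2 : 0 < (Finset.univ.filter (fun e' => G.s e' = G.s e ∧ G.t e' = G.s e)).card :=
    Finset.card_pos.2 ⟨e, by simp [← h]⟩
  have h3 : (Finset.univ ∩ G.cut {G.s e}).card = 1 := by omega
  rw [Finset.univ_inter] at h3
  exact hb _ h3

open Classical in
theorem six_improve (G : MG V E) (hc : ∀ v, G.dg Finset.univ v = 3) (hb : G.Br0)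
    (M A : Finset E) (hM : ∀ v, G.dg M v = 1) (hAM : A ⊆ M) (hMA : ∀ e ∈ M, ∃ f ∈ A, G.Ser e f)
    (f : V → W) (hf : ∀ u v, f u = f v ↔ G.Rch (Finset.univ \ A) u v)
    (hsurj : Function.Surjective f) (x : E → K4) (hx : (G.mp f).Fl x) (hA : ∀ e ∈ A, x e ≠ 0)
    (𝒢 : Finset E) (πa πb : E → E) (Exc : Finset W)
    (h𝒢 : ∀ f' ∈ 𝒢, f' ∈ A ∧ πa f' ∈ A ∧ πb f' ∈ A ∧ x (πa f') = (1, 0) ∧ x f' = (0, 1) ∧
        x (πb f') = (1, 1) ∧ (∀ v, (G.mp f).inc (πa f') v = (G.mp f).inc f' v) ∧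
        (∀ v, (G.mp f).inc (πb f') v = (G.mp f).inc f' v))
    (ha : ∀ f ∈ 𝒢, ∀ f' ∈ 𝒢, πa f = πa f' → f = f')
    (hb' : ∀ f ∈ 𝒢, ∀ f' ∈ 𝒢, πb f = πb f' → f = f')
    (hExc : ∀ v ∈ Exc, (∀ e ∈ A, (G.mp f).inc e v ≤ 1) ∧ ∃ f1 ∈ 𝒢, ∃ f2 ∈ 𝒢, f1 ≠ f2 ∧
        ∀ e ∈ A, ((G.mp f).inc e v ≠ 0 ↔ e ∈ ({πa f1, f1, πb f1, πa f2, f2, πb f2} : Finset E))) :
    ∃ x' : E → K4, G.Fl x' ∧ (∀ e ∈ A, x' e ≠ 0) ∧ ∃ 𝓜 : Finset (Finset E),
      𝓜 ⊆ Finset.univ.image (G.ce (Finset.univ \ M)) ∧ (∀ C ∈ 𝓜, C.card = 6 ∧ Ms x' C) ∧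
      (Exc.filter (fun y => ∀ u, f u = y → 4 < (G.ce (Finset.univ \ M) u).card)).card
        ≤ 6 * 𝓜.card := by
  obtain ⟨E6, hE6⟩ : ∃ E6 : Finset W, E6 =
    Exc.filter (fun y => ∀ u, f u = y → 4 < (G.ce (Finset.univ \ M) u).card) := ⟨_, rfl⟩
  have hl := SixE_loop G hc hb
  have hF : ∀ v, G.dg (Finset.univ \ M) v = 2 := by
    intro v
    have h := G.dg_sdiff M Finset.univ (Finset.subset_univ _) v
    rw [hc, hM] at h
    omega
  -- the data of a vertex
  have hdata : ∀ y : W, ∃ (u : V) (g0 g1 : E) (p : (Fin 2 × Fin 3) ≃ Fin 6), f u = y ∧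
      (y ∈ E6 → g0 ∈ 𝒢 ∧ g1 ∈ 𝒢 ∧ g0 ≠ g1 ∧ (G.ce (Finset.univ \ M) u).card = 6 ∧
        (∀ v, f v = y ↔ v ∈ G.cv (Finset.univ \ M) u) ∧
        ∀ x : E → K4, G.Fl x → mis6 (fun i => x (SixE_g πa πb g0 g1 (p.symm i))) →
          Ms x (G.ce (Finset.univ \ M) u)) := by
    intro y
    obtain ⟨u, hu⟩ := hsurj y
    by_cases hy : y ∈ E6
    · have hy' := hy
      rw [hE6, Finset.mem_filter] at hy'
      obtain ⟨hyE, hbig⟩ := hy'
      obtain ⟨hinc, f1, hf1, f2, hf2, hne, hsix⟩ := hExc y hyE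
      obtain ⟨a1, a2, a3, a4, a5, a6, -, -⟩ := h𝒢 f1 hf1
      obtain ⟨b1, b2, b3, b4, b5, b6, -, -⟩ := h𝒢 f2 hf2
      have hinj : Function.Injective (SixE_g πa πb f1 f2) := by
        refine SixE_inj x πa πb f1 f2 hne ?_ (fun h => hne (ha f1 hf1 f2 hf2 h))
          (fun h => hne (hb' f1 hf1 f2 hf2 h))
        intro c hcc
        simp only [List.mem_cons, List.not_mem_nil, or_false] at hcc
        rcases hcc with h | h
        · subst h
          exact ⟨a4, a5, a6⟩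
        · subst h
          exact ⟨b4, b5, b6⟩
      have hgA : ∀ q, SixE_g πa πb f1 f2 q ∈ A := by
        rintro ⟨i, j⟩
        fin_cases i <;> fin_cases j <;> simp [SixE_g, a1, a2, a3, b1, b2, b3]
      have hdg : (G.mp f).dg A y = 6 := by
        have h1 : (G.mp f).dg A y = ∑ e ∈ A, if e ∈ ({πa f1, f1, πb f1, πa f2, f2, πb f2} : Finset E)
            then 1 else 0 := by
          unfold dg
          refine Finset.sum_congr rfl fun e he => ?_
          have h2 := hinc e he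
          have h3 := hsix e he
          by_cases h4 : e ∈ ({πa f1, f1, πb f1, πa f2, f2, πb f2} : Finset E)
          · rw [if_pos h4]
            have h5 := h3.2 h4
            omega
          · rw [if_neg h4]
            by_contra h5
            exact h4 (h3.1 h5)
        have h2 : A.filter (fun e => e ∈ ({πa f1, f1, πb f1, πa f2, f2, πb f2} : Finset E)) =
            Finset.univ.image (SixE_g πa πb f1 f2) := by
          ext e
          rw [Finset.mem_filter, SixE_mem, Finset.mem_image]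
          constructor
          · rintro ⟨-, q, hq⟩
            exact ⟨q, Finset.mem_univ _, hq⟩
          · rintro ⟨q, -, hq⟩
            exact ⟨hq ▸ hgA q, q, hq⟩
        rw [h1, ← Finset.card_filter, h2, Finset.card_image_of_injective _ hinj]
        simp
      obtain ⟨hC, hcv, hMA'⟩ := (node G hc hb M A hM hAM hMA f hf hsurj y hbig).2 hdg u hu
      have hg : ∀ e ∈ M, (G.s e ∈ G.cv (Finset.univ \ M) u ∨ G.t e ∈ G.cv (Finset.univ \ M) u) →
          ∃ q, SixE_g πa πb f1 f2 q = e := by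
        intro e heM h
        rw [← hcv, ← hcv] at h
        have heA := hMA' e heM h
        rw [← SixE_mem, ← hsix e heA]
        unfold inc
        show (if f (G.s e) = y then 1 else 0) + (if f (G.t e) = y then 1 else 0) ≠ 0
        rcases h with h | h
        · rw [if_pos h]
          omega
        · rw [if_pos h]
          omega
      have hg1 : ∀ q, ¬ (G.s (SixE_g πa πb f1 f2 q) ∈ G.cv (Finset.univ \ M) u ∧
          G.t (SixE_g πa πb f1 f2 q) ∈ G.cv (Finset.univ \ M) u) := by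
        intro q h
        rw [← hcv, ← hcv] at h
        have h1 := hinc _ (hgA q)
        unfold inc at h1
        have h2 : (if (G.mp f).s (SixE_g πa πb f1 f2 q) = y then 1 else 0) = 1 := if_pos h.1
        have h3 : (if (G.mp f).t (SixE_g πa πb f1 f2 q) = y then 1 else 0) = 1 := if_pos h.2
        rw [h2, h3] at h1
        omega
      obtain ⟨p, hp⟩ := six_local G M hF hM hl u hC _ hinj hg (fun q => hAM (hgA q)) hg1
      exact ⟨u, f1, f2, p, hu, fun _ => ⟨hf1, hf2, hne, hC, hcv, hp⟩⟩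
    · obtain ⟨e0⟩ : Nonempty E := by
        by_contra hE
        rw [not_nonempty_iff] at hE
        have h := hc u
        unfold dg at h
        simp at h
      exact ⟨u, e0, e0, Fintype.equivOfCardEq (by simp), hu, fun h => absurd h hy⟩
  choose u g0 g1 p hu hy using hdata
  obtain ⟨Q, hQ⟩ : ∃ Q : W → Finset (Equiv.Perm (Fin 3) × Equiv.Perm (Fin 3)), Q = fun y =>
      Finset.univ.filter (fun q : Equiv.Perm (Fin 3) × Equiv.Perm (Fin 3) =>
      mis6 (fun i => if ((p y).symm i).1 = 0 then col (q.1 ((p y).symm i).2)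
        else col (q.2 ((p y).symm i).2))) := ⟨_, rfl⟩
  obtain ⟨σ, hσ⟩ := avg6 E6 g0 g1 (fun y h => (hy y h).2.2.1) Q (fun y _ => by
    rw [hQ]
    exact six_check (p y))
  obtain ⟨z, hz1, hz2, hz3⟩ := bundle_flow (G.mp f) A x hx hA 𝒢 πa πb h𝒢 ha hb' σ
  obtain ⟨x', hx1, hx2⟩ := Fl_lift G (Finset.univ \ A) f hf z hz1
  have hxA : ∀ e ∈ A, x' e = z e := fun e he => hx2 e (by simp [he])
  refine ⟨x', hx1, fun e he => by
    rw [hxA e he]
    exact hz2 e he, (E6.filter (fun y => (σ (g0 y), σ (g1 y)) ∈ Q y)).image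
      (fun y => G.ce (Finset.univ \ M) (u y)), ?_, ?_, ?_⟩
  · intro C hC
    rw [Finset.mem_image] at hC ⊢
    obtain ⟨y, -, h⟩ := hC
    exact ⟨u y, Finset.mem_univ _, h⟩
  · intro C hC
    rw [Finset.mem_image] at hC
    obtain ⟨y, h1, h2⟩ := hC
    rw [Finset.mem_filter] at h1
    obtain ⟨h3, h4⟩ := h1
    obtain ⟨c1, c2, c3, c4, c5, c6⟩ := hy y h3
    rw [← h2]
    refine ⟨c4, c6 x' hx1 ?_⟩
    rw [hQ, Finset.mem_filter] at h4
    have h5 : (fun i => x' (SixE_g πa πb (g0 y) (g1 y) ((p y).symm i))) = fun i =>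
        if ((p y).symm i).1 = 0 then col (σ (g0 y) ((p y).symm i).2)
        else col (σ (g1 y) ((p y).symm i).2) := by
      funext i
      obtain ⟨q, hq⟩ : ∃ q, q = (p y).symm i := ⟨_, rfl⟩
      rw [← hq]
      obtain ⟨i1, j1⟩ := q
      obtain ⟨d1, d2, d3⟩ := hz3 (g0 y) c1
      obtain ⟨d4, d5, d6⟩ := hz3 (g1 y) c2
      obtain ⟨m1, m2, m3, -⟩ := h𝒢 (g0 y) c1
      obtain ⟨m4, m5, m6, -⟩ := h𝒢 (g1 y) c2
      rw [← hxA _ m1] at d2
      rw [← hxA _ m2] at d1
      rw [← hxA _ m3] at d3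
      rw [← hxA _ m4] at d5
      rw [← hxA _ m5] at d4
      rw [← hxA _ m6] at d6
      fin_cases i1 <;> fin_cases j1 <;> simp [SixE_g, d1, d2, d3, d4, d5, d6]
    rw [h5]
    exact h4.2
  · rw [← hE6]
    refine hσ.trans (Nat.mul_le_mul_left 6 (le_of_eq ?_))
    rw [Finset.card_image_of_injOn]
    intro y h1 y' h2 h3
    rw [Finset.mem_coe, Finset.mem_filter] at h1 h2
    have h4 := ((ce_props G (Finset.univ \ M) hF).2.2.2 (u y) (u y')).2 h3
    rw [← mem_cv, ← (hy y h1.1).2.2.2.2.1] at h4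
    rw [hu] at h4
    exact h4.symm

end MG

end Pool.Agent.Lib.MP_95e9b3_coC
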